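import Pool.Agent.RH.StmtsU
import Pool.Agent.RN.SUB
import Pool.Agent.RN.CALC
import Pool.Agent.RN.QFC
import Pool.Agent.RN.FACTS
import Pool.Agent.RN.INST
import Pool.Agent.RN.NUM1
import Pool.Agent.RN.ORD
import Pool.Agent.RN.NUM2
import Pool.Agent.RN.NUM3
import Pool.Agent.RN.TERM
import Pool.Agent.RN.BALL
import Pool.Agent.RN.PC

/-!
# PADF, CONSPLUS, SIGMATRUE, SIGMAPROV
-/

set_option autoImplicit false

namespace Pool.Agent.RH

open Pool.Agent.RO
open Pool.Agent.H19 (T PolyTime PolyDec PolyN PolyB Tm scons bn bl vec3 vec4 tt envOf)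

namespace PADF

theorem tt_below (v : T) (k : ℕ) : (tt v).fvBelow k := by
  induction v with
  | leaf => exact trivial
  | node a b iha ihb => exact ⟨iha, ihb⟩

theorem proof_size (v : T) (φ : Fm) :
    (encProof (unpad v φ)).size ≤ 100 * (v.size + φ.enc.size + 1) := by
  have h := H19.tt_size v
  have h1 := T.size_pos v
  have h2 := T.size_pos φ.enc
  simp only [encProof, unpad, Step.enc, padF, Fm.enc, T.size, T.size_unary]
  omega

end PADF

open PADF in
theorem PADF_thm : PadF where
  polyUn := H19.uu_polyTime.comp PolyTime.id.right.left.right.left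
  poly := by
    have i := PolyTime.id
    exact (PolyTime.const _).node (((PolyTime.const _).node
      ((H19.tt_polyTime.comp i.left).node (H19.tt_polyTime.comp i.left))).node
      (normFm_polyTime.comp i.right))
  un := by
    intro v φ
    simp [unfalsum, padF, Fm.enc, H19.uu_tt]
  form := fun _ _ => rfl
  proof := by
    intro Th v φ h
    simp only [IsProof, unpad, Derives, Step.ok, Step.concl]
    refine ⟨h, trivial, ⟨?_, ?_⟩, rfl⟩
    · simp [padF]
    · simp
  size := proof_size
  sigma := by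
    intro v φ
    simp [padF, Fm.isSigma, Fm.isPi]
  below := by
    intro v φ k
    constructor
    · exact fun h => h.2
    · exact fun h => ⟨⟨tt_below v k, tt_below v k⟩, h⟩
  sat := by
    intro M A v φ w
    constructor
    · exact fun h => h rfl
    · exact fun h _ => h

theorem PADF.inst3_sat {M : Type} {A : Str M} {O : Om} (g : H19.Good A.toStr)
    (hd : A.Models (diag O)) {μ : Fm} (hμ : μ.bdd = true) (h3 : μ.fvBelow 3) (e x z : ℕ)
    (w : ℕ → M) : (inst3 μ e x z).sat A w ↔ μ.sat (stdN O) (vec3 e x z) := by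
  rw [← sat_iff_of_models g hd μ hμ]
  simp only [inst3, Fm.sat_inst, g.numeral]
  refine Fm.sat_congr_below A μ h3 fun i hi => ?_
  rcases i with _ | _ | _ | i
  · rfl
  · rfl
  · rfl
  · omega

theorem CONSPLUS_thm : Stmt_CONSPLUS := by
  intro μ O Th hμ h3 hS hD
  have key : ∀ (M : Type) (A : Str M), A.Models Th → A.Models (Th ∪ trueNeg μ O) := by
    intro M A hA φ hφ w
    rcases hφ with hφ | ⟨e, x, z, hn, rfl⟩
    · exact hA φ hφ w
    · have g : H19.Good A.toStr := good_of_models fun φ hφ v => hA φ (hS hφ) v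
      have hd : A.Models (diag O) := fun φ hφ v => hA φ (hD hφ) v
      rw [Fm.sat_neg, PADF.inst3_sat g hd ((Fm.bdd_of μ).1 hμ) h3]
      exact hn
  refine ⟨key, ?_⟩
  rintro ⟨M, A, hA⟩
  exact ⟨M, A, key M A hA⟩

theorem SIGMATRUE_thm : Stmt_SIGMATRUE := by
  intro O φ hb h0 hφ M A hS hd w
  have g : H19.Good A.toStr := good_of_models hS
  have h1 := (sat_iff_of_models g hd φ hb (fun _ => 0)).2 hφ
  exact (Fm.sat_congr_below A φ h0 (fun i hi => absurd hi (Nat.not_lt_zero i))).1 h1

theorem PADF.pc : RN.Stmt_PC :=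
  have sub : RN.Sub := RN.SUB_thm
  have calc' : RN.Calc := RN.CALC_thm sub
  have facts : RN.Stmt_FACTS := RN.FACTS_thm RN.QFC_thm
  have inst : RN.Stmt_INST := RN.INST_thm sub calc'
  have num1 : RN.Stmt_NUM1 := RN.NUM1_thm sub calc' inst facts
  have ord : RN.Stmt_ORD := RN.ORD_thm sub calc' inst facts num1
  have num2 : RN.Stmt_NUM2 := RN.NUM2_thm sub calc' inst facts num1
  have num3 : RN.Stmt_NUM3 := RN.NUM3_thm sub calc' inst facts num1
  have term : RN.Stmt_TERM := RN.TERM_thm sub calc' num1 num2 num3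
  have ball : RN.Stmt_BALL := RN.BALL_thm sub calc' inst facts num1
  RN.PC_thm sub calc' ord term ball

theorem SIGMAPROV_thm : Stmt_SIGMAPROV := by
  intro O Th φ hS hD hs h0 hφ
  obtain ⟨C, hC⟩ := PADF.pc
  have h1 := (hC O φ (fun _ => 0) 0 (fun _ => by simp)).1 hs hφ
  have hsub : RN.Sub := RN.SUB_thm
  rw [hsub.ofBelowF _ 0 φ h0] at h1
  obtain ⟨π, hπ, -, -⟩ := (RN.CALC_thm hsub).monoTh h1 (Set.union_subset hS hD)
  exact ⟨π, hπ⟩

end Pool.Agent.RH
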