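import Pool.Agent.RH.PDefs

/-!
# Module PUSH

The distribution of the image of a random function under a map of its values.
-/

namespace Pool.Agent.RH

theorem PUSH_thm : Stmt_PUSH := by
  intro I A C _ _ _ _ _ φ f
  classical
  rw [← Finset.sum_fiberwise (Finset.univ : Finset (I → A)) (fun h i => φ i (h i))
    (fun h => f (fun i => φ i (h i)))]
  refine Finset.sum_congr rfl fun k _ => ?_
  have h1 : ∑ h ∈ (Finset.univ : Finset (I → A)).filter (fun h => (fun i => φ i (h i)) = k),
      f (fun i => φ i (h i)) =
      ∑ h ∈ (Finset.univ : Finset (I → A)).filter (fun h => (fun i => φ i (h i)) = k), f k := by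
    refine Finset.sum_congr rfl fun h hh => ?_
    rw [(Finset.mem_filter.mp hh).2]
  rw [h1, Finset.sum_const, smul_eq_mul, mul_comm]
  congr 1
  rw [← Fintype.card_piFinset]
  congr 1
  ext h
  simp only [Finset.mem_filter, Finset.mem_univ, true_and, Fintype.mem_piFinset, funext_iff]

end Pool.Agent.RH
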