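import Pool.Agent.RH.PDefs

/-!
# Resampling the blocks of one target
-/

open Classical

namespace Pool.Agent.RH

namespace RESx

variable {N Y : ℕ} {B : Type}

/-- The value of the resampled configuration at one block. -/
noncomputable def ph (s : B) (x : Fin N) (i : Fin N × Fin Y) (a : B × {c : B // c ≠ s}) : B :=
  if i.1 = x ∧ a.1 = s then a.2.1 else a.1

/-- Functions to a product and pairs of configurations. -/
def eqv (N Y : ℕ) (B : Type) (s : B) :
    (Fin N × Fin Y → B × {c : B // c ≠ s}) ≃ Cfg N Y B × Cfg N Y {c : B // c ≠ s} where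
  toFun h := (fun x y => (h (x, y)).1, fun x y => (h (x, y)).2)
  invFun p := fun i => (p.1 i.1 i.2, p.2 i.1 i.2)
  left_inv h := by
    funext i
    rfl
  right_inv p := rfl

theorem res_eqv (s : B) (x : Fin N) (h : Fin N × Fin Y → B × {c : B // c ≠ s}) :
    res s {x} (eqv N Y B s h).1 (eqv N Y B s h).2 = fun x' y => ph s x (x', y) (h (x', y)) := by
  funext x' y
  unfold res ph
  simp only [Set.mem_singleton_iff]
  by_cases h1 : x' = x <;> by_cases h2 : (h (x', y)).1 = s <;> simp [eqv, h1, h2]

theorem card_fib [Fintype B] (s : B) (x : Fin N) (i : Fin N × Fin Y) (k : B) :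
    (Finset.univ.filter fun a : B × {c : B // c ≠ s} => ph s x i a = k).card =
      if i.1 = x then (if k = s then 0 else Fintype.card B) else Fintype.card B - 1 := by
  have hc : Fintype.card {c : B // c ≠ s} = Fintype.card B - 1 := by
    rw [Fintype.card_subtype_compl, Fintype.card_subtype_eq]
  by_cases hi : i.1 = x
  · rw [if_pos hi]
    by_cases hk : k = s
    · rw [if_pos hk, Finset.card_eq_zero, Finset.filter_eq_empty_iff]
      intro a _ ha
      unfold ph at ha
      by_cases h1 : a.1 = s
      · rw [if_pos ⟨hi, h1⟩, hk] at ha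
        exact a.2.2 ha
      · rw [if_neg (fun h => h1 h.2), hk] at ha
        exact h1 ha
    · rw [if_neg hk]
      rw [← Fintype.card_subtype]
      have e : {a : B × {c : B // c ≠ s} // ph s x i a = k} ≃ B :=
        { toFun := fun a => if a.1.1 = s then s else a.1.2.1
          invFun := fun b => if h : b = s then ⟨(s, ⟨k, hk⟩), by
              unfold ph
              rw [if_pos ⟨hi, rfl⟩]⟩
            else ⟨(k, ⟨b, h⟩), by
              unfold ph
              rw [if_neg (fun h => hk h.2)]⟩
          left_inv := by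
            rintro ⟨⟨a, c⟩, ha⟩
            unfold ph at ha
            by_cases h1 : a = s
            · subst h1
              simp only [hi, and_self, if_true] at ha
              simp only [if_true, dite_true]
              apply Subtype.ext
              refine Prod.ext rfl (Subtype.ext ?_)
              exact ha.symm
            · have h2 : ¬ (i.1 = x ∧ a = s) := fun h => h1 h.2
              simp only [h2, if_false] at ha
              have h3 : (c.1 : B) ≠ s := c.2
              simp only [h1, if_false, h3, dite_false]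
              apply Subtype.ext
              refine Prod.ext ha.symm (Subtype.ext rfl)
          right_inv := by
            intro b
            by_cases h : b = s
            · simp [h]
            · simp [h, hk] }
      exact Fintype.card_congr e
  · rw [if_neg hi]
    rw [← hc, ← Fintype.card_subtype]
    have e : {a : B × {c : B // c ≠ s} // ph s x i a = k} ≃ {c : B // c ≠ s} :=
      { toFun := fun a => a.1.2
        invFun := fun c => ⟨(k, c), by
          unfold ph
          rw [if_neg (fun h => hi h.1)]⟩
        left_inv := by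
          rintro ⟨⟨a, c⟩, ha⟩
          unfold ph at ha
          rw [if_neg (fun h => hi h.1)] at ha
          apply Subtype.ext
          exact Prod.ext ha.symm rfl
        right_inv := fun c => rfl }
    exact Fintype.card_congr e

theorem prod_fib [Fintype B] (s : B) (x : Fin N) (k : Fin N × Fin Y → B) :
    ∏ i : Fin N × Fin Y, (Finset.univ.filter fun a : B × {c : B // c ≠ s} =>
        ph s x i a = k i).card =
      if (∀ y, k (x, y) ≠ s) then Fintype.card B ^ Y * (Fintype.card B - 1) ^ ((N - 1) * Y)
      else 0 := by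
  simp only [card_fib]
  rw [Fintype.prod_prod_type]
  by_cases hk : ∀ y, k (x, y) ≠ s
  · rw [if_pos hk]
    rw [← Finset.mul_prod_erase Finset.univ _ (Finset.mem_univ x)]
    have h1 : ∏ y : Fin Y, (if ((x, y) : Fin N × Fin Y).1 = x then
        (if k (x, y) = s then 0 else Fintype.card B) else Fintype.card B - 1) =
        Fintype.card B ^ Y := by
      rw [Finset.prod_congr rfl (g := fun _ => Fintype.card B)]
      · simp
      · intro y _
        rw [if_pos rfl, if_neg (hk y)]
    have h2 : ∏ x' ∈ Finset.univ.erase x, ∏ y : Fin Y, (if ((x', y) : Fin N × Fin Y).1 = x then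
        (if k (x', y) = s then 0 else Fintype.card B) else Fintype.card B - 1) =
        (Fintype.card B - 1) ^ ((N - 1) * Y) := by
      rw [Finset.prod_congr rfl (g := fun _ => (Fintype.card B - 1) ^ Y)]
      · rw [Finset.prod_const, Finset.card_erase_of_mem (Finset.mem_univ x), Finset.card_univ,
          Fintype.card_fin, ← pow_mul, mul_comm]
      · intro x' hx'
        rw [Finset.prod_congr rfl (g := fun _ => Fintype.card B - 1)]
        · simp
        · intro y _
          rw [if_neg (Finset.ne_of_mem_erase hx')]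
    rw [h1, h2]
  · rw [if_neg hk]
    push Not at hk
    obtain ⟨y, hy⟩ := hk
    refine Finset.prod_eq_zero (Finset.mem_univ x) ?_
    refine Finset.prod_eq_zero (Finset.mem_univ y) ?_
    rw [if_pos rfl, if_pos hy]

/-- Functions on the product and configurations. -/
def eqv2 (N Y : ℕ) (B : Type) : (Fin N × Fin Y → B) ≃ Cfg N Y B where
  toFun k := fun x y => k (x, y)
  invFun h := fun i => h i.1 i.2
  left_inv k := by
    funext i
    rfl
  right_inv p := rfl

/-- The number of pairs whose resampling lies in `E`. -/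
theorem card_pairs (h : Stmt_PUSH) [Fintype B] (s : B) (x : Fin N) (E : Set (Cfg N Y B)) :
    Nat.card {p : Cfg N Y B × Cfg N Y {c : B // c ≠ s} // res s {x} p.1 p.2 ∈ E} =
      Nat.card {h : Cfg N Y B // h ∈ E ∧ h ∈ dead s x} *
        (Fintype.card B ^ Y * (Fintype.card B - 1) ^ ((N - 1) * Y)) := by
  have h0 := h (Fin N × Fin Y) (B × {c : B // c ≠ s}) B (ph s x)
    (fun k => if eqv2 N Y B k ∈ E then 1 else 0)
  have hL : ∑ h : Fin N × Fin Y → B × {c : B // c ≠ s},
      (if eqv2 N Y B (fun i => ph s x i (h i)) ∈ E then 1 else 0) =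
      Nat.card {p : Cfg N Y B × Cfg N Y {c : B // c ≠ s} // res s {x} p.1 p.2 ∈ E} := by
    rw [Nat.card_eq_fintype_card, Fintype.card_subtype, Finset.card_filter]
    refine Fintype.sum_equiv (eqv N Y B s) _ _ fun h => ?_
    rw [res_eqv]
    rfl
  have hR : ∑ k : Fin N × Fin Y → B, (if eqv2 N Y B k ∈ E then 1 else 0) *
      ∏ i, (Finset.univ.filter fun a => ph s x i a = k i).card =
      Nat.card {h : Cfg N Y B // h ∈ E ∧ h ∈ dead s x} *
        (Fintype.card B ^ Y * (Fintype.card B - 1) ^ ((N - 1) * Y)) := by
    rw [Nat.card_eq_fintype_card, Fintype.card_subtype, Finset.card_filter, Finset.sum_mul]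
    refine Fintype.sum_equiv (eqv2 N Y B) _ _ fun k => ?_
    rw [prod_fib]
    have hd : (∀ y, k (x, y) ≠ s) ↔ eqv2 N Y B k ∈ dead s x := Iff.rfl
    by_cases h1 : eqv2 N Y B k ∈ E
    · by_cases h2 : ∀ y, k (x, y) ≠ s
      · have e1 : eqv2 N Y B k ∈ E ∧ eqv2 N Y B k ∈ dead s x := ⟨h1, hd.mp h2⟩
        rw [if_pos h1, if_pos h2, if_pos e1]
      · have e1 : ¬ (eqv2 N Y B k ∈ E ∧ eqv2 N Y B k ∈ dead s x) :=
          fun h3 => h2 (hd.mpr h3.2)
        rw [if_pos h1, if_neg h2, if_neg e1, mul_zero, zero_mul]
    · have e1 : ¬ (eqv2 N Y B k ∈ E ∧ eqv2 N Y B k ∈ dead s x) := fun h3 => h1 h3.1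
      rw [if_neg h1, if_neg e1, zero_mul, zero_mul]
  rw [← hL, ← hR]
  exact h0

end RESx

open RESx

theorem RES_thm (h : Stmt_PUSH) : Stmt_RES := by
  intro N Y B _ s x E hB
  rw [card_pairs h s x E]
  have hG : Nat.card (Cfg N Y {c : B // c ≠ s}) = (Fintype.card B - 1) ^ (N * Y) := by
    rw [Nat.card_eq_fintype_card]
    unfold Cfg
    rw [Fintype.card_fun, Fintype.card_fun, Fintype.card_fin, Fintype.card_fin,
      Fintype.card_subtype_compl, Fintype.card_subtype_eq, ← pow_mul, mul_comm Y N]
  rw [hG]
  have hN : 1 ≤ N := by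
    have := x.2
    omega
  have hNY : N * Y = Y + (N - 1) * Y := by
    obtain ⟨M, rfl⟩ : ∃ M, N = M + 1 := ⟨N - 1, by omega⟩
    simp only [Nat.add_sub_cancel]
    ring
  have hb : (0 : ℝ) < Fintype.card B := by
    have : 0 < Fintype.card B := by omega
    exact_mod_cast this
  have hb1 : ((Fintype.card B - 1 : ℕ) : ℝ) = (Fintype.card B : ℝ) - 1 := by
    rw [Nat.cast_sub (by omega), Nat.cast_one]
  have h1 : (1 - 1 / (Fintype.card B : ℝ)) ^ Y * (Fintype.card B : ℝ) ^ Y =
      ((Fintype.card B : ℝ) - 1) ^ Y := by
    rw [← mul_pow]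
    congr 1
    field_simp
  rw [hNY, pow_add]
  push_cast [hb1]
  rw [← h1]
  ring

end Pool.Agent.RH
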