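import Pool.Agent.RH.Cst
import Pool.Agent.RO.LOCAL

/-!
# LOCAL: the structure of the acceptance events
-/

namespace Pool.Agent.RH

open Pool.Agent.H19 (T PolyTime PolyDec PolyNat PolyN Tm scons bn bl ofBool encL tif envOf)
open Pool.Agent.RO

namespace LOCAL

/-! ### The numbers of trees are different -/

/-- The digits that describe a tree. -/
def bits : T → List Bool
  | T.leaf => [false]
  | T.node l r => true :: (bits l ++ bits r)

/-- Append a digit. -/
def stp (a : ℕ) (b : Bool) : ℕ := 2 * a + if b then 1 else 0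

theorem gn_eq (x : T) : ∀ n, T.gn x n = (bits x).foldl stp n := by
  induction x with
  | leaf => intro n; simp [T.gn, bits, stp]
  | node l r ihl ihr =>
    intro n
    simp only [T.gn, bits, List.foldl_cons, List.foldl_append, ihl, ihr, stp, if_true]

theorem bits_pref (x : T) : ∀ (y : T) (s s' : List Bool), bits x ++ s = bits y ++ s' →
    x = y ∧ s = s' := by
  induction x with
  | leaf =>
    intro y s s' h
    cases y with
    | leaf =>
      simp only [bits, List.cons_append, List.nil_append, List.cons.injEq, true_and] at h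
      exact ⟨rfl, h⟩
    | node a b => simp [bits] at h
  | node l r ihl ihr =>
    intro y s s' h
    cases y with
    | leaf => simp [bits] at h
    | node a b =>
      simp only [bits, List.cons_append, List.append_assoc, List.cons.injEq, true_and] at h
      obtain ⟨h1, h2⟩ := ihl a _ _ h
      obtain ⟨h3, h4⟩ := ihr b _ _ h2
      exact ⟨by rw [h1, h3], h4⟩

theorem one_le_fold (l : List Bool) : 1 ≤ l.foldl stp 1 := by
  induction l using List.reverseRecOn with
  | nil => simp
  | append_singleton l b ih =>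
    rw [List.foldl_append]
    simp only [List.foldl_cons, List.foldl_nil, stp]
    omega

theorem fold_inj (l : List Bool) : ∀ l' : List Bool, l.foldl stp 1 = l'.foldl stp 1 →
    l = l' := by
  induction l using List.reverseRecOn with
  | nil =>
    intro l' h
    rcases List.eq_nil_or_concat l' with rfl | ⟨a, b, rfl⟩
    · rfl
    · exfalso
      rw [List.concat_eq_append, List.foldl_append] at h
      simp only [List.foldl_cons, List.foldl_nil, stp] at h
      have := one_le_fold a
      omega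
  | append_singleton l b ih =>
    intro l' h
    rcases List.eq_nil_or_concat l' with rfl | ⟨a, c, rfl⟩
    · exfalso
      rw [List.foldl_append] at h
      simp only [List.foldl_cons, List.foldl_nil, stp] at h
      have := one_le_fold l
      omega
    · rw [List.concat_eq_append] at h ⊢
      rw [List.foldl_append, List.foldl_append] at h
      simp only [List.foldl_cons, List.foldl_nil, stp] at h
      have hbc : b = c := by
        cases b <;> cases c <;> first | rfl | (exfalso; simp at h; omega)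
      subst hbc
      have h1 : l.foldl stp 1 = a.foldl stp 1 := by
        cases b <;> simp at h <;> omega
      rw [ih a h1]

theorem num_inj {x y : T} (h : x.num = y.num) : x = y := by
  rw [T.num, T.num, gn_eq, gn_eq] at h
  have h1 := fold_inj _ _ h
  have h2 : bits x ++ [] = bits y ++ [] := by rw [h1]
  exact (bits_pref x y [] [] h2).1

/-! ### Arithmetic -/

theorem arithP (k e M L : ℕ) (he : 16 * (k + 2) ≤ e) (hM : 100 * e ≤ M) (hL : 1 ≤ L)
    (hLM : L ≤ 2 ^ (M / e)) :
    L * ((30 * L + 2) ^ k + 30 * L) ≤ 2 ^ (M / 4) := by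
  have h1 : (30 * L + 2) ^ k + 30 * L ≤ 2 * (32 * L) ^ (k + 1) := by
    have h2 : (30 * L + 2) ^ k ≤ (32 * L) ^ (k + 1) :=
      (Nat.pow_le_pow_left (by omega) k).trans (Nat.pow_le_pow_right (by omega) (by omega))
    have h3 : 30 * L ≤ (32 * L) ^ (k + 1) := by
      calc 30 * L ≤ (32 * L) ^ 1 := by rw [pow_one]; omega
        _ ≤ _ := Nat.pow_le_pow_right (by omega) (by omega)
    omega
  have h2 : L * ((30 * L + 2) ^ k + 30 * L) ≤ (32 * L) ^ (k + 2) := by
    calc L * ((30 * L + 2) ^ k + 30 * L) ≤ L * (2 * (32 * L) ^ (k + 1)) := by gcongr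
      _ = (2 * L) * (32 * L) ^ (k + 1) := by ring
      _ ≤ (32 * L) * (32 * L) ^ (k + 1) := by gcongr; omega
      _ = (32 * L) ^ (k + 2) := by ring
  refine h2.trans ?_
  have h3 : 32 * L ≤ 2 ^ (5 + M / e) := by
    rw [pow_add]
    calc 32 * L ≤ 32 * 2 ^ (M / e) := by gcongr
      _ = _ := by norm_num
  calc (32 * L) ^ (k + 2) ≤ (2 ^ (5 + M / e)) ^ (k + 2) := Nat.pow_le_pow_left h3 _
    _ = 2 ^ ((5 + M / e) * (k + 2)) := by rw [← pow_mul]
    _ ≤ 2 ^ (M / 4) := by
        apply Nat.pow_le_pow_right (by norm_num)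
        have h5 : M / e * e ≤ M := Nat.div_mul_le_self _ _
        have h6 : 16 * (M / e * (k + 2)) ≤ M := by
          calc 16 * (M / e * (k + 2)) = M / e * (16 * (k + 2)) := by ring
            _ ≤ M / e * e := Nat.mul_le_mul_left _ he
            _ ≤ M := h5
        have h7 : (5 + M / e) * (k + 2) = 5 * (k + 2) + M / e * (k + 2) := by ring
        rw [h7]
        omega

theorem arithN (G e M L : ℕ) (he : 16 * (G + 2) ≤ e) (hM : 100 * e ≤ M) (hL : 1 ≤ L)
    (hLM : L ≤ 2 ^ (M / e)) : (L + 2) ^ G ≤ 2 ^ (M / 4) := by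
  refine le_trans ?_ (arithP G e M L he hM hL hLM)
  calc (L + 2) ^ G ≤ (30 * L + 2) ^ G := Nat.pow_le_pow_left (by omega) _
    _ ≤ (30 * L + 2) ^ G + 30 * L := Nat.le_add_right _ _
    _ = 1 * ((30 * L + 2) ^ G + 30 * L) := (one_mul _).symm
    _ ≤ L * ((30 * L + 2) ^ G + 30 * L) := by gcongr

/-! ### Positions -/

theorem posH_size (M x y i : ℕ) : 6 * M < (posH M x y i).size := by
  rw [Nat.lt_size]
  unfold posH
  omega

/-- From bits of the joined oracle to bits of `R` outside the later windows. -/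
theorem locAt_of (p : Par) (d k : ℕ) (E : Set Om) (R : Om) (Q : Finset ℕ) (hc : Q.card ≤ k)
    (hs : ∀ n ∈ Q, n.size ≤ 2 ^ p.m d)
    (h : ∀ R' : Om, (∀ n ∈ Q, join p.A R' n = join p.A R n) → R' ∈ E) :
    LocAt p.m p.β d k E R := by
  classical
  refine ⟨(Q.filter fun n => n % 2 = 1).image (· / 2), ?_, ?_, ?_⟩
  · exact Finset.card_image_le.trans ((Finset.card_filter_le _ _).trans hc)
  · intro n hn d' hd' hW
    rw [Finset.mem_image] at hn
    obtain ⟨n', hn', rfl⟩ := hn
    rw [Finset.mem_filter] at hn'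
    obtain ⟨x, _, y, _, i, _, hxi⟩ := hW
    have h1 := posH_size (p.m d') x y i
    have h2 : n' / 2 = posH (p.m d') x y i := hxi
    rw [← h2] at h1
    have h3 : (n' / 2).size ≤ n'.size := Nat.size_le_size (Nat.div_le_self _ _)
    have h4 := hs n' hn'.1
    have h5 : 2 ^ p.m d ≤ p.m d' := RO.LOCAL.two_pow_tow_le (by omega)
    omega
  · intro R' hR'
    refine h R' ?_
    intro n hn
    unfold join
    split_ifs with h
    · rfl
    · exact hR' (n / 2) (Finset.mem_image.2 ⟨n, Finset.mem_filter.2 ⟨hn, by omega⟩, rfl⟩)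

/-- The positive part of the acceptance event. -/
def PP (p : Par) (q : T) (d i : ℕ) : Set Om :=
  {R | ∃ E : T, E.num = i ∧ E.size ≤ 2 ^ (p.m d / p.e) ∧
    IsProof Set.univ (decProof E.left) (p.snt q (p.m d)) ∧
    ∀ ψ ∈ hyps (decProof E.left), ψ ∈ p.S (join p.A R) ∨ ψ ∈ p.negs1 E}

/-- The negative part of the acceptance event. -/
def NN (p : Par) (d i : ℕ) : Set Om :=
  {R | ∀ E : T, E.num = i → E.size ≤ 2 ^ (p.m d / p.e) →
    ∀ t ∈ E.right.toL, ¬ p.μ.sat (stdN (join p.A R)) (envOf t)}

theorem m_big (p : Par) (hp : p.Good) (d : ℕ) : 100 * p.e ≤ p.m d :=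
  hp.s0_big.trans (RO.LOCAL.tow_mono.monotone (Nat.le_add_right _ _))

theorem num_lt (p : Par) (hp : p.Good) (d : ℕ) (E : T) (hE : E.size ≤ 2 ^ (p.m d / p.e)) :
    E.num < 2 ^ 2 ^ (p.m d / 4) := by
  have h1 : E.num < 2 ^ E.num.size := Nat.lt_size_self _
  rw [H19.T.num_size] at h1
  refine lt_of_lt_of_le h1 (Nat.pow_le_pow_right (by norm_num) ?_)
  have h2 := m_big p hp d
  have h3 := hp.e_S
  have h4 : p.m d / p.e + 1 ≤ p.m d / 4 := by
    have h5 : p.m d / p.e ≤ p.m d / 32 := Nat.div_le_div_left (by omega) (by norm_num)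
    omega
  calc E.size + 1 ≤ 2 ^ (p.m d / p.e) + 2 ^ (p.m d / p.e) := by
        have := Nat.one_le_two_pow (n := p.m d / p.e)
        omega
    _ = 2 ^ (p.m d / p.e + 1) := by rw [pow_succ]; ring
    _ ≤ 2 ^ (p.m d / 4) := Nat.pow_le_pow_right (by norm_num) h4

end LOCAL

open LOCAL in
theorem LOCAL_thm : Stmt_LOCAL := by
  intro p hp q d
  have hM := m_big p hp d
  refine ⟨2 ^ 2 ^ (p.m d / 4), PP p q d, NN p d, le_rfl, ?_, ?_, ?_⟩
  · ext R
    constructor
    · rintro ⟨E, hE, h1, h2, h3⟩
      refine ⟨E.num, num_lt p hp d E hE, ⟨E, rfl, hE, h1, h2⟩, ?_⟩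
      intro E' hE' _ t ht
      rw [num_inj hE'] at ht
      exact h3 t ht
    · rintro ⟨i, _, ⟨E, hEi, hE, h1, h2⟩, hN⟩
      exact ⟨E, hE, h1, h2, hN E hEi hE⟩
  · intro i _ R hR
    obtain ⟨E, hEi, hE, h1, h2⟩ := hR
    classical
    have hL := H19.T.size_pos E
    have hleft : E.left.size ≤ E.size := by
      cases E with
      | leaf => exact le_rfl
      | node a b => simp only [T.left_node, T.size]; omega
    have hbound : ∀ φ ∈ (hyps (decProof E.left)).filter (fun ψ => ψ ∉ p.negs1 E),
        (φ.enc.size + 2) ^ p.kS + φ.enc.size ≤ (30 * E.size + 2) ^ p.kS + 30 * E.size := by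
      intro φ hφ
      have h3 := RO.LOCAL.hyps_size E.left φ (List.mem_of_mem_filter hφ)
      have h4 : φ.enc.size ≤ 30 * E.size := by omega
      gcongr
    have hmem : ∀ φ ∈ (hyps (decProof E.left)).filter (fun ψ => ψ ∉ p.negs1 E),
        φ ∈ theory (join p.A R) p.cS p.kS := by
      intro φ hφ
      rw [List.mem_filter] at hφ
      rcases h2 φ hφ.1 with h | h
      · exact h
      · exact absurd h (by simpa using hφ.2)
    obtain ⟨Q, hQ1, hQ2, hQ3⟩ := RO.LOCAL.list_loc EVLOC_thm (join p.A R) p.cS p.kS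
      ((30 * E.size + 2) ^ p.kS + 30 * E.size)
      ((hyps (decProof E.left)).filter (fun ψ => ψ ∉ p.negs1 E)) hmem hbound
    have harith := arithP p.kS p.e (p.m d) E.size hp.e_S hM hL hE
    have hlen : ((hyps (decProof E.left)).filter (fun ψ => ψ ∉ p.negs1 E)).length ≤
        E.size := by
      refine (List.length_filter_le _ _).trans ((RO.LOCAL.hyps_length _).trans ?_)
      unfold decProof
      rw [List.length_map]
      exact (RO.LOCAL.toL_length _).trans hleft
    have h14 : 2 ^ (p.m d / 4) ≤ 2 ^ p.m d :=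
      Nat.pow_le_pow_right (by norm_num) (Nat.div_le_self _ _)
    have hBM : (30 * E.size + 2) ^ p.kS + 30 * E.size ≤ 2 ^ p.m d := by
      refine le_trans ?_ (harith.trans h14)
      calc (30 * E.size + 2) ^ p.kS + 30 * E.size
          = 1 * ((30 * E.size + 2) ^ p.kS + 30 * E.size) := (one_mul _).symm
        _ ≤ E.size * ((30 * E.size + 2) ^ p.kS + 30 * E.size) := by gcongr
    refine locAt_of p d _ _ R Q ?_ (fun n hn => (hQ2 n hn).trans hBM) ?_
    · refine le_trans hQ1 (le_trans ?_ harith)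
      gcongr
    · intro R' hR'
      refine ⟨E, hEi, hE, h1, ?_⟩
      intro ψ hψ
      by_cases hn : ψ ∈ p.negs1 E
      · exact Or.inr hn
      · left
        exact hQ3 (join p.A R') hR' ψ (List.mem_filter.mpr ⟨hψ, by simpa using hn⟩)
  · intro i _ R hR
    have hR' : ∃ E : T, E.num = i ∧ E.size ≤ 2 ^ (p.m d / p.e) ∧
        ∃ t ∈ E.right.toL, p.μ.sat (stdN (join p.A R)) (envOf t) := by
      by_contra hcon
      push Not at hcon
      exact hR fun E h1 h2 t ht => hcon E h1 h2 t ht
    obtain ⟨E, hEi, hE, t, ht, hsat⟩ := hR'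
    have hL := H19.T.size_pos E
    have hright : E.right.size ≤ E.size := H19.T.size_right_le E
    have hts : t.size ≤ E.size := (RO.LOCAL.toL_size _ _ ht).trans hright
    obtain ⟨Q, hQ1, hQ2, hQ3⟩ := hp.wloc (join p.A R) t hsat
    have harith := arithN p.G p.e (p.m d) E.size hp.e_G hM hL hE
    have hb : (t.size + 2) ^ p.G ≤ 2 ^ (p.m d / 4) :=
      (Nat.pow_le_pow_left (by omega) _).trans harith
    have h14 : 2 ^ (p.m d / 4) ≤ 2 ^ p.m d :=
      Nat.pow_le_pow_right (by norm_num) (Nat.div_le_self _ _)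
    refine locAt_of p d _ _ R Q (hQ1.trans hb) (fun n hn => ((hQ2 n hn).trans hb).trans h14) ?_
    intro R' hR' hN
    exact hN E hEi hE t ht (hQ3 (join p.A R') hR')

end Pool.Agent.RH
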