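import Pool.Agent.RH.PDefs

/-!
# BAD: configurations with many bad resamplings, from BADA and BADB
-/

namespace Pool.Agent.RH

open Classical in
theorem BAD_thm (h1 : Stmt_BADA) (h2 : Stmt_BADB) : Stmt_BAD := by
  intro N Y B _ s w hw hB E hE
  set G : Type := Cfg N Y {c : B // c ≠ s} with hG
  set T : Finset (Cfg N Y B) := Finset.univ.filter fun h => h ∈ E ∧
    N * Nat.card G < 4 * Nat.card {p : Fin N × G // res s {p.1} h p.2 ∉ E} with hT
  have hcard : Nat.card {h : Cfg N Y B // h ∈ E ∧ N * Nat.card G <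
      4 * Nat.card {p : Fin N × G // res s {p.1} h p.2 ∉ E}} = T.card := by
    rw [Nat.card_eq_fintype_card, Fintype.card_subtype, hT]
  rw [hcard, Nat.card_eq_fintype_card]
  have hGpos : 0 < Fintype.card G := by
    have : Nonempty {c : B // c ≠ s} := by
      have h3 : 1 < Fintype.card B := by omega
      obtain ⟨c, hc⟩ := Fintype.exists_ne_of_one_lt_card h3 s
      exact ⟨⟨c, hc⟩⟩
    exact Fintype.card_pos_iff.2 ⟨fun _ _ => Classical.arbitrary _⟩
  have key : T.card * 2 ^ (N / (32 * w)) * ((4 * w) ^ N * Fintype.card G) ≤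
      Fintype.card (Cfg N Y B) * ((4 * w) ^ N * Fintype.card G) := by
    calc T.card * 2 ^ (N / (32 * w)) * ((4 * w) ^ N * Fintype.card G)
        = ∑ _h ∈ T, (4 * w) ^ N * Fintype.card G * 2 ^ (N / (32 * w)) := by
          rw [Finset.sum_const, smul_eq_mul]
          ring
      _ ≤ ∑ h ∈ T, ∑ σ : Fin N → Fin (4 * w), ∑ g : G,
            2 ^ zz s w E {x | (σ x : ℕ) = 0} h g := by
          refine Finset.sum_le_sum fun h hh => ?_
          rw [hT, Finset.mem_filter] at hh
          refine h2 N Y B s w hw E hE h ?_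
          have h4 := hh.2.2
          rw [Nat.card_eq_fintype_card, Nat.card_eq_fintype_card] at h4
          exact h4
      _ = ∑ h ∈ T, ∑ σ : Fin N → Fin (4 * w), ∑ g : G,
            (if h ∈ E then 2 ^ zz s w E {x | (σ x : ℕ) = 0} h g else 0) := by
          refine Finset.sum_congr rfl fun h hh => ?_
          rw [hT, Finset.mem_filter] at hh
          simp only [if_pos hh.2.1]
      _ ≤ ∑ h : Cfg N Y B, ∑ σ : Fin N → Fin (4 * w), ∑ g : G,
            (if h ∈ E then 2 ^ zz s w E {x | (σ x : ℕ) = 0} h g else 0) :=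
          Finset.sum_le_sum_of_subset (Finset.subset_univ T)
      _ = ∑ σ : Fin N → Fin (4 * w), ∑ h : Cfg N Y B, ∑ g : G,
            (if h ∈ E then 2 ^ zz s w E {x | (σ x : ℕ) = 0} h g else 0) := Finset.sum_comm
      _ ≤ ∑ _σ : Fin N → Fin (4 * w), Fintype.card (Cfg N Y B) * Fintype.card G := by
          refine Finset.sum_le_sum fun σ _ => ?_
          have h3 := h1 N Y B s w hw hB E {x | (σ x : ℕ) = 0}
          rw [Fintype.sum_prod_type] at h3
          exact h3
      _ = Fintype.card (Cfg N Y B) * ((4 * w) ^ N * Fintype.card G) := by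
          rw [Finset.sum_const, smul_eq_mul, Finset.card_univ, Fintype.card_fun, Fintype.card_fin,
            Fintype.card_fin]
          ring
  have hpos : 0 < (4 * w) ^ N * Fintype.card G := by positivity
  exact Nat.le_of_mul_le_mul_right key hpos

end Pool.Agent.RH
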