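import Pool.Agent.RH.PDefs

/-!
# BADA: for a fixed set of targets the number `zz` is small on the average
-/

namespace Pool.Agent.RH

open Classical in
/-- The configuration before the resampling, from the values `k` after it and the set `μ` of the
replaced blocks. -/
noncomputable def BADA_h {N Y : ℕ} {B : Type} (s : B) (k : Fin N × Fin Y → B)
    (μ : Finset (Fin N × Fin Y)) : Cfg N Y B :=
  fun x y => if (x, y) ∈ μ then s else k (x, y)

open Classical in
/-- The configuration in which only the target `x` is resampled. -/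
noncomputable def BADA_r {N Y : ℕ} {B : Type} (s : B) (k : Fin N × Fin Y → B)
    (μ : Finset (Fin N × Fin Y)) (x : Fin N) : Cfg N Y B :=
  fun x' y => if x' = x then k (x', y) else BADA_h s k μ x' y

/-- The targets counted by `zz`, in terms of `k` and `μ`. -/
def BADA_P {N Y : ℕ} {B : Type} (s : B) (w : ℕ) (E : Set (Cfg N Y B))
    (S : Set (Fin N)) (k : Fin N × Fin Y → B) (μ : Finset (Fin N × Fin Y)) (x : Fin N) : Prop :=
  x ∈ S ∧ ∃ Q : Finset (Fin N × Fin Y), Q.card ≤ w ∧
    (∀ h' : Cfg N Y B, (∀ p ∈ Q, h' p.1 p.2 = BADA_r s k μ x p.1 p.2) → h' ∉ E) ∧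
    ∀ p ∈ Q, p.1 ∈ S → p.1 = x

/-- The number `zz` as a function of `k` and `μ`. -/
noncomputable def BADA_n {N Y : ℕ} {B : Type} (s : B) (w : ℕ) (E : Set (Cfg N Y B))
    (S : Set (Fin N)) (k : Fin N × Fin Y → B) (μ : Finset (Fin N × Fin Y)) : ℕ :=
  Set.ncard {x | BADA_P s w E S k μ x}

theorem BADA_card {α : Type} [Fintype α] (p : α → Prop) [inst : DecidablePred p] :
    (@Finset.filter α p inst Finset.univ).card = Set.ncard {x | p x} := by
  rw [← Set.ncard_coe_finset]
  congr 1
  ext x
  simp

/-- The family of small sets to be hit. -/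
def BADA_F {N Y : ℕ} {B : Type} (w : ℕ) (E : Set (Cfg N Y B))
    (U : Finset (Fin N × Fin Y)) (k : Fin N × Fin Y → B) : Set (Finset (Fin N × Fin Y)) :=
  {C | ∃ Q : Finset (Fin N × Fin Y), Q.card ≤ w ∧
    (∀ h' : Cfg N Y B, (∀ p ∈ Q, h' p.1 p.2 = k p) → h' ∉ E) ∧ C = Q ∩ U}

open Classical in
/-- HIT for an arbitrary decidability instance. -/
theorem BADA_hit (h2 : Stmt_HIT) (I : Type) [inst : DecidableEq I] (b w : ℕ) (hw : 1 ≤ w)
    (hb : 8 * w ≤ b) (U : Finset I) (F : Set (Finset I)) (hF : ∀ C ∈ F, C ⊆ U ∧ C.card ≤ w)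
    (N : Finset I → ℕ)
    (hN : ∀ μ ⊆ U, ∀ D ⊆ μ, (∀ C ∈ F, (C ∩ D).Nonempty) → N μ ≤ D.card) :
    ∑ μ ∈ U.powerset.filter (fun μ => ∀ C ∈ F, (C ∩ μ).Nonempty),
      (b - 1) ^ (U \ μ).card * 2 ^ N μ ≤ b ^ U.card := by
  obtain rfl : inst = (fun a b => Classical.propDecidable (a = b)) := Subsingleton.elim _ _
  exact h2 I b w hw hb U F hF N hN

open Classical in
/-- The sum over the sets of replaced blocks. -/
theorem BADA_inner (h2 : Stmt_HIT) {N Y : ℕ} {B : Type} [Fintype B] (s : B) (w : ℕ) (hw : 1 ≤ w)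
    (hb : 8 * w ≤ Fintype.card B) (E : Set (Cfg N Y B)) (S : Set (Fin N))
    (k : Fin N × Fin Y → B) (U : Finset (Fin N × Fin Y)) (hU : ∀ p, p ∈ U ↔ p.1 ∈ S) :
    ∑ μ ∈ U.powerset, (if BADA_h s k μ ∈ E then 2 ^ BADA_n s w E S k μ else 0) *
      (Fintype.card B - 1) ^ (U \ μ).card ≤ Fintype.card B ^ U.card := by
  have hF : ∀ C ∈ BADA_F w E U k, C ⊆ U ∧ C.card ≤ w := by
    rintro C ⟨Q, hQ, -, rfl⟩
    exact ⟨Finset.inter_subset_right, (Finset.card_le_card Finset.inter_subset_left).trans hQ⟩
  have key := BADA_hit h2 (Fin N × Fin Y) (Fintype.card B) w hw hb U (BADA_F w E U k) hF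
    (fun μ => BADA_n s w E S k μ) ?_
  · refine le_trans ?_ key
    rw [Finset.sum_filter]
    refine Finset.sum_le_sum fun μ hμ => ?_
    rw [Finset.mem_powerset] at hμ
    by_cases hE : BADA_h s k μ ∈ E
    · suffices hhit : ∀ C ∈ BADA_F w E U k, (C ∩ μ).Nonempty by
        rw [if_pos hE, if_pos hhit, mul_comm]

      rintro C ⟨Q, hQ, hQ2, rfl⟩
      by_contra hne
      rw [Finset.not_nonempty_iff_eq_empty] at hne
      refine hQ2 (BADA_h s k μ) ?_ hE
      intro p hp
      have : p ∉ μ := by
        intro hpm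
        have : p ∈ Q ∩ U ∩ μ := by
          simp only [Finset.mem_inter]
          exact ⟨⟨hp, hμ hpm⟩, hpm⟩
        rw [hne] at this
        exact absurd this (Finset.notMem_empty _)
      simp [BADA_h, this]
    · rw [if_neg hE, zero_mul]
      exact Nat.zero_le _
  · intro μ hμ D hD hhit
    have hsub : {x | BADA_P s w E S k μ x} ⊆ ((D.image Prod.fst : Finset (Fin N)) :
        Set (Fin N)) := by
      rintro x ⟨hxS, Q, hQ, hQ2, hQ3⟩
      have hC : Q ∩ U ∈ BADA_F w E U k := by
        refine ⟨Q, hQ, ?_, rfl⟩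
        intro h' hh'
        refine hQ2 h' ?_
        intro p hp
        rw [hh' p hp]
        unfold BADA_r
        by_cases hpx : p.1 = x
        · rw [if_pos hpx]
        · rw [if_neg hpx]
          have hpU : p ∉ μ := fun hpm => hpx (hQ3 p hp ((hU p).1 (hμ hpm)))
          simp [BADA_h, hpU]
      obtain ⟨p, hp⟩ := hhit _ hC
      rw [Finset.mem_inter, Finset.mem_inter] at hp
      rw [Finset.coe_image]
      exact ⟨p, hp.2, hQ3 p hp.1.1 ((hU p).1 hp.1.2)⟩
    have h3 := Set.ncard_le_ncard hsub (Finset.finite_toSet _)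
    rw [Set.ncard_coe_finset] at h3
    exact h3.trans Finset.card_image_le

/-- The map of the values. -/
noncomputable def BADA_phi {N Y : ℕ} {B : Type} (s : B) (S : Set (Fin N)) (i : Fin N × Fin Y)
    (a : B × {c : B // c ≠ s}) : B × Bool :=
  open Classical in if i.1 ∈ S ∧ a.1 = s then (a.2.1, true) else (a.1, false)

open Classical in
/-- The sizes of the fibres. -/
theorem BADA_fib {N Y : ℕ} {B : Type} [Fintype B] (s : B) (S : Set (Fin N)) (i : Fin N × Fin Y)
    (c : B × Bool) : (Finset.univ.filter fun a : B × {c : B // c ≠ s} => BADA_phi s S i a = c).card =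
      if i.1 ∈ S then (if c.1 = s then 0 else if c.2 = true then 1 else Fintype.card B - 1)
      else (if c.2 = true then 0 else Fintype.card B - 1) := by
  have hcard : Fintype.card {c : B // c ≠ s} = Fintype.card B - 1 := by
    rw [Fintype.card_subtype_compl, Fintype.card_subtype_eq]
  obtain ⟨k, m⟩ := c
  by_cases hi : i.1 ∈ S
  · rw [if_pos hi]
    by_cases hk : k = s
    · rw [if_pos hk, Finset.card_eq_zero, Finset.filter_eq_empty_iff]
      rintro ⟨a, g⟩ - h
      unfold BADA_phi at h
      split_ifs at h with h1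
      · exact g.2 ((Prod.mk.inj h).1.trans hk)
      · exact h1 ⟨hi, (Prod.mk.inj h).1.trans hk⟩
    · rw [if_neg hk]
      cases m
      · rw [if_neg (by simp)]
        have : (Finset.univ.filter fun a : B × {c : B // c ≠ s} =>
            BADA_phi s S i a = (k, false)) = ({k} : Finset B) ×ˢ Finset.univ := by
          ext ⟨a, g⟩
          simp only [Finset.mem_filter, Finset.mem_univ, true_and, Finset.mem_product,
            Finset.mem_singleton, and_true]
          unfold BADA_phi
          split_ifs with h1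
          · constructor
            · intro h
              exact absurd (Prod.mk.inj h).2 (by simp)
            · intro h
              exact absurd (h.symm.trans h1.2) hk
          · constructor
            · intro h
              exact (Prod.mk.inj h).1
            · intro h
              exact Prod.ext h rfl
        rw [this, Finset.card_product, Finset.card_singleton, one_mul, Finset.card_univ, hcard]
      · rw [if_pos rfl]
        have : (Finset.univ.filter fun a : B × {c : B // c ≠ s} =>
            BADA_phi s S i a = (k, true)) = {(s, ⟨k, hk⟩)} := by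
          ext ⟨a, g⟩
          simp only [Finset.mem_filter, Finset.mem_univ, true_and, Finset.mem_singleton]
          unfold BADA_phi
          split_ifs with h1
          · constructor
            · intro h
              exact Prod.ext h1.2 (Subtype.ext (Prod.mk.inj h).1)
            · intro h
              rw [(Prod.mk.inj h).2]
          · constructor
            · intro h
              exact absurd (Prod.mk.inj h).2 (by simp)
            · intro h
              exact absurd ⟨hi, (Prod.mk.inj h).1⟩ h1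
        rw [this, Finset.card_singleton]
  · rw [if_neg hi]
    have hph : ∀ a, BADA_phi s S i a = (a.1, false) := by
      intro a
      unfold BADA_phi
      rw [if_neg (fun h => hi h.1)]
    cases m
    · rw [if_neg (by simp)]
      have : (Finset.univ.filter fun a : B × {c : B // c ≠ s} =>
          BADA_phi s S i a = (k, false)) = ({k} : Finset B) ×ˢ Finset.univ := by
        ext ⟨a, g⟩
        simp only [Finset.mem_filter, Finset.mem_univ, true_and, Finset.mem_product,
          Finset.mem_singleton, and_true, hph]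
        constructor
        · intro h
          exact (Prod.mk.inj h).1
        · intro h
          exact Prod.ext h rfl
      rw [this, Finset.card_product, Finset.card_singleton, one_mul, Finset.card_univ, hcard]
    · rw [if_pos rfl, Finset.card_eq_zero, Finset.filter_eq_empty_iff]
      intro a _ h
      rw [hph] at h
      exact absurd (Prod.mk.inj h).2 (by simp)

/-- Currying. -/
def BADA_e1 (N Y : ℕ) (B B' : Type) : (Fin N × Fin Y → B × B') ≃ Cfg N Y B × Cfg N Y B' where
  toFun hg := (fun x y => (hg (x, y)).1, fun x y => (hg (x, y)).2)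
  invFun p := fun i => (p.1 i.1 i.2, p.2 i.1 i.2)
  left_inv _ := rfl
  right_inv _ := rfl

open Classical in
/-- Functions with marks. -/
noncomputable def BADA_e2 (I B : Type) [Fintype I] : (I → B × Bool) ≃ (I → B) × Finset I where
  toFun κ := (fun i => (κ i).1, Finset.univ.filter fun i => (κ i).2 = true)
  invFun p := fun i => (p.1 i, decide (i ∈ p.2))
  left_inv κ := by
    funext i
    refine Prod.ext rfl ?_
    simp
  right_inv p := by
    refine Prod.ext rfl ?_
    ext i
    simp

/-- The values and the marks determine the configuration. -/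
theorem BADA_h_eq {N Y : ℕ} {B : Type} (s : B) (S : Set (Fin N))
    (hg : Fin N × Fin Y → B × {c : B // c ≠ s}) (k : Fin N × Fin Y → B)
    (μ : Finset (Fin N × Fin Y)) (hk : ∀ i, k i = (BADA_phi s S i (hg i)).1)
    (hμ : ∀ i, i ∈ μ ↔ (BADA_phi s S i (hg i)).2 = true) :
    BADA_h s k μ = (BADA_e1 N Y B {c : B // c ≠ s} hg).1 := by
  funext x y
  unfold BADA_h
  change _ = (hg (x, y)).1
  by_cases h : (x, y).1 ∈ S ∧ (hg (x, y)).1 = s
  · have h1 : (x, y) ∈ μ := by
      rw [hμ]
      unfold BADA_phi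
      rw [if_pos h]
    rw [if_pos h1]
    exact h.2.symm
  · have h1 : (x, y) ∉ μ := by
      rw [hμ]
      unfold BADA_phi
      rw [if_neg h]
      simp
    rw [if_neg h1, hk]
    unfold BADA_phi
    rw [if_neg h]

theorem BADA_r_eq {N Y : ℕ} {B : Type} (s : B) (S : Set (Fin N))
    (hg : Fin N × Fin Y → B × {c : B // c ≠ s}) (k : Fin N × Fin Y → B)
    (μ : Finset (Fin N × Fin Y)) (hk : ∀ i, k i = (BADA_phi s S i (hg i)).1)
    (hμ : ∀ i, i ∈ μ ↔ (BADA_phi s S i (hg i)).2 = true) (x : Fin N) (hx : x ∈ S) :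
    BADA_r s k μ x = res s {x} (BADA_e1 N Y B {c : B // c ≠ s} hg).1
      (BADA_e1 N Y B {c : B // c ≠ s} hg).2 := by
  funext x' y
  unfold BADA_r res
  rw [BADA_h_eq s S hg k μ hk hμ]
  by_cases hxx : x' = x
  · rw [if_pos hxx, hk]
    subst hxx
    unfold BADA_phi
    by_cases hs : (hg (x', y)).1 = s
    · rw [if_pos (show (x', y).1 ∈ S ∧ (hg (x', y)).1 = s from ⟨hx, hs⟩),
        if_pos (show x' ∈ ({x'} : Set (Fin N)) ∧
          (BADA_e1 N Y B {c : B // c ≠ s} hg).1 x' y = s from ⟨rfl, hs⟩)]
      rfl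
    · rw [if_neg (fun h => hs h.2), if_neg (fun h => hs h.2)]
      rfl
  · rw [if_neg hxx, if_neg (fun h => hxx h.1)]

theorem BADA_zz {N Y : ℕ} {B : Type} (s : B) (w : ℕ) (E : Set (Cfg N Y B)) (S : Set (Fin N))
    (hg : Fin N × Fin Y → B × {c : B // c ≠ s}) (k : Fin N × Fin Y → B)
    (μ : Finset (Fin N × Fin Y)) (hk : ∀ i, k i = (BADA_phi s S i (hg i)).1)
    (hμ : ∀ i, i ∈ μ ↔ (BADA_phi s S i (hg i)).2 = true) :
    zz s w E S (BADA_e1 N Y B {c : B // c ≠ s} hg).1 (BADA_e1 N Y B {c : B // c ≠ s} hg).2 =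
      BADA_n s w E S k μ := by
  unfold zz BADA_n
  rw [BADA_card]
  congr 1
  ext x
  constructor
  · rintro ⟨hx, Q, hQ, hQ2, hQ3⟩
    refine ⟨hx, Q, hQ, ?_, hQ3⟩
    rw [BADA_r_eq s S hg k μ hk hμ x hx]
    exact hQ2
  · rintro ⟨hx, Q, hQ, hQ2, hQ3⟩
    refine ⟨hx, Q, hQ, ?_, hQ3⟩
    rw [BADA_r_eq s S hg k μ hk hμ x hx] at hQ2
    exact hQ2

open Classical in
/-- The weight of a pair. -/
noncomputable def BADA_w {N Y : ℕ} {B : Type} (b : ℕ) (s : B) (S : Set (Fin N))
    (k : Fin N × Fin Y → B) (μ : Finset (Fin N × Fin Y)) (i : Fin N × Fin Y) : ℕ :=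
  if i.1 ∈ S then (if k i = s then 0 else if i ∈ μ then 1 else b - 1)
  else (if i ∈ μ then 0 else b - 1)

open Classical in
/-- The sum over the marks. -/
theorem BADA_mu (h2 : Stmt_HIT) {N Y : ℕ} {B : Type} [Fintype B] (s : B) (w : ℕ) (hw : 1 ≤ w)
    (hb : 8 * w ≤ Fintype.card B) (E : Set (Cfg N Y B)) (S : Set (Fin N))
    (k : Fin N × Fin Y → B) (U : Finset (Fin N × Fin Y)) (hU : ∀ p, p ∈ U ↔ p.1 ∈ S) :
    ∑ μ : Finset (Fin N × Fin Y), (if BADA_h s k μ ∈ E then 2 ^ BADA_n s w E S k μ else 0) *
      ∏ i, BADA_w (Fintype.card B) s S k μ i ≤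
      if (∀ i ∈ U, k i ≠ s) then (Fintype.card B - 1) ^ Uᶜ.card * Fintype.card B ^ U.card
        else 0 := by
  by_cases hv : ∀ i ∈ U, k i ≠ s
  · rw [if_pos hv]
    rw [← Finset.sum_subset (Finset.subset_univ U.powerset)]
    · have hterm : ∀ μ ∈ U.powerset,
          (if BADA_h s k μ ∈ E then 2 ^ BADA_n s w E S k μ else 0) *
            ∏ i, BADA_w (Fintype.card B) s S k μ i =
          (Fintype.card B - 1) ^ Uᶜ.card *
            ((if BADA_h s k μ ∈ E then 2 ^ BADA_n s w E S k μ else 0) *
              (Fintype.card B - 1) ^ (U \ μ).card) := by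
        intro μ hμ
        rw [Finset.mem_powerset] at hμ
        have hprod : ∏ i, BADA_w (Fintype.card B) s S k μ i =
            (Fintype.card B - 1) ^ (U \ μ).card * (Fintype.card B - 1) ^ Uᶜ.card := by
          have hfac : ∀ i, BADA_w (Fintype.card B) s S k μ i =
              if i ∈ (U \ μ) ∪ Uᶜ then Fintype.card B - 1 else 1 := by
            intro i
            unfold BADA_w
            by_cases hi : i ∈ U
            · rw [if_pos ((hU i).1 hi), if_neg (hv i hi)]
              by_cases hm : i ∈ μ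
              · rw [if_pos hm, if_neg]
                simp [hi, hm]
              · rw [if_neg hm, if_pos]
                simp [hi, hm]
            · rw [if_neg (fun h => hi ((hU i).2 h)), if_neg (fun h => hi (hμ h)), if_pos]
              simp [hi]
          rw [Finset.prod_congr rfl fun i _ => hfac i, Finset.prod_ite_mem, Finset.univ_inter,
            Finset.prod_const, Finset.card_union_of_disjoint, pow_add]
          rw [Finset.disjoint_left]
          intro i hi hi2
          rw [Finset.mem_compl] at hi2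
          exact hi2 (Finset.mem_sdiff.1 hi).1
        rw [hprod]
        ring
      rw [Finset.sum_congr rfl hterm, ← Finset.mul_sum]
      exact Nat.mul_le_mul_left _ (BADA_inner h2 s w hw hb E S k U hU)
    · intro μ _ hμ
      rw [Finset.mem_powerset, Finset.not_subset] at hμ
      obtain ⟨i, hi, hiU⟩ := hμ
      have : ∏ i, BADA_w (Fintype.card B) s S k μ i = 0 := by
        refine Finset.prod_eq_zero (Finset.mem_univ i) ?_
        unfold BADA_w
        rw [if_neg (fun h => hiU ((hU i).2 h)), if_pos hi]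
      rw [this, mul_zero]
  · rw [if_neg hv]
    push Not at hv
    obtain ⟨i, hi, hks⟩ := hv
    refine (Finset.sum_eq_zero fun μ _ => ?_).le
    have : ∏ i, BADA_w (Fintype.card B) s S k μ i = 0 := by
      refine Finset.prod_eq_zero (Finset.mem_univ i) ?_
      unfold BADA_w
      rw [if_pos ((hU i).1 hi), if_pos hks]
    rw [this, mul_zero]

open Classical in
/-- The number of valid `k`. -/
theorem BADA_valid {I B : Type} [Fintype I] [DecidableEq I] [Fintype B] (s : B) (U : Finset I)
    [DecidablePred fun k : I → B => ∀ i ∈ U, k i ≠ s] :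
    (Finset.univ.filter fun k : I → B => ∀ i ∈ U, k i ≠ s).card =
      (Fintype.card B - 1) ^ U.card * Fintype.card B ^ Uᶜ.card := by
  have hset : (Finset.univ.filter fun k : I → B => ∀ i ∈ U, k i ≠ s) =
      Fintype.piFinset (fun i => if i ∈ U then Finset.univ.erase s else Finset.univ) := by
    ext k
    rw [Fintype.mem_piFinset]
    constructor
    · intro h i
      have h' := (@Finset.mem_filter _ _ _ _ _).1 h
      by_cases hi : i ∈ U
      · rw [if_pos hi]
        exact Finset.mem_erase.2 ⟨h'.2 i hi, Finset.mem_univ _⟩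
      · rw [if_neg hi]
        exact Finset.mem_univ _
    · intro h
      refine (@Finset.mem_filter _ _ _ _ _).2 ⟨Finset.mem_univ _, fun i hi => ?_⟩
      have := h i
      rw [if_pos hi] at this
      exact (Finset.mem_erase.1 this).1
  rw [hset, Fintype.card_piFinset, ← Finset.prod_mul_prod_compl U]
  congr 1
  · rw [Finset.prod_congr rfl (g := fun _ => Fintype.card B - 1), Finset.prod_const]
    intro i hi
    rw [if_pos hi, Finset.card_erase_of_mem (Finset.mem_univ _), Finset.card_univ]
  · rw [Finset.prod_congr rfl (g := fun _ => Fintype.card B), Finset.prod_const]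
    intro i hi
    rw [if_neg (Finset.mem_compl.1 hi), Finset.card_univ]

theorem BADA_thm (h1 : Stmt_PUSH) (h2 : Stmt_HIT) : Stmt_BADA := by
  intro N Y B _ s w hw hb E S
  classical
  set U : Finset (Fin N × Fin Y) := Finset.univ.filter fun p => p.1 ∈ S with hUdef
  have hU : ∀ p, p ∈ U ↔ p.1 ∈ S := by
    intro p
    rw [hUdef, Finset.mem_filter]
    exact ⟨fun h => h.2, fun h => ⟨Finset.mem_univ _, h⟩⟩
  have hcard : Fintype.card {c : B // c ≠ s} = Fintype.card B - 1 := by
    rw [Fintype.card_subtype_compl, Fintype.card_subtype_eq]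
  let f : (Fin N × Fin Y → B × Bool) → ℕ := fun κ =>
    if BADA_h s (BADA_e2 (Fin N × Fin Y) B κ).1 (BADA_e2 (Fin N × Fin Y) B κ).2 ∈ E then
      2 ^ BADA_n s w E S (BADA_e2 (Fin N × Fin Y) B κ).1 (BADA_e2 (Fin N × Fin Y) B κ).2 else 0
  have hstep1 : ∑ p : Cfg N Y B × Cfg N Y {c : B // c ≠ s},
      (if p.1 ∈ E then 2 ^ zz s w E S p.1 p.2 else 0) =
      ∑ hg : Fin N × Fin Y → B × {c : B // c ≠ s}, f (fun i => BADA_phi s S i (hg i)) := by
    refine (Fintype.sum_equiv (BADA_e1 N Y B {c : B // c ≠ s}) _ _ ?_).symm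
    intro hg
    have hk : ∀ i, (BADA_e2 (Fin N × Fin Y) B (fun i => BADA_phi s S i (hg i))).1 i =
        (BADA_phi s S i (hg i)).1 := fun i => rfl
    have hμ : ∀ i, i ∈ (BADA_e2 (Fin N × Fin Y) B (fun i => BADA_phi s S i (hg i))).2 ↔
        (BADA_phi s S i (hg i)).2 = true := by
      intro i
      unfold BADA_e2
      exact ⟨fun h => ((@Finset.mem_filter _ _ _ _ _).1 h).2,
        fun h => (@Finset.mem_filter _ _ _ _ _).2 ⟨Finset.mem_univ _, h⟩⟩
    have e1 := BADA_h_eq s S hg _ _ hk hμ
    have e2 := BADA_zz s w E S hg _ _ hk hμ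
    change (if BADA_h s (BADA_e2 (Fin N × Fin Y) B (fun i => BADA_phi s S i (hg i))).1
      (BADA_e2 (Fin N × Fin Y) B (fun i => BADA_phi s S i (hg i))).2 ∈ E then _ else _) = _
    rw [e1, ← e2]
  have hstep2 := h1 (Fin N × Fin Y) (B × {c : B // c ≠ s}) (B × Bool) (BADA_phi s S) f
  rw [hstep1, hstep2]
  have hstep3 : ∑ κ : Fin N × Fin Y → B × Bool, f κ *
      ∏ i, (Finset.univ.filter fun a => BADA_phi s S i a = κ i).card =
      ∑ q : (Fin N × Fin Y → B) × Finset (Fin N × Fin Y),
        (if BADA_h s q.1 q.2 ∈ E then 2 ^ BADA_n s w E S q.1 q.2 else 0) *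
          ∏ i, BADA_w (Fintype.card B) s S q.1 q.2 i := by
    refine Fintype.sum_equiv (BADA_e2 (Fin N × Fin Y) B) _ _ ?_
    intro κ
    congr 1
    refine Finset.prod_congr rfl fun i _ => ?_
    rw [BADA_fib]
    unfold BADA_w BADA_e2
    by_cases hi : i.1 ∈ S
    · rw [if_pos hi, if_pos hi]
      change _ = if (κ i).1 = s then _ else _
      by_cases hk : (κ i).1 = s
      · rw [if_pos hk, if_pos hk]
      · rw [if_neg hk, if_neg hk]
        by_cases hm : (κ i).2 = true
        · rw [if_pos hm, if_pos]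
          exact (@Finset.mem_filter _ _ _ _ _).2 ⟨Finset.mem_univ _, hm⟩
        · rw [if_neg hm, if_neg]
          exact fun h => hm ((@Finset.mem_filter _ _ _ _ _).1 h).2
    · rw [if_neg hi, if_neg hi]
      by_cases hm : (κ i).2 = true
      · rw [if_pos hm, if_pos]
        exact (@Finset.mem_filter _ _ _ _ _).2 ⟨Finset.mem_univ _, hm⟩
      · rw [if_neg hm, if_neg]
        exact fun h => hm ((@Finset.mem_filter _ _ _ _ _).1 h).2
  refine (hstep3.trans (Fintype.sum_prod_type _)).le.trans ?_
  refine (Finset.sum_le_sum fun k _ => BADA_mu h2 s w hw hb E S k U hU).trans ?_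
  rw [← Finset.sum_filter, Finset.sum_const, BADA_valid, smul_eq_mul]
  have hc1 : Fintype.card (Cfg N Y B) = Fintype.card B ^ (N * Y) := by
    simp [Cfg, ← pow_mul, mul_comm]
  have hc2 : Fintype.card (Cfg N Y {c : B // c ≠ s}) = (Fintype.card B - 1) ^ (N * Y) := by
    rw [← hcard]
    simp [Cfg, ← pow_mul, mul_comm]
  have hUc : U.card + Uᶜ.card = N * Y := by
    rw [Finset.card_add_card_compl]
    simp
  rw [hc1, hc2, ← hUc, pow_add, pow_add]
  exact le_of_eq (by ring)

end Pool.Agent.RH
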