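import Pool.Agent.RH.PDefs

/-!
# BADB: many resamplings that leave `E` make the number `zz` large on the average
-/

open MeasureTheory

namespace Pool.Agent.RH

open Pool.Agent.RO (Om coin IndepOf st)

namespace BADB

theorem ite_le {a b : Prop} [Decidable a] [Decidable b] (h : a → b) :
    (if a then 1 else 0 : ℕ) ≤ if b then 1 else 0 := by
  by_cases ha : a
  · rw [if_pos ha, if_pos (h ha)]
  · rw [if_neg ha]
    exact Nat.zero_le _

theorem conv (z a : ℕ) : 2 ^ a * (2 + z) ≤ 2 * 2 ^ z + 2 ^ a * a := by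
  rcases Nat.lt_or_ge z a with h | h
  · obtain ⟨k, rfl⟩ : ∃ k, a = z + k + 1 := ⟨a - z - 1, by omega⟩
    rcases Nat.eq_zero_or_pos k with hk | hk
    · subst hk
      have : 2 ^ (z + 0 + 1) * (2 + z) = 2 * 2 ^ z + 2 ^ (z + 0 + 1) * (z + 0 + 1) := by
        rw [add_zero, pow_succ]
        ring
      exact this.le
    · have h1 : 2 + z ≤ z + k + 1 := by omega
      have h2 := Nat.mul_le_mul_left (2 ^ (z + k + 1)) h1
      exact h2.trans (Nat.le_add_left _ _)
  · obtain ⟨k, rfl⟩ := Nat.exists_eq_add_of_le h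
    have hk : k < 2 ^ k := Nat.lt_two_pow_self
    have h1 : 2 + k ≤ 2 * 2 ^ k := by omega
    have h2 := Nat.mul_le_mul_left (2 ^ a) h1
    calc 2 ^ a * (2 + (a + k)) = 2 ^ a * (2 + k) + 2 ^ a * a := by ring
      _ ≤ 2 ^ a * (2 * 2 ^ k) + 2 ^ a * a := by omega
      _ = 2 * 2 ^ (a + k) + 2 ^ a * a := by rw [pow_add]; ring

theorem conv_sum {T : Type} [Fintype T] (z : T → ℕ) (a : ℕ)
    (h : a * Fintype.card T ≤ ∑ t, z t) : 2 ^ a * Fintype.card T ≤ ∑ t, 2 ^ z t := by
  have h1 : ∑ t, 2 ^ a * (2 + z t) ≤ ∑ t, (2 * 2 ^ z t + 2 ^ a * a) :=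
    Finset.sum_le_sum fun t _ => conv (z t) a
  rw [← Finset.mul_sum, Finset.sum_add_distrib, Finset.sum_add_distrib, ← Finset.mul_sum,
    Finset.sum_const, Finset.sum_const, Finset.card_univ, smul_eq_mul, smul_eq_mul] at h1
  have h2 := Nat.mul_le_mul_left (2 ^ a) h
  have h3 : 2 ^ a * (Fintype.card T * 2 + ∑ t, z t) =
      2 * (2 ^ a * Fintype.card T) + 2 ^ a * ∑ t, z t := by ring
  have h4 : Fintype.card T * (2 ^ a * a) = 2 ^ a * (a * Fintype.card T) := by ring
  rw [h3, h4] at h1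
  omega

theorem cnt (N w : ℕ) (hw : 1 ≤ w) (x : Fin N) (R : Finset (Fin N)) (hx : x ∉ R)
    (hR : R.card ≤ w) :
    3 * (4 * w) ^ N ≤ 16 * w * (Finset.univ.filter (fun σ : Fin N → Fin (4 * w) =>
      (σ x : ℕ) = 0 ∧ ∀ x' ∈ R, (σ x' : ℕ) ≠ 0)).card := by
  classical
  have h4w : 0 < 4 * w := by omega
  have hset : (Finset.univ.filter (fun σ : Fin N → Fin (4 * w) =>
      (σ x : ℕ) = 0 ∧ ∀ x' ∈ R, (σ x' : ℕ) ≠ 0)) =
      Fintype.piFinset (fun i => Finset.univ.filter (fun v : Fin (4 * w) =>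
        (i = x → (v : ℕ) = 0) ∧ (i ∈ R → (v : ℕ) ≠ 0))) := by
    ext σ
    simp only [Finset.mem_filter, Finset.mem_univ, true_and, Fintype.mem_piFinset]
    constructor
    · rintro ⟨h1, h2⟩ i
      exact ⟨fun h => h ▸ h1, h2 i⟩
    · intro h
      exact ⟨(h x).1 rfl, fun x' hx' => (h x').2 hx'⟩
  rw [hset, Fintype.card_piFinset]
  have hcard : ∀ i : Fin N, (((Finset.univ.filter (fun v : Fin (4 * w) =>
      (i = x → (v : ℕ) = 0) ∧ (i ∈ R → (v : ℕ) ≠ 0))).card : ℕ) : ℝ) =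
      (4 * w : ℝ) * (if i = x then 1 / (4 * w : ℝ) else 1) *
        (if i ∈ R then (1 - 1 / (4 * w : ℝ)) else 1) := by
    intro i
    have hw0 : (w : ℝ) ≠ 0 := by
      have : (0 : ℝ) < w := by exact_mod_cast hw
      exact this.ne'
    by_cases hi : i = x
    · subst hi
      have e : (Finset.univ.filter (fun v : Fin (4 * w) =>
          (i = i → (v : ℕ) = 0) ∧ (i ∈ R → (v : ℕ) ≠ 0))) = {⟨0, h4w⟩} := by
        ext v
        rw [Finset.mem_filter, Finset.mem_singleton]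
        constructor
        · rintro ⟨-, h1, -⟩
          exact Fin.ext (h1 rfl)
        · intro h1
          exact ⟨Finset.mem_univ _, fun _ => congrArg Fin.val h1, fun h2 => absurd h2 hx⟩
      rw [e, Finset.card_singleton, if_pos rfl, if_neg hx]
      field_simp
      norm_num
    · by_cases hi2 : i ∈ R
      · have e : (Finset.univ.filter (fun v : Fin (4 * w) =>
            (i = x → (v : ℕ) = 0) ∧ (i ∈ R → (v : ℕ) ≠ 0))) =
              Finset.univ.erase ⟨0, h4w⟩ := by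
          ext v
          rw [Finset.mem_filter, Finset.mem_erase]
          constructor
          · rintro ⟨-, -, h2⟩
            exact ⟨fun h => h2 hi2 (congrArg Fin.val h), Finset.mem_univ _⟩
          · rintro ⟨h1, -⟩
            exact ⟨Finset.mem_univ _, fun h => absurd h hi, fun _ h => h1 (Fin.ext h)⟩
        rw [e, Finset.card_erase_of_mem (Finset.mem_univ _), Finset.card_univ, Fintype.card_fin,
          if_neg hi, if_pos hi2, Nat.cast_sub (by omega)]
        push_cast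
        field_simp
      · have e : (Finset.univ.filter (fun v : Fin (4 * w) =>
            (i = x → (v : ℕ) = 0) ∧ (i ∈ R → (v : ℕ) ≠ 0))) = Finset.univ := by
          ext v
          simp only [Finset.mem_filter, Finset.mem_univ, true_and, iff_true]
          exact ⟨fun h => absurd h hi, fun h => absurd h hi2⟩
        rw [e, Finset.card_univ, Fintype.card_fin, if_neg hi, if_neg hi2]
        push_cast
        ring
  have hw1 : (1 : ℝ) ≤ w := by exact_mod_cast hw
  have hprod : ((∏ i : Fin N, (Finset.univ.filter (fun v : Fin (4 * w) =>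
      (i = x → (v : ℕ) = 0) ∧ (i ∈ R → (v : ℕ) ≠ 0))).card : ℕ) : ℝ) =
      (4 * w : ℝ) ^ N * (1 / (4 * w : ℝ)) * (1 - 1 / (4 * w : ℝ)) ^ R.card := by
    rw [Nat.cast_prod, Finset.prod_congr rfl fun i _ => hcard i, Finset.prod_mul_distrib,
      Finset.prod_mul_distrib, Finset.prod_const, Finset.card_univ, Fintype.card_fin,
      Finset.prod_ite_eq' Finset.univ x, if_pos (Finset.mem_univ x)]
    congr 1
    rw [Finset.prod_ite_mem, Finset.univ_inter, Finset.prod_const]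
  have hbern : (3 : ℝ) / 4 ≤ (1 - 1 / (4 * w : ℝ)) ^ R.card := by
    have h1 := one_add_mul_le_pow (a := -(1 / (4 * w : ℝ))) (by
      have : 1 / (4 * w : ℝ) ≤ 1 := by
        rw [div_le_one (by positivity)]
        linarith
      linarith) R.card
    have h2 : (R.card : ℝ) * (1 / (4 * w : ℝ)) ≤ 1 / 4 := by
      have h3 : (R.card : ℝ) ≤ w := by exact_mod_cast hR
      rw [mul_one_div, div_le_div_iff₀ (by positivity) (by norm_num)]
      linarith
    rw [← sub_eq_add_neg] at h1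
    linarith
  have hfin : (3 : ℝ) * (4 * w) ^ N ≤
      16 * w * ((4 * w : ℝ) ^ N * (1 / (4 * w : ℝ)) * (1 - 1 / (4 * w : ℝ)) ^ R.card) := by
    have h1 : 16 * w * ((4 * w : ℝ) ^ N * (1 / (4 * w : ℝ)) *
        (1 - 1 / (4 * w : ℝ)) ^ R.card) =
        4 * (4 * w : ℝ) ^ N * (1 - 1 / (4 * w : ℝ)) ^ R.card := by
      generalize (1 - 1 / (4 * w : ℝ)) ^ R.card = r
      field_simp
      norm_num
    rw [h1]
    calc (3 : ℝ) * (4 * w) ^ N = 4 * (4 * w : ℝ) ^ N * (3 / 4) := by ring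
      _ ≤ _ := mul_le_mul_of_nonneg_left hbern (by positivity)
  rw [← hprod] at hfin
  exact_mod_cast hfin

end BADB

open BADB in
open Classical in
theorem BADB_thm : Stmt_BADB := by
  intro N Y B _ s w hw E hE h hbad
  have hzz : ∀ (σ : Fin N → Fin (4 * w)) (g : Cfg N Y {c : B // c ≠ s}),
      zz s w E {x | (σ x : ℕ) = 0} h g = ∑ x : Fin N, if ((σ x : ℕ) = 0 ∧
        ∃ Q : Finset (Fin N × Fin Y), Q.card ≤ w ∧
          (∀ h' : Cfg N Y B, (∀ p ∈ Q, h' p.1 p.2 = res s {x} h g p.1 p.2) → h' ∉ E) ∧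
            ∀ p ∈ Q, (σ p.1 : ℕ) = 0 → p.1 = x) then 1 else 0 := by
    intro σ g
    rw [zz, Finset.card_filter]
    refine Finset.sum_congr rfl fun x _ => ?_
    by_cases hc : ((σ x : ℕ) = 0 ∧
        ∃ Q : Finset (Fin N × Fin Y), Q.card ≤ w ∧
          (∀ h' : Cfg N Y B, (∀ p ∈ Q, h' p.1 p.2 = res s {x} h g p.1 p.2) → h' ∉ E) ∧
            ∀ p ∈ Q, (σ p.1 : ℕ) = 0 → p.1 = x)
    · rw [if_pos hc]
      exact if_pos hc
    · rw [if_neg hc]
      exact if_neg hc
  have key : ∀ (x : Fin N) (g : Cfg N Y {c : B // c ≠ s}),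
      (if res s {x} h g ∉ E then 3 * (4 * w) ^ N else 0) ≤
      16 * w * ∑ σ : Fin N → Fin (4 * w), if ((σ x : ℕ) = 0 ∧
        ∃ Q : Finset (Fin N × Fin Y), Q.card ≤ w ∧
          (∀ h' : Cfg N Y B, (∀ p ∈ Q, h' p.1 p.2 = res s {x} h g p.1 p.2) → h' ∉ E) ∧
            ∀ p ∈ Q, (σ p.1 : ℕ) = 0 → p.1 = x) then 1 else 0 := by
    intro x g
    by_cases hx : res s {x} h g ∈ E
    · rw [if_neg (not_not.mpr hx)]
      exact Nat.zero_le _
    · rw [if_pos hx]
      obtain ⟨Q, hQ1, hQ2⟩ := hE _ hx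
      have hRx : x ∉ (Q.image Prod.fst).erase x := Finset.notMem_erase x _
      have hRc : ((Q.image Prod.fst).erase x).card ≤ w :=
        (Finset.card_erase_le.trans Finset.card_image_le).trans hQ1
      refine (cnt N w hw x _ hRx hRc).trans (Nat.mul_le_mul_left _ ?_)
      rw [Finset.card_filter]
      refine Finset.sum_le_sum fun σ _ => ite_le ?_
      intro hσ
      refine ⟨hσ.1, Q, hQ1, hQ2, ?_⟩
      intro p hp hp0
      by_contra hne
      exact hσ.2 p.1 (Finset.mem_erase.mpr ⟨hne, Finset.mem_image_of_mem _ hp⟩) hp0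
  have hbadcard : Fintype.card {p : Fin N × Cfg N Y {c : B // c ≠ s} //
      res s {p.1} h p.2 ∉ E} =
      ∑ x : Fin N, ∑ g : Cfg N Y {c : B // c ≠ s}, if res s {x} h g ∉ E then 1 else 0 := by
    rw [Fintype.card_subtype, Finset.card_filter, Fintype.sum_prod_type]
  have hsum : 3 * (4 * w) ^ N * Fintype.card {p : Fin N × Cfg N Y {c : B // c ≠ s} //
      res s {p.1} h p.2 ∉ E} ≤
      16 * w * ∑ σ : Fin N → Fin (4 * w), ∑ g : Cfg N Y {c : B // c ≠ s},
        zz s w E {x | (σ x : ℕ) = 0} h g := by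
    have h1 : ∑ σ : Fin N → Fin (4 * w), ∑ g : Cfg N Y {c : B // c ≠ s},
        zz s w E {x | (σ x : ℕ) = 0} h g =
        ∑ x : Fin N, ∑ g : Cfg N Y {c : B // c ≠ s}, ∑ σ : Fin N → Fin (4 * w),
          if ((σ x : ℕ) = 0 ∧
        ∃ Q : Finset (Fin N × Fin Y), Q.card ≤ w ∧
          (∀ h' : Cfg N Y B, (∀ p ∈ Q, h' p.1 p.2 = res s {x} h g p.1 p.2) → h' ∉ E) ∧
            ∀ p ∈ Q, (σ p.1 : ℕ) = 0 → p.1 = x) then 1 else 0 := by
      simp only [hzz]
      rw [Finset.sum_comm]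
      rw [Finset.sum_congr rfl fun g _ => Finset.sum_comm]
      rw [Finset.sum_comm]
    rw [h1, hbadcard, Finset.mul_sum, Finset.mul_sum]
    apply Finset.sum_le_sum
    intro x _
    rw [Finset.mul_sum, Finset.mul_sum]
    apply Finset.sum_le_sum
    intro g _
    have h2 := key x g
    by_cases hx : res s {x} h g ∈ E
    · rw [if_neg (not_not.mpr hx), mul_zero]
      exact Nat.zero_le _
    · rw [if_pos hx] at h2 ⊢
      rw [mul_one]
      exact h2
  have hcardT : Fintype.card ((Fin N → Fin (4 * w)) × Cfg N Y {c : B // c ≠ s}) =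
      (4 * w) ^ N * Fintype.card (Cfg N Y {c : B // c ≠ s}) := by
    rw [Fintype.card_prod, Fintype.card_fun, Fintype.card_fin, Fintype.card_fin]
  have hmain : (N / (32 * w)) *
      Fintype.card ((Fin N → Fin (4 * w)) × Cfg N Y {c : B // c ≠ s}) ≤
      ∑ t : (Fin N → Fin (4 * w)) × Cfg N Y {c : B // c ≠ s},
        zz s w E {x | (t.1 x : ℕ) = 0} h t.2 := by
    rw [hcardT, Fintype.sum_prod_type]
    have ha : (N / (32 * w)) * (32 * w) ≤ N := Nat.div_mul_le_self _ _
    apply Nat.le_of_mul_le_mul_left _ (show 0 < 64 * w by omega)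
    calc 64 * w * (N / (32 * w) * ((4 * w) ^ N * Fintype.card (Cfg N Y {c : B // c ≠ s}))) =
          2 * ((N / (32 * w)) * (32 * w)) *
            ((4 * w) ^ N * Fintype.card (Cfg N Y {c : B // c ≠ s})) := by ring
      _ ≤ 3 * N * ((4 * w) ^ N * Fintype.card (Cfg N Y {c : B // c ≠ s})) := by
          apply Nat.mul_le_mul_right
          omega
      _ = 3 * (4 * w) ^ N * (N * Fintype.card (Cfg N Y {c : B // c ≠ s})) := by ring
      _ ≤ 3 * (4 * w) ^ N * (4 * Fintype.card {p : Fin N × Cfg N Y {c : B // c ≠ s} //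
            res s {p.1} h p.2 ∉ E}) := Nat.mul_le_mul_left _ hbad.le
      _ = 4 * (3 * (4 * w) ^ N * Fintype.card {p : Fin N × Cfg N Y {c : B // c ≠ s} //
            res s {p.1} h p.2 ∉ E}) := by ring
      _ ≤ 4 * (16 * w * ∑ σ : Fin N → Fin (4 * w), ∑ g : Cfg N Y {c : B // c ≠ s},
            zz s w E {x | (σ x : ℕ) = 0} h g) := Nat.mul_le_mul_left _ hsum
      _ = _ := by ring
  have hfin := conv_sum (fun t : (Fin N → Fin (4 * w)) × Cfg N Y {c : B // c ≠ s} =>
    zz s w E {x | (t.1 x : ℕ) = 0} h t.2) (N / (32 * w)) hmain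
  rw [hcardT, Fintype.sum_prod_type, mul_comm] at hfin
  exact hfin

end Pool.Agent.RH
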