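import Pool.Agent.RH.PDefs

/-!
# FIN: the window lemma for configurations
-/

namespace Pool.Agent.RH

namespace FINx

variable {N Y : ℕ} {B : Type} [Fintype B]

open Classical in
theorem touch (s : B) (w : ℕ) (P : Set (Cfg N Y B)) (h : Cfg N Y B) (hl : LocF w P h) :
    (Finset.univ.filter fun p : Fin N × Cfg N Y {c : B // c ≠ s} =>
      res s {p.1} h p.2 ∉ P).card ≤ w * Fintype.card (Cfg N Y {c : B // c ≠ s}) := by
  obtain ⟨Q0, hQ, hloc⟩ := hl
  have hsub : (Finset.univ.filter fun p : Fin N × Cfg N Y {c : B // c ≠ s} =>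
      res s {p.1} h p.2 ∉ P) ⊆ (Q0.image Prod.fst) ×ˢ Finset.univ := by
    intro p hp
    rw [Finset.mem_filter] at hp
    rw [Finset.mem_product]
    refine ⟨?_, Finset.mem_univ _⟩
    by_contra hcon
    apply hp.2
    apply hloc
    intro r hr
    have hne : r.1 ≠ p.1 := by
      intro he
      apply hcon
      rw [Finset.mem_image]
      exact ⟨r, hr, he⟩
    rw [res, if_neg]
    rintro ⟨h1, -⟩
    exact hne h1
  calc _ ≤ ((Q0.image Prod.fst) ×ˢ (Finset.univ : Finset (Cfg N Y {c : B // c ≠ s}))).card :=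
        Finset.card_le_card hsub
    _ = (Q0.image Prod.fst).card * Fintype.card (Cfg N Y {c : B // c ≠ s}) := by
        rw [Finset.card_product, Finset.card_univ]
    _ ≤ w * Fintype.card (Cfg N Y {c : B // c ≠ s}) :=
        Nat.mul_le_mul_right _ (Finset.card_image_le.trans hQ)

omit [Fintype B] in
open Classical in
theorem res_dead (s : B) (x : Fin N) (h : Cfg N Y B) (g : Cfg N Y {c : B // c ≠ s}) :
    res s {x} h g ∈ dead s x := by
  intro y
  rw [res]
  split_ifs with h1
  · exact (g x y).2
  · intro h2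
    exact h1 ⟨rfl, h2⟩

omit [Fintype B] in
open Classical in
theorem res_alive (s : B) (x x' : Fin N) (hx : x' ≠ x) (h : Cfg N Y B)
    (g : Cfg N Y {c : B // c ≠ s}) (ha : h ∉ dead s x') : res s {x} h g ∉ dead s x' := by
  intro hd
  apply ha
  intro y
  have h1 := hd y
  rw [res, if_neg] at h1
  · exact h1
  · rintro ⟨h2, -⟩
    exact hx h2

end FINx

open FINx

open Classical in
theorem FIN_thm (h1 : Stmt_RES) (h2 : Stmt_BAD) : Stmt_FIN := by
  intro N Y B _ s w n hw hB hN hq P Q hP hQ
  set G : Type := Cfg N Y {c : B // c ≠ s} with hG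
  set q : ℝ := (1 - 1 / (Fintype.card B : ℝ)) ^ Y with hqdef
  have hB2 : 2 ≤ Fintype.card B := by omega
  have hBR : (1 : ℝ) ≤ Fintype.card B := by
    have : 1 ≤ Fintype.card B := by omega
    exact_mod_cast this
  have hq0 : 0 ≤ q := by
    apply pow_nonneg
    rw [sub_nonneg, div_le_one (by linarith)]
    exact hBR
  have hGpos : 0 < Fintype.card G := by
    have : Nonempty {c : B // c ≠ s} := by
      obtain ⟨c, hc⟩ := Fintype.exists_ne_of_one_lt_card (by omega : 1 < Fintype.card B) s
      exact ⟨⟨c, hc⟩⟩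
    exact Fintype.card_pos_iff.2 ⟨fun _ _ => Classical.arbitrary _⟩
  set A : Finset (Cfg N Y B) := Finset.univ.filter fun h => ∃ i < n, h ∈ P i ∧ h ∈ Q i with hA
  set AF : Finset (Cfg N Y B) := A.filter fun h => ∃ x, h ∈ dead s x with hAF
  set A1 : Finset (Cfg N Y B) := A.filter fun h => ¬ ∃ x, h ∈ dead s x with hA1
  have hsplit : AF.card + A1.card = A.card := Finset.card_filter_add_card_filter_not _
  have eA : Nat.card {h : Cfg N Y B // ∃ i < n, h ∈ P i ∧ h ∈ Q i} = A.card := by
    rw [Nat.card_eq_fintype_card, Fintype.card_subtype]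
  have eAF : Nat.card {h : Cfg N Y B // (∃ i < n, h ∈ P i ∧ h ∈ Q i) ∧ ∃ x, h ∈ dead s x} =
      AF.card := by
    rw [Nat.card_eq_fintype_card, Fintype.card_subtype, hAF, hA, Finset.filter_filter]
  -- the bad configurations
  set Bd : ℕ → Finset (Cfg N Y B) := fun i => Finset.univ.filter fun h => h ∈ Q i ∧
    N * Nat.card G < 4 * Nat.card {p : Fin N × G // res s {p.1} h p.2 ∉ Q i} with hBd
  have hBdcard : ∀ i < n, ((Bd i).card : ℝ) ≤ (1 / 2) ^ (N / (32 * w)) * Nat.card (Cfg N Y B) := by
    intro i hi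
    have h3 := h2 N Y B s w hw hB (Q i) (hQ i hi)
    rw [Nat.card_eq_fintype_card (α := {h : Cfg N Y B // _}), Fintype.card_subtype] at h3
    have h4 : ((Bd i).card : ℝ) * 2 ^ (N / (32 * w)) ≤ Nat.card (Cfg N Y B) := by
      exact_mod_cast h3
    rw [one_div, inv_pow, inv_mul_eq_div, le_div_iff₀ (by positivity)]
    exact h4
  set BU : Finset (Cfg N Y B) := (Finset.range n).biUnion Bd with hBU
  have hBUcard : (BU.card : ℝ) ≤ n * ((1 / 2) ^ (N / (32 * w)) * Nat.card (Cfg N Y B)) := by
    calc (BU.card : ℝ) ≤ ((∑ i ∈ Finset.range n, (Bd i).card : ℕ) : ℝ) := by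
          exact_mod_cast Finset.card_biUnion_le
      _ = ∑ i ∈ Finset.range n, ((Bd i).card : ℝ) := by push_cast; rfl
      _ ≤ ∑ _i ∈ Finset.range n, (1 / 2) ^ (N / (32 * w)) * (Nat.card (Cfg N Y B) : ℝ) :=
          Finset.sum_le_sum fun i hi => hBdcard i (Finset.mem_range.1 hi)
      _ = n * ((1 / 2) ^ (N / (32 * w)) * Nat.card (Cfg N Y B)) := by
          rw [Finset.sum_const, Finset.card_range, nsmul_eq_mul]
  -- the number of resamplings which leave `A`
  set out : Cfg N Y B → ℕ := fun h =>
    (Finset.univ.filter fun p : Fin N × G => res s {p.1} h p.2 ∉ A).card with hout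
  set inn : Cfg N Y B → ℕ := fun h =>
    (Finset.univ.filter fun p : Fin N × G => res s {p.1} h p.2 ∈ A).card with hinn
  have hio : ∀ h, inn h + out h = N * Fintype.card G := by
    intro h
    have h3 : inn h + out h = (Finset.univ : Finset (Fin N × G)).card :=
      Finset.card_filter_add_card_filter_not _
    rw [h3, Finset.card_univ, Fintype.card_prod, Fintype.card_fin]
  have hgood : ∀ h ∈ A1, h ∉ BU → 2 * out h ≤ N * Fintype.card G := by
    intro h hh hb
    rw [hA1, Finset.mem_filter, hA, Finset.mem_filter] at hh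
    obtain ⟨⟨-, i, hi, hPi, hQi⟩, -⟩ := hh
    have h3 : (Finset.univ.filter fun p : Fin N × G => res s {p.1} h p.2 ∉ P i).card ≤
        w * Fintype.card G := touch s w (P i) h (hP i hi h hPi)
    have h4 : 4 * (Finset.univ.filter fun p : Fin N × G => res s {p.1} h p.2 ∉ Q i).card ≤
        N * Fintype.card G := by
      by_contra hcon
      apply hb
      rw [hBU, Finset.mem_biUnion]
      refine ⟨i, Finset.mem_range.2 hi, ?_⟩
      rw [hBd, Finset.mem_filter]
      refine ⟨Finset.mem_univ _, hQi, ?_⟩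
      rw [Nat.card_eq_fintype_card, Nat.card_eq_fintype_card, Fintype.card_subtype]
      omega
    have h5 : out h ≤ (Finset.univ.filter fun p : Fin N × G => res s {p.1} h p.2 ∉ P i).card +
        (Finset.univ.filter fun p : Fin N × G => res s {p.1} h p.2 ∉ Q i).card := by
      rw [hout]
      refine le_trans (Finset.card_le_card ?_) (Finset.card_union_le _ _)
      intro p hp
      rw [Finset.mem_filter] at hp
      rw [Finset.mem_union, Finset.mem_filter, Finset.mem_filter]
      by_contra hcon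
      push Not at hcon
      apply hp.2
      rw [hA, Finset.mem_filter]
      exact ⟨Finset.mem_univ _, i, hi, hcon.1 (Finset.mem_univ _), hcon.2 (Finset.mem_univ _)⟩
    have h6 : 4 * (w * Fintype.card G) ≤ N * Fintype.card G := by
      calc 4 * (w * Fintype.card G) = 4 * w * Fintype.card G := by ring
        _ ≤ N * Fintype.card G := Nat.mul_le_mul_right _ hN
    omega
  have hsum : 2 * ∑ h ∈ A1, out h ≤ A1.card * (N * Fintype.card G) +
      2 * (BU.card * (N * Fintype.card G)) := by
    rw [← Finset.sum_filter_add_sum_filter_not A1 (fun h => h ∈ BU) out]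
    have h3 : ∑ h ∈ A1.filter (fun h => h ∈ BU), out h ≤ BU.card * (N * Fintype.card G) := by
      calc _ ≤ ∑ _h ∈ A1.filter (fun h => h ∈ BU), N * Fintype.card G :=
            Finset.sum_le_sum fun h _ => by
              have := hio h
              omega
        _ = (A1.filter (fun h => h ∈ BU)).card * (N * Fintype.card G) := by
            rw [Finset.sum_const, smul_eq_mul]
        _ ≤ BU.card * (N * Fintype.card G) := by
            apply Nat.mul_le_mul_right
            apply Finset.card_le_card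
            intro h hh
            exact (Finset.mem_filter.1 hh).2
    have h4 : 2 * ∑ h ∈ A1.filter (fun h => ¬ h ∈ BU), out h ≤ A1.card * (N * Fintype.card G) := by
      rw [Finset.mul_sum]
      calc _ ≤ ∑ _h ∈ A1.filter (fun h => ¬ h ∈ BU), N * Fintype.card G :=
            Finset.sum_le_sum fun h hh => by
              rw [Finset.mem_filter] at hh
              exact hgood h hh.1 hh.2
        _ = (A1.filter (fun h => ¬ h ∈ BU)).card * (N * Fintype.card G) := by
            rw [Finset.sum_const, smul_eq_mul]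
        _ ≤ A1.card * (N * Fintype.card G) := by
            apply Nat.mul_le_mul_right
            exact Finset.card_le_card (Finset.filter_subset _ _)
    omega
  -- the resamplings which stay in `A`
  set Ex : Fin N → Set (Cfg N Y B) := fun x =>
    {k | k ∈ A ∧ k ∈ dead s x ∧ ∀ x', x' ≠ x → k ∉ dead s x'} with hEx
  have hExsum : ∑ x, (Finset.univ.filter fun k => k ∈ Ex x).card ≤ AF.card := by
    rw [← Finset.card_biUnion]
    · apply Finset.card_le_card
      intro k hk
      rw [Finset.mem_biUnion] at hk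
      obtain ⟨x, -, hx⟩ := hk
      rw [Finset.mem_filter] at hx
      rw [hAF, Finset.mem_filter]
      exact ⟨hx.2.1, x, hx.2.2.1⟩
    · intro x _ x' _ hne
      change Disjoint (Finset.univ.filter fun k => k ∈ Ex x)
        (Finset.univ.filter fun k => k ∈ Ex x')
      rw [Finset.disjoint_left]
      intro k hk hk'
      rw [Finset.mem_filter] at hk hk'
      exact hk'.2.2.2 x hne hk.2.2.1
  have hRes : ∀ x : Fin N, ((Finset.univ.filter fun p : Cfg N Y B × G =>
      res s {x} p.1 p.2 ∈ Ex x).card : ℝ) * q =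
      ((Finset.univ.filter fun k => k ∈ Ex x).card : ℝ) * Fintype.card G := by
    intro x
    have h3 := h1 N Y B s x (Ex x) hB2
    have e1 : Nat.card {p : Cfg N Y B × Cfg N Y {c : B // c ≠ s} //
        res s {x} p.1 p.2 ∈ Ex x} = (Finset.univ.filter fun p : Cfg N Y B × G =>
        res s {x} p.1 p.2 ∈ Ex x).card := by
      rw [Nat.card_eq_fintype_card, Fintype.card_subtype]
    have e2 : Nat.card {h : Cfg N Y B // h ∈ Ex x ∧ h ∈ dead s x} =
        (Finset.univ.filter fun k => k ∈ Ex x).card := by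
      rw [Nat.card_eq_fintype_card, Fintype.card_subtype]
      congr 1
      apply Finset.filter_congr
      intro k _
      exact ⟨fun hk => hk.1, fun hk => ⟨hk, hk.2.1⟩⟩
    rw [e1, e2, Nat.card_eq_fintype_card] at h3
    exact h3
  have hinnsum : ∑ h ∈ A1, inn h ≤ ∑ x : Fin N, (Finset.univ.filter fun p : Cfg N Y B × G =>
      res s {x} p.1 p.2 ∈ Ex x).card := by
    have e1 : ∑ h ∈ A1, inn h = (A1.sigma fun h =>
        Finset.univ.filter fun p : Fin N × G => res s {p.1} h p.2 ∈ A).card := by
      rw [Finset.card_sigma]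
    have e2 : ∑ x : Fin N, (Finset.univ.filter fun p : Cfg N Y B × G =>
        res s {x} p.1 p.2 ∈ Ex x).card = ((Finset.univ : Finset (Fin N)).sigma fun x =>
        Finset.univ.filter fun p : Cfg N Y B × G => res s {x} p.1 p.2 ∈ Ex x).card := by
      rw [Finset.card_sigma]
    rw [e1, e2]
    apply Finset.card_le_card_of_injOn
      (fun z : (_ : Cfg N Y B) × (Fin N × G) => (⟨z.2.1, (z.1, z.2.2)⟩ :
        (_ : Fin N) × (Cfg N Y B × G)))
    · intro z hz
      obtain ⟨hz1, hz2⟩ := Finset.mem_sigma.1 (Finset.mem_coe.1 hz)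
      have hz3 := (Finset.mem_filter.1 hz2).2
      have h3 := (Finset.mem_filter.1 hz1).2
      apply Finset.mem_coe.2
      apply Finset.mem_sigma.2
      refine ⟨Finset.mem_univ _, ?_⟩
      apply Finset.mem_filter.2
      refine ⟨Finset.mem_univ _, hz3, res_dead s _ _ _, ?_⟩
      intro x' hx'
      apply res_alive s _ _ hx'
      intro hd
      exact h3 ⟨x', hd⟩
    · rintro ⟨a, b, c⟩ _ ⟨a', b', c'⟩ _ he
      simp only [Sigma.mk.injEq, heq_eq_eq, Prod.mk.injEq] at he
      obtain ⟨rfl, rfl, rfl⟩ := he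
      rfl
  -- the final computation
  have hfin1 : q * (∑ h ∈ A1, inn h : ℕ) ≤ AF.card * (Fintype.card G : ℝ) := by
    calc q * ((∑ h ∈ A1, inn h : ℕ) : ℝ) ≤ q * ((∑ x : Fin N, (Finset.univ.filter
          fun p : Cfg N Y B × G => res s {x} p.1 p.2 ∈ Ex x).card : ℕ) : ℝ) := by
          apply mul_le_mul_of_nonneg_left _ hq0
          exact_mod_cast hinnsum
      _ = ∑ x : Fin N, (((Finset.univ.filter
          fun p : Cfg N Y B × G => res s {x} p.1 p.2 ∈ Ex x).card : ℝ) * q) := by
          push_cast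
          rw [Finset.mul_sum]
          exact Finset.sum_congr rfl fun x _ => mul_comm _ _
      _ = ∑ x : Fin N, ((Finset.univ.filter fun k => k ∈ Ex x).card : ℝ) * Fintype.card G :=
          Finset.sum_congr rfl fun x _ => hRes x
      _ = ((∑ x : Fin N, (Finset.univ.filter fun k => k ∈ Ex x).card : ℕ) : ℝ) *
          Fintype.card G := by
          rw [← Finset.sum_mul]
          push_cast
          rfl
      _ ≤ AF.card * (Fintype.card G : ℝ) := by
          apply mul_le_mul_of_nonneg_right _ (Nat.cast_nonneg _)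
          exact_mod_cast hExsum
  have hfin2 : (∑ h ∈ A1, inn h : ℕ) + (∑ h ∈ A1, out h : ℕ) =
      A1.card * (N * Fintype.card G) := by
    rw [← Finset.sum_add_distrib, Finset.sum_congr rfl fun h _ => hio h, Finset.sum_const,
      smul_eq_mul]
  set I : ℝ := ((∑ h ∈ A1, inn h : ℕ) : ℝ) with hI
  set O : ℝ := ((∑ h ∈ A1, out h : ℕ) : ℝ) with hO
  set g : ℝ := (Fintype.card G : ℝ) with hg
  set β : ℝ := (1 / 2) ^ (N / (32 * w)) * (Nat.card (Cfg N Y B) : ℝ) with hβ
  have hg0 : 0 < g := by
    rw [hg]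
    exact_mod_cast hGpos
  have f1 : I + O = A1.card * (N * g) := by
    rw [hI, hO, hg]
    exact_mod_cast hfin2
  have f2 : 2 * O ≤ A1.card * (N * g) + 2 * (BU.card * (N * g)) := by
    rw [hO, hg]
    exact_mod_cast hsum
  have hNg : 0 ≤ (N : ℝ) * g := by positivity
  have f3 : (BU.card : ℝ) * (N * g) ≤ n * β * (N * g) :=
    mul_le_mul_of_nonneg_right hBUcard hNg
  have f4 : (A1.card : ℝ) * (N * g) ≤ 2 * I + 2 * (n * β * (N * g)) := by linarith
  have f5 : q * ((A1.card : ℝ) * (N * g)) ≤ q * (2 * I + 2 * (n * β * (N * g))) :=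
    mul_le_mul_of_nonneg_left f4 hq0
  have f6 : (N * q * (A1.card : ℝ)) * g ≤ (2 * AF.card + N * q * (2 * (n * β))) * g := by
    calc (N * q * (A1.card : ℝ)) * g = q * ((A1.card : ℝ) * (N * g)) := by ring
      _ ≤ q * (2 * I + 2 * (n * β * (N * g))) := f5
      _ = 2 * (q * I) + N * q * (2 * (n * β)) * g := by ring
      _ ≤ 2 * (AF.card * g) + N * q * (2 * (n * β)) * g := by linarith
      _ = (2 * AF.card + N * q * (2 * (n * β))) * g := by ring
  have f7 := le_of_mul_le_mul_right f6 hg0
  have f8 : (N * q) * (AF.card : ℝ) ≤ 1 * AF.card :=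
    mul_le_mul_of_nonneg_right hq (Nat.cast_nonneg _)
  have f9 : (A.card : ℝ) = AF.card + A1.card := by
    rw [← hsplit]
    push_cast
    rfl
  rw [eA, eAF, f9]
  have f10 : (N : ℝ) * q * (2 * n * (1 / 2) ^ (N / (32 * w)) * (Nat.card (Cfg N Y B) : ℝ)) =
      N * q * (2 * (n * β)) := by
    rw [hβ]
    ring
  rw [f10]
  have f11 : (N : ℝ) * q * (AF.card + A1.card) = N * q * AF.card + N * q * A1.card := by ring
  rw [f11]
  linarith

end Pool.Agent.RH
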