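import Pool.Agent.RO.PDefs

/-!
# Reflection beyond consistency relative to a random oracle: the probabilistic part

`Om = ℕ → Bool` with the fair coin measure. A family of disjoint windows of bit positions: the
window `d` of size `M = m d` has `2 ^ pex M` targets `x`, every target has `yy M` blocks `y`, and
every block has `M` bits, the bits of block `y` of target `x` being at the positions `β d x y i`,
`i < M`. A target is dead if none of its blocks consists of ones only. The window fails at level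
`a` if one of its first `2 ^ (pex M - r a)` targets is dead. The probability of this is about
`2 ^ (- r a)`.
-/

open MeasureTheory

namespace Pool.Agent.RH

open Pool.Agent.RO (Om coin IndepOf st)

/-- The number of targets of a window of size `M` is `2 ^ pex M`, which is about `exp M`. -/
def pex (M : ℕ) : ℕ := ((M + 1) ^ (M * M)).size - (M ^ (M * M)).size - 1

/-- The number of blocks of a target in a window of size `M`. -/
def yy (M : ℕ) : ℕ := M * 2 ^ M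

/-- The positions of the window `d`. -/
def Win (m : ℕ → ℕ) (β : ℕ → ℕ → ℕ → ℕ → ℕ) (d : ℕ) : Set ℕ :=
  {n | ∃ x < 2 ^ pex (m d), ∃ y < yy (m d), ∃ i < m d, n = β d x y i}

/-- A system of windows of sizes `m d` with levels `r a`. -/
structure WinSys (m r : ℕ → ℕ) (β : ℕ → ℕ → ℕ → ℕ → ℕ) : Prop where
  mono : StrictMono m
  big : ∀ d, 100 ≤ m d
  rmono : StrictMono r
  rle : ∀ d, 4 * r d ≤ m d
  inj : ∀ d x y i d' x' y' i', x < 2 ^ pex (m d) → y < yy (m d) → i < m d →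
    x' < 2 ^ pex (m d') → y' < yy (m d') → i' < m d' → β d x y i = β d' x' y' i' →
    d = d' ∧ x = x' ∧ y = y' ∧ i = i'

/-- The set of oracles `E` is, at its member `R`, witnessed by at most `k` bits, none of them in a
window after `d`. -/
def LocAt (m : ℕ → ℕ) (β : ℕ → ℕ → ℕ → ℕ → ℕ) (d k : ℕ) (E : Set Om) (R : Om) : Prop :=
  ∃ Q : Finset ℕ, Q.card ≤ k ∧ (∀ n ∈ Q, ∀ d', d < d' → n ∉ Win m β d') ∧
    ∀ R' : Om, (∀ n ∈ Q, R' n = R n) → R' ∈ E

/-- The acceptance event `A d` of window `d` is a union of at most `2 ^ 2 ^ (m d / 4)` events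
`P i ∩ N i`, where `P i` and the complement of `N i` are witnessed by at most `2 ^ (m d / 4)`
bits, none of them in a later window. -/
def Loc2 (m : ℕ → ℕ) (β : ℕ → ℕ → ℕ → ℕ → ℕ) (A : ℕ → Set Om) : Prop :=
  ∀ d, ∃ (n : ℕ) (P N : ℕ → Set Om), n ≤ 2 ^ 2 ^ (m d / 4) ∧
    A d = {R | ∃ i < n, R ∈ P i ∧ R ∈ N i} ∧
    (∀ i < n, ∀ R ∈ P i, LocAt m β d (2 ^ (m d / 4)) (P i) R) ∧
    (∀ i < n, ∀ R, R ∉ N i → LocAt m β d (2 ^ (m d / 4)) (N i)ᶜ R)

/-- The target `x` of window `d` is dead. -/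
def Dead (m : ℕ → ℕ) (β : ℕ → ℕ → ℕ → ℕ → ℕ) (d x : ℕ) : Set Om :=
  {R | ∀ y < yy (m d), ∃ i < m d, R (β d x y i) = false}

/-- The window `d` fails at level `a`: one of its first `2 ^ (pex (m d) - r a)` targets is
dead. -/
def Fa (m r : ℕ → ℕ) (β : ℕ → ℕ → ℕ → ℕ → ℕ) (a d : ℕ) : Set Om :=
  {R | ∃ x < 2 ^ (pex (m d) - r a), R ∈ Dead m β d x}

/-- The failure event of window `d`: it fails at level `a`, where `a` is the start of the current
run of acceptances. -/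
def FF (m r : ℕ → ℕ) (β : ℕ → ℕ → ℕ → ℕ → ℕ) (A : ℕ → Set Om) (d : ℕ) : Set Om :=
  {R | R ∈ Fa m r β (st A R d) d}

/-- There is an error: a window which is accepted and fails. -/
def Err (m r : ℕ → ℕ) (β : ℕ → ℕ → ℕ → ℕ → ℕ) (A : ℕ → Set Om) : Set Om :=
  {R | ∃ d, R ∈ A d ∧ R ∈ FF m r β A d}

/-- No error before window `d`. -/
def NoErr (m r : ℕ → ℕ) (β : ℕ → ℕ → ℕ → ℕ → ℕ) (A : ℕ → Set Om) (d : ℕ) : Set Om :=
  {R | ∀ d' < d, ¬ (R ∈ A d' ∧ R ∈ FF m r β A d')}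

/-! ### Finite combinatorics -/

/-- NUM: the numbers of targets and blocks. -/
def Stmt_NUM : Prop := ∀ M : ℕ, 100 ≤ M → M ≤ pex M ∧ pex M ≤ 2 * M ∧
  (2 : ℝ) ^ pex M * (1 - 1 / 2 ^ M) ^ yy M ≤ 1 ∧
  1 ≤ 32 * ((2 : ℝ) ^ pex M * (1 - 1 / 2 ^ M) ^ yy M)

open Classical in
/-- HIT: hitting a family of small sets by a sparse random set `μ ⊆ U`, every element of which
has weight `1` if chosen and `b - 1` if not. `N μ` is a lower bound for the number of elements of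
the subsets of `μ` that hit the family `F`. -/
def Stmt_HIT : Prop := ∀ (I : Type) (b w : ℕ), 1 ≤ w → 8 * w ≤ b →
  ∀ (U : Finset I) (F : Set (Finset I)), (∀ C ∈ F, C ⊆ U ∧ C.card ≤ w) →
  ∀ N : Finset I → ℕ,
  (∀ μ ⊆ U, ∀ D ⊆ μ, (∀ C ∈ F, (C ∩ D).Nonempty) → N μ ≤ D.card) →
  ∑ μ ∈ U.powerset.filter (fun μ => ∀ C ∈ F, (C ∩ μ).Nonempty),
    (b - 1) ^ (U \ μ).card * 2 ^ N μ ≤ b ^ U.card

/-- PUSH: the distribution of the image of a random function under a map of its values. -/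
def Stmt_PUSH : Prop := ∀ (I A C : Type) [Fintype I] [DecidableEq I] [Fintype A] [Fintype C]
  [DecidableEq C] (φ : I → A → C) (f : (I → C) → ℕ),
  ∑ h : I → A, f (fun i => φ i (h i)) =
    ∑ k : I → C, f k * ∏ i, (Finset.univ.filter fun a => φ i a = k i).card

/-- The contents of the blocks. -/
abbrev Cfg (N Y : ℕ) (B : Type) : Type := Fin N → Fin Y → B

open Classical in
/-- Replace the blocks equal to `s` of the targets in `S` by those of `g`. -/
noncomputable def res {N Y : ℕ} {B : Type} (s : B) (S : Set (Fin N)) (h : Cfg N Y B)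
    (g : Cfg N Y {c : B // c ≠ s}) : Cfg N Y B :=
  fun x y => if x ∈ S ∧ h x y = s then (g x y).1 else h x y

/-- The target `x` is dead. -/
def dead {N Y : ℕ} {B : Type} (s : B) (x : Fin N) : Set (Cfg N Y B) := {h | ∀ y, h x y ≠ s}

/-- `E` is witnessed at `h` by the contents of at most `k` blocks. -/
def LocF {N Y : ℕ} {B : Type} (k : ℕ) (E : Set (Cfg N Y B)) (h : Cfg N Y B) : Prop :=
  ∃ Q : Finset (Fin N × Fin Y), Q.card ≤ k ∧
    ∀ h' : Cfg N Y B, (∀ p ∈ Q, h' p.1 p.2 = h p.1 p.2) → h' ∈ E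

/-- RES: a resampled configuration is a configuration in which the target is dead. -/
def Stmt_RES : Prop := ∀ (N Y : ℕ) (B : Type) [Fintype B] (s : B) (x : Fin N)
  (E : Set (Cfg N Y B)), 2 ≤ Fintype.card B →
  (Nat.card {p : Cfg N Y B × Cfg N Y {c : B // c ≠ s} // res s {x} p.1 p.2 ∈ E} : ℝ) *
      (1 - 1 / Fintype.card B) ^ Y =
    Nat.card {h : Cfg N Y B // h ∈ E ∧ h ∈ dead s x} * Nat.card (Cfg N Y {c : B // c ≠ s})

open Classical in
/-- The number of targets `x` in `S` whose resampling by `g` leaves `E`, as witnessed by at most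
`w` blocks that belong to no other target in `S`. -/
noncomputable def zz {N Y : ℕ} {B : Type} (s : B) (w : ℕ) (E : Set (Cfg N Y B)) (S : Set (Fin N))
    (h : Cfg N Y B) (g : Cfg N Y {c : B // c ≠ s}) : ℕ :=
  (Finset.univ.filter fun x : Fin N => x ∈ S ∧ ∃ Q : Finset (Fin N × Fin Y), Q.card ≤ w ∧
    (∀ h' : Cfg N Y B, (∀ p ∈ Q, h' p.1 p.2 = res s {x} h g p.1 p.2) → h' ∉ E) ∧
    ∀ p ∈ Q, p.1 ∈ S → p.1 = x).card

open Classical in
/-- BADA: for a fixed set `S` of targets the number `zz` is small on the average. -/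
def Stmt_BADA : Prop := ∀ (N Y : ℕ) (B : Type) [Fintype B] (s : B) (w : ℕ), 1 ≤ w →
  8 * w ≤ Fintype.card B → ∀ (E : Set (Cfg N Y B)) (S : Set (Fin N)),
  ∑ p : Cfg N Y B × Cfg N Y {c : B // c ≠ s}, (if p.1 ∈ E then 2 ^ zz s w E S p.1 p.2 else 0) ≤
    Fintype.card (Cfg N Y B) * Fintype.card (Cfg N Y {c : B // c ≠ s})

open Classical in
/-- BADB: if many resamplings of one target leave `E` then the number `zz` is large on the
average over `S` (random of density `1 / (4 w)`) and `g`. -/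
def Stmt_BADB : Prop := ∀ (N Y : ℕ) (B : Type) [Fintype B] (s : B) (w : ℕ), 1 ≤ w →
  ∀ E : Set (Cfg N Y B), (∀ h, h ∉ E → LocF w Eᶜ h) → ∀ h : Cfg N Y B,
  N * Fintype.card (Cfg N Y {c : B // c ≠ s}) <
    4 * Fintype.card {p : Fin N × Cfg N Y {c : B // c ≠ s} // res s {p.1} h p.2 ∉ E} →
  (4 * w) ^ N * Fintype.card (Cfg N Y {c : B // c ≠ s}) * 2 ^ (N / (32 * w)) ≤
    ∑ σ : Fin N → Fin (4 * w), ∑ g : Cfg N Y {c : B // c ≠ s},
      2 ^ zz s w E {x | (σ x : ℕ) = 0} h g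

/-- BAD: the configurations for which many resamplings of one target leave `E`, where the
complement of `E` is witnessed by few blocks. -/
def Stmt_BAD : Prop := ∀ (N Y : ℕ) (B : Type) [Fintype B] (s : B) (w : ℕ), 1 ≤ w →
  8 * w ≤ Fintype.card B → ∀ E : Set (Cfg N Y B), (∀ h, h ∉ E → LocF w Eᶜ h) →
  Nat.card {h : Cfg N Y B // h ∈ E ∧ N * Nat.card (Cfg N Y {c : B // c ≠ s}) <
      4 * Nat.card {p : Fin N × Cfg N Y {c : B // c ≠ s} // res s {p.1} h p.2 ∉ E}} *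
    2 ^ (N / (32 * w)) ≤ Nat.card (Cfg N Y B)

/-- FIN: the window lemma for configurations. -/
def Stmt_FIN : Prop := ∀ (N Y : ℕ) (B : Type) [Fintype B] (s : B) (w n : ℕ), 1 ≤ w →
  8 * w ≤ Fintype.card B → 4 * w ≤ N → (N : ℝ) * (1 - 1 / Fintype.card B) ^ Y ≤ 1 →
  ∀ (P Q : ℕ → Set (Cfg N Y B)), (∀ i < n, ∀ h ∈ P i, LocF w (P i) h) →
  (∀ i < n, ∀ h, h ∉ Q i → LocF w (Q i)ᶜ h) →
  (N : ℝ) * (1 - 1 / Fintype.card B) ^ Y *
      Nat.card {h : Cfg N Y B // ∃ i < n, h ∈ P i ∧ h ∈ Q i} ≤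
    3 * Nat.card {h : Cfg N Y B // (∃ i < n, h ∈ P i ∧ h ∈ Q i) ∧ ∃ x, h ∈ dead s x} +
      (N : ℝ) * (1 - 1 / Fintype.card B) ^ Y *
        (2 * n * (1 / 2) ^ (N / (32 * w)) * Nat.card (Cfg N Y B))

/-! ### Measure -/

open Classical in
/-- Fill in the bits `ω` at the positions `γ`. -/
noncomputable def fill {N Y M : ℕ} (γ : Fin N → Fin Y → Fin M → ℕ)
    (ω : Fin N → Fin Y → Fin M → Bool) (R : Om) : Om := fun n =>
  if h : ∃ p : Fin N × Fin Y × Fin M, γ p.1 p.2.1 p.2.2 = n then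
    ω h.choose.1 h.choose.2.1 h.choose.2.2 else R n

/-- FIBER: averaging over the contents of finitely many positions. -/
def Stmt_FIBER : Prop := ∀ (N Y M : ℕ) (γ : Fin N → Fin Y → Fin M → ℕ),
  (∀ x y i x' y' i', γ x y i = γ x' y' i' → x = x' ∧ y = y' ∧ i = i') →
  ∀ E : Set Om, MeasurableSet E →
    ∑ ω : Fin N → Fin Y → Fin M → Bool, coin {R | fill γ ω R ∈ E} =
      (2 : ENNReal) ^ (N * Y * M) * coin E

/-- MEAS: measurability and independence of later windows. -/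
def Stmt_MEAS : Prop := ∀ (m r : ℕ → ℕ) (β : ℕ → ℕ → ℕ → ℕ → ℕ) (A : ℕ → Set Om),
  WinSys m r β → Loc2 m β A →
  (∀ d, MeasurableSet (A d)) ∧ (∀ d d', d < d' → IndepOf (Win m β d') (A d)) ∧
  (∀ a d, MeasurableSet {R | st A R d = a}) ∧
  (∀ a d d', d ≤ d' → IndepOf (Win m β d') {R | st A R d = a}) ∧
  (∀ a d, MeasurableSet (Fa m r β a d)) ∧
  (∀ a d d', d < d' → IndepOf (Win m β d') (Fa m r β a d)) ∧
  (∀ d, MeasurableSet (FF m r β A d)) ∧
  (∀ d d', d < d' → IndepOf (Win m β d') (FF m r β A d)) ∧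
  (∀ d, MeasurableSet (NoErr m r β A d)) ∧
  (∀ d d', d ≤ d' → IndepOf (Win m β d') (NoErr m r β A d)) ∧
  MeasurableSet (Err m r β A) ∧ (∀ R d, st A R d ≤ d)

/-- RISK: the probability of a failure at level `a`, given the past. -/
def Stmt_RISK : Prop := ∀ (m r : ℕ → ℕ) (β : ℕ → ℕ → ℕ → ℕ → ℕ), WinSys m r β →
  ∀ (a d : ℕ), a ≤ d → ∀ G : Set Om, MeasurableSet G → IndepOf (Win m β d) G →
    coin (Fa m r β a d ∩ G) ≤ (2⁻¹ : ENNReal) ^ r a * coin G

/-- WINDOW: if window `d` is accepted with sizeable probability given the past, then an error has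
sizeable probability. -/
def Stmt_WINDOW : Prop := ∀ (m r : ℕ → ℕ) (β : ℕ → ℕ → ℕ → ℕ → ℕ) (A : ℕ → Set Om),
  WinSys m r β → Loc2 m β A →
  ∀ (a d : ℕ), a ≤ d → ∀ G : Set Om, MeasurableSet G → IndepOf (Win m β d) G →
    (2⁻¹ : ENNReal) ^ r a * coin (A d ∩ G) ≤
      100 * coin (A d ∩ Fa m r β a d ∩ G) +
        (2⁻¹ : ENNReal) ^ r a * ((2⁻¹ : ENNReal) ^ m d * coin G)

/-- PROC: the analysis of one process of windows. -/
def Stmt_PROC : Prop := ∀ (m r : ℕ → ℕ) (β : ℕ → ℕ → ℕ → ℕ → ℕ) (A : ℕ → Set Om),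
  WinSys m r β → Loc2 m β A →
  (∀ G : Set Om, MeasurableSet G → (∀ d, IndepOf (Win m β d) G) →
    coin (G ∩ {R | R ∉ Err m r β A ∧ ∃ d, R ∈ FF m r β A d}) ≤
      4 * (2⁻¹ : ENNReal) ^ r 0 + 100 * coin (G ∩ Err m r β A)) ∧
  (∀ᵐ R ∂coin, R ∉ Err m r β A → ∀ D, ∃ d ≥ D, R ∉ A d)

/-- CORE: the probabilistic theorem. For every `j` there is a process `A j` on the windows
`j, j + 1, …`. Almost surely there is an error in some process, or some process never fails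
although infinitely many of its windows are not accepted. -/
def Stmt_CORE : Prop := ∀ (m r : ℕ → ℕ) (β : ℕ → ℕ → ℕ → ℕ → ℕ) (A : ℕ → ℕ → Set Om),
  WinSys m r β → (∀ j, Loc2 (fun d => m (j + d)) (fun d => β (j + d)) (A j)) →
  ∀ᵐ R ∂coin,
    (∃ j, R ∈ Err (fun d => m (j + d)) (fun d => r (j + d)) (fun d => β (j + d)) (A j)) ∨
    ∃ j, (∀ d, R ∉ FF (fun d => m (j + d)) (fun d => r (j + d)) (fun d => β (j + d)) (A j) d) ∧
      ∀ D, ∃ d ≥ D, R ∉ A j d

end Pool.Agent.RH
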