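import Pool.Agent.RO.PROGRAM
import Pool.Agent.Lib_helper19.SatNP

/-!
# NP relative to an oracle: statements of the modules of group U

Truth of `Σ^b_1(O)` formulas is in NP relative to `O`, uniformly in `O`; NP relations relative to
`O` are instances of the universal formula; padded sentences; true sentences `¬ μ(e, x, z)` as
additional axioms; `Σ^b_1(O)` completeness.
-/

namespace Pool.Agent.RH

open Pool.Agent.RO
open Pool.Agent.H19 (T PolyTime PolyDec PolyN PolyB Tm scons bn bl vec3 vec4 tt envOf)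

/-! ### NP predicates relative to an oracle -/

/-- Predicates in NP relative to the oracle, uniformly in the oracle. -/
def NPOn (R : Om → T → Prop) : Prop :=
  ∃ (D : Om → T → Prop) (k : ℕ), DecOn Set.univ D ∧
    (∀ O x, R O x → ∃ w : T, w.size ≤ (x.size + 2) ^ k ∧ D O (T.node x w)) ∧
    ∀ O x w, D O (T.node x w) → R O x

/-- SATNP: truth of `Σ^b_1(O)` formulas and falsity of `Π^b_1(O)` formulas are in NP relative to
`O`. -/
def Stmt_SATNP : Prop := ∀ φ : Fm,
  (φ.isSigma = true → NPOn (fun O E => φ.sat (stdN O) (envOf E))) ∧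
  (φ.isPi = true → NPOn (fun O E => ¬ φ.sat (stdN O) (envOf E)))

/-- SATW: the same in the form of witnesses (`W O E w`: `w` is a witness for `E`). -/
def Stmt_SATW : Prop := ∀ φ : Fm, φ.isSigma = true →
  ∃ (W : Om → T → T → Prop) (G : ℕ), DecOn Set.univ (fun O z => W O z.left z.right) ∧
    (∀ O E w, W O E w → w.size ≤ (E.size + 2) ^ G) ∧
    ∀ O E, φ.sat (stdN O) (envOf E) ↔ ∃ w, W O E w

/-- SATLOC: the truth of a `Σ^b_1(O)` formula has a certificate of polynomially many bits of the
oracle, at positions of polynomial length. -/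
def Stmt_SATLOC : Prop := ∀ φ : Fm, φ.isSigma = true → ∃ G : ℕ, ∀ (O : Om) (E : T),
  φ.sat (stdN O) (envOf E) → ∃ Q : Finset ℕ, Q.card ≤ (E.size + 2) ^ G ∧
    (∀ n ∈ Q, n.size ≤ (E.size + 2) ^ G) ∧
    ∀ O' : Om, (∀ n ∈ Q, O' n = O n) → φ.sat (stdN O') (envOf E)

/-! ### NP relations as instances of the universal formula -/

/-- DEFO: NP relations relative to `O` are definable by a formula of the class, the same for all
oracles. -/
def Stmt_DEFO : Prop :=
  ∀ (μ : Fm) (P : OCode → ℕ → Fm), IsUniversal μ → IsFormalisation μ P →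
  ∀ F : Om → T → T → Prop, DecOn Set.univ (fun O z => F O z.left z.right) →
    (∀ O X y, F O X y → y.size ≤ X.size) →
    ∃ (α : Fm) (nx : T → ℕ), α.isSigma = true ∧ α.fvBelow 1 ∧ PolyN nx ∧
      ∀ (O : Om) (X : T) (v : ℕ → ℕ), α.sat (stdN O) (scons (nx X) v) ↔ ∃ y, F O X y

/-- UNIVO: NP relations relative to `O` as instances of the universal formula. -/
def Stmt_UNIVO : Prop :=
  ∀ (μ : Fm) (P : OCode → ℕ → Fm), IsUniversal μ → IsFormalisation μ P →
  ∀ F : Om → T → T → Prop, DecOn Set.univ (fun O z => F O z.left z.right) →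
    (∀ O X y, F O X y → y.size ≤ X.size) →
    ∃ (e : ℕ) (nx nz : T → ℕ), PolyN nx ∧ PolyN nz ∧
      ∀ O X, μ.sat (stdN O) (vec3 e (nx X) (nz X)) ↔ ∃ y, F O X y

/-! ### Padded sentences -/

/-- The sentence `φ` together with a tree: `tt v = tt v → φ`. -/
def padF (v : T) (φ : Fm) : Fm := Fm.imp (Fm.eq (tt v) (tt v)) φ

/-- The proof of `φ` from `padF v φ`. -/
def unpad (v : T) (φ : Fm) : List Step :=
  [Step.hyp (padF v φ), Step.refl (tt v), Step.mp (Fm.eq (tt v) (tt v)) φ]

/-- PADF: facts about padded sentences. The tree is recovered by `unfalsum` from the code, the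
code of the sentence as `x.right.right`. -/
structure PadF : Prop where
  polyUn : PolyTime unfalsum
  poly : PolyTime (fun z => (padF z.left (decFm z.right)).enc)
  un : ∀ v φ, unfalsum (padF v φ).enc = v
  form : ∀ v φ, (padF v φ).enc.right.right = φ.enc
  proof : ∀ (Th : Set Fm) v φ, padF v φ ∈ Th → IsProof Th (unpad v φ) φ
  size : ∀ v φ, (encProof (unpad v φ)).size ≤ 100 * (v.size + φ.enc.size + 1)
  sigma : ∀ v φ, (padF v φ).isSigma = φ.isSigma
  below : ∀ v φ k, (padF v φ).fvBelow k ↔ φ.fvBelow k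
  sat : ∀ (M : Type) (A : Str M) (v : T) (φ : Fm) (w : ℕ → M), (padF v φ).sat A w ↔ φ.sat A w

/-! ### True sentences as axioms -/

/-- The true sentences `¬ μ(e, x, z)`. -/
def trueNeg (μ : Fm) (O : Om) : Set Fm :=
  {φ | ∃ e x z : ℕ, ¬ μ.sat (stdN O) (vec3 e x z) ∧ φ = Fm.neg (inst3 μ e x z)}

/-- CONSPLUS: these sentences are consistent with every consistent theory containing `S^1_2(O)`
and the diagram; indeed they are true in its models. -/
def Stmt_CONSPLUS : Prop := ∀ (μ : Fm) (O : Om) (Th : Set Fm), μ.isSigma = true →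
  μ.fvBelow 3 → S12 ⊆ Th → diag O ⊆ Th →
    (∀ (M : Type) (A : Str M), A.Models Th → A.Models (Th ∪ trueNeg μ O)) ∧
    (Consistent Th → Consistent (Th ∪ trueNeg μ O))

/-- SIGMATRUE: true closed bounded sentences hold in all models of `S^1_2(O)` and the diagram. -/
def Stmt_SIGMATRUE : Prop := ∀ (O : Om) (φ : Fm), φ.bdd = true → φ.fvBelow 0 →
  φ.sat (stdN O) (fun _ => 0) → ∀ (M : Type) (A : Str M), A.Models S12 → A.Models (diag O) →
    ∀ w, φ.sat A w

/-- SIGMAPROV: true closed `Σ^b_1(O)` sentences are provable from `S^1_2(O)` and the diagram. -/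
def Stmt_SIGMAPROV : Prop := ∀ (O : Om) (Th : Set Fm) (φ : Fm), S12 ⊆ Th → diag O ⊆ Th →
  φ.isSigma = true → φ.fvBelow 0 → φ.sat (stdN O) (fun _ => 0) → Provable Th φ

end Pool.Agent.RH
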