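import Pool.Agent.RH.Cst
import Pool.Agent.RN.ACCFF

/-!
# ACCFF: an accepted description with a false instance shows a failure

Adapted from `Pool/Agent/RN/ACCFF.lean`.
-/

namespace Pool.Agent.RH

open Pool.Agent.H19 (T PolyTime PolyDec PolyNat PolyN Tm scons bn bl ofBool encL tif envOf)
open Pool.Agent.RO

namespace ACCFF

/-- The members of a coded list are small. -/
theorem size_le_of_mem {a : T} : ∀ {x : T}, a ∈ x.toL → a.size ≤ x.size := by
  intro x
  induction x with
  | leaf =>
    intro h
    simp [H19.T.toL] at h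
  | node b c _ ih =>
    intro h
    simp only [H19.T.toL, List.mem_cons] at h
    simp only [H19.T.size]
    rcases h with h | h
    · rw [h]
      omega
    · have := ih h
      omega

/-- The towers are strictly increasing. -/
theorem tow_mono : StrictMono tow := by
  have h := (RN.windows ⟨fun _ => false, OCode.id, 0, fun _ _ => Fm.bot, 0, 0⟩).mono
  have h1 : (RN.Par.m ⟨fun _ => false, OCode.id, 0, fun _ _ => Fm.bot, 0, 0⟩) = tow := by
    funext t
    unfold RN.Par.m
    simp
  rw [h1] at h
  exact h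

theorem lgN_mono {a b : ℕ} (h : a ≤ b) : lgN a ≤ lgN b := by
  unfold lgN
  have := Nat.size_le_size h
  omega

/-- The derivations in a chain show that the windows below are accepted. -/
theorem chain_acc (p : Par) (q : T) (R : Om) : ∀ (C : T) (s : ℕ), p.s0 ≤ s →
    p.Chain q C (tow s) →
    (∀ E ∈ C.toL, (∀ ψ ∈ hyps (decProof E.left), ψ ∈ p.S (join p.A R) ∨ ψ ∈ p.negs1 E) ∧
      ∀ t ∈ E.right.toL, ¬ p.μ.sat (stdN (join p.A R)) (envOf t)) →
    p.s0 + C.len ≤ s ∧ lgN^[C.len] (tow s) = tow (s - C.len) ∧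
      ∀ u, s - C.len ≤ u → u < s → R ∈ p.Acc q (u - p.s0) := by
  have hm := tow_mono
  intro C
  induction C with
  | leaf =>
    intro s hs _ _
    refine ⟨by simpa using hs, rfl, ?_⟩
    intro u h1 h2
    simp only [H19.T.len_leaf] at h1
    omega
  | node E C _ ih =>
    intro s hs hC hE
    obtain ⟨h1, ⟨h2, h3, h4⟩, h5⟩ := hC
    have hpos : 1 ≤ p.m 0 := by
      unfold Par.m
      exact Nat.one_le_iff_ne_zero.2 (by
        intro h0
        have := hm.le_apply (x := p.s0 + 0)
        have h00 : p.s0 + 0 = 0 := by omega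
        rw [h00] at h0
        exact absurd h0 (by decide))
    cases s with
    | zero =>
      exfalso
      have : lgN (tow 0) = 0 := by decide
      rw [this] at h2
      omega
    | succ s =>
      have hl : lgN (tow (s + 1)) = tow s := RN.ACCFF.lgN_two_pow _
      rw [hl] at h2 h3 h4 h5
      have hs' : p.s0 ≤ s := by
        have h6 : tow (p.s0 + 0) ≤ tow s := h2
        exact hm.le_iff_le.1 h6
      obtain ⟨g1, g2, g3⟩ := ih s hs' h5 (fun E' hE' => hE E' (by
        simp only [H19.T.toL, List.mem_cons]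
        exact Or.inr hE'))
      have hlen : (T.node E C).len = C.len + 1 := rfl
      refine ⟨by omega, ?_, ?_⟩
      · rw [hlen, Function.iterate_succ, Function.comp_apply, hl, g2]
        congr 1
        omega
      · intro u hu1 hu2
        rcases Nat.lt_or_ge u s with h | h
        · exact g3 u (by omega) h
        · have hus : u = s := by omega
          subst hus
          have e1 : p.m (u - p.s0) = tow u := by
            unfold Par.m
            congr 1
            omega
          have hEE := hE E (by simp [H19.T.toL])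
          refine ⟨E, ?_, ?_⟩
          · rw [e1]
            exact h3
          · rw [e1]
            exact ⟨h4, hEE.1, hEE.2⟩

/-- A number below `yy M` has a short code. -/
theorem bl_yy {M y : ℕ} (h : y < yy M) : (bl y).size ≤ 8 * M + 1 := by
  have h1 : y < 2 ^ (2 * M) := by
    refine lt_of_lt_of_le h ?_
    unfold yy
    have h2 : M ≤ 2 ^ M := Nat.lt_two_pow_self.le
    calc M * 2 ^ M ≤ 2 ^ M * 2 ^ M := Nat.mul_le_mul_right _ h2
      _ = 2 ^ (2 * M) := by rw [← pow_add]; congr 1; omega
  have h2 : y.size ≤ 2 * M := Nat.size_le.2 h1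
  have h3 := H19.bl_size y
  omega

theorem bd_ge (G : ℕ) (v : T) : 8 * v.size + 16 ≤ bd G v := by
  unfold bd
  have h1 : (v.size + 2) ^ 4 ≤ (v.size + 2) ^ (G + 4) :=
    Nat.pow_le_pow_right (by omega) (by omega)
  have h2 : 8 ≤ (v.size + 2) ^ 3 := by
    calc 8 = 2 ^ 3 := by norm_num
      _ ≤ (v.size + 2) ^ 3 := Nat.pow_le_pow_left (by omega) 3
  have h3 : 8 * (v.size + 2) ≤ (v.size + 2) ^ 3 * (v.size + 2) := Nat.mul_le_mul_right _ h2
  have h4 : (v.size + 2) ^ 3 * (v.size + 2) = (v.size + 2) ^ 4 := (pow_succ _ 3).symm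
  omega

theorem bd_ge' (G : ℕ) (v : T) : (v.size + 2) ^ G + 4 ≤ bd G v := by
  unfold bd
  have h1 : 1 ≤ (v.size + 2) ^ G := Nat.one_le_pow _ _ (by omega)
  have h2 : 16 ≤ (v.size + 2) ^ 4 := by
    calc 16 = 2 ^ 4 := by norm_num
      _ ≤ (v.size + 2) ^ 4 := Nat.pow_le_pow_left (by omega) 4
  have h3 : (v.size + 2) ^ (G + 4) = (v.size + 2) ^ G * (v.size + 2) ^ 4 := pow_add _ _ _
  have h4 : (v.size + 2) ^ G * 16 ≤ (v.size + 2) ^ G * (v.size + 2) ^ 4 :=
    Nat.mul_le_mul_left _ h2
  omega

/-- The NP relation at the input attached to a description. -/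
theorem FW_Xv (W : Om → T → T → Prop) (O : Om) (G : ℕ) (v y : T) : FW W O (Xv G v) y ↔
    (y.size ≤ bd G v ∧
      ((y.left = T.leaf ∧ bn y.right < yy v.left.len ∧
        ∀ i < v.left.len,
          O (2 * posH v.left.len (bn v.right.left) (bn y.right) i + 1) = true) ∨
      (y.left ≠ T.leaf ∧
        ∃ t ∈ v.right.right.toL.flatMap (fun E => E.right.toL), W O t y.right))) := by
  have h1 : (Xv G v).left.len = bd G v := H19.T.len_unary _
  have h2 : (Xv G v).right.left.left = v.left := rfl
  have h3 : (Xv G v).right.left.right = v.right.left := rfl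
  have h4 : (Xv G v).right.right.toL = v.right.right.toL.flatMap (fun E => E.right.toL) :=
    H19.toL_encL _
  unfold FW
  rw [h1, h2, h3, h4]

end ACCFF

open ACCFF in
/-- ACCFF: an accepted description with a false instance shows a failure. -/
theorem ACCFF_thm (_ : Stmt_NUM) : Stmt_ACCFF := by
  intro p hG q R v hv hno
  obtain ⟨⟨⟨s, hs⟩, hm0, hx, hC⟩, hit⟩ := hv
  have hm := tow_mono
  have hs' : p.s0 ≤ s := by
    have h6 : tow (p.s0 + 0) ≤ tow s := by
      rw [← hs]
      exact hm0
    exact hm.le_iff_le.1 h6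
  rw [hs] at hC
  have hvr : v.right.right.size ≤ v.size :=
    (H19.T.size_right_le _).trans (H19.T.size_right_le _)
  -- the listed negative instances are true
  have hneg : ∀ E ∈ v.right.right.toL, ∀ t ∈ E.right.toL,
      ¬ p.μ.sat (stdN (join p.A R)) (envOf t) := by
    intro E hE t ht hsat
    obtain ⟨w, hw⟩ := (hG.wsat _ _).1 hsat
    apply hno (T.node (T.node T.leaf T.leaf) w)
    rw [FW_Xv]
    refine ⟨?_, Or.inr ⟨by simp, t, ?_, ?_⟩⟩
    · have h1 := hG.wsize _ _ _ hw
      have h2 : t.size ≤ v.size :=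
        (size_le_of_mem ht).trans ((H19.T.size_right_le _).trans ((size_le_of_mem hE).trans hvr))
      have h3 : (t.size + 2) ^ p.G ≤ (v.size + 2) ^ p.G := Nat.pow_le_pow_left (by omega) _
      have h4 := bd_ge' p.G v
      simp only [H19.T.size]
      omega
    · exact List.mem_flatMap.2 ⟨E, hE, ht⟩
    · simpa using hw
  have hE : ∀ E ∈ v.right.right.toL,
      (∀ ψ ∈ hyps (decProof E.left), ψ ∈ p.S (join p.A R) ∨ ψ ∈ p.negs1 E) ∧
      ∀ t ∈ E.right.toL, ¬ p.μ.sat (stdN (join p.A R)) (envOf t) := by
    intro E hE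
    refine ⟨?_, hneg E hE⟩
    intro ψ hψ
    by_cases hn : ψ ∈ p.negs1 E
    · exact Or.inr hn
    · left
      have h1 : ψ.enc ∈ p.items v := by
        unfold Par.items
        rw [List.mem_flatMap]
        refine ⟨E, hE, List.mem_map.2 ⟨ψ, ?_, rfl⟩⟩
        rw [List.mem_filter]
        exact ⟨hψ, by simpa using hn⟩
      have h2 := hit _ h1
      simpa using h2
  obtain ⟨g1, g2, g3⟩ := chain_acc p q R v.right.right s hs' hC hE
  set r := v.right.right.len with hr
  have eM : p.m (s - p.s0) = tow s := by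
    unfold Par.m
    congr 1
    omega
  refine ⟨s - p.s0, ?_⟩
  unfold FF
  rw [Set.mem_ofPred_eq]
  unfold Fa
  rw [Set.mem_ofPred_eq]
  have hst : st (p.Acc q) R (s - p.s0) ≤ s - p.s0 - r := by
    have h1 := RN.ACCFF.st_le_of (A := p.Acc q) (R := R) (a := s - p.s0 - r) r (by
      intro d' h2 h3
      have h4 := g3 (d' + p.s0) (by omega) (by omega)
      have h5 : d' + p.s0 - p.s0 = d' := by omega
      rw [h5] at h4
      exact h4)
    have h6 : s - p.s0 - r + r = s - p.s0 := by omega
    rw [h6] at h1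
    exact h1
  have hrst : p.r (st (p.Acc q) R (s - p.s0)) ≤ lgN^[r + 1] (tow s) := by
    rw [Function.iterate_succ_apply', g2]
    unfold Par.r Par.m
    apply lgN_mono
    apply hm.monotone
    omega
  refine ⟨bn v.right.left, ?_, ?_⟩
  · rw [eM]
    refine lt_of_lt_of_le (H19.bn_lt _) (Nat.pow_le_pow_right (by norm_num) ?_)
    rw [hs] at hx
    omega
  · unfold Dead
    rw [Set.mem_ofPred_eq]
    intro y hy
    by_contra hcon
    rw [eM] at hy
    have hone : ∀ i < tow s, R (p.β (s - p.s0) (bn v.right.left) y i) = true := by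
      intro i hi
      by_contra h
      apply hcon
      exact ⟨i, by rw [eM]; exact hi, by simpa using h⟩
    apply hno (T.node T.leaf (bl y))
    have hMv : v.left.len < v.size := lt_of_lt_of_le (H19.T.len_lt_size _) (H19.T.size_left_le _)
    rw [FW_Xv]
    simp only [H19.T.right_node, H19.T.left_node, H19.bn_bl]
    refine ⟨?_, Or.inl ⟨trivial, ?_, ?_⟩⟩
    · have h1 := bl_yy hy
      have h4 := bd_ge p.G v
      simp only [H19.T.size]
      omega
    · rw [hs]
      exact hy
    · intro i hi
      rw [hs] at hi ⊢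
      have h1 := hone i hi
      unfold Par.β at h1
      rw [eM] at h1
      unfold join
      have e1 : (2 * posH (tow s) (bn v.right.left) y i + 1) % 2 ≠ 0 := by omega
      have e2 : (2 * posH (tow s) (bn v.right.left) y i + 1) / 2 =
          posH (tow s) (bn v.right.left) y i := by omega
      rw [if_neg e1, e2]
      exact h1

end Pool.Agent.RH
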