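import Pool.Agent.RH.PDefs

/-!
# Theorem (H): CORE, the probabilistic theorem from PROC and APPROX
-/

set_option autoImplicit false

open MeasureTheory

namespace Pool.Agent.RH

open Pool.Agent.RO (Om coin IndepOf st)

namespace CORE

theorem shift {m r : ℕ → ℕ} {β : ℕ → ℕ → ℕ → ℕ → ℕ} (hW : WinSys m r β) (j : ℕ) :
    WinSys (fun d => m (j + d)) (fun d => r (j + d)) (fun d => β (j + d)) where
  mono := fun a b h => hW.mono (Nat.add_lt_add_left h j)
  big := fun d => hW.big (j + d)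
  rmono := fun a b h => hW.rmono (Nat.add_lt_add_left h j)
  rle := fun d => hW.rle (j + d)
  inj := by
    intro d x y i d' x' y' i' hx hy hi hx' hy' hi' h
    obtain ⟨h1, h2, h3⟩ := hW.inj (j + d) x y i (j + d') x' y' i' hx hy hi hx' hy' hi' h
    exact ⟨by omega, h2, h3⟩

theorem far {m r : ℕ → ℕ} {β : ℕ → ℕ → ℕ → ℕ → ℕ} (hW : WinSys m r β) (N : ℕ) :
    ∃ j₀, ∀ e, j₀ ≤ e → ∀ n ∈ Win m β e, N ≤ n := by
  have h1 : ∀ n : ℕ, ∃ b : ℕ, ∀ e, b ≤ e → n ∉ Win m β e := by
    intro n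
    by_cases hn : ∃ e₀, n ∈ Win m β e₀
    · obtain ⟨e₀, x, hx, y, hy, i, hi, hn⟩ := hn
      refine ⟨e₀ + 1, fun e he h => ?_⟩
      obtain ⟨x', hx', y', hy', i', hi', hn'⟩ := h
      have := (hW.inj e₀ x y i e x' y' i' hx hy hi hx' hy' hi' (hn.symm.trans hn')).1
      omega
    · exact ⟨0, fun e _ h => hn ⟨e, h⟩⟩
  choose b hb using h1
  refine ⟨(Finset.range N).sup b, fun e he n hn => ?_⟩
  by_contra hlt
  push Not at hlt
  exact hb n e (le_trans (Finset.le_sup (Finset.mem_range.2 hlt)) he) hn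

theorem indep_mono {B C : Set ℕ} {E : Set Om} (h : C ⊆ B) (hB : IndepOf B E) : IndepOf C E :=
  fun R R' hR => hB R R' fun n hn => hR n fun hc => hn (h hc)

theorem bad_null (hM : Stmt_MEAS) (hP : Stmt_PROC) (hA : Pool.Agent.RO.Stmt_APPROX)
    (m r : ℕ → ℕ) (β : ℕ → ℕ → ℕ → ℕ → ℕ) (A : ℕ → ℕ → Set Om) (hW : WinSys m r β)
    (hL : ∀ j, Loc2 (fun d => m (j + d)) (fun d => β (j + d)) (A j)) :
    coin {R | ∀ j, R ∉ Err (fun d => m (j + d)) (fun d => r (j + d)) (fun d => β (j + d)) (A j) ∧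
      ∃ d, R ∈ FF (fun d => m (j + d)) (fun d => r (j + d)) (fun d => β (j + d)) (A j) d} = 0 := by
  set Er : ℕ → Set Om :=
    fun j => Err (fun d => m (j + d)) (fun d => r (j + d)) (fun d => β (j + d)) (A j) with hEr
  set F : ℕ → ℕ → Set Om :=
    fun j => FF (fun d => m (j + d)) (fun d => r (j + d)) (fun d => β (j + d)) (A j) with hF
  set Bad : Set Om := {R | ∀ j, R ∉ Er j ∧ ∃ d, R ∈ F j d} with hBad
  have hmE : ∀ j, MeasurableSet (Er j) := fun j =>
    (hM _ _ _ (A j) (shift hW j) (hL j)).2.2.2.2.2.2.2.2.2.2.1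
  have hmF : ∀ j d, MeasurableSet (F j d) := fun j =>
    (hM _ _ _ (A j) (shift hW j) (hL j)).2.2.2.2.2.2.1
  have hmB : MeasurableSet Bad := by
    have : Bad = ⋂ j, ((Er j)ᶜ ∩ ⋃ d, F j d) := by
      ext R
      simp only [hBad, Set.mem_ofPred_eq, Set.mem_iInter, Set.mem_inter_iff, Set.mem_compl_iff,
        Set.mem_iUnion]
    rw [this]
    exact MeasurableSet.iInter fun j => (hmE j).compl.inter (MeasurableSet.iUnion fun d => hmF j d)
  have key : ∀ η : ENNReal, 0 < η → coin Bad ≤ 101 * η := by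
    intro η hη
    obtain ⟨N, G, hG, hGi, h1, h2⟩ := hA Bad hmB η hη
    obtain ⟨j₀, hj₀⟩ := far hW N
    have hj : ∀ j, j₀ ≤ j → coin Bad ≤ 101 * η + 4 * (2⁻¹ : ENNReal) ^ j := by
      intro j hj
      have hGw : ∀ d, IndepOf (Win (fun d => m (j + d)) (fun d => β (j + d)) d) G := by
        intro d
        refine indep_mono ?_ hGi
        intro n hn
        exact hj₀ (j + d) (by omega) n hn
      have h3 := (hP _ _ _ (A j) (shift hW j) (hL j)).1 G hG hGw
      have h4 : coin (G ∩ Er j) ≤ η := by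
        refine le_trans (measure_mono ?_) h2
        rintro R ⟨hR1, hR2⟩
        exact ⟨hR1, fun hb => (hb j).1 hR2⟩
      have h5 : (2⁻¹ : ENNReal) ^ r (j + 0) ≤ (2⁻¹ : ENNReal) ^ j := by
        refine pow_le_pow_right_of_le_one' (by norm_num) ?_
        rw [add_zero]
        exact hW.rmono.id_le j
      calc coin Bad ≤ coin ((Bad \ G) ∪ (G ∩ {R | R ∉ Er j ∧ ∃ d, R ∈ F j d})) := by
            apply measure_mono
            intro R hR
            by_cases hg : R ∈ G
            · exact Or.inr ⟨hg, hR j⟩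
            · exact Or.inl ⟨hR, hg⟩
        _ ≤ coin (Bad \ G) + coin (G ∩ {R | R ∉ Er j ∧ ∃ d, R ∈ F j d}) := measure_union_le _ _
        _ ≤ η + (4 * (2⁻¹ : ENNReal) ^ r (j + 0) + 100 * coin (G ∩ Er j)) := add_le_add h1 h3
        _ ≤ η + (4 * (2⁻¹ : ENNReal) ^ j + 100 * η) := by gcongr
        _ = 101 * η + 4 * (2⁻¹ : ENNReal) ^ j := by ring
    have hlim : Filter.Tendsto (fun j : ℕ => 101 * η + 4 * (2⁻¹ : ENNReal) ^ j) Filter.atTop
        (nhds (101 * η + 4 * 0)) := by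
      apply Filter.Tendsto.const_add
      apply ENNReal.Tendsto.const_mul
      · exact ENNReal.tendsto_pow_atTop_nhds_zero_of_lt_one (by norm_num)
      · right
        norm_num
    have := ge_of_tendsto hlim (Filter.eventually_atTop.2 ⟨j₀, hj⟩)
    simpa using this
  by_contra hne
  have hpos : 0 < coin Bad := pos_iff_ne_zero.2 hne
  by_cases htop : coin Bad = ⊤
  · have := key 1 (by norm_num)
    rw [htop] at this
    norm_num at this
  · have h6 := key (coin Bad / 202) (ENNReal.div_pos hne (by norm_num))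
    have h7 : 101 * (coin Bad / 202) = coin Bad / 2 := by
      rw [ENNReal.div_eq_inv_mul, ENNReal.div_eq_inv_mul, ← mul_assoc]
      congr 1
      rw [show (202 : ENNReal) = 101 * 2 by norm_num, ENNReal.mul_inv (by norm_num) (by norm_num),
        ← mul_assoc, ENNReal.mul_inv_cancel (by norm_num) (by norm_num), one_mul]
    rw [h7] at h6
    exact absurd (ENNReal.half_lt_self hne htop) (not_lt.2 h6)

end CORE

open CORE in
theorem CORE_thm (_h0 : Pool.Agent.RO.Stmt_PROB) (hM : Stmt_MEAS) (hP : Stmt_PROC)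
    (hA : Pool.Agent.RO.Stmt_APPROX) : Stmt_CORE := by
  intro m r β A hW hL
  have h1 := bad_null hM hP hA m r β A hW hL
  have h2 : ∀ᵐ R ∂coin, ∀ j,
      R ∉ Err (fun d => m (j + d)) (fun d => r (j + d)) (fun d => β (j + d)) (A j) →
      ∀ D, ∃ d ≥ D, R ∉ A j d := by
    rw [ae_all_iff]
    intro j
    exact (hP _ _ _ (A j) (shift hW j) (hL j)).2
  have h3 : ∀ᵐ R ∂coin, ¬ ∀ j,
      R ∉ Err (fun d => m (j + d)) (fun d => r (j + d)) (fun d => β (j + d)) (A j) ∧
      ∃ d, R ∈ FF (fun d => m (j + d)) (fun d => r (j + d)) (fun d => β (j + d)) (A j) d := by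
    rw [ae_iff]
    simp only [not_not]
    exact h1
  filter_upwards [h2, h3] with R hR2 hR3
  by_cases he : ∃ j, R ∈ Err (fun d => m (j + d)) (fun d => r (j + d)) (fun d => β (j + d)) (A j)
  · exact Or.inl he
  · right
    push Not at he
    rw [not_forall] at hR3
    obtain ⟨j, hj⟩ := hR3
    refine ⟨j, fun d hd => hj ⟨he j, d, hd⟩, hR2 j (he j)⟩

end Pool.Agent.RH
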