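import Pool.Agent.RH.Cst
import Pool.Agent.RN.D0P

/-!
# D0P: the syntactical part of a description is decided in polynomial time, uniformly in the index
-/

namespace Pool.Agent.RH.D0P

open Pool.Agent.H19 (T PolyTime PolyDec PolyNat PolyN PolyB PolyTime₂ tfold Tm)
open Pool.Agent.RO
open Pool.Agent.RO.D0POLY (lgN_le lgN_polyNat isPow_polyDec isTow_polyDec bound_polyDec tow_pos)
open Pool.Agent.RN.D0P (towT towT_eq towT_le_iff towT_polyNat snt' proof_polyDec)

/-! ### The iterated logarithm -/

theorem lgN_iter_le (k n : ℕ) : lgN^[k] n ≤ n := by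
  induction k with
  | zero => exact le_rfl
  | succ k ih => rw [Function.iterate_succ_apply']; exact (lgN_le _).trans ih

theorem lgU_iter (k n : ℕ) : (fun y : T => T.unary (lgN y.len))^[k] (T.unary n) =
    T.unary (lgN^[k] n) := by
  induction k with
  | zero => rfl
  | succ k ih => rw [Function.iterate_succ_apply', ih, Function.iterate_succ_apply', T.len_unary]

theorem lgIter_polyNat {k f : T → ℕ} (hk : PolyNat k) (hf : PolyNat f) :
    PolyNat (fun x => lgN^[k x] (f x)) := by
  refine (PolyTime.iterate (f := fun y : T => T.unary (lgN y.len))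
    (n := fun x => T.unary (k x)) (s := fun x => T.unary (f x))
    (lgN_polyNat (PolyNat.len PolyTime.id)) hk hf ?_).congr fun x => ?_
  · obtain ⟨c, hc⟩ := PolyTime.size_bound hf
    refine ⟨c, fun x i _ => ?_⟩
    have h1 := hc x
    rw [lgU_iter]
    have h2 := lgN_iter_le i (f x)
    simp only [T.size_unary] at h1 ⊢
    omega
  · rw [T.len_unary, lgU_iter]

/-! ### One link of the chain -/

/-- One link, with the value `t` of the tower function. -/
def Ok' (F : T → T) (μ : Fm) (e t : ℕ) (q : T) (M : ℕ) (E : T) : Prop :=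
  t ≤ M ∧ E.size ≤ 2 ^ (M / e) ∧ IsProof Set.univ (decProof E.left) (snt' F μ t q M)

/-- The chain, with the value `t` of the tower function. -/
def Chain' (F : T → T) (μ : Fm) (e t : ℕ) (q : T) : T → ℕ → Prop
  | T.leaf, _ => True
  | T.node E C, M => M = 2 ^ lgN M ∧ Ok' F μ e t q (lgN M) E ∧ Chain' F μ e t q C (lgN M)

theorem chain_eq (A : Om) (cS : OCode) (kS : ℕ) (μ : Fm) (W : Om → T → T → Prop)
    (G e : ℕ) (F : T → T) (J : ℕ) (q C : T) :
    ∀ M : ℕ, (par A cS kS μ W G e F J).Chain q C M ↔ Chain' F μ e (tow J) q C M := by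
  induction C with
  | leaf => intro M; rfl
  | node E C _ ih =>
    intro M
    rw [Par.Chain, Chain', ih]
    rfl

variable (F : T → T) (μ : Fm)

theorem ok_polyDec (e : ℕ) (hF : PolyTime F) {E q : T → T} {t M : T → ℕ}
    (hE : PolyTime E) (hq : PolyTime q) (ht : PolyNat t) (hM : PolyNat M) :
    PolyDec (fun z => Ok' F μ e (t z) (q z) (M z) (E z)) :=
  (PolyDec.le ht hM).and ((bound_polyDec e hE hM).and (proof_polyDec F μ hF hE.left hq ht hM))

/-! ### The chain -/

open Classical in
/-- One round of the check of a chain. -/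
noncomputable def step (e : ℕ) (h a : T) : T :=
  if a ≠ T.leaf ∧ a.left.len = 2 ^ lgN a.left.len ∧
      Ok' F μ e a.right.right.len a.right.left (lgN a.left.len) h then
    T.node (T.unary (lgN a.left.len)) a.right
  else T.leaf

theorem step_polyTime (e : ℕ) (hF : PolyTime F) : PolyTime₂ (step F μ e) := by
  have i := PolyTime.id
  have hM : PolyNat (fun z : T => z.right.left.len) := PolyNat.len i.right.left
  refine (PolyTime.ifP (P := fun z : T => z.right ≠ T.leaf ∧
    z.right.left.len = 2 ^ lgN z.right.left.len ∧
      Ok' F μ e z.right.right.right.len z.right.right.left (lgN z.right.left.len) z.left)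
    ((PolyDec.ne_leaf i.right).and ((isPow_polyDec hM).and
      (ok_polyDec F μ e hF i.left i.right.right.left (PolyNat.len i.right.right.right)
        (lgN_polyNat hM))))
    ((lgN_polyNat hM).node i.right.right) PolyTime.leaf).congr fun z => ?_
  unfold step
  split_ifs <;> rfl

theorem fold_leaf (e : ℕ) (C : T) : tfold (step F μ e) C T.leaf = T.leaf := by
  induction C with
  | leaf => rfl
  | node h t _ ih =>
    have : step F μ e h T.leaf = T.leaf := by
      unfold step; rw [if_neg (fun h => h.1 rfl)]
    rw [tfold, this]; exact ih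

theorem fold_iff (e t : ℕ) (q : T) (C : T) : ∀ M : ℕ,
    (tfold (step F μ e) C (T.node (T.unary M) (T.node q (T.unary t))) ≠ T.leaf ↔
      Chain' F μ e t q C M) := by
  induction C with
  | leaf => intro M; simp [tfold, Chain']
  | node E C _ ih =>
    intro M
    rw [tfold, Chain']
    by_cases hc : M = 2 ^ lgN M ∧ Ok' F μ e t q (lgN M) E
    · have : step F μ e E (T.node (T.unary M) (T.node q (T.unary t))) =
          T.node (T.unary (lgN M)) (T.node q (T.unary t)) := by
        unfold step
        rw [T.left_node, T.right_node, T.left_node, T.right_node, T.len_unary, T.len_unary,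
          if_pos ⟨by simp, hc⟩]
      rw [this, ih (lgN M)]
      tauto
    · have : step F μ e E (T.node (T.unary M) (T.node q (T.unary t))) = T.leaf := by
        unfold step
        rw [T.left_node, T.right_node, T.left_node, T.right_node, T.len_unary, T.len_unary,
          if_neg (fun h => hc h.2)]
      rw [this, fold_leaf]
      tauto

/-- The weight of a state. -/
def w (a : T) : ℕ := 2 * a.left.len + a.right.size + 2

theorem step_size (e : ℕ) (h a : T) : (step F μ e h a).size ≤ w a := by
  have h1 := T.size_pos a.right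
  have h2 := lgN_le a.left.len
  unfold step w
  split_ifs
  · simp only [T.size, T.size_unary]; omega
  · simp only [T.size]; omega

theorem step_w (e : ℕ) (h a : T) : w (step F μ e h a) ≤ w a := by
  have h1 := T.size_pos a.right
  have h2 := lgN_le a.left.len
  unfold step
  split_ifs
  · simp only [w, T.left_node, T.right_node, T.len_unary]; omega
  · simp only [w, T.left_leaf, T.right_leaf, T.len_leaf, T.size]; omega

theorem fold_size (e : ℕ) (l : T) : ∀ (a : T) (B : ℕ), a.size ≤ B → w a ≤ B →
    (tfold (step F μ e) l a).size ≤ B := by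
  induction l with
  | leaf => intro a B h1 _; exact h1
  | node h t _ ih =>
    intro a B _ h2
    exact ih _ B ((step_size F μ e h a).trans h2) ((step_w F μ e h a).trans h2)

theorem w_le (a : T) : w a ≤ 2 * a.size + 4 := by
  have h1 := T.len_lt_size a.left
  have h2 : a.left.size + a.right.size ≤ a.size + 1 := by
    cases a <;> simp [T.size, T.left, T.right]; omega
  unfold w; omega

theorem chain_polyDec (e : ℕ) (hF : PolyTime F) {C q : T → T} {t M : T → ℕ}
    (hC : PolyTime C) (hq : PolyTime q) (ht : PolyNat t) (hM : PolyNat M) :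
    PolyDec (fun z => Chain' F μ e (t z) (q z) (C z) (M z)) := by
  have h1 : PolyTime₂ (tfold (step F μ e)) := by
    refine PolyTime₂.tfold (step_polyTime F μ e hF) (G := fun n => 2 * n + 4)
      (((PolyB.const 2).mul PolyB.id).add (PolyB.const 4)) (fun a b h => by dsimp only; omega)
      fun l a => ?_
    have h2 := w_le a
    exact fold_size F μ e l a _ (by omega) (by omega)
  refine (PolyDec.ne_leaf (h1.comp hC (PolyTime.node hM (hq.node ht)))).congr fun z => ?_
  exact fold_iff F μ e (t z) (q z) (C z) (M z)

end Pool.Agent.RH.D0P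

open Pool.Agent.H19 (T PolyTime PolyDec PolyNat) in
open Pool.Agent.RO in
theorem Pool.Agent.RH.D0P_thm (h : Pool.Agent.RH.Stmt_PEX) : Pool.Agent.RH.Stmt_D0P := by
  intro A cS kS μ W G e F hF _he
  have i := PolyTime.id
  have hM : PolyNat (fun z : T => z.left.left.len) := PolyNat.len i.left.left
  have ht : PolyNat (fun z : T => Pool.Agent.RN.D0P.towT z.right.right.len z.left.left.len) :=
    Pool.Agent.RN.D0P.towT_polyNat (PolyNat.len i.right.right) hM
  have hx : PolyNat (fun z : T => z.left.right.left.len) := PolyNat.len i.left.right.left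
  have hb : PolyNat (fun z : T => pex z.left.left.len -
      lgN^[z.left.right.right.len + 1] z.left.left.len) :=
    (h _ hM).1.sub (D0P.lgIter_polyNat
      ((PolyNat.len i.left.right.right).add (PolyNat.const 1)) hM)
  refine ((RO.D0POLY.isTow_polyDec hM).and ((PolyDec.le ht hM).and
    ((PolyDec.le hx hb).and
      (D0P.chain_polyDec F μ e hF i.left.right.right i.right.left ht hM)))).congr
    fun z => ?_
  rw [Par.D0, D0P.chain_eq, RN.D0P.towT_le_iff]
  show _ ↔ (∃ s, z.left.left.len = tow s) ∧ tow (z.right.right.len + 0) ≤ z.left.left.len ∧ _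
  rw [add_zero]
  constructor
  · rintro ⟨h1, h2, h3, h4⟩
    rw [RN.D0P.towT_eq ((RN.D0P.towT_le_iff _ _).2 h2)] at h4
    exact ⟨h1, h2, h3, h4⟩
  · rintro ⟨h1, h2, h3, h4⟩
    rw [RN.D0P.towT_eq ((RN.D0P.towT_le_iff _ _).2 h2)]
    exact ⟨h1, h2, h3, h4⟩
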