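import Pool.Agent.RH.StmtsU
import Pool.Agent.PO.Def
import Pool.Agent.PO.Univ
import Pool.Agent.PO.Gn

/-!
# NP relations relative to an oracle are definable, uniformly in the oracle

`DEFO_thm`: for every relation in NP relative to the oracle there is a formula, the same for all
oracles, true of the number attached to `X` exactly if `X` is in the domain of the relation. The
formula says that the number is an initial segment of the Goedel number of a proof in a suitable
theory.  `UNIVO_thm`: such relations are instances of the universal formula.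
-/

set_option autoImplicit false

namespace Pool.Agent.RH.DEFO

open Pool.Agent.RO
open Pool.Agent.H19 (T PolyTime PolyDec PolyN PolyNat Tm scons bn bl vec3 vec4 tt uu uu_tt
  tt_polyTime uu_polyTime)
open Pool.Agent.PO.DEF (code val gn_eq val_append val_eq val_lt val_inj code_prefix seg pre tag
  parse_tm numeral_occurs numeral_below tm_below_mono tt_inj tt_size_ge)

/-! ### Parsing -/

theorem parse_eq {φ : Fm} {a b : List Bool}
    (h : code φ.enc ++ a = true :: (code (T.unary 9) ++ b)) :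
    ∃ t1 t2, φ = Fm.eq t1 t2 ∧ code (T.node t1.enc t2.enc) ++ a = b := by
  cases φ with
  | eq t1 t2 => exact ⟨t1, t2, rfl, (tag h).2⟩
  | _ => exact absurd (tag h).1 (by omega)

theorem parse_imp {φ : Fm} {a b : List Bool}
    (h : code φ.enc ++ a = true :: (code (T.unary 11) ++ b)) :
    ∃ t1 t2, φ = Fm.imp t1 t2 ∧ code (T.node t1.enc t2.enc) ++ a = b := by
  cases φ with
  | imp t1 t2 => exact ⟨t1, t2, rfl, (tag h).2⟩
  | _ => exact absurd (tag h).1 (by omega)

theorem parse_step {s : Step} {a b : List Bool}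
    (h : code s.enc ++ a = true :: (code (T.unary 0) ++ b)) :
    ∃ φ, s = Step.hyp φ ∧ code φ.enc ++ a = b := by
  cases s with
  | hyp φ => exact ⟨φ, rfl, (tag h).2⟩
  | _ => exact absurd (tag h).1 (by omega)

/-- Parsing a proof with the given initial segment. -/
theorem parse {π : List Step} {w : T} {rest : List Bool}
    (h : code (encProof π) = pre ++ (code w ++ rest)) :
    ∃ (t1 t2 t3 : Tm) (ψ : Fm) (π' : List Step), t1.enc = w ∧
      π = Step.hyp (Fm.imp (Fm.eq (Tm.add t1 t2) t3) ψ) :: π' := by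
  cases π with
  | nil => simp [encProof, code, pre] at h
  | cons s π' =>
    simp only [encProof, code, pre, List.cons_append, List.cons.injEq, true_and,
      List.append_assoc] at h
    have h' : code s.enc ++ code (encProof π') = true :: (code (T.unary 0) ++
        (true :: (code (T.unary 11) ++ (true :: true :: (code (T.unary 9) ++
          (true :: true :: (code (T.unary 5) ++ (true :: (code w ++ rest))))))))) := by
      rw [h]; simp [code, T.unary]
    obtain ⟨φ, rfl, h1⟩ := parse_step h'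
    obtain ⟨φ1, φ2, rfl, h2⟩ := parse_imp h1
    simp only [code, List.cons_append, List.cons.injEq, true_and, List.append_assoc] at h2
    obtain ⟨t1, t2, rfl, h3⟩ := parse_eq h2
    simp only [code, List.cons_append, List.cons.injEq, true_and, List.append_assoc] at h3
    obtain ⟨t3, t4, rfl, h4⟩ := parse_tm h3
    simp only [code, List.cons_append, List.cons.injEq, true_and, List.append_assoc] at h4
    obtain ⟨h5, -⟩ := code_prefix _ _ _ _ h4
    exact ⟨t3, t4, t2, φ2, π', h5, rfl⟩

/-! ### Formulas -/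

theorem fm_below_mono {φ : Fm} : ∀ {k l : ℕ}, k ≤ l → φ.fvBelow k → φ.fvBelow l := by
  induction φ with
  | bot => intro k l _ _; trivial
  | eq s t => intro k l hkl h; exact ⟨tm_below_mono hkl h.1, tm_below_mono hkl h.2⟩
  | le s t => intro k l hkl h; exact ⟨tm_below_mono hkl h.1, tm_below_mono hkl h.2⟩
  | rel t => intro k l hkl h; exact tm_below_mono (t := t) hkl h
  | imp φ ψ ih1 ih2 => intro k l hkl h; exact ⟨ih1 hkl h.1, ih2 hkl h.2⟩
  | all φ ih => intro k l hkl h; exact ih (by omega : k + 1 ≤ l + 1) h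

/-- Bounded existential quantification; the term `t` is read below the quantifier. -/
def exB (t : Tm) (φ : Fm) : Fm := Fm.neg (Fm.all (Fm.imp (Fm.le (Tm.var 0) t) (Fm.neg φ)))

theorem exB_sigma {t : Tm} {φ : Fm} (ht : t.occurs 0 = false) (h : φ.isSigma = true) :
    (exB t φ).isSigma = true := by
  simp [exB, Fm.neg, Fm.isSigma, Fm.isPi, Fm.guarded, ht, h]

theorem and_sigma {φ ψ : Fm} (h : φ.isSigma = true) (h' : ψ.isSigma = true) :
    (Fm.and φ ψ).isSigma = true := by
  simp [Fm.and, Fm.neg, Fm.isSigma, Fm.isPi, h, h']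

theorem exB_below {t : Tm} {φ : Fm} {k : ℕ} (ht : t.fvBelow (k + 1)) (h : φ.fvBelow (k + 1)) :
    (exB t φ).fvBelow k := by
  refine ⟨⟨⟨?_, ht⟩, ⟨h, trivial⟩⟩, trivial⟩
  simp [Tm.fvBelow]

theorem and_below {φ ψ : Fm} {k : ℕ} (h : φ.fvBelow k) (h' : ψ.fvBelow k) :
    (Fm.and φ ψ).fvBelow k := ⟨⟨h, ⟨h', trivial⟩⟩, trivial⟩

theorem exB_sat (O : Om) (t : Tm) (φ : Fm) (v : ℕ → ℕ) :
    (exB t φ).sat (stdN O) v ↔
      ∃ a, a ≤ t.val H19.stdN (scons a v) ∧ φ.sat (stdN O) (scons a v) := by
  simp only [exB, Fm.sat_neg, Fm.sat, Tm.val, scons, stdN_toStr]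
  simp only [H19.stdN]
  push Not
  rfl

/-- The formula saying that `x` is an initial segment of `u`, where `u` and `x` are the variables
`3` and `4`. -/
def segF : Fm := exB (Tm.var 4) (exB (Tm.var 5) (Fm.and
  (Fm.eq (Tm.var 5) (Tm.add (Tm.mul (Tm.var 6) (Tm.smash (Tm.succ Tm.zero) (Tm.var 1)))
    (Tm.var 0)))
  (Fm.neg (Fm.le (Tm.smash (Tm.succ Tm.zero) (Tm.var 1)) (Tm.var 0)))))

theorem segF_sat (O : Om) (v : ℕ → ℕ) : segF.sat (stdN O) v ↔ ∃ q, q ≤ v 3 ∧ ∃ r, r ≤ v 3 ∧
    v 3 = v 4 * 2 ^ q.size + r ∧ r < 2 ^ q.size := by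
  simp only [segF, exB_sat, Fm.sat_and, Fm.sat_neg, Fm.sat, Tm.val, scons, stdN_toStr]
  simp only [H19.stdN, Nat.zero_add, Nat.size_one, Nat.one_mul, not_le]

/-- The formula. -/
def alpha (P : Fm) (e z C : ℕ) : Fm :=
  exB (Tm.smash (Tm.var 1) (Tm.numeral C)) (exB (Tm.numeral z) (exB Tm.zero (exB (Tm.numeral e)
    (Fm.and (Fm.eq (Tm.var 0) (Tm.numeral e)) (Fm.and (Fm.eq (Tm.var 2) (Tm.numeral z))
      (Fm.and P segF))))))

theorem alpha_sigma {P : Fm} (hP : P.isSigma = true) (e z C : ℕ) :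
    (alpha P e z C).isSigma = true := by
  have hseg : segF.isSigma = true := by
    refine exB_sigma rfl (exB_sigma rfl (and_sigma rfl ?_))
    simp [Fm.neg, Fm.isSigma, Fm.isPi]
  refine exB_sigma ?_ (exB_sigma (numeral_occurs _ _) (exB_sigma rfl
    (exB_sigma (numeral_occurs _ _) (and_sigma rfl (and_sigma rfl (and_sigma hP hseg))))))
  simp [Tm.occurs, numeral_occurs]

theorem alpha_below {P : Fm} (hP : P.fvBelow 4) (e z C : ℕ) : (alpha P e z C).fvBelow 1 := by
  have hseg : segF.fvBelow 5 := by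
    simp [segF, exB, Fm.and, Fm.neg, Fm.fvBelow, Tm.fvBelow]
  have hP5 : P.fvBelow 5 := fm_below_mono (by omega) hP
  have hv : ∀ i n, i < n → (Tm.var i).fvBelow n := fun i n h => h
  refine exB_below ⟨hv _ _ (by omega), numeral_below _ _⟩ (exB_below (numeral_below _ _)
    (exB_below trivial (exB_below (numeral_below _ _) (and_below
      ⟨hv _ _ (by omega), numeral_below _ _⟩ (and_below ⟨hv _ _ (by omega), numeral_below _ _⟩
        (and_below hP5 hseg))))))

theorem alpha_sat (O : Om) {P : Fm} (hP : P.fvBelow 4) (e z C x : ℕ) (v : ℕ → ℕ) :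
    (alpha P e z C).sat (stdN O) (scons x v) ↔ ∃ u, u ≤ 2 ^ (x.size * C.size) ∧
      P.sat (stdN O) (vec4 e 0 z u) ∧ ∃ q, q ≤ u ∧ ∃ r, r ≤ u ∧ u = x * 2 ^ q.size + r ∧
        r < 2 ^ q.size := by
  simp only [alpha, exB_sat, Fm.sat_and, Fm.sat, segF_sat, Tm.val, Tm.numeral_val, stdN_toStr]
  have hPc : ∀ u : ℕ, P.sat (stdN O) (scons e (scons 0 (scons z (scons u (scons x v))))) ↔
      P.sat (stdN O) (vec4 e 0 z u) := by
    intro u
    refine Fm.sat_congr_below (stdN O) P hP fun i hi => ?_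
    rcases i with _ | _ | _ | _ | i
    · rfl
    · rfl
    · rfl
    · rfl
    · omega
  constructor
  · rintro ⟨u, hu, z', -, x', hx', e', -, h1, h2, h3, h4⟩
    simp only [scons] at h1 h2 h4 hu hx'
    have hx0 : x' = 0 := by
      simp only [H19.stdN] at hx'; omega
    subst h1 h2 hx0
    exact ⟨u, hu, (hPc u).1 h3, h4⟩
  · rintro ⟨u, hu, h3, h4⟩
    refine ⟨u, hu, z, le_rfl, 0, ?_, e, le_rfl, rfl, rfl, (hPc u).2 h3, h4⟩
    simp only [H19.stdN]; exact le_rfl

/-! ### The axioms of the theory have another shape -/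

theorem not_S12 (t1 t2 t3 : Tm) (ψ : Fm) : Fm.imp (Fm.eq (Tm.add t1 t2) t3) ψ ∉ S12 := by
  rintro (h | ⟨χ, -, h⟩)
  · simp [basicList, H19.basicList, Fm.emb, H19.Fm.neg, H19.Fm.and, H19.Fm.or, H19.Fm.iff] at h
  · simp [pind] at h

theorem not_diag (O : Om) (t1 t2 t3 : Tm) (ψ : Fm) :
    Fm.imp (Fm.eq (Tm.add t1 t2) t3) ψ ∉ diag O := by
  rintro ⟨n, ⟨-, h⟩ | ⟨-, h⟩⟩
  · simp at h
  · simp [Fm.neg] at h

theorem code_refute (X y : T) (φ : Fm) :
    ∃ rest, code (encProof (refute (T.node X y) φ)) = pre ++ (code (tt X).enc ++ rest) := by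
  refine ⟨code (tt y).enc ++ (code (tt (T.node X y)).enc ++ (code Fm.bot.enc ++
    code (encProof (refute (T.node X y) φ).tail))), ?_⟩
  simp [refute, encProof, Step.enc, falsum, Fm.enc, tt, Tm.enc, code, pre, List.append_assoc,
    T.unary]

/-- A program with a clock accepting, relative to every oracle, exactly the codes of the sentences
`falsum v`, where `v` is in a given decidable set. -/
theorem exists_prog {G : Om → T → Prop} (hG : DecOn Set.univ G) :
    ∃ (c : OCode) (κ : ℕ), ∀ (O : Om) (x : T),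
      Accepts O c κ x ↔ ((falsum (unfalsum x)).enc = x ∧ G O (unfalsum x)) := by
  have i := PolyTime.id
  have hv : PolyTime unfalsum := uu_polyTime.comp i.right.left.right.left
  obtain ⟨f, ⟨c, κ, hc⟩, hf⟩ :=
    (DecOn.of_dec (H := Set.univ) (PolyDec.eq (falsum_polyTime.comp hv) i)).and (hG.comp hv)
  refine ⟨c, κ, fun O x => ?_⟩
  obtain ⟨t, ht, hb⟩ := hc O (Set.mem_univ O) x
  rw [accepts_iff ht hb]
  exact (hf O (Set.mem_univ O) x).symm

end Pool.Agent.RH.DEFO

namespace Pool.Agent.RH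

open Pool.Agent.RO
open Pool.Agent.H19 (T PolyTime PolyDec PolyN PolyNat Tm scons bn bl vec3 vec4 tt uu uu_tt
  tt_polyTime uu_polyTime)
open Pool.Agent.PO.DEF (code val gn_eq val_append val_eq val_lt val_inj code_prefix seg pre tag
  parse_tm numeral_occurs numeral_below tm_below_mono tt_inj tt_size_ge)
open DEFO

/-- **NP relations relative to the oracle are definable** by a formula of the class, the same for
all oracles, given a formalisation of proofs. -/
theorem DEFO_thm : Stmt_DEFO := by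
  intro μ P hμ hP F hF hFs
  obtain ⟨e₀, z₀, hfalse⟩ := hμ.false_instance
  obtain ⟨c, κ, hacc⟩ := exists_prog hF
  let φ₀ : Fm := inst3 μ e₀ 0 z₀
  obtain ⟨N, hN⟩ : ∃ N : ℕ, N = 7 * φ₀.enc.size + 1000 := ⟨_, rfl⟩
  have hC0 : val 1 pre ≠ 0 := by
    rw [val_eq]
    have : 0 < 2 ^ pre.length := by positivity
    omega
  refine ⟨alpha (P c κ) e₀ z₀ (2 ^ (200 + N)), fun X => T.gn (tt X).enc (val 1 pre),
    alpha_sigma (hP.delta c κ).1 _ _ _, alpha_below (hP.below c κ) _ _ _,
    PO.GN_thm (fun X => (tt X).enc) (val 1 pre) hC0 tt_polyTime, fun O X v => ?_⟩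
  rw [alpha_sat O (hP.below c κ)]
  beta_reduce
  constructor
  · rintro ⟨u, -, h1, q, -, r, -, h2, h3⟩
    obtain ⟨π, hu, hπ⟩ := (hP.correct O c κ e₀ 0 z₀ u).1 h1
    have h4 : (encProof π).num = val 1 (pre ++ code (tt X).enc) * 2 ^ q.size + r := by
      rw [← hu, h2, gn_eq, val_append]
    obtain ⟨rest, h5⟩ := seg h3 h4
    rw [List.append_assoc] at h5
    obtain ⟨t1, t2, t3, ψ, π', h6, rfl⟩ := parse h5
    have h7 : Fm.imp (Fm.eq (Tm.add t1 t2) t3) ψ ∈ theory O c κ := hπ.1
    rcases h7 with h7 | h7 | h7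
    · exact absurd h7 (not_S12 _ _ _ _)
    · exact absurd h7 (not_diag _ _ _ _ _)
    · obtain ⟨h8, h9⟩ := (hacc _ _).1 h7
      have h10 := Fm.enc_inj.1 h8
      simp only [falsum, Fm.imp.injEq, Fm.eq.injEq] at h10
      have h11 := h10.1.1
      have h12 : t1 = tt X := H19.Tm.enc_inj.1 h6
      generalize unfalsum (Fm.imp (Fm.eq (Tm.add t1 t2) t3) ψ).enc = w at h9 h11
      cases w with
      | leaf => simp [tt] at h11
      | node a b =>
        simp only [tt, Tm.add.injEq] at h11
        have h13 : a = X := tt_inj (h11.1.trans h12)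
        subst h13
        exact ⟨b, h9⟩
  · rintro ⟨y, hy⟩
    obtain ⟨rest, hrest⟩ := code_refute X y φ₀
    have hys := hFs O X y hy
    have hmem : falsum (T.node X y) ∈ theory O c κ := by
      refine Or.inr (Or.inr ((hacc _ _).2 ?_))
      rw [unfalsum_enc]
      exact ⟨rfl, hy⟩
    have hx1 := (T.gn_size (tt X).enc (val 1 pre) hC0).1
    have hx2 := tt_size_ge X
    have hX := T.size_pos X
    have hnum : (encProof (refute (T.node X y) φ₀)).num =
        T.gn (tt X).enc (val 1 pre) * 2 ^ rest.length + val 0 rest := by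
      rw [T.num, gn_eq, hrest, val_append, val_append, val_eq rest, ← gn_eq (tt X).enc]
    have hx0 : T.gn (tt X).enc (val 1 pre) ≠ 0 := (T.gn_size (tt X).enc (val 1 pre) hC0).2
    have hlt := val_lt rest
    have hsz := T.num_size (encProof (refute (T.node X y) φ₀))
    have hrs := refute_size (T.node X y) φ₀
    refine ⟨(encProof (refute (T.node X y) φ₀)).num, ?_,
      (hP.correct O c κ e₀ 0 z₀ _).2 ⟨_, rfl, refute_isProof hmem φ₀⟩, ?_⟩
    · have h1 : (encProof (refute (T.node X y) φ₀)).num <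
          2 ^ ((encProof (refute (T.node X y) φ₀)).num.size) := Nat.lt_size_self _
      refine h1.le.trans (Nat.pow_le_pow_right (by omega) ?_)
      rw [hsz, Nat.size_pow]
      simp only [T.size] at hrs
      have h2 : X.size ≤ (T.gn (tt X).enc (val 1 pre)).size := by omega
      have h3 : X.size * (200 + N + 1) ≤ (T.gn (tt X).enc (val 1 pre)).size * (200 + N + 1) :=
        Nat.mul_le_mul_right _ h2
      refine le_trans ?_ h3
      have h5 : N ≤ X.size * N := Nat.le_mul_of_pos_left _ hX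
      have h6 : X.size * (200 + N + 1) = 201 * X.size + X.size * N := by ring
      omega
    · -- the tail
      have hq : ∀ k : ℕ, (2 ^ k / 2).size = k := by
        intro k
        cases k with
        | zero => simp
        | succ k =>
          rw [pow_succ, Nat.mul_div_cancel _ (by omega : 0 < 2), Nat.size_pow]
      refine ⟨2 ^ rest.length / 2, ?_, val 0 rest, ?_, ?_, ?_⟩
      · rw [hnum]
        have h1 : 1 * 2 ^ rest.length ≤ T.gn (tt X).enc (val 1 pre) * 2 ^ rest.length :=
          Nat.mul_le_mul_right _ (Nat.one_le_iff_ne_zero.2 hx0)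
        omega
      · rw [hnum]; exact Nat.le_add_left _ _
      · rw [hq]; exact hnum
      · rw [hq]; exact hlt

/-- **NP relations relative to the oracle as instances of the universal formula.** -/
theorem UNIVO_thm : Stmt_UNIVO := by
  intro μ P hμ hP F hF hsize
  obtain ⟨α, nx, hα, hα1, hnx, hsat⟩ := DEFO_thm μ P hμ hP F hF hsize
  obtain ⟨e, p, hpoly, π, hπ⟩ := hμ.2.2 α hα hα1
  refine ⟨e, nx, fun X => 2 ^ (p.val H19.stdN (fun _ => (nx X).size)), hnx,
    PolyN.pow2 (PO.Univ.val_polyNat hnx.size p hpoly), fun O X => ?_⟩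
  set z := 2 ^ (p.val H19.stdN (fun _ => (nx X).size)) with hz
  have h1 := hπ.sound (stdN_models O) (scons (nx X) (scons z fun _ => 0))
  simp only [Fm.sat, Fm.sat_iff, Fm.sat_inst, stdN_toStr, Tm.numeral_val] at h1
  have h2 : (p.inst 0 (Tm.len (Tm.var 0))).val H19.stdN (scons (nx X) (scons z fun _ => 0)) =
      p.val H19.stdN (fun _ => (nx X).size) := by
    rw [Tm.val_inst]
    apply PO.Univ.val_congr p hpoly
    simp [Tm.val, scons, H19.stdN]
  have h3 := h1 (by
    show (p.inst 0 (Tm.len (Tm.var 0))).val H19.stdN _ ≤ _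
    rw [h2]
    simp only [Tm.val, scons, H19.stdN, hz, Nat.size_pow]
    omega)
  rw [← hsat O X (scons z fun _ => 0)]
  exact h3.symm

end Pool.Agent.RH
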