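import Pool.Agent.RH.Cst
import Pool.Agent.RN.SUB

/-!
# ERR: a padded false instance makes the reflection sentence unprovable
-/

namespace Pool.Agent.RH

open Pool.Agent.H19 (T PolyTime PolyDec PolyNat Tm scons bn bl ofBool encL tif vec3 vec4)
open Pool.Agent.RO
open Pool.Agent.RN (Sub clT clF fs ts)

namespace ERR

/-- Closing a term after an instantiation by a numeral. -/
theorem clT_inst (hs : Sub) (v : ℕ → ℕ) (a : ℕ) (t : Tm) : ∀ d : ℕ,
    clT v d (t.inst d (Tm.numeral a)) = clT (scons a v) d t := by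
  induction t with
  | var i =>
    intro d
    simp only [H19.Tm.inst]
    by_cases h1 : i < d
    · simp [clT, h1]
    · by_cases h2 : i = d
      · subst h2
        rw [if_neg h1, if_pos rfl, hs.shiftIdT _ 0 _ (hs.numBelow a 0),
          hs.ofBelowT v i _ (hs.numBelow a i)]
        simp [clT, scons]
      · rw [if_neg h1, if_neg h2]
        have h3 : ¬ i - 1 < d := by omega
        obtain ⟨m, hm⟩ : ∃ m, i - d = m + 1 := ⟨i - d - 1, by omega⟩
        simp only [clT, if_neg h1, if_neg h3]
        have h4 : i - 1 - d = m := by omega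
        rw [h4, hm]
        rfl
  | zero => intro d; rfl
  | succ t ih => intro d; simp only [H19.Tm.inst, clT, ih]
  | half t ih => intro d; simp only [H19.Tm.inst, clT, ih]
  | len t ih => intro d; simp only [H19.Tm.inst, clT, ih]
  | add s t ih1 ih2 => intro d; simp only [H19.Tm.inst, clT, ih1, ih2]
  | mul s t ih1 ih2 => intro d; simp only [H19.Tm.inst, clT, ih1, ih2]
  | smash s t ih1 ih2 => intro d; simp only [H19.Tm.inst, clT, ih1, ih2]

/-- Closing a formula after an instantiation by a numeral. -/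
theorem clF_inst (hs : Sub) (v : ℕ → ℕ) (a : ℕ) (φ : Fm) : ∀ d : ℕ,
    clF v d (φ.inst d (Tm.numeral a)) = clF (scons a v) d φ := by
  induction φ with
  | bot => intro d; rfl
  | eq s t => intro d; simp only [Fm.inst, clF, clT_inst hs]
  | le s t => intro d; simp only [Fm.inst, clF, clT_inst hs]
  | rel t => intro d; simp only [Fm.inst, clF, clT_inst hs]
  | imp φ ψ ih1 ih2 => intro d; simp only [Fm.inst, clF, ih1, ih2]
  | all φ ih => intro d; simp only [Fm.inst, clF, ih]

/-- An instance of a formula with three variables is a closure. -/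
theorem inst3_eq (hs : Sub) (e x z : ℕ) (μ : Fm) (hμ : μ.fvBelow 3) :
    inst3 μ e x z = clF (vec3 e x z) 0 μ := by
  have hb := hs.instBelowF0 _ 0 z (hs.instBelowF0 _ 1 x (hs.instBelowF0 μ 2 e hμ))
  show ((μ.inst 0 (Tm.numeral e)).inst 0 (Tm.numeral x)).inst 0 (Tm.numeral z) = _
  rw [← hs.ofBelowF (fun _ => 0) 0 _ hb, clF_inst hs, clF_inst hs, clF_inst hs]
  rfl

/-- The size of an instance is additive in the three numbers. -/
theorem inst3_size (hs : Sub) (e x z : ℕ) (μ : Fm) (hμ : μ.fvBelow 3) :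
    (inst3 μ e x z).enc.size ≤ 60 * (e.size + x.size + z.size + 1) * fs μ := by
  rw [inst3_eq hs e x z μ hμ]
  refine hs.sizeF _ (e.size + x.size + z.size) 0 μ fun i => ?_
  rcases i with _ | _ | _ | i
  · show e.size ≤ _
    omega
  · show x.size ≤ _
    omega
  · show z.size ≤ _
    omega
  · show (0 : ℕ).size ≤ _
    simp

end ERR

theorem ERR_thm (h1 : PadF) (h2 : Stmt_CONSPLUS) : Stmt_ERR := by
  intro μ hμ
  refine ⟨6000 * fs μ + 300, ?_⟩
  intro P hP O c κ S v e x z n hacc hfalse hSS hDD hcons hn hprov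
  have hmem : padF v (inst3 μ e x z) ∈ theory O c κ := Or.inr (Or.inr hacc)
  obtain ⟨u, hu⟩ : ∃ u : ℕ, u = (encProof (unpad v (inst3 μ e x z))).num := ⟨_, rfl⟩
  have husize : u.size ≤ n := by
    have e1 := H19.T.num_size (encProof (unpad v (inst3 μ e x z)))
    have e2 := h1.size v (inst3 μ e x z)
    have e3 := ERR.inst3_size RN.SUB_thm e x z μ hμ.2.1
    rw [hu, e1]
    nlinarith [Nat.zero_le (fs μ * v.size)]
  have hcorrect : (P c κ).sat (stdN O) (vec4 e x z u) :=
    (hP.correct O c κ e x z _).2 ⟨_, hu, h1.proof _ v _ hmem⟩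
  have hPb : (P c κ).bdd = true := (Fm.bdd_of _).1 (hP.delta c κ).1
  have hμb : μ.bdd = true := (Fm.bdd_of _).1 hμ.1
  have hcons' : Consistent (Splus O μ S) := (h2 μ O S hμ.1 hμ.2.1 hSS hDD).2 hcons
  have hCn : e.size + x.size + z.size ≤ n := by
    nlinarith [Nat.zero_le (fs μ * (v.size + e.size + x.size + z.size + 1))]
  have h3 := rfn_sound (hSS.trans Set.subset_union_left) (hDD.trans Set.subset_union_left)
    hcons' hPb hμb hprov (e := e) (x := x) (z := z) (u := u)
    (by omega) (by omega) (by omega) husize hcorrect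
  refine hfalse ((Fm.sat_congr_below (stdN O) μ hμ.2.1 (fun i hi => ?_)).1 h3)
  rcases i with _ | _ | _ | i
  · rfl
  · rfl
  · rfl
  · omega

end Pool.Agent.RH
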