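import Pool.Agent.RH.Cst

/-!
# FDEC: the NP relation is decidable in polynomial time
-/

namespace Pool.Agent.RH

open Pool.Agent.H19 (T PolyTime PolyTime₂ PolyB PolyDec PolyNat PolyN bn bl encL)
open Pool.Agent.RO

namespace FDECx

/-- The list of the non-trivial suffixes of `x`, each paired with `p`. -/
def sfx : T → T → T
  | T.leaf, _ => T.leaf
  | T.node a b, p => T.node (T.node (T.node a b) p) (sfx b p)

theorem sfx_size (x p : T) : (sfx x p).size ≤ (x.size + p.size + 2) ^ 2 := by
  induction x with
  | leaf => simp only [sfx, T.size]; nlinarith [H19.T.size_pos p]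
  | node a b _ ih =>
    have := H19.T.size_pos a
    have := H19.T.size_pos p
    simp only [sfx, T.size] at ih ⊢
    nlinarith

theorem sfx_polyTime₂ : PolyTime₂ sfx := by
  have i := PolyTime.id
  refine PolyTime₂.binRec (F := sfx) (l := fun _ => T.leaf) (r := T.right)
    (pl := fun _ => T.leaf) (pr := fun z => z.right) (base := fun _ => T.leaf)
    (comb := fun w => T.node w.left w.right.right)
    PolyTime.leaf PolyTime.right' PolyTime.leaf i.right PolyTime.leaf
    (i.left.node i.right.right)
    (fun _ => rfl) ?_ ?_ 1 ?_ ?_
    (G := fun n => (n + 2) ^ 2) ((PolyB.id.add (PolyB.const 2)).pow 2)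
    (fun a b h => Nat.pow_le_pow_left (by omega) 2) ?_
  · intro x p hx
    rcases x with _ | ⟨a, b⟩
    · exact absurd rfl hx
    · rfl
  · intro x hx
    rcases x with _ | ⟨a, b⟩
    · exact absurd rfl hx
    · have := H19.T.size_pos a
      simp only [T.size, H19.T.right_node]; omega
  · intro x p; have := H19.T.size_pos p; simp only [T.size]; omega
  · intro x p; simp
  · intro x p; exact sfx_size x p

theorem mem_sfx_len (x p : T) (Q : ℕ → T → Prop) :
    (∀ a ∈ (sfx x p).toL, Q (a.left.len - 1) a.right) ↔ ∀ i < x.len, Q i p := by
  induction x with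
  | leaf => simp [sfx, H19.T.toL]
  | node a b _ ih =>
    simp only [sfx, H19.T.toL, List.mem_cons, forall_eq_or_imp, ih, H19.T.left_node,
      H19.T.right_node, H19.T.len_node]
    constructor
    · rintro ⟨h1, h2⟩ i hi
      rcases Nat.lt_succ_iff_lt_or_eq.mp hi with h | h
      · exact h2 i h
      · rw [h]; simpa using h1
    · intro h
      exact ⟨by simpa using h b.len (Nat.lt_succ_self _), fun i hi => h i (Nat.lt_succ_of_lt hi)⟩

theorem mem_sfx_left (x p : T) (Q : T → T → Prop) :
    (∀ a ∈ (sfx x p).toL, Q a.left.left a.right) ↔ ∀ t ∈ x.toL, Q t p := by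
  induction x with
  | leaf => simp [sfx, H19.T.toL]
  | node a b _ ih =>
    simp only [sfx, H19.T.toL, List.mem_cons, forall_eq_or_imp, ih, H19.T.left_node,
      H19.T.right_node]

theorem posH_polyN {f g h j : T → ℕ} (hf : PolyNat f) (hg : PolyN g) (hh : PolyN h)
    (hj : PolyN j) : PolyN (fun x => posH (f x) (g x) (h x) (j x)) := by
  unfold posH
  have h6 : PolyNat (fun x => 6 * f x) := (PolyNat.const 6).mul hf
  have h4 : PolyNat (fun x => 4 * f x) := (PolyNat.const 4).mul hf
  exact (((PolyN.pow2 h6).add (hg.mul (PolyN.pow2 h4))).add (hh.mul (PolyN.pow2 hf))).add hj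

end FDECx

open FDECx in
theorem FDEC_thm (h : Stmt_PEX) : Stmt_FDEC := by
  intro W hW
  have i := PolyTime.id
  refine ⟨?_, ?_⟩
  · -- the size
    have h1 : DecOn Set.univ (fun _ z => z.right.size ≤ z.left.left.len) :=
      DecOn.of_dec (PolyDec.leN (PolyNat.size i.right).toN (PolyNat.len i.left.left).toN)
    have h2 : DecOn Set.univ (fun _ z => z.right.left = T.leaf) :=
      DecOn.of_dec (PolyDec.eq_leaf i.right.left)
    -- the number of the block
    have hM : PolyNat (fun z : T => z.left.right.left.left.len) :=
      PolyNat.len i.left.right.left.left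
    have h3 : DecOn Set.univ (fun _ z => bn z.right.right < yy z.left.right.left.left.len) := by
      have hk : PolyN (fun z : T => bn z.right.right + 1) :=
        (H19.canon_polyTime.comp i.right.right).succ
      exact DecOn.of_dec ((PolyDec.leN hk (h _ hM).2).congr fun z => Iff.rfl)
    -- the bits
    have h4 : DecOn Set.univ (fun O z => ∀ j < z.left.right.left.left.len,
        O (2 * posH z.left.right.left.left.len (bn z.left.right.left.right) (bn z.right.right) j
          + 1) = true) := by
      have hb : DecOn Set.univ (fun O a => O (2 * posH a.right.left.right.left.left.len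
          (bn a.right.left.right.left.right) (bn a.right.right.right) (a.left.len - 1) + 1)
            = true) := by
        refine DecOn.bit (PolyN.succ ((PolyN.const 2).mul (posH_polyN ?_ ?_ ?_ ?_)))
        · exact PolyNat.len i.right.left.right.left.left
        · exact H19.canon_polyTime.comp i.right.left.right.left.right
        · exact H19.canon_polyTime.comp i.right.right.right
        · have hl : PolyNat (fun a : T => a.left.len - 1) :=
            PolyTime.congr (PolyNat.len i.left.right) fun x => by
              show T.unary x.left.right.len = T.unary (x.left.len - 1)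
              rw [H19.T.len_right]
          exact hl.toN
      refine (hb.all (l := fun z => (sfx z.left.right.left.left z).toL)
        ((sfx_polyTime₂.comp i.left.right.left.left i).congr fun z => ?_)).congr
        fun O _ z => ?_
      · rw [H19.encL_toL]
      · exact mem_sfx_len z.left.right.left.left z (fun j z => O (2 * posH
          z.left.right.left.left.len (bn z.left.right.left.right) (bn z.right.right) j + 1) = true)
    -- the list
    have h5 : DecOn Set.univ (fun O z => ∀ t ∈ z.left.right.right.toL, ¬ W O t z.right.right) := by
      have hb : DecOn Set.univ (fun O a => ¬ W O a.left.left a.right.right.right) :=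
        ((hW.comp (i.left.left.node i.right.right.right)).congr fun O _ z => Iff.rfl).not
      refine (hb.all (l := fun z => (sfx z.left.right.right z).toL)
        ((sfx_polyTime₂.comp i.left.right.right i).congr fun z => ?_)).congr
        fun O _ z => ?_
      · rw [H19.encL_toL]
      · exact mem_sfx_left z.left.right.right z (fun t z => ¬ W O t z.right.right)
    refine (h1.and ((h2.and (h3.and h4)).or (h2.not.and h5.not))).congr fun O _ z => ?_
    unfold FW
    push Not
    rfl
  · intro O X y hF
    have h1 := hF.1
    have h2 := H19.T.len_lt_size X.left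
    have h3 := H19.T.size_left_le X
    omega

end Pool.Agent.RH
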