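import Pool.Agent.RH.Cst
import Pool.Agent.RO.WINSYS

/-!
# A failure gives a short accepted description with a false instance
-/

namespace Pool.Agent.RH.FFACC

open Pool.Agent.H19 (T PolyTime PolyDec PolyNat PolyN Tm scons bn bl ofBool encL tif envOf)
open Pool.Agent.RO

theorem st_spec (A : ℕ → Set Om) (R : Om) :
    ∀ d, st A R d ≤ d ∧ ∀ d', st A R d ≤ d' → d' < d → R ∈ A d' := by
  intro d
  induction d with
  | zero => exact ⟨le_rfl, fun d' _ h => absurd h (Nat.not_lt_zero _)⟩
  | succ d ih =>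
    by_cases h : R ∈ A d
    · have h1 : st A R (d + 1) = st A R d := by simp [st, h]
      rw [h1]
      refine ⟨ih.1.trans (Nat.le_succ d), fun d' h2 h3 => ?_⟩
      rcases Nat.lt_succ_iff_lt_or_eq.1 h3 with h4 | h4
      · exact ih.2 d' h2 h4
      · rw [h4]; exact h
    · have h1 : st A R (d + 1) = d + 1 := by simp [st, h]
      rw [h1]
      exact ⟨le_rfl, fun d' h2 h3 => absurd h3 (by omega)⟩

theorem lgN_pow (k : ℕ) : lgN (2 ^ k) = k := by
  rw [lgN, Nat.size_pow]; rfl

theorem m_succ (p : Par) (s : ℕ) : p.m (s + 1) = 2 ^ p.m s := rfl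

theorem m_mono (p : Par) : Monotone p.m := fun _ _ h =>
  RO.WINSYS.tow_strictMono.monotone (Nat.add_le_add_left h _)

/-- The list of derivations `E (a + k - 1), …, E a`. -/
def mk (E : ℕ → T) (a : ℕ) : ℕ → T
  | 0 => T.leaf
  | k + 1 => T.node (E (a + k)) (mk E a k)

theorem mk_len (E : ℕ → T) (a k : ℕ) : (mk E a k).len = k := by
  induction k with
  | zero => rfl
  | succ k ih => simp [mk, ih]

theorem mk_mem (E : ℕ → T) (a k : ℕ) {x : T} (h : x ∈ (mk E a k).toL) :
    ∃ i < k, x = E (a + i) := by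
  induction k with
  | zero => simp [mk, Pool.Agent.H19.T.toL] at h
  | succ k ih =>
    simp only [mk, Pool.Agent.H19.T.toL, List.mem_cons] at h
    rcases h with h | h
    · exact ⟨k, Nat.lt_succ_self k, h⟩
    · obtain ⟨i, hi, h'⟩ := ih h
      exact ⟨i, hi.trans (Nat.lt_succ_self k), h'⟩

theorem lg_iter (p : Par) (s k : ℕ) : lgN^[k] (p.m (s + k)) = p.m s := by
  induction k with
  | zero => rfl
  | succ k ih =>
    rw [Function.iterate_succ_apply, ← Nat.add_assoc, m_succ, lgN_pow, ih]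

theorem chain (p : Par) (q : T) (E : ℕ → T) (a k : ℕ)
    (h : ∀ i < k, p.Ok q (p.m (a + i)) (E (a + i))) :
    p.Chain q (mk E a k) (p.m (a + k)) := by
  induction k with
  | zero => exact trivial
  | succ k ih =>
    have h1 : p.m (a + (k + 1)) = 2 ^ p.m (a + k) := rfl
    simp only [mk, Par.Chain]
    rw [h1, lgN_pow]
    exact ⟨rfl, h k (Nat.lt_succ_self k), ih fun i hi => h i (hi.trans (Nat.lt_succ_self k))⟩

theorem three_le (m : ℕ) (h : 1 ≤ m) : 3 * m + 1 ≤ 2 * 2 ^ m := by
  induction m, h using Nat.le_induction with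
  | base => norm_num
  | succ m hm ih => rw [pow_succ]; have : 2 ≤ 2 ^ m := by
                      calc 2 = 2 ^ 1 := rfl
                        _ ≤ 2 ^ m := Nat.pow_le_pow_right (by norm_num) hm
                    omega

theorem mk_size (p : Par) (E : ℕ → T) (a k : ℕ) (hpos : ∀ s, 1 ≤ p.m s)
    (h : ∀ i < k, (E (a + i)).size ≤ 2 ^ (p.m (a + i))) :
    (mk E a k).size ≤ 3 * p.m (a + k) + 1 := by
  induction k with
  | zero => simp [mk, T.size]
  | succ k ih =>
    have h1 : p.m (a + (k + 1)) = 2 ^ p.m (a + k) := rfl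
    have h2 := ih fun i hi => h i (hi.trans (Nat.lt_succ_self k))
    have h3 := h k (Nat.lt_succ_self k)
    have h4 := three_le (p.m (a + k)) (hpos _)
    simp only [mk, T.size]
    rw [h1]
    omega

end Pool.Agent.RH.FFACC

namespace Pool.Agent.RH

open Pool.Agent.H19 (T PolyTime PolyDec PolyNat PolyN Tm scons bn bl ofBool encL tif envOf)
open Pool.Agent.RO
open FFACC

theorem FFACC_thm (hN : Stmt_NUM) : Stmt_FFACC := by
  intro p hp q R d hR
  have hmono : Monotone p.m := m_mono p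
  have h100 : ∀ s, 100 ≤ p.m s := by
    intro s
    have h1 : tow p.s0 ≤ p.m s := hmono (Nat.zero_le s)
    have h2 := hp.s0_big
    have h3 := hp.e_S
    omega
  have hpos : ∀ s, 1 ≤ p.m s := fun s => le_trans (by norm_num) (h100 s)
  obtain ⟨hst, hacc⟩ := st_spec (p.Acc q) R d
  obtain ⟨x, hx, hdead⟩ := hR
  set a := st (p.Acc q) R d with ha
  obtain ⟨k, hk⟩ := Nat.exists_eq_add_of_le hst
  -- choose the derivations
  have hE : ∀ d', ∃ E : T, a ≤ d' → d' < d → (E.size ≤ 2 ^ (p.m d' / p.e) ∧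
      p.OkE (join p.A R) (p.snt q (p.m d')) E) := by
    intro d'
    by_cases h : a ≤ d' ∧ d' < d
    · obtain ⟨E, hE⟩ := hacc d' h.1 h.2
      exact ⟨E, fun _ _ => hE⟩
    · exact ⟨T.leaf, fun h1 h2 => absurd ⟨h1, h2⟩ h⟩
  choose E hE using hE
  have hE' : ∀ i < k, (E (a + i)).size ≤ 2 ^ (p.m (a + i) / p.e) ∧
      p.OkE (join p.A R) (p.snt q (p.m (a + i))) (E (a + i)) :=
    fun i hi => hE (a + i) (Nat.le_add_right _ _) (by omega)
  have hlen : (mk E a k).len = k := mk_len E a k
  have hM : p.m d = p.m (a + k) := by rw [hk]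
  have hlg : lgN^[k + 1] (p.m d) = p.r a := by
    rw [Function.iterate_succ_apply', hM, lg_iter]
    rfl
  have hxsz : x.size ≤ pex (p.m d) - p.r a := Nat.size_le.2 hx
  refine ⟨T.node (T.unary (p.m d)) (T.node (bl x) (mk E a k)), ⟨?_, ?_⟩, ?_, ?_⟩
  · refine ⟨⟨p.s0 + d, ?_⟩, ?_, ?_, ?_⟩
    · simp only [T.left, Pool.Agent.H19.T.len_unary]; rfl
    · simp only [T.left, Pool.Agent.H19.T.len_unary]
      exact hmono (Nat.zero_le _)
    · simp only [T.left, T.right, Pool.Agent.H19.T.len_unary, Pool.Agent.H19.bl_len, hlen, hlg]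
      exact hxsz
    · simp only [T.left, T.right, Pool.Agent.H19.T.len_unary]
      rw [hM]
      refine chain p q E a k fun i hi => ⟨hmono (Nat.zero_le _), (hE' i hi).1, ?_⟩
      exact (hE' i hi).2.1
  · intro y hy
    simp only [Par.items, T.left, T.right, List.mem_flatMap, List.mem_map,
      List.mem_filter] at hy
    obtain ⟨F, hF, φ, ⟨hφ, hφn⟩, rfl⟩ := hy
    obtain ⟨i, hi, rfl⟩ := mk_mem E a k hF
    have h1 := (hE' i hi).2.2.1 φ hφ
    have h2 : φ ∉ p.negs1 (E (a + i)) := by simpa using hφn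
    rw [decFm_enc]
    exact h1.resolve_right h2
  · have h1 := mk_size p E a k hpos fun i hi => (hE' i hi).1.trans
      (Nat.pow_le_pow_right (by norm_num) (Nat.div_le_self _ _))
    rw [← hM] at h1
    have h2 := Pool.Agent.H19.bl_size x
    have h3 : x.size ≤ 2 * p.m d :=
      hxsz.trans ((Nat.sub_le _ _).trans (hN _ (h100 d)).2.1)
    have h4 := h100 d
    simp only [T.size, Pool.Agent.H19.T.size_unary]
    omega
  · intro y hy
    rcases hy.2 with ⟨-, h2, h3⟩ | ⟨-, t, ht, hw⟩
    · generalize y.right = z at h2 h3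
      simp only [Xv, T.left, T.right, Pool.Agent.H19.T.len_unary, Pool.Agent.H19.bn_bl] at h2 h3
      obtain ⟨i, hi, hb⟩ := hdead (bn z) h2
      have h4 := h3 i hi
      have h5 : (2 * posH (p.m d) x (bn z) i + 1) % 2 = 1 := by omega
      have h6 : (2 * posH (p.m d) x (bn z) i + 1) / 2 = posH (p.m d) x (bn z) i := by
        omega
      have h7 : join p.A R (2 * posH (p.m d) x (bn z) i + 1)
          = R (posH (p.m d) x (bn z) i) := by
        simp only [join, h5, h6]
        simp
      rw [h7] at h4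
      have h8 : R (posH (p.m d) x (bn z) i) = false := hb
      rw [h8] at h4
      exact absurd h4 (by simp)
    · simp only [Xv, T.left, T.right, Pool.Agent.H19.toL_encL, List.mem_flatMap] at ht
      obtain ⟨F, hF, htF⟩ := ht
      obtain ⟨i, hi, rfl⟩ := mk_mem E a k hF
      exact (hE' i hi).2.2.2 t htF ((hp.wsat _ _).2 ⟨_, hw⟩)

end Pool.Agent.RH
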