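import Pool.Agent.RH.PDefs
import Pool.Agent.RO.PLANT

/-!
# Averaging over the contents of finitely many positions
-/

open MeasureTheory

namespace Pool.Agent.RH.FIBER

open Pool.Agent.RO (Om coin)
open Pool.Agent.RO.PLANT (fair coin_eq)

/-- Set the bits in `B` to the values of `v`. -/
def plantV (B : Finset ℕ) (v : ℕ → Bool) (R : Om) : Om := fun n => if n ∈ B then v n else R n

/-- All bits in `B` have the values of `v`. -/
def cyl (B : Finset ℕ) (v : ℕ → Bool) : Set Om := {R | ∀ n ∈ B, R n = v n}

open Classical in
/-- The bits in `B` have the values of `v`, the others are fair. -/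
noncomputable def mV (B : Finset ℕ) (v : ℕ → Bool) (n : ℕ) : Measure Bool :=
  if n ∈ B then Measure.dirac (v n) else fair

instance (B : Finset ℕ) (v : ℕ → Bool) (n : ℕ) : IsProbabilityMeasure (mV B v n) := by
  unfold mV; split_ifs <;> infer_instance

theorem map_plantV (B : Finset ℕ) (v : ℕ → Bool) :
    Measure.map (plantV B v) coin = Measure.infinitePi (mV B v) := by
  classical
  have h := Measure.infinitePi_map_pi (μ := fun _ : ℕ => fair)
    (f := fun n : ℕ => if n ∈ B then (fun _ : Bool => v n) else id)
    (fun n => measurable_of_finite _)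
  have h1 : (fun (x : ℕ → Bool) (i : ℕ) => (if i ∈ B then (fun _ : Bool => v i) else id) (x i))
      = plantV B v := by
    funext x i
    unfold plantV
    split_ifs <;> rfl
  have h2 : (fun i : ℕ => Measure.map (if i ∈ B then (fun _ : Bool => v i) else id) fair)
      = mV B v := by
    funext i
    unfold mV
    split_ifs
    · rw [Measure.map_const, measure_univ, one_smul]
    · rw [Measure.map_id]
  rw [coin_eq, ← h1, h]
  congr 1

theorem fair_val (b : Bool) (t : Set Bool) : 2 * fair (t ∩ {b}) = Measure.dirac b t := by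
  classical
  have hs : fair {b} = 2⁻¹ := by
    unfold fair
    rw [PMF.toMeasure_apply_singleton _ _ (MeasurableSet.singleton _)]
    simp
  by_cases ht : b ∈ t
  · have : t ∩ {b} = {b} := by
      ext x; constructor
      · rintro ⟨_, h⟩; exact h
      · intro h; rw [Set.mem_singleton_iff] at h; subst h; exact ⟨ht, rfl⟩
    rw [this, hs, Measure.dirac_apply_of_mem ht]
    exact ENNReal.mul_inv_cancel (by norm_num) (by norm_num)
  · have : t ∩ {b} = ∅ := by
      ext x; constructor
      · rintro ⟨h1, h⟩; rw [Set.mem_singleton_iff] at h; subst h; exact ht h1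
      · intro h; exact h.elim
    rw [this, measure_empty, mul_zero, Measure.dirac_apply]
    simp [ht]

theorem restrict_eq (B : Finset ℕ) (v : ℕ → Bool) :
    (2 : ENNReal) ^ B.card • coin.restrict (cyl B v) = Measure.infinitePi (mV B v) := by
  classical
  apply Measure.eq_infinitePi
  intro s t ht
  have hpi : MeasurableSet ((s : Set ℕ).pi t) := MeasurableSet.pi s.countable_toSet fun i _ => ht i
  rw [Measure.smul_apply, Measure.restrict_apply hpi, smul_eq_mul]
  have hset : (s : Set ℕ).pi t ∩ cyl B v = ((s ∪ B : Finset ℕ) : Set ℕ).pi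
      (fun i => (if i ∈ s then t i else Set.univ) ∩ (if i ∈ B then {v i} else Set.univ)) := by
    ext R
    simp only [Set.mem_inter_iff, Set.mem_pi, cyl, Set.mem_ofPred_eq, Finset.coe_union,
      Set.mem_union, Finset.mem_coe]
    constructor
    · rintro ⟨h1, h2⟩ i _
      constructor
      · split_ifs with h
        · exact h1 i h
        · trivial
      · split_ifs with h
        · exact h2 i h
        · trivial
    · intro h
      constructor
      · intro i hi
        have := (h i (Or.inl hi)).1
        rwa [if_pos hi] at this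
      · intro i hi
        have := (h i (Or.inr hi)).2
        rwa [if_pos hi] at this
  rw [hset, coin_eq, Measure.infinitePi_pi]
  swap
  · intro i _
    exact MeasurableSet.of_discrete
  have hpow : (2 : ENNReal) ^ B.card = ∏ i ∈ s ∪ B, (if i ∈ B then (2 : ENNReal) else 1) := by
    rw [Finset.prod_ite_mem, Finset.prod_const]
    congr 2
    ext i; simp
  rw [hpow, ← Finset.prod_mul_distrib]
  have hR : ∏ i ∈ s, (mV B v i) (t i) = ∏ i ∈ s ∪ B, (if i ∈ s then (mV B v i) (t i) else 1) := by
    rw [Finset.prod_ite_mem]
    congr 1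
    ext i; simp
  rw [hR]
  apply Finset.prod_congr rfl
  intro i hi
  unfold mV
  by_cases hB : i ∈ B
  · by_cases hs : i ∈ s
    · simp only [hB, hs, if_true]
      exact fair_val _ _
    · simp only [hB, hs, if_true, if_false]
      rw [fair_val, Measure.dirac_apply_of_mem (Set.mem_univ _)]
  · by_cases hs : i ∈ s
    · simp only [hB, hs, if_true, if_false, one_mul, Set.inter_univ]
    · exfalso
      rcases Finset.mem_union.mp hi with h | h
      · exact hs h
      · exact hB h

theorem measurable_plantV (B : Finset ℕ) (v : ℕ → Bool) : Measurable (plantV B v) := by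
  classical
  refine measurable_pi_iff.mpr fun n => ?_
  unfold plantV
  by_cases h : n ∈ B
  · simp only [h, if_true]; exact measurable_const
  · simp only [h, if_false]; exact measurable_pi_apply n

theorem plantV_prob (B : Finset ℕ) (v : ℕ → Bool) (E : Set Om) (hE : MeasurableSet E) :
    coin (plantV B v ⁻¹' E) = (2 : ENNReal) ^ B.card * coin (E ∩ cyl B v) := by
  have h1 : coin (plantV B v ⁻¹' E) = Measure.infinitePi (mV B v) E := by
    rw [← map_plantV B v, Measure.map_apply (measurable_plantV B v) hE]
  rw [h1, ← restrict_eq B v, Measure.smul_apply, Measure.restrict_apply hE, smul_eq_mul]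

end Pool.Agent.RH.FIBER

namespace Pool.Agent.RH

open FIBER
open Pool.Agent.RO (Om coin)

theorem FIBER_thm : Stmt_FIBER := by
  classical
  intro N Y M γ hγ E hE
  set γ' : Fin N × Fin Y × Fin M → ℕ := fun p => γ p.1 p.2.1 p.2.2 with hγ'
  have hinj : Function.Injective γ' := by
    rintro ⟨x, y, i⟩ ⟨x', y', i'⟩ h
    obtain ⟨h1, h2, h3⟩ := hγ x y i x' y' i' h
    subst h1; subst h2; subst h3; rfl
  set B : Finset ℕ := Finset.univ.image γ' with hB
  have hBc : B.card = N * Y * M := by
    rw [hB, Finset.card_image_of_injective _ hinj, Finset.card_univ, Fintype.card_prod,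
      Fintype.card_prod, Fintype.card_fin, Fintype.card_fin, Fintype.card_fin, mul_assoc]
  -- values
  let val : (Fin N → Fin Y → Fin M → Bool) → ℕ → Bool := fun ω n =>
    if h : ∃ p : Fin N × Fin Y × Fin M, γ' p = n then ω h.choose.1 h.choose.2.1 h.choose.2.2
    else false
  have hmem : ∀ n, n ∈ B ↔ ∃ p, γ' p = n := by
    intro n; simp [hB]
  have hval : ∀ ω (p : Fin N × Fin Y × Fin M), val ω (γ' p) = ω p.1 p.2.1 p.2.2 := by
    intro ω p
    have h : ∃ q : Fin N × Fin Y × Fin M, γ' q = γ' p := ⟨p, rfl⟩
    have h2 : h.choose = p := hinj h.choose_spec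
    show (if h : ∃ q : Fin N × Fin Y × Fin M, γ' q = γ' p then
      ω h.choose.1 h.choose.2.1 h.choose.2.2 else false) = _
    rw [dif_pos h, h2]
  have hfill : ∀ ω (R : Om), fill γ ω R = plantV B (val ω) R := by
    intro ω R
    funext n
    unfold fill plantV
    by_cases h : ∃ p : Fin N × Fin Y × Fin M, γ' p = n
    · rw [if_pos ((hmem n).mpr h)]
      show (if h : ∃ p : Fin N × Fin Y × Fin M, γ' p = n then
        ω h.choose.1 h.choose.2.1 h.choose.2.2 else R n) = (if h : ∃ p : Fin N × Fin Y × Fin M,
          γ' p = n then ω h.choose.1 h.choose.2.1 h.choose.2.2 else false)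
      rw [dif_pos h, dif_pos h]
    · rw [if_neg (fun h' => h ((hmem n).mp h'))]
      exact dif_neg h
  have hterm : ∀ ω, coin {R | fill γ ω R ∈ E} =
      (2 : ENNReal) ^ (N * Y * M) * coin (E ∩ cyl B (val ω)) := by
    intro ω
    rw [← hBc, ← plantV_prob B (val ω) E hE]
    congr 1
    ext R
    show fill γ ω R ∈ E ↔ plantV B (val ω) R ∈ E
    rw [hfill]
  rw [Finset.sum_congr rfl fun ω _ => hterm ω, ← Finset.mul_sum]
  congr 1
  let g : Om → (Fin N → Fin Y → Fin M → Bool) := fun R x y i => R (γ x y i)
  have hg : Measurable g := by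
    refine measurable_pi_iff.mpr fun x => measurable_pi_iff.mpr fun y =>
      measurable_pi_iff.mpr fun i => measurable_pi_apply _
  have hcyl : ∀ ω, cyl B (val ω) = g ⁻¹' {ω} := by
    intro ω
    ext R
    simp only [cyl, Set.mem_ofPred_eq, Set.mem_preimage, Set.mem_singleton_iff]
    constructor
    · intro h
      funext x y i
      have := h (γ' (x, y, i)) ((hmem _).mpr ⟨_, rfl⟩)
      rw [hval] at this
      exact this
    · intro h n hn
      obtain ⟨p, rfl⟩ := (hmem n).mp hn
      rw [hval, ← h]
  have hsum := sum_measure_preimage_singleton (μ := coin.restrict E) (f := g) Finset.univ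
    (fun ω _ => hg (MeasurableSet.singleton ω))
  rw [Finset.coe_univ, Set.preimage_univ, Measure.restrict_apply_univ] at hsum
  rw [← hsum]
  apply Finset.sum_congr rfl
  intro ω _
  rw [hcyl, Measure.restrict_apply (hg (MeasurableSet.singleton ω)), Set.inter_comm]

end Pool.Agent.RH
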