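import Pool.Agent.RH.PDefs

/-!
# HIT: hitting a family of small sets by a sparse random set
-/

namespace Pool.Agent.RH

namespace HIT

theorem upper (b : ℕ) : ∀ c : ℕ, 2 * c ≤ b + 1 →
    (b + 1) * (b + 2) ^ c ≤ (b + 1 + 2 * c) * (b + 1) ^ c := by
  intro c
  induction c with
  | zero => intro _; simp
  | succ c ih =>
    intro h
    have h1 := ih (by omega)
    calc (b + 1) * (b + 2) ^ (c + 1) = (b + 2) * ((b + 1) * (b + 2) ^ c) := by ring
      _ ≤ (b + 2) * ((b + 1 + 2 * c) * (b + 1) ^ c) := Nat.mul_le_mul_left _ h1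
      _ = ((b + 2) * (b + 1 + 2 * c)) * (b + 1) ^ c := by ring
      _ ≤ ((b + 1 + 2 * (c + 1)) * (b + 1)) * (b + 1) ^ c := by
          apply Nat.mul_le_mul_right
          nlinarith
      _ = (b + 1 + 2 * (c + 1)) * (b + 1) ^ (c + 1) := by ring

theorem lower (b : ℕ) : ∀ c : ℕ,
    (b + 1) * (b + 1) ^ c ≤ (b + 1) * b ^ c + c * (b + 1) ^ c := by
  intro c
  induction c with
  | zero => simp
  | succ c ih =>
    have h2 : b * ((b + 1) * (b + 1) ^ c) ≤ b * ((b + 1) * b ^ c + c * (b + 1) ^ c) :=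
      Nat.mul_le_mul_left _ ih
    have h3 : (b + 1) * b ^ (c + 1) = b * ((b + 1) * b ^ c) := by ring
    have h4 : (b + 1) * (b + 1) ^ (c + 1) = b * ((b + 1) * (b + 1) ^ c) +
        (b + 1) * (b + 1) ^ c := by ring
    have h5 : (c + 1) * (b + 1) ^ (c + 1) = b * (c * (b + 1) ^ c) + c * (b + 1) ^ c +
        (b + 1) * (b + 1) ^ c := by ring
    rw [h3, h4, h5]
    have h6 : b * ((b + 1) * b ^ c + c * (b + 1) ^ c) =
      b * ((b + 1) * b ^ c) + b * (c * (b + 1) ^ c) := by ring
    rw [h6] at h2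
    have h7 : 0 ≤ c * (b + 1) ^ c := Nat.zero_le _
    omega

theorem pow_ineq (b c : ℕ) (h : 3 * c ≤ b + 1) :
    (b + 2) ^ c ≤ (b + 1) ^ c + b ^ c := by
  have h1 := upper b c (by omega)
  have h2 := lower b c
  have h3 : (b + 1) * (b + 2) ^ c ≤ (b + 1) * ((b + 1) ^ c + b ^ c) := by
    have h4 : 3 * c * (b + 1) ^ c ≤ (b + 1) * (b + 1) ^ c := Nat.mul_le_mul_right _ h
    nlinarith
  exact Nat.le_of_mul_le_mul_left h3 (Nat.succ_pos b)

open Classical in
/-- The sum over the nonempty subsets of `C`. -/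
theorem nonempty_sum {I : Type} (b : ℕ) (C : Finset I) :
    ∑ D ∈ C.powerset.filter (fun D => D.Nonempty), b ^ (C \ D).card * 2 ^ D.card + b ^ C.card =
      (b + 2) ^ C.card := by
  have h1 : ∑ D ∈ C.powerset, 2 ^ D.card * b ^ (C.card - D.card) = (2 + b) ^ C.card :=
    Finset.sum_pow_mul_eq_add_pow 2 b C
  have h2 : ∑ D ∈ C.powerset, b ^ (C \ D).card * 2 ^ D.card = (b + 2) ^ C.card := by
    rw [add_comm b 2, ← h1]
    refine Finset.sum_congr rfl fun D hD => ?_
    rw [Finset.card_sdiff_of_subset (Finset.mem_powerset.mp hD), mul_comm]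
  rw [← h2, ← Finset.sum_filter_add_sum_filter_not C.powerset (fun D => D.Nonempty)]
  congr 1
  have h3 : C.powerset.filter (fun D => ¬ D.Nonempty) = {∅} := by
    ext D
    simp only [Finset.mem_filter, Finset.mem_powerset, Finset.not_nonempty_iff_eq_empty,
      Finset.mem_singleton]
    constructor
    · exact fun h => h.2
    · rintro rfl
      exact ⟨Finset.empty_subset _, rfl⟩
  rw [h3]
  simp

open Classical in
theorem main (I : Type) (b w : ℕ) (hw : 1 ≤ w) (hb : 8 * w ≤ b + 1) :
    ∀ (n : ℕ) (U : Finset I), U.card = n → ∀ (F : Set (Finset I)),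
    (∀ C ∈ F, C ⊆ U ∧ C.card ≤ w) → ∀ N : Finset I → ℕ,
    (∀ μ ⊆ U, ∀ D ⊆ μ, (∀ C ∈ F, (C ∩ D).Nonempty) → N μ ≤ D.card) →
    ∑ μ ∈ U.powerset.filter (fun μ => ∀ C ∈ F, (C ∩ μ).Nonempty),
      b ^ (U \ μ).card * 2 ^ N μ ≤ (b + 1) ^ U.card := by
  intro n
  induction n using Nat.strong_induction_on with
  | _ n ih =>
  intro U hU F hF N hN
  by_cases hFe : F.Nonempty
  swap
  · have hFe' : F = ∅ := Set.not_nonempty_iff_eq_empty.mp hFe
    subst hFe'
    have h1 : ∑ D ∈ U.powerset, 1 ^ D.card * b ^ (U.card - D.card) = (1 + b) ^ U.card :=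
      Finset.sum_pow_mul_eq_add_pow 1 b U
    rw [add_comm b 1, ← h1]
    have h2 : U.powerset.filter (fun μ => ∀ C ∈ (∅ : Set (Finset I)), (C ∩ μ).Nonempty) =
        U.powerset := by
      apply Finset.filter_true_of_mem
      intro μ _ C hC
      exact absurd hC (Set.notMem_empty C)
    rw [h2]
    refine Finset.sum_le_sum fun μ hμ => ?_
    have hμ' := Finset.mem_powerset.mp hμ
    have h3 : N μ ≤ (∅ : Finset I).card := hN μ hμ' ∅ (Finset.empty_subset _)
      (fun C hC => absurd hC (Set.notMem_empty C))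
    have h4 : N μ = 0 := by simpa using h3
    rw [h4, Finset.card_sdiff_of_subset hμ']
    simp
  obtain ⟨C, hC⟩ := hFe
  obtain ⟨hCU, hCw⟩ := hF C hC
  by_cases hCe : C.Nonempty
  swap
  · have hCe' : C = ∅ := Finset.not_nonempty_iff_eq_empty.mp hCe
    have h2 : U.powerset.filter (fun μ => ∀ C ∈ F, (C ∩ μ).Nonempty) = ∅ := by
      apply Finset.filter_false_of_mem
      intro μ _ hμ
      have := hμ C hC
      rw [hCe'] at this
      simp at this
    rw [h2]
    simp
  -- the main case
  have hfib := Finset.sum_fiberwise_of_maps_to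
    (s := U.powerset.filter (fun μ => ∀ C ∈ F, (C ∩ μ).Nonempty))
    (t := C.powerset.filter (fun D => D.Nonempty)) (g := fun μ => C ∩ μ)
    (f := fun μ => b ^ (U \ μ).card * 2 ^ N μ) (by
      intro μ hμ
      rw [Finset.mem_filter] at hμ ⊢
      exact ⟨Finset.mem_powerset.mpr Finset.inter_subset_left, hμ.2 C hC⟩)
  rw [← hfib]
  have hbound : ∀ D ∈ C.powerset.filter (fun D => D.Nonempty),
      ∑ μ ∈ (U.powerset.filter (fun μ => ∀ C ∈ F, (C ∩ μ).Nonempty)).filter
        (fun μ => C ∩ μ = D), b ^ (U \ μ).card * 2 ^ N μ ≤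
      (b ^ (C \ D).card * 2 ^ D.card) * (b + 1) ^ (U \ C).card := by
    intro D hD
    rw [Finset.mem_filter, Finset.mem_powerset] at hD
    obtain ⟨hDC, hDn⟩ := hD
    set F' : Set (Finset I) := {C' | ∃ C'' ∈ F, C'' ∩ D = ∅ ∧ C' = C'' \ C} with hF'
    set N' : Finset I → ℕ := fun μ' => N (D ∪ μ') - D.card with hN'
    have hcard : (U \ C).card < n := by
      rw [← hU, Finset.card_sdiff_of_subset hCU]
      have := Finset.card_pos.mpr hCe
      have := Finset.card_le_card hCU
      omega
    have hdisj : ∀ μ' ⊆ U \ C, Disjoint D μ' := by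
      intro μ' hμ'
      rw [Finset.disjoint_left]
      intro x hx hx'
      exact (Finset.mem_sdiff.mp (hμ' hx')).2 (hDC hx)
    have hrec := ih _ hcard (U \ C) rfl F' (by
      rintro C' ⟨C'', hC'', _, rfl⟩
      obtain ⟨h1, h2⟩ := hF C'' hC''
      exact ⟨Finset.sdiff_subset_sdiff h1 (Finset.Subset.refl _),
        (Finset.card_le_card Finset.sdiff_subset).trans h2⟩) N' (by
      intro μ' hμ' D' hD' hhit
      have h1 : N (D ∪ μ') ≤ (D ∪ D').card := by
        apply hN
        · exact Finset.union_subset (hDC.trans hCU) (hμ'.trans Finset.sdiff_subset)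
        · exact Finset.union_subset_union (Finset.Subset.refl _) hD'
        · intro C'' hC''
          by_cases h2 : C'' ∩ D = ∅
          · obtain ⟨x, hx⟩ := hhit (C'' \ C) ⟨C'', hC'', h2, rfl⟩
            rw [Finset.mem_inter, Finset.mem_sdiff] at hx
            exact ⟨x, Finset.mem_inter.mpr ⟨hx.1.1, Finset.mem_union_right _ hx.2⟩⟩
          · obtain ⟨x, hx⟩ := Finset.nonempty_iff_ne_empty.mpr h2
            rw [Finset.mem_inter] at hx
            exact ⟨x, Finset.mem_inter.mpr ⟨hx.1, Finset.mem_union_left _ hx.2⟩⟩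
      have h2 : (D ∪ D').card = D.card + D'.card :=
        Finset.card_union_of_disjoint (hdisj D' (hD'.trans hμ'))
      simp only [hN']
      omega)
    have hinj : Set.InjOn (fun μ => μ \ C)
        (((U.powerset.filter (fun μ => ∀ C ∈ F, (C ∩ μ).Nonempty)).filter
          (fun μ => C ∩ μ = D) : Finset (Finset I)) : Set (Finset I)) := by
      intro μ hμ ν hν h
      rw [Finset.mem_coe, Finset.mem_filter] at hμ hν
      have h1 : μ = (μ \ C) ∪ (C ∩ μ) := by
        rw [Finset.inter_comm, Finset.sdiff_union_inter]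
      have h2 : ν = (ν \ C) ∪ (C ∩ ν) := by
        rw [Finset.inter_comm, Finset.sdiff_union_inter]
      rw [h1, h2, hμ.2, hν.2]
      have h3 : μ \ C = ν \ C := h
      rw [h3]
    calc
      ∑ μ ∈ (U.powerset.filter (fun μ => ∀ C ∈ F, (C ∩ μ).Nonempty)).filter
        (fun μ => C ∩ μ = D), b ^ (U \ μ).card * 2 ^ N μ
        ≤ ∑ μ ∈ (U.powerset.filter (fun μ => ∀ C ∈ F, (C ∩ μ).Nonempty)).filter
        (fun μ => C ∩ μ = D), (fun μ' => (b ^ (C \ D).card * 2 ^ D.card) *
          (b ^ ((U \ C) \ μ').card * 2 ^ N' μ')) (μ \ C) := by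
          refine Finset.sum_le_sum fun μ hμ => ?_
          rw [Finset.mem_filter, Finset.mem_filter, Finset.mem_powerset] at hμ
          obtain ⟨⟨hμU, hμF⟩, hμD⟩ := hμ
          have h1 : D ∪ (μ \ C) = μ := by
            rw [← hμD, Finset.union_comm, Finset.inter_comm, Finset.sdiff_union_inter]
          have h2 : (U \ μ).card = (C \ D).card + ((U \ C) \ (μ \ C)).card := by
            rw [← Finset.card_union_of_disjoint]
            · congr 1
              ext x
              simp only [Finset.mem_sdiff, Finset.mem_union]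
              constructor
              · rintro ⟨hxU, hxμ⟩
                by_cases hxC : x ∈ C
                · left
                  refine ⟨hxC, fun hxD => hxμ ?_⟩
                  rw [← hμD] at hxD
                  exact (Finset.mem_inter.mp hxD).2
                · right
                  exact ⟨⟨hxU, hxC⟩, fun h => hxμ h.1⟩
              · rintro (⟨hxC, hxD⟩ | ⟨⟨hxU, hxC⟩, h⟩)
                · refine ⟨hCU hxC, fun hxμ => hxD ?_⟩
                  rw [← hμD]
                  exact Finset.mem_inter.mpr ⟨hxC, hxμ⟩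
                · exact ⟨hxU, fun hxμ => h ⟨hxμ, hxC⟩⟩
            · rw [Finset.disjoint_left]
              intro x hx hx'
              exact (Finset.mem_sdiff.mp (Finset.mem_sdiff.mp hx').1).2 (Finset.mem_sdiff.mp hx).1
          have h3 : N μ ≤ D.card + N' (μ \ C) := by
            simp only [hN', h1]
            omega
          have h4 : (2 : ℕ) ^ N μ ≤ 2 ^ D.card * 2 ^ N' (μ \ C) := by
            rw [← pow_add]
            exact Nat.pow_le_pow_right (by norm_num) h3
          calc b ^ (U \ μ).card * 2 ^ N μ ≤ b ^ (U \ μ).card * (2 ^ D.card * 2 ^ N' (μ \ C)) :=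
                Nat.mul_le_mul_left _ h4
            _ = (b ^ (C \ D).card * 2 ^ D.card) *
                (b ^ ((U \ C) \ (μ \ C)).card * 2 ^ N' (μ \ C)) := by
                rw [h2, pow_add]
                ring
      _ = ∑ μ' ∈ ((U.powerset.filter (fun μ => ∀ C ∈ F, (C ∩ μ).Nonempty)).filter
        (fun μ => C ∩ μ = D)).image (fun μ => μ \ C), (b ^ (C \ D).card * 2 ^ D.card) *
          (b ^ ((U \ C) \ μ').card * 2 ^ N' μ') := by
          rw [Finset.sum_image hinj]
      _ ≤ ∑ μ' ∈ (U \ C).powerset.filter (fun μ => ∀ C ∈ F', (C ∩ μ).Nonempty),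
          (b ^ (C \ D).card * 2 ^ D.card) * (b ^ ((U \ C) \ μ').card * 2 ^ N' μ') := by
          apply Finset.sum_le_sum_of_subset
          intro μ' hμ'
          rw [Finset.mem_image] at hμ'
          obtain ⟨μ, hμ, rfl⟩ := hμ'
          rw [Finset.mem_filter, Finset.mem_filter, Finset.mem_powerset] at hμ
          obtain ⟨⟨hμU, hμF⟩, hμD⟩ := hμ
          rw [Finset.mem_filter, Finset.mem_powerset]
          refine ⟨Finset.sdiff_subset_sdiff hμU (Finset.Subset.refl _), ?_⟩
          rintro C' ⟨C'', hC'', hdis, rfl⟩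
          obtain ⟨x, hx⟩ := hμF C'' hC''
          rw [Finset.mem_inter] at hx
          have hxC : x ∉ C := by
            intro hxC
            have h1 : x ∈ D := by
              rw [← hμD]
              exact Finset.mem_inter.mpr ⟨hxC, hx.2⟩
            have h2 : x ∈ C'' ∩ D := Finset.mem_inter.mpr ⟨hx.1, h1⟩
            rw [hdis] at h2
            exact absurd h2 (Finset.notMem_empty x)
          exact ⟨x, Finset.mem_inter.mpr ⟨Finset.mem_sdiff.mpr ⟨hx.1, hxC⟩,
            Finset.mem_sdiff.mpr ⟨hx.2, hxC⟩⟩⟩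
      _ = (b ^ (C \ D).card * 2 ^ D.card) *
          ∑ μ' ∈ (U \ C).powerset.filter (fun μ => ∀ C ∈ F', (C ∩ μ).Nonempty),
            (b ^ ((U \ C) \ μ').card * 2 ^ N' μ') := by
          rw [Finset.mul_sum]
      _ ≤ (b ^ (C \ D).card * 2 ^ D.card) * (b + 1) ^ (U \ C).card :=
          Nat.mul_le_mul_left _ hrec
  calc _ ≤ ∑ D ∈ C.powerset.filter (fun D => D.Nonempty),
      (b ^ (C \ D).card * 2 ^ D.card) * (b + 1) ^ (U \ C).card := Finset.sum_le_sum hbound
    _ = (∑ D ∈ C.powerset.filter (fun D => D.Nonempty),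
      (b ^ (C \ D).card * 2 ^ D.card)) * (b + 1) ^ (U \ C).card := by
        rw [Finset.sum_mul]
    _ ≤ (b + 1) ^ C.card * (b + 1) ^ (U \ C).card := by
        apply Nat.mul_le_mul_right
        have h1 := nonempty_sum b C
        have h2 := pow_ineq b C.card (by omega)
        omega
    _ = (b + 1) ^ U.card := by
        rw [← pow_add]
        congr 1
        rw [Finset.card_sdiff_of_subset hCU]
        have := Finset.card_le_card hCU
        omega

end HIT

open Classical in
theorem HIT_thm : Stmt_HIT := by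
  intro I b w hw hb U F hF N hN
  obtain ⟨b', rfl⟩ : ∃ b', b = b' + 1 := ⟨b - 1, by omega⟩
  have h := HIT.main I b' w hw hb U.card U rfl F hF N hN
  simpa using h

end Pool.Agent.RH
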