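import Pool.Agent.RH.Cst
import Pool.Agent.RO.Chk

/-!
# Instances of the universal formula in polynomial time
-/

namespace Pool.Agent.RH

open Pool.Agent.H19 (T PolyTime PolyDec PolyNat PolyN Tm scons bn bl ofBool encL tif envOf vec3 tt)
open Pool.Agent.RO

namespace IOTA

/-- One instantiation by a computed numeral. -/
theorem inst_num {g : T → T} {f : T → ℕ} (hg : PolyTime g) (hf : PolyN f) :
    PolyTime (fun y => ((decFm (g y)).inst 0 (Tm.numeral (f y))).enc) := by
  refine (inst_polyTime.comp hg hf.numeral).congr fun y => ?_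
  simp

/-- Numbers computed in polynomial time have polynomial size. -/
theorem size_bd {f : T → ℕ} (hf : PolyN f) : ∃ k : ℕ, ∀ v, (f v).size ≤ (v.size + 2) ^ k := by
  obtain ⟨k, hk⟩ := PolyTime.size_bound hf
  exact ⟨k, fun v => (Pool.Agent.H19.size_le_bl (f v)).trans (hk v)⟩

end IOTA

theorem IOTA_thm : Stmt_IOTA := by
  intro μ e nx nz hx hz h hh
  have hX : PolyN (fun v => nx (h v)) := PolyN.comp hx hh
  have hZ : PolyN (fun v => nz (h v)) := PolyN.comp hz hh
  constructor
  · have h1 := IOTA.inst_num (PolyTime.const μ.enc) (PolyN.const e)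
    have h2 := IOTA.inst_num h1 hX
    have h3 := IOTA.inst_num h2 hZ
    refine h3.congr fun y => ?_
    simp only [decFm_enc]
    rfl
  · obtain ⟨k1, hk1⟩ := IOTA.size_bd hX
    obtain ⟨k2, hk2⟩ := IOTA.size_bd hZ
    refine ⟨max k1 k2, fun v => ⟨?_, ?_⟩⟩
    · exact (hk1 v).trans (Nat.pow_le_pow_right (by omega) (le_max_left _ _))
    · exact (hk2 v).trans (Nat.pow_le_pow_right (by omega) (le_max_right _ _))

end Pool.Agent.RH
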