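import Pool.Agent.RH.Cst
import Pool.Agent.RO.ITEMS

/-! # ITEMS: the list of items of a description is computable in polynomial time -/

namespace Pool.Agent.RH.IT

open Pool.Agent.H19 hiding Fm Step decFm decProof decStep inst_polyTime decFm_enc normFm_polyTime
open Pool.Agent.H19.T
open Pool.Agent.RO (inst_polyTime decFm decFm_enc normFm_polyTime decProof decStep hyps Step)
open Pool.Agent.RO.ITEMS (encL_append)

theorem toL_size (E a : T) (h : a ∈ E.toL) : a.size ≤ E.size := by
  induction E with
  | leaf => simp [T.toL] at h
  | node x y _ ih =>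
    simp only [T.toL, List.mem_cons] at h
    simp only [T.size]
    rcases h with rfl | h
    · omega
    · have := ih h
      omega

theorem flatMap_size (g : T → List T) (B : ℕ) (C : T)
    (h : ∀ a ∈ C.toL, (encL (g a)).size ≤ B) :
    (encL (C.toL.flatMap g)).size ≤ C.len * B + 1 := by
  induction C with
  | leaf => simp [T.toL, T.size]
  | node a b _ ih =>
    have h1 := h a (by simp [T.toL])
    have h2 := ih fun x hx => h x (by simp [T.toL, hx])
    simp only [T.toL, List.flatMap_cons, encL_append, T.len_node]
    have h3 := app_size (encL (g a)) (encL (b.toL.flatMap g))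
    have h4 : (b.len + 1) * B = b.len * B + B := by ring
    rw [h4]
    omega

/-- Lists obtained from a list by replacing its elements by lists. -/
theorem flatMap_polyTime₂ {g : T → T → List T} (hg : PolyTime₂ (fun a y => encL (g a y))) :
    PolyTime₂ (fun C y => encL (C.toL.flatMap fun a => g a y)) := by
  have i := PolyTime.id
  obtain ⟨k, hk⟩ := PolyTime.size_bound (f := fun z => encL (g z.left z.right)) hg
  refine PolyTime₂.binRec (F := fun C y => encL (C.toL.flatMap fun a => g a y))
    (l := fun _ => T.leaf) (r := T.right)
    (pl := fun _ => T.leaf) (pr := fun z => z.right) (base := fun _ => T.leaf)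
    (comb := fun w => app (encL (g w.left.left.left w.left.right)) w.right.right)
    PolyTime.leaf PolyTime.right' PolyTime.leaf i.right PolyTime.leaf
    ((hg.comp i.left.left.left i.left.right).app i.right.right) (fun _ => rfl) ?_ ?_ 1 ?_ ?_
    (G := fun n => n * (n + 1 + 2) ^ k + 1)
    ((PolyB.id.mul (((PolyB.id.add (PolyB.const 1)).add (PolyB.const 2)).pow k)).add
      (PolyB.const 1)) ?_ ?_
  · intro x p hx
    rcases x with _ | ⟨a, b⟩
    · exact absurd rfl hx
    · simp only [T.toL, List.flatMap_cons, encL_append, T.left_node, T.right_node]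
  · intro x hx
    rcases x with _ | ⟨a, b⟩
    · exact absurd rfl hx
    · have := T.size_pos a
      simp only [T.size, T.right_node]; omega
  · intro x p; have := T.size_pos p; simp only [T.size]; omega
  · intro x p; simp
  · intro a b h
    have h1 : (a + 1 + 2) ^ k ≤ (b + 1 + 2) ^ k := Nat.pow_le_pow_left (by omega) _
    have h2 := Nat.mul_le_mul h h1
    dsimp only
    omega
  · intro x p
    have h1 : ∀ a ∈ x.toL, (encL (g a p)).size ≤ (x.size + p.size + 1 + 2) ^ k := by
      intro a ha
      have h2 := hk (T.node a p)
      simp only [T.left_node, T.right_node, T.size] at h2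
      have h3 := toL_size x a ha
      exact h2.trans (Nat.pow_le_pow_left (by omega) _)
    refine (flatMap_size (fun a => g a p) _ x h1).trans ?_
    have h4 := T.len_lt_size x
    have h5 : x.len ≤ x.size + p.size := by omega
    have h6 := Nat.mul_le_mul_right ((x.size + p.size + 1 + 2) ^ k) h5
    omega

theorem flatMap_polyTime {g : T → T → List T} (hg : PolyTime₂ (fun a y => encL (g a y)))
    {C y : T → T} (hC : PolyTime C) (hy : PolyTime y) :
    PolyTime (fun x => encL ((C x).toL.flatMap fun a => g a (y x))) :=
  (flatMap_polyTime₂ hg).comp hC hy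

theorem map_polyTime {g : T → T} (hg : PolyTime g) {C : T → T} (hC : PolyTime C) :
    PolyTime (fun x => encL ((C x).toL.map g)) := by
  have i := PolyTime.id
  have h : PolyTime₂ (fun a _ => encL [g a]) := (hg.comp i.left).node PolyTime.leaf
  refine (flatMap_polyTime (g := fun a _ => [g a]) h hC PolyTime.leaf).congr fun x => ?_
  beta_reduce
  rw [List.map_eq_flatMap]

/-- Instances of a formula. -/
theorem inst3_polyTime (μ : RO.Fm) {a b c : T → ℕ} (ha : PolyN a) (hb : PolyN b)
    (hc : PolyN c) : PolyTime (fun x => (RO.inst3 μ (a x) (b x) (c x)).enc) := by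
  have h : ∀ {f : T → RO.Fm} {t : T → ℕ}, PolyTime (fun x => (f x).enc) → PolyN t →
      PolyTime (fun x => ((f x).inst 0 (Tm.numeral (t x))).enc) := by
    intro f t hf ht
    refine (inst_polyTime.comp hf ht.numeral).congr fun x => ?_
    beta_reduce
    rw [decFm_enc, decTm_enc]
  exact h (h (h (PolyTime.const μ.enc) ha) hb) hc

theorem instT_polyTime (μ : RO.Fm) : PolyTime (fun t => (instT μ t).enc) :=
  inst3_polyTime μ (envOf_polyN 0) (envOf_polyN 1) (envOf_polyN 2)

theorem negs_polyTime (p : Par) {f : T → T} (hf : PolyTime f) :
    PolyTime (fun x => encL ((p.negs1 (f x)).map RO.Fm.enc)) := by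
  have h1 : PolyTime (fun t => (RO.Fm.neg (instT p.μ t)).enc) :=
    (PolyTime.const (T.unary 11)).node ((instT_polyTime p.μ).node (PolyTime.const RO.Fm.bot.enc))
  refine (map_polyTime h1 hf.right).congr fun x => ?_
  simp only [Par.negs1, List.map_map]
  rfl

/-- The items of a line of a derivation, given the list of the codes of the excluded formulas. -/
noncomputable def gL (s N : T) : List T :=
  open Classical in
  if s.left = T.leaf ∧ (decFm s.right).enc ∉ N.toL then [(decFm s.right).enc] else []

theorem gL_polyTime : PolyTime₂ (fun s N => encL (gL s N)) := by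
  classical
  have i := PolyTime.id
  have hn : PolyTime (fun z : T => (decFm z.left.right).enc) := normFm_polyTime.comp i.left.right
  have h1 : PolyDec (fun z : T => z.left.left = T.leaf ∧ (decFm z.left.right).enc ∉ z.right.toL) :=
    (PolyDec.eq_leaf i.left.left).and (PolyDec.mem i.right hn).not
  refine (PolyTime.ifP h1 (hn.node PolyTime.leaf) PolyTime.leaf).congr fun z => ?_
  simp only [gL]
  split_ifs <;> rfl

/-- The items of a derivation. -/
noncomputable def iE (p : Par) (E : T) : List T :=
  ((hyps (decProof E.left)).filter fun ψ => ψ ∉ p.negs1 E).map RO.Fm.enc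

theorem iE_eq (p : Par) (E : T) :
    iE p E = E.left.toL.flatMap fun s => gL s (encL ((p.negs1 E).map RO.Fm.enc)) := by
  classical
  have hmem : ∀ ψ : RO.Fm, ψ.enc ∈ (p.negs1 E).map RO.Fm.enc ↔ ψ ∈ p.negs1 E := by
    intro ψ
    rw [List.mem_map]
    constructor
    · rintro ⟨χ, h1, h2⟩
      rw [RO.Fm.enc_inj] at h2
      rwa [← h2]
    · intro h
      exact ⟨ψ, h, rfl⟩
  unfold iE decProof
  induction E.left with
  | leaf => rfl
  | node a b _ ih =>
    simp only [T.toL, List.map_cons, List.flatMap_cons]
    by_cases h : a.left = T.leaf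
    · have h1 : decStep a = Step.hyp (decFm a.right) := by
        simp [decStep, T.unary, h]
      rw [h1]
      simp only [hyps]
      by_cases h2 : decFm a.right ∈ p.negs1 E
      · have h3 : gL a (encL ((p.negs1 E).map RO.Fm.enc)) = [] := by
          unfold gL
          rw [if_neg]
          rw [toL_encL, hmem]
          tauto
        rw [h3, List.filter_cons_of_neg (by simpa using h2), List.nil_append]
        exact ih
      · have h3 : gL a (encL ((p.negs1 E).map RO.Fm.enc)) = [(decFm a.right).enc] := by
          unfold gL
          rw [if_pos]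
          rw [toL_encL, hmem]
          exact ⟨h, h2⟩
        rw [h3, List.filter_cons_of_pos (by simpa using h2), List.map_cons, ih]
        rfl
    · have h1 : ∀ l : List Step, hyps (decStep a :: l) = hyps l := by
        intro l
        have : ¬ a.left = T.unary 0 := h
        simp only [decStep, this, if_false]
        split_ifs <;> rfl
      have h3 : gL a (encL ((p.negs1 E).map RO.Fm.enc)) = [] := by
        unfold gL
        rw [if_neg]
        tauto
      rw [h1, h3, List.nil_append]
      exact ih

theorem iE_polyTime (p : Par) : PolyTime (fun E => encL (iE p E)) := by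
  have i := PolyTime.id
  refine (flatMap_polyTime gL_polyTime i.left (negs_polyTime p i)).congr fun E => ?_
  rw [iE_eq]

end Pool.Agent.RH.IT

namespace Pool.Agent.RH

open Pool.Agent.H19 IT in
/-- ITEMS. -/
theorem ITEMS_thm : Stmt_ITEMS := by
  intro p
  have i := PolyTime.id
  have h : PolyTime₂ (fun E _ => encL (iE p E)) := (iE_polyTime p).comp i.left
  exact (flatMap_polyTime (g := fun E _ => iE p E) h i.right.right PolyTime.leaf).congr
    fun v => rfl

end Pool.Agent.RH
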