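import Pool.Agent.RH.Cst
import Pool.Agent.RO.MAIN
import Pool.Agent.RO.HYPS
import Pool.Agent.RO.PROGRAM

/-!
# The main theorem (reflection beyond consistency) from the theorem for presented theories
-/

open MeasureTheory

namespace Pool.Agent.RH

open Pool.Agent.H19 (T Tm scons)
open Pool.Agent.RO

namespace MAIN

/-- A consistent presented theory is in the class. -/
theorem inClassT {O : Om} {c : OCode} {κ : ℕ} (hh : HaltsWithin O c κ)
    (hc : Consistent (theory O c κ)) : InClassT O (theory O c κ) := by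
  refine ⟨hc, out c O, ⟨c, κ, fun x => ?_⟩, fun φ => ?_⟩
  · obtain ⟨y, t, h, ht⟩ := hh x
    rw [out_eq h]
    exact ⟨t, h, ht⟩
  · show (φ ∈ S12 ∨ φ ∈ diag O ∨ Accepts O c κ φ.enc) ↔ _
    rw [accepts_iff_out hh]

end MAIN

theorem MAIN_thm (h1 : Stmt_PRES) (h2 : Stmt_SAMEP) : Stmt_MAIN := by
  intro μ hμ P hPf A
  have : Countable OCode := CNT_thm
  have hP : ∀ᵐ R ∂coin, ∀ (cS : OCode) (kS : ℕ) (c0 : OCode) (k0 : ℕ),
      HaltsWithin (join A R) cS kS → HaltsWithin (join A R) c0 k0 →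
      Consistent (theory (join A R) cS kS) →
      ∃ (c : OCode) (κ : ℕ), HaltsWithin (join A R) c κ ∧
        theory (join A R) c0 k0 ⊆ theory (join A R) c κ ∧
        (∀ φ ∈ theory (join A R) c κ, φ ∈ theory (join A R) c0 k0 ∨
          (φ.isSigma = true ∧ φ.fvBelow 0 ∧ φ.sat (stdN (join A R)) fun _ => 0)) ∧
        ∃ k : ℕ, ∀ N : ℕ, ∃ n ≥ N, ∀ π : List Step,
          IsProof (Splus (join A R) μ (theory (join A R) cS kS)) π (rfn (P c κ) μ n) →
            ∀ w : ℕ, w ^ k ≤ n → 2 ^ w < (encProof π).size := by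
    rw [ae_all_iff]; intro cS
    rw [ae_all_iff]; intro kS
    rw [ae_all_iff]; intro c0
    rw [ae_all_iff]; intro k0
    exact h1 μ hμ P hPf A cS kS c0 k0
  filter_upwards [hP] with R hR
  intro S T₀ hS hT
  obtain ⟨cS, kS, h3, h4⟩ := RO.MAIN.exists_code DET_thm hS
  obtain ⟨c0, k0, h5, h6⟩ := RO.MAIN.exists_code DET_thm hT
  obtain ⟨c, κ, h7, h8, h9, h10⟩ := hR cS kS c0 k0 h3 h5 (by rw [h4]; exact hS.1)
  rw [h4] at h10
  have h11 : S12 ⊆ theory (join A R) c0 k0 := fun φ hφ => Or.inl hφ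
  have h12 : diag (join A R) ⊆ theory (join A R) c0 k0 := fun φ hφ => Or.inr (Or.inl hφ)
  obtain ⟨h13, h14⟩ := h2 (join A R) (theory (join A R) c0 k0) (theory (join A R) c κ)
    h11 h12 h8 h9
  have h15 : Consistent (theory (join A R) c κ) := h14 (by rw [h6]; exact hT.1)
  rw [h6] at h8 h9 h13
  exact ⟨c, κ, h7, MAIN.inClassT h7 h15, h8, h9, h13, h10⟩

end Pool.Agent.RH
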