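import Pool.Agent.RH.PDefs
import Pool.Agent.RO.MEAS

/-! Module MEAS: measurability and independence of later windows. -/

open MeasureTheory

namespace Pool.Agent.RH.MEAS

open Pool.Agent.RO (Om coin IndepOf st)
open Pool.Agent.RO.MEAS (isOpen_agree indep_const st_succ_set st_zero_set st_le)

lemma isOpen_loc {m : ℕ → ℕ} {β : ℕ → ℕ → ℕ → ℕ → ℕ} {d k : ℕ} {E : Set Om}
    (h : ∀ R ∈ E, LocAt m β d k E R) : IsOpen E := by
  rw [isOpen_iff_forall_mem_open]
  intro R hR
  obtain ⟨Q, -, -, hQ⟩ := h R hR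
  exact ⟨{R' : Om | ∀ n ∈ Q, R' n = R n}, fun R' hR' => hQ R' hR', isOpen_agree Q R,
    fun n _ => rfl⟩

lemma indep_loc {m : ℕ → ℕ} {β : ℕ → ℕ → ℕ → ℕ → ℕ} {d k : ℕ} {E : Set Om}
    (h : ∀ R ∈ E, LocAt m β d k E R) {d' : ℕ} (hd : d < d') : IndepOf (Win m β d') E := by
  have key : ∀ R R' : Om, (∀ n, n ∉ Win m β d' → R n = R' n) → R ∈ E → R' ∈ E := by
    intro R R' hRR hR
    obtain ⟨Q, -, hQw, hQ⟩ := h R hR
    exact hQ R' fun n hn => (hRR n (hQw n hn d' hd)).symm
  intro R R' hRR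
  exact ⟨key R R' hRR, key R' R fun n hn => (hRR n hn).symm⟩

lemma inter_indep {B : Set ℕ} {E F : Set Om} (hE : IndepOf B E) (hF : IndepOf B F) :
    IndepOf B (E ∩ F) := fun R R' h => and_congr (hE R R' h) (hF R R' h)

lemma union_indep {B : Set ℕ} {E F : Set Om} (hE : IndepOf B E) (hF : IndepOf B F) :
    IndepOf B (E ∪ F) := fun R R' h => or_congr (hE R R' h) (hF R R' h)

lemma compl_indep {B : Set ℕ} {E : Set Om} (hE : IndepOf B E) :
    IndepOf B Eᶜ := fun R R' h => not_congr (hE R R' h)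

lemma meas_A {m : ℕ → ℕ} {β : ℕ → ℕ → ℕ → ℕ → ℕ} {A : ℕ → Set Om} (h : Loc2 m β A) (d : ℕ) :
    MeasurableSet (A d) := by
  obtain ⟨n, P, N, -, hA, hP, hN⟩ := h d
  have e : A d = ⋃ i ∈ Finset.range n, (P i ∩ N i) := by
    rw [hA]
    ext R
    simp only [Set.mem_ofPred_eq, Finset.mem_range, Set.mem_iUnion, Set.mem_inter_iff,
      exists_prop]
  rw [e]
  refine Finset.measurableSet_biUnion _ fun i hi => ?_
  rw [Finset.mem_range] at hi
  have h1 : MeasurableSet (P i) := (isOpen_loc (hP i hi)).measurableSet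
  have h2 : MeasurableSet (N i)ᶜ := (isOpen_loc (fun R hR => hN i hi R hR)).measurableSet
  have h3 := h2.compl
  rw [compl_compl] at h3
  exact h1.inter h3

lemma indep_A {m : ℕ → ℕ} {β : ℕ → ℕ → ℕ → ℕ → ℕ} {A : ℕ → Set Om} (h : Loc2 m β A) {d d' : ℕ}
    (hd : d < d') : IndepOf (Win m β d') (A d) := by
  obtain ⟨n, P, N, -, hA, hP, hN⟩ := h d
  intro R R' hRR
  rw [hA]
  show (∃ i < n, R ∈ P i ∧ R ∈ N i) ↔ ∃ i < n, R' ∈ P i ∧ R' ∈ N i
  refine exists_congr fun i => and_congr_right fun hi => and_congr ?_ ?_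
  · exact indep_loc (hP i hi) hd R R' hRR
  · have h2 := indep_loc (E := (N i)ᶜ) (fun R hR => hN i hi R hR) hd R R' hRR
    exact not_iff_not.1 h2

lemma Dead_eq (m : ℕ → ℕ) (β : ℕ → ℕ → ℕ → ℕ → ℕ) (d x : ℕ) :
    Dead m β d x = ⋂ y ∈ Finset.range (yy (m d)), ⋃ i ∈ Finset.range (m d),
      {R : Om | R (β d x y i) = false} := by
  ext R
  simp [Dead]

lemma Fa_eq (m r : ℕ → ℕ) (β : ℕ → ℕ → ℕ → ℕ → ℕ) (a d : ℕ) :
    Fa m r β a d = ⋃ x ∈ Finset.range (2 ^ (pex (m d) - r a)), Dead m β d x := by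
  ext R
  simp [Fa]

lemma meas_bit (n : ℕ) : MeasurableSet {R : Om | R n = false} := by
  have h : Measurable (fun R : Om => R n) := measurable_pi_apply n
  exact h (measurableSet_singleton false)

lemma meas_Dead (m : ℕ → ℕ) (β : ℕ → ℕ → ℕ → ℕ → ℕ) (d x : ℕ) : MeasurableSet (Dead m β d x) := by
  rw [Dead_eq]
  exact Finset.measurableSet_biInter _ fun y _ => Finset.measurableSet_biUnion _ fun i _ =>
    meas_bit _

lemma meas_Fa (m r : ℕ → ℕ) (β : ℕ → ℕ → ℕ → ℕ → ℕ) (a d : ℕ) : MeasurableSet (Fa m r β a d) := by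
  rw [Fa_eq]
  exact Finset.measurableSet_biUnion _ fun x _ => meas_Dead m β d x

lemma indep_Fa {m r : ℕ → ℕ} {β : ℕ → ℕ → ℕ → ℕ → ℕ} (hW : WinSys m r β) {a d d' : ℕ}
    (hd : d < d') : IndepOf (Win m β d') (Fa m r β a d) := by
  have key : ∀ R R' : Om, (∀ n, n ∉ Win m β d' → R n = R' n) → R ∈ Fa m r β a d →
      R' ∈ Fa m r β a d := by
    rintro R R' hRR ⟨x, hx, hR⟩
    refine ⟨x, hx, fun y hy => ?_⟩
    obtain ⟨i, hi, hb⟩ := hR y hy
    refine ⟨i, hi, ?_⟩
    rw [← hRR]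
    · exact hb
    · rintro ⟨x', hx', y', hy', i', hi', he⟩
      have hx2 : x < 2 ^ pex (m d) :=
        lt_of_lt_of_le hx (Nat.pow_le_pow_right (by norm_num) (Nat.sub_le _ _))
      have := (hW.inj d x y i d' x' y' i' hx2 hy hi hx' hy' hi' he).1
      omega
  intro R R' hRR
  exact ⟨key R R' hRR, key R' R fun n hn => (hRR n hn).symm⟩

lemma FF_eq (m r : ℕ → ℕ) (β : ℕ → ℕ → ℕ → ℕ → ℕ) (A : ℕ → Set Om) (d : ℕ) :
    FF m r β A d = ⋃ a ∈ Finset.range (d + 1), ({R | st A R d = a} ∩ Fa m r β a d) := by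
  ext R
  simp only [FF, Set.mem_ofPred_eq, Finset.mem_range, Set.mem_iUnion, Set.mem_inter_iff,
    exists_prop]
  constructor
  · intro h
    exact ⟨st A R d, Nat.lt_succ_of_le (st_le A R d), rfl, h⟩
  · rintro ⟨a, -, rfl, h⟩
    exact h

lemma NoErr_eq (m r : ℕ → ℕ) (β : ℕ → ℕ → ℕ → ℕ → ℕ) (A : ℕ → Set Om) (d : ℕ) :
    NoErr m r β A d = ⋂ d' ∈ Finset.range d, (A d' ∩ FF m r β A d')ᶜ := by
  ext R
  simp [NoErr]

lemma Err_eq (m r : ℕ → ℕ) (β : ℕ → ℕ → ℕ → ℕ → ℕ) (A : ℕ → Set Om) :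
    Err m r β A = ⋃ d, (A d ∩ FF m r β A d) := by
  ext R
  simp [Err]

end Pool.Agent.RH.MEAS

namespace Pool.Agent.RH

open Pool.Agent.RO (Om coin IndepOf st)
open Pool.Agent.RO.MEAS (isOpen_agree indep_const st_succ_set st_zero_set st_le)
open MEAS

/-- MODULE MEAS -/
theorem MEAS_thm : Stmt_MEAS := by
  intro m r β A hW hL
  have hA : ∀ d, MeasurableSet (A d) := fun d => meas_A hL d
  have hAi : ∀ d d', d < d' → IndepOf (Win m β d') (A d) := fun d d' hd => indep_A hL hd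
  have hst : ∀ d a, MeasurableSet {R | st A R d = a} := by
    intro d
    induction d with
    | zero =>
      intro a
      rw [st_zero_set]
      exact MeasurableSet.const _
    | succ d ih =>
      intro a
      rw [st_succ_set]
      exact ((hA d).inter (ih a)).union ((hA d).compl.inter (MeasurableSet.const _))
  have hsti : ∀ d a d', d ≤ d' → IndepOf (Win m β d') {R | st A R d = a} := by
    intro d
    induction d with
    | zero =>
      intro a d' _
      rw [st_zero_set]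
      exact indep_const _ _
    | succ d ih =>
      intro a d' hd
      rw [st_succ_set]
      exact union_indep (inter_indep (hAi d d' (by omega)) (ih a d' (by omega)))
        (inter_indep (compl_indep (hAi d d' (by omega))) (indep_const _ _))
  have hFF : ∀ d, MeasurableSet (FF m r β A d) := by
    intro d
    rw [FF_eq]
    exact Finset.measurableSet_biUnion _ fun a _ => (hst d a).inter (meas_Fa m r β a d)
  have hFFi : ∀ d d', d < d' → IndepOf (Win m β d') (FF m r β A d) := by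
    intro d d' hd R R' hRR
    rw [FF_eq]
    simp only [Set.mem_iUnion, exists_prop, Finset.mem_range]
    refine exists_congr fun a => and_congr_right fun _ => ?_
    exact (inter_indep (hsti d a d' hd.le) (indep_Fa hW hd)) R R' hRR
  refine ⟨hA, hAi, fun a d => hst d a, fun a d d' h => hsti d a d' h,
    fun a d => meas_Fa m r β a d, fun a d d' hd => indep_Fa hW hd, hFF, hFFi, ?_, ?_, ?_, ?_⟩
  · intro d
    rw [NoErr_eq]
    exact Finset.measurableSet_biInter _ fun d' _ => ((hA d').inter (hFF d')).compl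
  · intro d d' hd R R' hRR
    rw [NoErr_eq]
    simp only [Set.mem_iInter, Finset.mem_range]
    refine forall_congr' fun e => forall_congr' fun he => ?_
    exact (compl_indep (inter_indep (hAi e d' (by omega)) (hFFi e d' (by omega)))) R R' hRR
  · rw [Err_eq]
    exact MeasurableSet.iUnion fun d => (hA d).inter (hFF d)
  · intro R d
    exact st_le A R d

end Pool.Agent.RH
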