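import Pool.Agent.RH.Cst
import Pool.Agent.RO.HYPS
import Pool.Agent.RN.SUB

/-!
# NEGS: from a proof with true sentences `¬ μ₁(e, x, z)` as axioms to a list of triples
-/

set_option autoImplicit false

namespace Pool.Agent.RH

open Pool.Agent.H19 (T PolyTime PolyDec PolyNat PolyN Tm scons bn bl ofBool encL tif envOf vec3 tt)
open Pool.Agent.RO

namespace NEGS

/-- `t` is a subterm of the term. -/
def hasT (t : Tm) : Tm → Prop
  | Tm.var i => t = Tm.var i
  | Tm.zero => t = Tm.zero
  | Tm.succ s => t = Tm.succ s ∨ hasT t s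
  | Tm.half s => t = Tm.half s ∨ hasT t s
  | Tm.len s => t = Tm.len s ∨ hasT t s
  | Tm.add r s => t = Tm.add r s ∨ hasT t r ∨ hasT t s
  | Tm.mul r s => t = Tm.mul r s ∨ hasT t r ∨ hasT t s
  | Tm.smash r s => t = Tm.smash r s ∨ hasT t r ∨ hasT t s

/-- `t` occurs in the formula. -/
def hasF (t : Tm) : Fm → Prop
  | Fm.bot => False
  | Fm.eq r s => hasT t r ∨ hasT t s
  | Fm.le r s => hasT t r ∨ hasT t s
  | Fm.rel s => hasT t s
  | Fm.imp φ ψ => hasF t φ ∨ hasF t ψ
  | Fm.all φ => hasF t φ

theorem hasT_self (t : Tm) : hasT t t := by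
  cases t <;> simp [hasT]

theorem hasT_size (t s : Tm) (h : hasT t s) : t.enc.size ≤ s.enc.size := by
  induction s with
  | var i => simp only [hasT] at h; rw [h]
  | zero => simp only [hasT] at h; rw [h]
  | succ s ih =>
    rcases h with h | h
    · rw [h]
    · have := ih h; simp only [H19.Tm.enc, T.size]; omega
  | half s ih =>
    rcases h with h | h
    · rw [h]
    · have := ih h; simp only [H19.Tm.enc, T.size]; omega
  | len s ih =>
    rcases h with h | h
    · rw [h]
    · have := ih h; simp only [H19.Tm.enc, T.size]; omega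
  | add r s ih1 ih2 =>
    rcases h with h | h | h
    · rw [h]
    · have := ih1 h; simp only [H19.Tm.enc, T.size]; omega
    · have := ih2 h; simp only [H19.Tm.enc, T.size]; omega
  | mul r s ih1 ih2 =>
    rcases h with h | h | h
    · rw [h]
    · have := ih1 h; simp only [H19.Tm.enc, T.size]; omega
    · have := ih2 h; simp only [H19.Tm.enc, T.size]; omega
  | smash r s ih1 ih2 =>
    rcases h with h | h | h
    · rw [h]
    · have := ih1 h; simp only [H19.Tm.enc, T.size]; omega
    · have := ih2 h; simp only [H19.Tm.enc, T.size]; omega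

theorem hasF_size (t : Tm) (φ : Fm) (h : hasF t φ) : t.enc.size ≤ φ.enc.size := by
  induction φ with
  | bot => exact h.elim
  | eq r s =>
    rcases h with h | h
    · have := hasT_size _ _ h; simp only [Fm.enc, T.size]; omega
    · have := hasT_size _ _ h; simp only [Fm.enc, T.size]; omega
  | le r s =>
    rcases h with h | h
    · have := hasT_size _ _ h; simp only [Fm.enc, T.size]; omega
    · have := hasT_size _ _ h; simp only [Fm.enc, T.size]; omega
  | rel s => have := hasT_size _ _ h; simp only [Fm.enc, T.size]; omega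
  | imp φ ψ ih1 ih2 =>
    rcases h with h | h
    · have := ih1 h; simp only [Fm.enc, T.size]; omega
    · have := ih2 h; simp only [Fm.enc, T.size]; omega
  | all φ ih => have := ih h; simp only [Fm.enc, T.size]; omega

theorem hasT_inst (n : ℕ) (k : ℕ) (t s : Tm) (h : hasT (Tm.numeral n) s) :
    hasT (Tm.numeral n) (s.inst k t) := by
  have e : (Tm.numeral n).inst k t = Tm.numeral n := RN.SUB.numInst n k t
  induction s with
  | var i =>
    simp only [hasT] at h
    rw [← h, e]
    exact hasT_self _
  | zero =>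
    simp only [hasT] at h
    rw [← h, e]
    exact hasT_self _
  | succ s ih =>
    rcases h with h | h
    · rw [← h, e]; exact hasT_self _
    · exact Or.inr (ih h)
  | half s ih =>
    rcases h with h | h
    · rw [← h, e]; exact hasT_self _
    · exact Or.inr (ih h)
  | len s ih =>
    rcases h with h | h
    · rw [← h, e]; exact hasT_self _
    · exact Or.inr (ih h)
  | add r s ih1 ih2 =>
    rcases h with h | h | h
    · rw [← h, e]; exact hasT_self _
    · exact Or.inr (Or.inl (ih1 h))
    · exact Or.inr (Or.inr (ih2 h))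
  | mul r s ih1 ih2 =>
    rcases h with h | h | h
    · rw [← h, e]; exact hasT_self _
    · exact Or.inr (Or.inl (ih1 h))
    · exact Or.inr (Or.inr (ih2 h))
  | smash r s ih1 ih2 =>
    rcases h with h | h | h
    · rw [← h, e]; exact hasT_self _
    · exact Or.inr (Or.inl (ih1 h))
    · exact Or.inr (Or.inr (ih2 h))

theorem hasF_inst (n : ℕ) (t : Tm) (φ : Fm) : ∀ k : ℕ, hasF (Tm.numeral n) φ →
    hasF (Tm.numeral n) (φ.inst k t) := by
  induction φ with
  | bot => intro k h; exact h
  | eq r s =>
    intro k h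
    exact h.imp (hasT_inst n k t r) (hasT_inst n k t s)
  | le r s =>
    intro k h
    exact h.imp (hasT_inst n k t r) (hasT_inst n k t s)
  | rel s => intro k h; exact hasT_inst n k t s h
  | imp φ ψ ih1 ih2 => intro k h; exact h.imp (ih1 k) (ih2 k)
  | all φ ih => intro k h; exact ih (k + 1) h

theorem dichT (s : Tm) (k : ℕ) : (∀ n, hasT (Tm.numeral n) (s.inst k (Tm.numeral n))) ∨
    (∀ n m, s.inst k (Tm.numeral n) = s.inst k (Tm.numeral m)) := by
  induction s with
  | var i =>
    by_cases h1 : i < k
    · right; intro n m; simp [H19.Tm.inst, h1]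
    · by_cases h2 : i = k
      · left
        intro n
        have e : (Tm.numeral n).shift 0 k = Tm.numeral n := RN.SUB.numShift n 0 k
        simp only [H19.Tm.inst]
        rw [if_neg h1, if_pos h2, e]
        exact hasT_self _
      · right; intro n m; simp [H19.Tm.inst, h1, h2]
  | zero => right; intro n m; rfl
  | succ s ih =>
    rcases ih with h | h
    · exact Or.inl fun n => Or.inr (h n)
    · right; intro n m; simp only [H19.Tm.inst]; rw [h n m]
  | half s ih =>
    rcases ih with h | h
    · exact Or.inl fun n => Or.inr (h n)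
    · right; intro n m; simp only [H19.Tm.inst]; rw [h n m]
  | len s ih =>
    rcases ih with h | h
    · exact Or.inl fun n => Or.inr (h n)
    · right; intro n m; simp only [H19.Tm.inst]; rw [h n m]
  | add r s ih1 ih2 =>
    rcases ih1 with h | h
    · exact Or.inl fun n => Or.inr (Or.inl (h n))
    · rcases ih2 with h' | h'
      · exact Or.inl fun n => Or.inr (Or.inr (h' n))
      · right; intro n m; simp only [H19.Tm.inst]; rw [h n m, h' n m]
  | mul r s ih1 ih2 =>
    rcases ih1 with h | h
    · exact Or.inl fun n => Or.inr (Or.inl (h n))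
    · rcases ih2 with h' | h'
      · exact Or.inl fun n => Or.inr (Or.inr (h' n))
      · right; intro n m; simp only [H19.Tm.inst]; rw [h n m, h' n m]
  | smash r s ih1 ih2 =>
    rcases ih1 with h | h
    · exact Or.inl fun n => Or.inr (Or.inl (h n))
    · rcases ih2 with h' | h'
      · exact Or.inl fun n => Or.inr (Or.inr (h' n))
      · right; intro n m; simp only [H19.Tm.inst]; rw [h n m, h' n m]

theorem dichF (φ : Fm) : ∀ k : ℕ, (∀ n, hasF (Tm.numeral n) (φ.inst k (Tm.numeral n))) ∨
    (∀ n m, φ.inst k (Tm.numeral n) = φ.inst k (Tm.numeral m)) := by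
  induction φ with
  | bot => intro k; right; intro n m; rfl
  | eq r s =>
    intro k
    rcases dichT r k with h | h
    · exact Or.inl fun n => Or.inl (h n)
    · rcases dichT s k with h' | h'
      · exact Or.inl fun n => Or.inr (h' n)
      · right; intro n m; simp only [Fm.inst]; rw [h n m, h' n m]
  | le r s =>
    intro k
    rcases dichT r k with h | h
    · exact Or.inl fun n => Or.inl (h n)
    · rcases dichT s k with h' | h'
      · exact Or.inl fun n => Or.inr (h' n)
      · right; intro n m; simp only [Fm.inst]; rw [h n m, h' n m]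
  | rel s =>
    intro k
    rcases dichT s k with h | h
    · exact Or.inl fun n => h n
    · right; intro n m; simp only [Fm.inst]; rw [h n m]
  | imp φ ψ ih1 ih2 =>
    intro k
    rcases ih1 k with h | h
    · exact Or.inl fun n => Or.inl (h n)
    · rcases ih2 k with h' | h'
      · exact Or.inl fun n => Or.inr (h' n)
      · right; intro n m; simp only [Fm.inst]; rw [h n m, h' n m]
  | all φ ih =>
    intro k
    rcases ih (k + 1) with h | h
    · exact Or.inl fun n => h n
    · right; intro n m; simp only [Fm.inst]; rw [h n m]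

theorem bl_size_le (n : ℕ) : (bl n).size ≤ (Tm.numeral n).enc.size := by
  induction n using Nat.strong_induction_on with
  | _ n ih =>
    by_cases h : n = 0
    · subst h
      rw [H19.bl_zero, H19.Tm.numeral_zero]
      simp [H19.Tm.enc, T.size, T.unary]
    · rw [H19.bl_pos h, H19.Tm.numeral, dif_neg h]
      have h1 := ih (n / 2) (by omega)
      have h2 : (H19.bit n).size ≤ 3 := by
        unfold H19.bit
        split_ifs <;> simp [T.size]
      have h3 : 0 < (H19.Tm.two).enc.size := T.size_pos _
      split_ifs with h4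
      · simp only [H19.Tm.enc, T.size, T.unary]; omega
      · simp only [H19.Tm.enc, T.size, T.unary]; omega

theorem inst3_eq (μ : Fm) (e x z : ℕ) : ∃ e' x' z' : ℕ, inst3 μ e' x' z' = inst3 μ e x z ∧
    (bl e').size ≤ (inst3 μ e x z).enc.size ∧ (bl x').size ≤ (inst3 μ e x z).enc.size ∧
    (bl z').size ≤ (inst3 μ e x z).enc.size := by
  have key : ∀ (φ : Fm) (n : ℕ), ∃ n' : ℕ, φ.inst 0 (Tm.numeral n') = φ.inst 0 (Tm.numeral n) ∧
      (hasF (Tm.numeral n') (φ.inst 0 (Tm.numeral n')) ∨ n' = 0) := by
    intro φ n
    rcases dichF φ 0 with h | h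
    · exact ⟨n, rfl, Or.inl (h n)⟩
    · exact ⟨0, h 0 n, Or.inr rfl⟩
  have sz : ∀ (n : ℕ) (φ : Fm), (hasF (Tm.numeral n) φ ∨ n = 0) → (bl n).size ≤ φ.enc.size := by
    intro n φ h
    rcases h with h | h
    · exact (bl_size_le n).trans (hasF_size _ _ h)
    · subst h
      rw [H19.bl_zero]
      exact T.size_pos _
  obtain ⟨e', h1, h1'⟩ := key μ e
  obtain ⟨x', h2, h2'⟩ := key (μ.inst 0 (Tm.numeral e)) x
  obtain ⟨z', h3, h3'⟩ := key ((μ.inst 0 (Tm.numeral e)).inst 0 (Tm.numeral x)) z
  rw [h1] at h1'
  rw [h2] at h2'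
  rw [h3] at h3'
  refine ⟨e', x', z', ?_, sz _ _ ?_, sz _ _ ?_, sz _ _ ?_⟩
  · unfold inst3
    rw [h1, h2, h3]
  · exact h1'.imp (fun h => hasF_inst _ _ _ 0 (hasF_inst _ _ _ 0 h)) id
  · exact h2'.imp (fun h => hasF_inst _ _ _ 0 h) id
  · exact h3'

theorem envOf_triple (e x z : ℕ) :
    envOf (T.node (bl e) (T.node (bl x) (T.node (bl z) T.leaf))) = vec3 e x z := by
  rw [H19.envOf_node, H19.envOf_node, H19.envOf_node, H19.bn_bl, H19.bn_bl, H19.bn_bl]
  have h : envOf T.leaf = fun _ => 0 := by
    funext i
    have : ∀ i : ℕ, T.right^[i] T.leaf = T.leaf := by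
      intro i
      induction i with
      | zero => rfl
      | succ i ih => rw [Function.iterate_succ_apply']; rw [ih]; rfl
    show bn (T.right^[i] T.leaf).left = 0
    rw [this]
    rfl
  rw [h]
  rfl

theorem instT_triple (μ : Fm) (e x z : ℕ) :
    instT μ (T.node (bl e) (T.node (bl x) (T.node (bl z) T.leaf))) = inst3 μ e x z := by
  unfold instT
  rw [envOf_triple]
  rfl

/-- the list of triples -/
theorem list_of (μ : Fm) (O : Om) (S : Set Fm) : ∀ π : List Step,
    (∀ ψ ∈ hyps π, ψ ∈ Splus O μ S) → ∃ L : List T, (encL L).size ≤ 20 * (encProof π).size ∧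
      (∀ ψ ∈ hyps π, ψ ∈ S ∨ ψ ∈ L.map fun t => Fm.neg (instT μ t)) ∧
      ∀ t ∈ L, ¬ μ.sat (stdN O) (envOf t) := by
  intro π
  induction π with
  | nil =>
    intro _
    exact ⟨[], by simp [encProof, T.size], by simp [hyps], by simp⟩
  | cons s π ih =>
    intro h
    have other : hyps (s :: π) = hyps π → ∃ L : List T, (encL L).size ≤
        20 * (encProof (s :: π)).size ∧
        (∀ ψ ∈ hyps (s :: π), ψ ∈ S ∨ ψ ∈ L.map fun t => Fm.neg (instT μ t)) ∧
        ∀ t ∈ L, ¬ μ.sat (stdN O) (envOf t) := by
      intro he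
      rw [he] at h ⊢
      obtain ⟨L, h1, h2, h3⟩ := ih h
      exact ⟨L, by simp only [encProof, T.size]; omega, h2, h3⟩
    cases s with
    | hyp ψ =>
      have h' : ∀ χ ∈ hyps π, χ ∈ Splus O μ S := fun χ hχ => h χ (List.mem_cons_of_mem _ hχ)
      obtain ⟨L, h1, h2, h3⟩ := ih h'
      rcases h ψ (List.mem_cons_self) with hψ | hψ
      · refine ⟨L, by simp only [encProof, T.size]; omega, ?_, h3⟩
        intro χ hχ
        rcases List.mem_cons.1 hχ with rfl | hχ
        · exact Or.inl hψ
        · exact h2 χ hχ
      · obtain ⟨e, x, z, hs, rfl⟩ := hψ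
        obtain ⟨e', x', z', he, b1, b2, b3⟩ := inst3_eq μ e x z
        have hp := T.size_pos (inst3 μ e x z).enc
        refine ⟨T.node (bl e') (T.node (bl x') (T.node (bl z') T.leaf)) :: L, ?_, ?_, ?_⟩
        · simp only [encProof, Step.enc, Fm.neg, Fm.enc, H19.encL_cons, T.size, T.unary]
          omega
        · intro χ hχ
          rcases List.mem_cons.1 hχ with rfl | hχ
          · right
            rw [List.map_cons, instT_triple, he]
            exact List.mem_cons_self
          · exact (h2 χ hχ).imp id fun hm => by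
              rw [List.map_cons]; exact List.mem_cons_of_mem _ hm
        · intro t ht
          rcases List.mem_cons.1 ht with rfl | ht
          · rw [envOf_triple]
            intro hc
            apply hs
            have k1 := inst3_sat O μ e' x' z' (fun _ => 0)
            have k2 := inst3_sat O μ e x z (fun _ => 0)
            rw [he] at k1
            exact k2.1 (k1.2 hc)
          · exact h3 t ht
    | axK φ ψ => exact other rfl
    | axS φ ψ χ => exact other rfl
    | dne φ => exact other rfl
    | allE φ t => exact other rfl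
    | allK φ ψ => exact other rfl
    | vac φ => exact other rfl
    | refl t => exact other rfl
    | subst φ s t => exact other rfl
    | mp φ ψ => exact other rfl
    | gen φ => exact other rfl

end NEGS

theorem NEGS_thm : Stmt_NEGS := by
  intro μ _
  refine ⟨22, fun O S π φ h => ?_⟩
  have h1 := ((HYPS_thm (Splus O μ S) π φ).1 h).2
  obtain ⟨L, h2, h3, h4⟩ := NEGS.list_of μ O S π h1
  refine ⟨T.node (encProof π) (encL L), ?_, decProof_enc π, ?_, ?_⟩
  · have := T.size_pos (encProof π)
    simp only [T.size]
    omega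
  · show ∀ ψ ∈ hyps π, ψ ∈ S ∨ ψ ∈ (encL L).toL.map fun t => Fm.neg (instT μ t)
    rw [H19.toL_encL]
    exact h3
  · show ∀ t ∈ (encL L).toL, ¬ μ.sat (stdN O) (envOf t)
    rw [H19.toL_encL]
    exact h4

end Pool.Agent.RH
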