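import Pool.Agent.RH.PDefs

/-!
# The numbers of targets and blocks (NUM)
-/

namespace Pool.Agent.RH

namespace NUM

open Real

/-- Upper bound for the ratio. -/
theorem ratio_le (M : ℕ) (hM : 100 ≤ M) :
    (((M + 1) ^ (M * M) : ℕ) : ℝ) ≤ exp M * ((M ^ (M * M) : ℕ) : ℝ) := by
  have hM0 : (0 : ℝ) < M := by
    have : 0 < M := by omega
    exact_mod_cast this
  have h1 : (M : ℝ) + 1 ≤ exp (1 / M) * M := by
    have h := Real.add_one_le_exp (1 / (M : ℝ))
    calc (M : ℝ) + 1 = (1 / (M : ℝ) + 1) * M := by field_simp; ring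
      _ ≤ exp (1 / M) * M := mul_le_mul_of_nonneg_right h hM0.le
  push_cast
  calc ((M : ℝ) + 1) ^ (M * M) ≤ (exp (1 / M) * M) ^ (M * M) :=
        pow_le_pow_left₀ (by positivity) h1 _
    _ = exp M * (M : ℝ) ^ (M * M) := by
        rw [mul_pow, ← Real.exp_nat_mul]
        congr 2
        push_cast
        field_simp

/-- Lower bound for the ratio. -/
theorem le_ratio (M : ℕ) (hM : 100 ≤ M) :
    exp (M - 1) * ((M ^ (M * M) : ℕ) : ℝ) ≤ (((M + 1) ^ (M * M) : ℕ) : ℝ) := by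
  have hM0 : (0 : ℝ) < M := by
    have : 0 < M := by omega
    exact_mod_cast this
  have h1 : (M : ℝ) * exp (1 / (M + 1)) ≤ M + 1 := by
    have h := Real.add_one_le_exp (-(1 / ((M : ℝ) + 1)))
    have h2 : (M : ℝ) / (M + 1) ≤ exp (-(1 / ((M : ℝ) + 1))) := by
      refine le_trans (le_of_eq ?_) h
      field_simp
      ring
    rw [Real.exp_neg] at h2
    have h3 : (0 : ℝ) < exp (1 / (M + 1)) := Real.exp_pos _
    rw [div_le_iff₀ (by positivity)] at h2
    have h4 := mul_le_mul_of_nonneg_right h2 h3.le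
    calc (M : ℝ) * exp (1 / (M + 1)) ≤ (exp (1 / ((M : ℝ) + 1)))⁻¹ * (M + 1) *
          exp (1 / (M + 1)) := h4
      _ = M + 1 := by field_simp
  push_cast
  have h5 : ((M : ℝ) * exp (1 / (M + 1))) ^ (M * M) ≤ ((M : ℝ) + 1) ^ (M * M) :=
    pow_le_pow_left₀ (by positivity) h1 _
  refine le_trans ?_ h5
  rw [mul_pow, ← Real.exp_nat_mul, mul_comm]
  refine mul_le_mul_of_nonneg_left ?_ (by positivity)
  apply Real.exp_le_exp.mpr
  push_cast
  rw [mul_one_div, le_div_iff₀ (by positivity)]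
  nlinarith

theorem size_sub (M : ℕ) (hM : 100 ≤ M) :
    (2 : ℝ) ^ pex M * ((M ^ (M * M) : ℕ) : ℝ) ≤ (((M + 1) ^ (M * M) : ℕ) : ℝ) ∧
    (((M + 1) ^ (M * M) : ℕ) : ℝ) ≤ 4 * (2 ^ pex M * ((M ^ (M * M) : ℕ) : ℝ)) := by
  have hM0 : 0 < M := by omega
  have hb : 0 < M ^ (M * M) := by positivity
  have ha : 0 < (M + 1) ^ (M * M) := by positivity
  have hr := le_ratio M hM
  have hp : pex M = ((M + 1) ^ (M * M)).size - (M ^ (M * M)).size - 1 := rfl
  generalize (M + 1) ^ (M * M) = a at *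
  generalize M ^ (M * M) = b at *
  have h1 : a < 2 ^ a.size := Nat.lt_size_self a
  have h2 : b < 2 ^ b.size := Nat.lt_size_self b
  have h3 : 2 ^ (a.size - 1) ≤ a := by
    have : 0 < a.size := Nat.size_pos.mpr ha
    exact Nat.lt_size.mp (by omega)
  have h4 : 2 ^ (b.size - 1) ≤ b := by
    have : 0 < b.size := Nat.size_pos.mpr hb
    exact Nat.lt_size.mp (by omega)
  have hbs : 0 < b.size := Nat.size_pos.mpr hb
  have has : 0 < a.size := Nat.size_pos.mpr ha
  -- `a > 4 b`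
  have h5 : 4 * b < a := by
    have h6 : (4 : ℝ) * b < a := by
      have h7 : (4 : ℝ) < exp (M - 1) := by
        have h8 := Real.add_one_le_exp ((M : ℝ) - 1)
        have h9 : (100 : ℝ) ≤ M := by exact_mod_cast hM
        linarith
      have hb' : (0 : ℝ) < b := by exact_mod_cast hb
      nlinarith
    exact_mod_cast h6
  have h6 : b.size + 1 < a.size := by
    rw [Nat.lt_size]
    have h7 : 2 ^ (b.size + 1) = 4 * 2 ^ (b.size - 1) := by
      obtain ⟨s, hs⟩ : ∃ s, b.size = s + 1 := ⟨b.size - 1, by omega⟩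
      rw [hs]
      simp only [Nat.add_sub_cancel]
      ring
    omega
  obtain ⟨t, ht⟩ : ∃ t, a.size = b.size + 1 + t := ⟨a.size - b.size - 1, by omega⟩
  have hpt : pex M = t := by rw [hp]; omega
  rw [hpt]
  have h7 : a.size - 1 = b.size + t := by omega
  rw [h7] at h3
  rw [ht] at h1
  have e3 : ((2 : ℝ) ^ b.size * 2 ^ t) ≤ a := by
    rw [← pow_add]
    exact_mod_cast h3
  have e1 : (a : ℝ) ≤ 2 ^ b.size * 2 * 2 ^ t := by
    have : (a : ℝ) < 2 ^ (b.size + 1 + t) := by exact_mod_cast h1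
    rw [pow_add, pow_add, pow_one] at this
    exact this.le
  have e2 : (b : ℝ) ≤ 2 ^ b.size := by exact_mod_cast h2.le
  have e4 : (2 : ℝ) ^ b.size ≤ 2 * b := by
    obtain ⟨s, hs⟩ : ∃ s, b.size = s + 1 := ⟨b.size - 1, by omega⟩
    rw [hs] at h4 ⊢
    simp only [Nat.add_sub_cancel] at h4
    have : (2 : ℝ) ^ s ≤ b := by exact_mod_cast h4
    rw [pow_succ]
    linarith
  have ht0 : (0 : ℝ) < 2 ^ t := by positivity
  constructor
  · nlinarith
  · nlinarith

/-- `2 ^ pex M` is about `exp M`. -/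
theorem pex_bounds (M : ℕ) (hM : 100 ≤ M) :
    (2 : ℝ) ^ pex M ≤ exp M ∧ exp (M - 1) ≤ 4 * 2 ^ pex M := by
  have hb : (0 : ℝ) < ((M ^ (M * M) : ℕ) : ℝ) := by
    have : 0 < M ^ (M * M) := by
      have : 0 < M := by omega
      positivity
    exact_mod_cast this
  obtain ⟨h1, h2⟩ := size_sub M hM
  have h3 := ratio_le M hM
  have h4 := le_ratio M hM
  constructor
  · exact le_of_mul_le_mul_right (h1.trans h3) hb
  · refine le_of_mul_le_mul_right (h4.trans (h2.trans (le_of_eq ?_))) hb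
    ring

theorem pow_yy_le (M : ℕ) : (1 - 1 / (2 : ℝ) ^ M) ^ yy M ≤ exp (-M) := by
  have h0 : (1 : ℝ) / 2 ^ M ≤ 1 := by
    rw [div_le_one (by positivity)]
    exact one_le_pow₀ (by norm_num)
  have h1 : 1 - 1 / (2 : ℝ) ^ M ≤ exp (-(1 / (2 : ℝ) ^ M)) := Real.one_sub_le_exp_neg _
  calc (1 - 1 / (2 : ℝ) ^ M) ^ yy M ≤ exp (-(1 / (2 : ℝ) ^ M)) ^ yy M :=
        pow_le_pow_left₀ (by linarith) h1 _
    _ = exp (-M) := by
        rw [← Real.exp_nat_mul, yy]
        congr 1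
        push_cast
        field_simp

theorem le_pow_yy (M : ℕ) (hM : 100 ≤ M) : exp (-M) ≤ 2 * (1 - 1 / (2 : ℝ) ^ M) ^ yy M := by
  have hM2 : (2 : ℝ) * M ≤ 2 ^ M := by
    have h : 2 * M ≤ 2 ^ M := by
      obtain ⟨k, rfl⟩ : ∃ k, M = k + 1 := ⟨M - 1, by omega⟩
      have := Nat.lt_two_pow_self (n := k)
      rw [pow_succ]
      omega
    exact_mod_cast h
  have hM0 : (0 : ℝ) < M := by
    have : 0 < M := by omega
    exact_mod_cast this
  have hM1 : (1 : ℝ) ≤ M := by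
    have : 1 ≤ M := by omega
    exact_mod_cast this
  set n : ℝ := 2 ^ M with hn
  have hn1 : 2 ≤ n := by linarith
  have hn0 : 0 < n := by linarith
  have h0 : 1 / n ≤ 1 / 2 := by
    apply one_div_le_one_div_of_le (by norm_num) hn1
  -- `exp (- 1 / (n - 1)) ≤ 1 - 1 / n`
  have h1 : exp (-(1 / (n - 1))) ≤ 1 - 1 / n := by
    have h := Real.add_one_le_exp (1 / (n - 1))
    rw [Real.exp_neg]
    have h3 : 1 - 1 / n = (1 / (n - 1) + 1)⁻¹ := by
      have h4 : n - 1 ≠ 0 := by linarith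
      have h5 : 1 / (n - 1) + 1 = n / (n - 1) := by
        rw [div_add_one h4]
        ring
      rw [h5, inv_div, sub_div, div_self hn0.ne']
    rw [h3]
    apply inv_anti₀ _ h
    have : 0 < n - 1 := by linarith
    positivity
  obtain ⟨N, hN⟩ : ∃ N : ℕ, 2 ^ M = N + 1 := ⟨2 ^ M - 1, by
    have : 0 < 2 ^ M := by positivity
    omega⟩
  have hNn : (N : ℝ) = n - 1 := by
    have : ((2 ^ M : ℕ) : ℝ) = N + 1 := by rw [hN]; push_cast; ring
    rw [hn]
    push_cast at this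
    linarith
  have h2 : yy M = N * M + M := by
    rw [yy, hN]
    ring
  rw [h2, pow_add, pow_mul]
  have h3 : exp (-1) ≤ (1 - 1 / n) ^ N := by
    calc exp (-1) = exp (-(1 / (n - 1))) ^ N := by
          rw [← Real.exp_nat_mul, hNn]
          congr 1
          have : n - 1 ≠ 0 := by linarith
          field_simp
      _ ≤ (1 - 1 / n) ^ N := pow_le_pow_left₀ (Real.exp_pos _).le h1 _
  have h4 : exp (-M) ≤ ((1 - 1 / n) ^ N) ^ M := by
    calc exp (-M) = exp (-1) ^ M := by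
          rw [← Real.exp_nat_mul]
          congr 1
          ring
      _ ≤ ((1 - 1 / n) ^ N) ^ M := pow_le_pow_left₀ (Real.exp_pos _).le h3 _
  have h5 : 1 / 2 ≤ (1 - 1 / n) ^ M := by
    have h6 : 1 + (M : ℝ) * (-(1 / n)) ≤ (1 + -(1 / n)) ^ M :=
      one_add_mul_le_pow (by linarith) M
    have h7 : (M : ℝ) * (1 / n) ≤ 1 / 2 := by
      rw [mul_one_div, div_le_iff₀ hn0]
      linarith
    have h8 : 1 + -(1 / n) = 1 - 1 / n := by ring
    rw [h8] at h6
    linarith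
  have h9 : 0 ≤ exp (-M) := (Real.exp_pos _).le
  nlinarith

end NUM

open NUM in
theorem NUM_thm : Stmt_NUM := by
  intro M hM
  obtain ⟨h1, h2⟩ := pex_bounds M hM
  have h3 := pow_yy_le M
  have h4 := le_pow_yy M hM
  have hM' : (100 : ℝ) ≤ M := by exact_mod_cast hM
  have he : Real.exp 1 < 2.7182818286 := Real.exp_one_lt_d9
  have he' : 2.7182818283 < Real.exp 1 := Real.exp_one_gt_d9
  have hpos : (0 : ℝ) < 2 ^ pex M := by positivity
  have hEM : Real.exp M = Real.exp 1 ^ M := by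
    rw [← Real.exp_nat_mul, mul_one]
  have hEM1 : Real.exp (M - 1) * Real.exp 1 = Real.exp M := by
    rw [← Real.exp_add]
    congr 1
    ring
  have hinv : Real.exp M * Real.exp (-M) = 1 := by
    rw [← Real.exp_add]
    simp
  refine ⟨?_, ?_, ?_, ?_⟩
  · -- `M ≤ pex M`
    have h5 : (2 : ℝ) ^ M * (4 * Real.exp 1) ≤ Real.exp M := by
      have h6 : (1.3 : ℝ) * 2 ≤ Real.exp 1 := by linarith
      have h7 : ((1.3 : ℝ) * 2) ^ M ≤ Real.exp 1 ^ M := pow_le_pow_left₀ (by norm_num) h6 _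
      rw [mul_pow] at h7
      have h8 : (1.3 : ℝ) ^ 100 ≤ 1.3 ^ M := pow_le_pow_right₀ (by norm_num) hM
      have h9 : (4 : ℝ) * 3 ≤ 1.3 ^ 100 := by norm_num
      have h10 : (4 : ℝ) * Real.exp 1 ≤ 1.3 ^ M := by linarith
      rw [hEM]
      have h11 : (0 : ℝ) < 2 ^ M := by positivity
      nlinarith
    have h6 : (2 : ℝ) ^ M ≤ 2 ^ pex M := by
      have h7 : (0 : ℝ) < 4 * Real.exp 1 := by positivity
      refine le_of_mul_le_mul_right (h5.trans ?_) h7
      rw [← hEM1]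
      have := mul_le_mul_of_nonneg_right h2 (Real.exp_pos 1).le
      linarith
    exact (pow_le_pow_iff_right₀ (by norm_num : (1 : ℝ) < 2)).mp h6
  · have h5 : (2 : ℝ) ^ pex M ≤ 2 ^ (2 * M) := by
      refine h1.trans ?_
      rw [hEM, pow_mul]
      exact pow_le_pow_left₀ (by positivity) (by linarith) _
    exact (pow_le_pow_iff_right₀ (by norm_num : (1 : ℝ) < 2)).mp h5
  · have h0 : (1 : ℝ) / 2 ^ M ≤ 1 := by
      rw [div_le_one (by positivity)]
      exact one_le_pow₀ (by norm_num)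
    refine le_trans ?_ (le_of_eq hinv)
    exact mul_le_mul h1 h3 (pow_nonneg (by linarith) _) (Real.exp_pos _).le
  · have h5 : (0 : ℝ) < Real.exp (-M) := Real.exp_pos _
    have h6 : Real.exp (M - 1) * Real.exp (-M) * Real.exp 1 = 1 := by
      refine Eq.trans ?_ hinv
      rw [← hEM1]
      ring
    have h7 : Real.exp (M - 1) * Real.exp (-M) ≤
        4 * 2 ^ pex M * (2 * (1 - 1 / (2 : ℝ) ^ M) ^ yy M) :=
      mul_le_mul h2 h4 h5.le (by positivity)
    have h8 : 0 < Real.exp (M - 1) * Real.exp (-M) := by positivity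
    have h9 : 1 ≤ Real.exp (M - 1) * Real.exp (-M) * 4 := by
      calc (1 : ℝ) = Real.exp (M - 1) * Real.exp (-M) * Real.exp 1 := h6.symm
        _ ≤ Real.exp (M - 1) * Real.exp (-M) * 4 :=
          mul_le_mul_of_nonneg_left (by linarith) h8.le
    linarith

end Pool.Agent.RH
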