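import Pool.Agent.RH.Cst

/-!
# The numbers `pex M` and `yy M` are computable in polynomial time
-/

namespace Pool.Agent.RH

open Pool.Agent.H19 (T PolyTime PolyTime₂ PolyDec PolyNat PolyN PolyB bn bl)

namespace PEXx

theorem size_pow_le (b : ℕ) : ∀ n : ℕ, (b ^ n).size ≤ n * b.size + 1
  | 0 => by simp
  | n + 1 => by
    have h1 := size_pow_le b n
    have h2 := H19.size_mul_le (b ^ n) b
    rw [pow_succ, Nat.add_mul, one_mul]
    omega

/-- powers with the exponent in unary -/
theorem polyN_pow {b n : T → ℕ} (hb : PolyN b) (hn : PolyNat n) :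
    PolyN (fun x => b x ^ n x) := by
  have i := PolyTime.id
  let f : T → T := fun s => T.node s.left (bl (bn s.left * bn s.right))
  have hf : PolyTime f := i.left.node (H19.mul_polyTime.comp i.left i.right)
  have hit : ∀ (m j : ℕ), f^[j] (T.node (bl m) (bl 1)) = T.node (bl m) (bl (m ^ j)) := by
    intro m j
    induction j with
    | zero => simp
    | succ j ih =>
      rw [Function.iterate_succ_apply', ih]
      show T.node (bl m) (bl (bn (bl m) * bn (bl (m ^ j)))) = _
      rw [H19.bn_bl, H19.bn_bl, pow_succ, mul_comm]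
  have key := PolyTime.iterate (f := f) (n := fun x => T.unary (n x))
    (s := fun x => T.node (bl (b x)) (bl 1)) hf hn (PolyTime.node hb (PolyTime.const _)) (by
      obtain ⟨k, hk⟩ := PolyTime.size_bound hb
      obtain ⟨l, hl⟩ := PolyTime.size_bound hn
      have hA : PolyB (fun n => (n + 2) ^ k) := ⟨k, fun _ => le_rfl⟩
      have hB : PolyB (fun n => (n + 2) ^ l) := ⟨l, fun _ => le_rfl⟩
      obtain ⟨m, hm⟩ := (hA.add ((PolyB.const 4).mul (hB.mul hA))).add (PolyB.const 6)
      refine ⟨m, fun x j hj => le_trans ?_ (hm x.size)⟩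
      rw [hit]
      rw [T.len_unary] at hj
      have h1 := hk x
      have h2 := hl x
      rw [T.size_unary] at h2
      have h3 := H19.bl_size (b x ^ j)
      have h4 := size_pow_le (b x) j
      have h5 := H19.size_le_bl (b x)
      have h6 : j * (b x).size ≤ (x.size + 2) ^ l * (x.size + 2) ^ k :=
        Nat.mul_le_mul (by omega) (h5.trans h1)
      simp only [T.size]
      omega)
  refine (key.right).congr fun x => ?_
  rw [T.len_unary, hit]
  rfl

end PEXx

theorem PEX_thm : Stmt_PEX := by
  intro f hf
  have hN : PolyN f := hf.toN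
  constructor
  · unfold pex
    exact (((PEXx.polyN_pow hN.succ (hf.mul hf)).size.sub
      (PEXx.polyN_pow hN (hf.mul hf)).size).sub (PolyNat.const 1))
  · unfold yy
    exact hN.mul (PolyN.pow2 hf)

end Pool.Agent.RH
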