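import Pool.Agent.RH.Cst
import Pool.Agent.RO.HYPS

/-!
# Reflection beyond consistency relative to a random oracle: PRES, the theorem for presented
theories
-/

open MeasureTheory

namespace Pool.Agent.RH

open Pool.Agent.H19 (T PolyTime PolyDec PolyNat PolyN Tm scons bn bl ofBool encL tif envOf vec3 tt)
open Pool.Agent.RO

namespace PRES

theorem tow_lt (s : ℕ) : tow s < tow (s + 1) := Nat.lt_two_pow_self

theorem tow_mono : StrictMono tow := strictMono_nat_of_lt_succ tow_lt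

theorem le_tow (s : ℕ) : s ≤ tow s := tow_mono.le_apply

/-- Enlarge the exponent of a polynomial bound. -/
theorem pow_mono {s G G' : ℕ} (h : G ≤ G') : (s + 2) ^ G ≤ (s + 2) ^ G' :=
  Nat.pow_le_pow_right (by omega) h

/-- The vector of the first three values. -/
theorem sat_vec3 {μ : Fm} (hμ : μ.fvBelow 3) (O : Om) (f : ℕ → ℕ) :
    μ.sat (stdN O) (vec3 (f 0) (f 1) (f 2)) ↔ μ.sat (stdN O) f := by
  refine Fm.sat_congr_below (stdN O) μ hμ fun i hi => ?_
  have h3 : i = 0 ∨ i = 1 ∨ i = 2 := by omega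
  rcases h3 with rfl | rfl | rfl <;> rfl

/-- The size bound for the error. -/
theorem size_bound {C D M v x z n E : ℕ} (hv : v ≤ 20 * M) (hx : x ≤ (v + 2) ^ D)
    (hz : z ≤ (v + 2) ^ D) (hn : (C * (20 + E + 2 * 20 ^ D + 1) + 1) * (M + 2) ^ (D + 1) ≤ n) :
    C * (v + E + x + z + 1) ≤ n := by
  have h1 : (v + 2) ^ D ≤ 20 ^ D * (M + 2) ^ D := by
    rw [← mul_pow]
    exact Nat.pow_le_pow_left (by omega) D
  have h2 : (M + 2) ^ D ≤ (M + 2) ^ (D + 1) := Nat.pow_le_pow_right (by omega) (Nat.le_succ D)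
  have h3 : M + 2 ≤ (M + 2) ^ (D + 1) := by
    calc M + 2 = (M + 2) ^ 1 := (pow_one _).symm
      _ ≤ (M + 2) ^ (D + 1) := Nat.pow_le_pow_right (by omega) (by omega)
  have h4 : 20 ^ D * (M + 2) ^ D ≤ 20 ^ D * (M + 2) ^ (D + 1) := Nat.mul_le_mul_left _ h2
  have h5 : 1 ≤ (M + 2) ^ (D + 1) := Nat.one_le_pow _ _ (by omega)
  have h6 : v + E + x + z + 1 ≤ (20 + E + 2 * 20 ^ D + 1) * (M + 2) ^ (D + 1) := by
    have e1 : (20 + E + 2 * 20 ^ D + 1) * (M + 2) ^ (D + 1) =
        20 * (M + 2) ^ (D + 1) + E * (M + 2) ^ (D + 1) +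
          2 * (20 ^ D * (M + 2) ^ (D + 1)) + (M + 2) ^ (D + 1) := by ring
    have e2 : E ≤ E * (M + 2) ^ (D + 1) := Nat.le_mul_of_pos_right _ h5
    have e3 : x ≤ 20 ^ D * (M + 2) ^ (D + 1) := hx.trans (h1.trans h4)
    have e4 : z ≤ 20 ^ D * (M + 2) ^ (D + 1) := hz.trans (h1.trans h4)
    omega
  calc C * (v + E + x + z + 1) ≤ C * ((20 + E + 2 * 20 ^ D + 1) * (M + 2) ^ (D + 1)) :=
        Nat.mul_le_mul_left _ h6
    _ = C * (20 + E + 2 * 20 ^ D + 1) * (M + 2) ^ (D + 1) := by rw [mul_assoc]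
    _ ≤ (C * (20 + E + 2 * 20 ^ D + 1) + 1) * (M + 2) ^ (D + 1) :=
        Nat.mul_le_mul_right _ (Nat.le_succ _)
    _ ≤ n := hn

/-- The size of the derivation with the list. -/
theorem exp_bound {C w M e s : ℕ} (he : 0 < e) (hC : 2 * e * C ≤ M) (hw : w ≤ M / (2 * e))
    (hs : s ≤ C * 2 ^ w) : s ≤ 2 ^ (M / e) := by
  have h1 : C ≤ M / (2 * e) := by
    rw [Nat.le_div_iff_mul_le (by positivity)]
    calc C * (2 * e) = 2 * e * C := by ring
      _ ≤ M := hC
  have h2 : M / (2 * e) = M / e / 2 := by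
    rw [Nat.div_div_eq_div_mul, mul_comm e 2]
  have h3 : C < 2 ^ C := Nat.lt_two_pow_self
  calc s ≤ C * 2 ^ w := hs
    _ ≤ 2 ^ (M / (2 * e)) * 2 ^ (M / (2 * e)) := by
        refine Nat.mul_le_mul ?_ (Nat.pow_le_pow_right (by norm_num) hw)
        exact h3.le.trans (Nat.pow_le_pow_right (by norm_num) h1)
    _ = 2 ^ (M / (2 * e) + M / (2 * e)) := by rw [pow_add]
    _ ≤ 2 ^ (M / e) := Nat.pow_le_pow_right (by norm_num) (by omega)

end PRES

open PRES in
theorem PRES_thm (hCore : Stmt_CORE) (hWin : Stmt_WINSYS) (hLoc : Stmt_LOCAL)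
    (hAF : Stmt_ACCFF) (hFA : Stmt_FFACC) (hXV : Stmt_XV) (hFD : Stmt_FDEC)
    (hProg : Stmt_PROG) (hUni : Stmt_UNI) (hIota : Stmt_IOTA) (hSW : Stmt_SATW)
    (hSL : Stmt_SATLOC) (hUV : Stmt_UNIVO) (hPad : PadF) (hNegs : Stmt_NEGS) (hErr : Stmt_ERR)
    (hGrow : Stmt_GROW) (hFinb : RN.Stmt_FINB) (sub : RN.Sub) : Stmt_PRES := by
  intro μ hμ P hPf A cS kS c0 k0
  obtain ⟨fP, hfP, hfPe⟩ := hPf.poly
  obtain ⟨cu, κu, g, hg, hge, hU⟩ := hUni c0 k0
  obtain ⟨W, G1, hWdec, hWsize, hWsat⟩ := hSW μ hμ.1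
  obtain ⟨G2, hWloc⟩ := hSL μ hμ.1
  obtain ⟨hFdec, hFsize⟩ := hFD W hWdec
  obtain ⟨e1, nx, nz, hnx, hnz, hUsat⟩ := hUV μ P hμ hPf (FW W) hFdec hFsize
  set G : ℕ := max G1 G2 with hG
  set ι : T → Fm := fun v => inst3 μ e1 (nx (Xv G v)) (nz (Xv G v)) with hι
  obtain ⟨hιp, D, hD⟩ := hIota μ e1 nx nz hnx hnz (Xv G) (hXV G)
  set F : T → T := fun x => fP (g x) with hFdef
  have hFp : PolyTime F := hfP.comp hg
  have hFe : ∀ (c : OCode) (κ : ℕ), F (T.node c.enc (T.unary κ)) = (P (cu c κ) (κu c κ)).enc := by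
    intro c κ
    simp only [hFdef]
    rw [hge, hfPe]
  obtain ⟨e, he⟩ : ∃ e : ℕ, e = 16 * (kS + 2) + 16 * (G + 2) := ⟨_, rfl⟩
  have he0 : 0 < e := by omega
  obtain ⟨B, c, κ, -, hprog⟩ := hProg A cS kS μ W G e F ι hFp hιp he0
  obtain ⟨C, hErrC⟩ := hErr μ hμ
  obtain ⟨Cn, hNegsC⟩ := hNegs μ hμ.2.1
  obtain ⟨J0, hJ0⟩ := hGrow (C * (20 + e1.size + 2 * 20 ^ D + 1) + 1) (D + 1)
  obtain ⟨J1, hJ1⟩ : ∃ J1 : ℕ, J1 = J0 + (100 * e + 3) := ⟨_, rfl⟩
  set q : ℕ → T := fun J => T.node (c J).enc (T.unary (κ J)) with hq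
  set p : ℕ → Par := fun j => par A cS kS μ W G e F (J1 + j) with hp
  have hgood : ∀ j, (p j).Good := by
    intro j
    refine ⟨?_, ?_, ?_, ?_, ?_, ?_⟩
    · show 16 * (kS + 2) ≤ e
      omega
    · show 16 * (G + 2) ≤ e
      omega
    · show 100 * e ≤ tow (J1 + j)
      have h1 := le_tow (J1 + j)
      omega
    · intro O E w hw
      exact (hWsize O E w hw).trans (pow_mono (le_max_left _ _))
    · intro O E hE
      obtain ⟨Q, hQ1, hQ2, hQ3⟩ := hWloc O E hE
      exact ⟨Q, hQ1.trans (pow_mono (le_max_right _ _)),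
        fun n hn => (hQ2 n hn).trans (pow_mono (le_max_right _ _)), hQ3⟩
    · intro O E
      exact hWsat O E
  have hmj : ∀ j d, (p j).m d = tow (J1 + (j + d)) := by
    intro j d
    show tow (J1 + j + d) = tow (J1 + (j + d))
    rw [Nat.add_assoc]
  have hgrow : ∀ J, J1 ≤ J → ∀ M, tow J ≤ M →
      (C * (20 + e1.size + 2 * 20 ^ D + 1) + 1) * (M + 2) ^ (D + 1) ≤ RN.nn J M := by
    intro J hJ M hM
    exact hJ0 J (by omega) M hM
  -- the sentence
  have hsent : ∀ j M, (p j).snt (q (J1 + j)) M =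
      rfn (P (cu (c (J1 + j)) (κ (J1 + j))) (κu (c (J1 + j)) (κ (J1 + j)))) μ
        (RN.nn (J1 + j) M) := by
    intro j M
    show rfn (decFm (F (q (J1 + j)))) μ (RN.nn (J1 + j) M) = _
    rw [show F (q (J1 + j)) = _ from hFe _ _, decFm_enc]
  have e1' : ∀ j, (p j).m = fun d => tow (J1 + (j + d)) := by
    intro j
    funext d
    exact hmj j d
  have e2' : ∀ j, (p j).r = fun d => lgN (tow (J1 + (j + d))) := by
    intro j
    funext d
    show lgN ((p j).m d) = _
    rw [hmj]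
  have e3' : ∀ j, (p j).β = fun d => posH (tow (J1 + (j + d))) := by
    intro j
    funext d x y i
    show posH ((p j).m d) x y i = _
    rw [hmj]
  have hCR := hCore (fun d => tow (J1 + d)) (fun d => lgN (tow (J1 + d)))
    (fun d => posH (tow (J1 + d))) (fun j => (p j).Acc (q (J1 + j))) (by
      refine hWin (par A cS kS μ W G e F J1) ?_
      show 100 ≤ tow J1
      have h1 := le_tow J1
      omega) (by
      intro j
      have h1 := hLoc (p j) (hgood j) (q (J1 + j))
      rw [e1', e3'] at h1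
      exact h1)
  filter_upwards [hCR] with R hR hHS hH0 hcS
  have hprog' := fun J => (hprog J (join A R) hHS).2
  have hUn := fun J => hU (c J) (κ J) (join A R) hH0 (hprog J (join A R) hHS).1
  rcases hR with ⟨j, d, hAcc, hFF⟩ | ⟨j, hnoF, hinf⟩
  · exfalso
    have hFF' : R ∈ FF (p j).m (p j).r (p j).β ((p j).Acc (q (J1 + j))) d := by
      rw [e1', e2', e3']
      exact hFF
    obtain ⟨v, hv, hvs, hno⟩ := hFA (p j) (hgood j) (q (J1 + j)) R d hFF'
    obtain ⟨E, -, hEp, hEh, hEt⟩ := hAcc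
    rw [hmj, hsent] at hEp
    rw [hmj] at hvs
    have hacc : Accepts (join A R) (c (J1 + j)) (κ (J1 + j)) (padF v (ι v)).enc := by
      rw [hprog']
      unfold Want
      rw [hPad.un]
      exact ⟨rfl, hv⟩
    have hacc' := ((hUn (J1 + j)).2 _).2 (Or.inr hacc)
    have hfalse : ¬ μ.sat (stdN (join A R)) (vec3 e1 (nx (Xv G v)) (nz (Xv G v))) := by
      rw [hUsat]
      rintro ⟨y, hy⟩
      exact hno y hy
    refine hErrC P hPf (join A R) _ _ (theory (join A R) cS kS) v e1 (nx (Xv G v))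
      (nz (Xv G v)) (RN.nn (J1 + j) (tow (J1 + (j + d)))) hacc' hfalse
      (fun φ hφ => Or.inl hφ) (fun φ hφ => Or.inr (Or.inl hφ)) hcS ?_ ⟨decProof E.left, ?_⟩
    · refine size_bound hvs (hD v).1 (hD v).2 (hgrow (J1 + j) (by omega) _ ?_)
      exact tow_mono.monotone (by omega)
    · rw [HYPS_thm]
      refine ⟨hEp, fun ψ hψ => ?_⟩
      rcases hEh ψ hψ with h1 | h1
      · exact Or.inl h1
      · right
        obtain ⟨t, ht, rfl⟩ := List.mem_map.1 h1
        refine ⟨envOf t 0, envOf t 1, envOf t 2, ?_, rfl⟩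
        rw [sat_vec3 hμ.2.1]
        exact hEt t ht
  · have htrue : ∀ v : T, (p j).AccV (q (J1 + j)) (join A R) v →
        μ.sat (stdN (join A R)) (vec3 e1 (nx (Xv G v)) (nz (Xv G v))) := by
      intro v hv
      rw [hUsat]
      by_contra hcon
      push Not at hcon
      obtain ⟨d, hd⟩ := hAF (p j) (hgood j) (q (J1 + j)) R v hv hcon
      rw [e1', e2', e3'] at hd
      exact hnoF d hd
    obtain ⟨k, D0, hk⟩ := hFinb (2 * e) (J1 + j) (by omega) (by omega)
    refine ⟨cu (c (J1 + j)) (κ (J1 + j)), κu (c (J1 + j)) (κ (J1 + j)), (hUn (J1 + j)).1, ?_, ?_,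
      k, fun N => ?_⟩
    · intro φ hφ
      rcases hφ with h | h | h
      · exact Or.inl h
      · exact Or.inr (Or.inl h)
      · exact Or.inr (Or.inr (((hUn (J1 + j)).2 _).2 (Or.inl h)))
    · intro φ hφ
      rcases hφ with h | h | h
      · exact Or.inl (Or.inl h)
      · exact Or.inl (Or.inr (Or.inl h))
      · rcases ((hUn (J1 + j)).2 _).1 h with h1 | h1
        · exact Or.inl (Or.inr (Or.inr h1))
        · right
          rw [hprog'] at h1
          obtain ⟨h2, h3⟩ := h1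
          have h4 : φ = padF (unfalsum φ.enc) (ι (unfalsum φ.enc)) := by
            have h6 := congrArg decFm h2
            rw [decFm_enc, decFm_enc] at h6
            exact h6.symm
          have h5 := htrue _ h3
          rw [h4]
          refine ⟨?_, ?_, ?_⟩
          · rw [hPad.sigma]
            show (inst3 μ _ _ _).isSigma = true
            unfold inst3
            rw [sub.sigma, sub.sigma, sub.sigma]
            exact hμ.1
          · rw [hPad.below]
            show (inst3 μ _ _ _).fvBelow 0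
            unfold inst3
            exact sub.instBelowF0 _ _ _ (sub.instBelowF0 _ _ _ (sub.instBelowF0 _ _ _ hμ.2.1))
          · rw [hPad.sat]
            show (inst3 μ _ _ _).sat (stdN (join A R)) _
            rw [inst3_sat]
            exact h5
    · obtain ⟨d, hd, hdA⟩ := hinf (max N (max D0 (2 * e * Cn)))
      refine ⟨RN.nn (J1 + j) (tow (J1 + (j + d))), ?_, fun π hπ w hw => ?_⟩
      · have h1 := hgrow (J1 + j) (by omega) (tow (J1 + (j + d)))
          (tow_mono.monotone (by omega))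
        have h2 := le_tow (J1 + (j + d))
        have h3 : N ≤ d := (le_max_left _ _).trans hd
        have h4 : tow (J1 + (j + d)) ≤
            (C * (20 + e1.size + 2 * 20 ^ D + 1) + 1) * (tow (J1 + (j + d)) + 2) ^ (D + 1) := by
          calc tow (J1 + (j + d)) ≤ (tow (J1 + (j + d)) + 2) ^ 1 := by rw [pow_one]; omega
            _ ≤ (tow (J1 + (j + d)) + 2) ^ (D + 1) :=
                Nat.pow_le_pow_right (by omega) (by omega)
            _ ≤ _ := Nat.le_mul_of_pos_left _ (Nat.succ_pos _)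
        show N ≤ RN.nn (J1 + j) (tow (J1 + (j + d)))
        omega
      · by_contra hlt
        rw [not_lt] at hlt
        have hdD : D0 ≤ d := (le_max_left _ _).trans ((le_max_right _ _).trans hd)
        have hdC : 2 * e * Cn ≤ d := (le_max_right _ _).trans ((le_max_right _ _).trans hd)
        have h1 : w ≤ tow (J1 + j + d) / (2 * e) := by
          refine hk d hdD w ?_
          rw [show J1 + j + d = J1 + (j + d) from Nat.add_assoc _ _ _]
          exact hw
        rw [show J1 + j + d = J1 + (j + d) from Nat.add_assoc _ _ _] at h1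
        obtain ⟨E, hE1, hE2, hE3, hE4⟩ := hNegsC (join A R) (theory (join A R) cS kS) π _ hπ
        refine hdA ⟨E, ?_, ?_, ?_, ?_⟩
        · rw [hmj]
          show E.size ≤ 2 ^ (tow (J1 + (j + d)) / e)
          refine exp_bound he0 ?_ h1 (hE1.trans (Nat.mul_le_mul_left _ hlt))
          have h2 := le_tow (J1 + (j + d))
          omega
        · rw [hE2, hmj, hsent]
          exact ((HYPS_thm _ _ _).1 hπ).1
        · rw [hE2]
          exact hE3
        · exact hE4

end Pool.Agent.RH
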