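import Pool.Agent.RH.PDefs

/-!
# Reflection relative to random oracles: the analysis of one process of windows
(module RH_PROC, by helper18, after the module RO_PROC of helper8)
-/

open MeasureTheory

namespace Pool.Agent.RH.PROC

open Pool.Agent.RO (Om coin IndepOf st)

lemma indep_inter {B : Set ℕ} {E F : Set Om} (hE : IndepOf B E) (hF : IndepOf B F) :
    IndepOf B (E ∩ F) := fun R R' h => and_congr (hE R R' h) (hF R R' h)

lemma indep_univ (B : Set ℕ) : IndepOf B (Set.univ : Set Om) := fun _ _ _ => by simp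

lemma noErr_succ {m r : ℕ → ℕ} {β : ℕ → ℕ → ℕ → ℕ → ℕ} {A : ℕ → Set Om} {d : ℕ} {R : Om}
    (h : R ∈ NoErr m r β A (d + 1)) : R ∈ NoErr m r β A d :=
  fun d' hd' => h d' (Nat.lt_succ_of_lt hd')

lemma st_succ_mem {A : ℕ → Set Om} {R : Om} {d : ℕ} (h : R ∈ A d) : st A R (d + 1) = st A R d := by
  have h1 : st A R (d + 1) = @ite _ (R ∈ A d) (Classical.propDecidable _) (st A R d) (d + 1) := rfl
  rw [h1, if_pos h]

lemma st_succ_notMem {A : ℕ → Set Om} {R : Om} {d : ℕ} (h : R ∉ A d) :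
    st A R (d + 1) = d + 1 := by
  have h1 : st A R (d + 1) = @ite _ (R ∈ A d) (Classical.propDecidable _) (st A R d) (d + 1) := rfl
  rw [h1, if_neg h]

section

variable {m r : ℕ → ℕ} {β : ℕ → ℕ → ℕ → ℕ → ℕ} {A : ℕ → Set Om}

/-- the part of the past with start a -/
def Gs (m r : ℕ → ℕ) (β : ℕ → ℕ → ℕ → ℕ → ℕ) (A : ℕ → Set Om) (G : Set Om) (d a : ℕ) : Set Om :=
  G ∩ NoErr m r β A d ∩ {R | st A R d = a}

/-- the first error is at d -/
def Ep (m r : ℕ → ℕ) (β : ℕ → ℕ → ℕ → ℕ → ℕ) (A : ℕ → Set Om) (G : Set Om) (d : ℕ) : Set Om :=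
  G ∩ NoErr m r β A d ∩ A d ∩ FF m r β A d

/-- the conditional risks -/
noncomputable def al (m r : ℕ → ℕ) (β : ℕ → ℕ → ℕ → ℕ → ℕ) (A : ℕ → Set Om) (G : Set Om)
    (d : ℕ) : ENNReal :=
  ∑ a ∈ Finset.range (d + 1), (2⁻¹ : ENNReal) ^ r a * coin (Gs m r β A G d a)

/-- the conditional risks of accepted windows -/
noncomputable def de (m r : ℕ → ℕ) (β : ℕ → ℕ → ℕ → ℕ → ℕ) (A : ℕ → Set Om) (G : Set Om)
    (d : ℕ) : ENNReal :=
  ∑ a ∈ Finset.range (d + 1), (2⁻¹ : ENNReal) ^ r a * coin (A d ∩ Gs m r β A G d a)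

lemma gs_meas (hM : Stmt_MEAS) (hw : WinSys m r β) (hA : Loc2 m β A) {G : Set Om}
    (hG : MeasurableSet G) (d a : ℕ) : MeasurableSet (Gs m r β A G d a) := by
  obtain ⟨-, -, h3, -, -, -, -, -, h9, -⟩ := hM m r β A hw hA
  exact (hG.inter (h9 d)).inter (h3 a d)

lemma gs_indep (hM : Stmt_MEAS) (hw : WinSys m r β) (hA : Loc2 m β A) {G : Set Om}
    (hG : ∀ d, IndepOf (Win m β d) G) (d a : ℕ) : IndepOf (Win m β d) (Gs m r β A G d a) := by
  obtain ⟨-, -, -, h4, -, -, -, -, -, h10, -⟩ := hM m r β A hw hA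
  exact indep_inter (indep_inter (hG d) (h10 d d le_rfl)) (h4 a d d le_rfl)

lemma gs_disj (G : Set Om) (d : ℕ) {a b : ℕ} (hab : a ≠ b) :
    Disjoint (Gs m r β A G d a) (Gs m r β A G d b) := by
  rw [Set.disjoint_left]
  rintro R ⟨-, h2⟩ ⟨-, h3⟩
  have h4 : st A R d = a := h2
  have h5 : st A R d = b := h3
  exact hab (h4.symm.trans h5)

lemma gs_sum (h0 : Pool.Agent.RO.Stmt_PROB) (hM : Stmt_MEAS) (hw : WinSys m r β)
    (hA : Loc2 m β A) {G : Set Om} (hG : MeasurableSet G) (d : ℕ) :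
    ∑ a ∈ Finset.range (d + 1), (2⁻¹ : ENNReal) ^ r a * coin (Gs m r β A G d a) ≤ 1 := by
  have := h0
  unfold Pool.Agent.RO.Stmt_PROB at this
  calc ∑ a ∈ Finset.range (d + 1), (2⁻¹ : ENNReal) ^ r a * coin (Gs m r β A G d a)
      ≤ ∑ a ∈ Finset.range (d + 1), coin (Gs m r β A G d a) := by
        apply Finset.sum_le_sum
        intro a _
        calc (2⁻¹ : ENNReal) ^ r a * coin (Gs m r β A G d a)
            ≤ 1 * coin (Gs m r β A G d a) := by
              gcongr
              exact pow_le_one₀ (by simp) (by simp)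
          _ = _ := one_mul _
    _ = coin (⋃ a ∈ Finset.range (d + 1), Gs m r β A G d a) := by
        rw [← measure_biUnion_finset]
        · intro a _ b _ hab
          exact gs_disj G d hab
        · intro a _
          exact gs_meas hM hw hA hG d a
    _ ≤ 1 := prob_le_one

lemma risk_sum (hM : Stmt_MEAS) (hR : Stmt_RISK) (hw : WinSys m r β) (hA : Loc2 m β A)
    {G : Set Om} (hG : MeasurableSet G) (hG' : ∀ d, IndepOf (Win m β d) G) (d : ℕ) :
    coin (G ∩ NoErr m r β A d ∩ FF m r β A d) ≤ al m r β A G d := by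
  have hle : ∀ R, st A R d ≤ d := fun R => (hM m r β A hw hA).2.2.2.2.2.2.2.2.2.2.2 R d
  have h1 : G ∩ NoErr m r β A d ∩ FF m r β A d ⊆
      ⋃ a ∈ Finset.range (d + 1), (Fa m r β a d ∩ Gs m r β A G d a) := by
    rintro R ⟨h2, h3⟩
    simp only [Set.mem_iUnion, Finset.mem_range, exists_prop]
    exact ⟨st A R d, Nat.lt_succ_of_le (hle R), h3, h2, rfl⟩
  refine (measure_mono h1).trans ((measure_biUnion_finset_le _ _).trans ?_)
  apply Finset.sum_le_sum
  intro a ha
  rw [Finset.mem_range] at ha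
  exact hR m r β hw a d (by omega) _ (gs_meas hM hw hA hG d a) (gs_indep hM hw hA hG' d a)

lemma de_le (h0 : Pool.Agent.RO.Stmt_PROB) (hM : Stmt_MEAS) (hW : Stmt_WINDOW)
    (hw : WinSys m r β) (hA : Loc2 m β A) {G : Set Om}
    (hG : MeasurableSet G) (hG' : ∀ d, IndepOf (Win m β d) G) (d : ℕ) :
    de m r β A G d ≤ 100 * coin (Ep m r β A G d) + (2⁻¹ : ENNReal) ^ m d := by
  have hm := hM m r β A hw hA
  have h1 : de m r β A G d ≤ ∑ a ∈ Finset.range (d + 1),
      (100 * coin (A d ∩ Fa m r β a d ∩ Gs m r β A G d a) +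
        (2⁻¹ : ENNReal) ^ r a * ((2⁻¹ : ENNReal) ^ m d * coin (Gs m r β A G d a))) := by
    apply Finset.sum_le_sum
    intro a ha
    rw [Finset.mem_range] at ha
    exact hW m r β A hw hA a d (by omega) _ (gs_meas hM hw hA hG d a)
      (gs_indep hM hw hA hG' d a)
  refine h1.trans ?_
  rw [Finset.sum_add_distrib]
  apply add_le_add
  · rw [← Finset.mul_sum]
    gcongr
    rw [← measure_biUnion_finset]
    · apply measure_mono
      intro R hR
      simp only [Set.mem_iUnion, Finset.mem_range, exists_prop] at hR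
      obtain ⟨a, -, ⟨h2, h3⟩, ⟨h4, h5⟩, h6⟩ := hR
      refine ⟨⟨⟨h4, h5⟩, h2⟩, ?_⟩
      have h7 : st A R d = a := h6
      change R ∈ Fa m r β (st A R d) d
      rw [h7]
      exact h3
    · intro a _ b _ hab
      exact (gs_disj G d hab).mono Set.inter_subset_right Set.inter_subset_right
    · intro a _
      exact ((hm.1 d).inter (hm.2.2.2.2.1 a d)).inter (gs_meas hM hw hA hG d a)
  · have h2 : ∑ a ∈ Finset.range (d + 1), (2⁻¹ : ENNReal) ^ r a *
        ((2⁻¹ : ENNReal) ^ m d * coin (Gs m r β A G d a)) =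
        (2⁻¹ : ENNReal) ^ m d *
          ∑ a ∈ Finset.range (d + 1), (2⁻¹ : ENNReal) ^ r a * coin (Gs m r β A G d a) := by
      rw [Finset.mul_sum]
      apply Finset.sum_congr rfl
      intro a _
      rw [mul_left_comm]
    rw [h2]
    calc (2⁻¹ : ENNReal) ^ m d *
          ∑ a ∈ Finset.range (d + 1), (2⁻¹ : ENNReal) ^ r a * coin (Gs m r β A G d a)
        ≤ (2⁻¹ : ENNReal) ^ m d * 1 := by
          gcongr
          exact gs_sum h0 hM hw hA hG d
      _ = _ := mul_one _

lemma al_zero (h0 : Pool.Agent.RO.Stmt_PROB) (G : Set Om) :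
    al m r β A G 0 ≤ (2⁻¹ : ENNReal) ^ r 0 := by
  have := h0
  unfold Pool.Agent.RO.Stmt_PROB at this
  unfold al
  rw [Finset.sum_range_one]
  calc (2⁻¹ : ENNReal) ^ r 0 * coin (Gs m r β A G 0 0) ≤ (2⁻¹ : ENNReal) ^ r 0 * 1 := by
        gcongr
        exact prob_le_one
    _ = _ := mul_one _

lemma al_succ (h0 : Pool.Agent.RO.Stmt_PROB) (G : Set Om) (d : ℕ) :
    al m r β A G (d + 1) ≤ (2⁻¹ : ENNReal) ^ r (d + 1) + de m r β A G d := by
  have := h0
  unfold Pool.Agent.RO.Stmt_PROB at this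
  unfold al de
  rw [Finset.sum_range_succ, add_comm]
  apply add_le_add
  · calc (2⁻¹ : ENNReal) ^ r (d + 1) * coin (Gs m r β A G (d + 1) (d + 1)) ≤
        (2⁻¹ : ENNReal) ^ r (d + 1) * 1 := by
          gcongr
          exact prob_le_one
      _ = _ := mul_one _
  · apply Finset.sum_le_sum
    intro a ha
    rw [Finset.mem_range] at ha
    gcongr
    rintro R ⟨⟨h1, h2⟩, h3⟩
    have h4 : st A R (d + 1) = a := h3
    have h5 : R ∈ A d := by
      by_contra h5
      rw [st_succ_notMem h5] at h4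
      omega
    rw [st_succ_mem h5] at h4
    exact ⟨h5, ⟨h1, noErr_succ h2⟩, h4⟩

lemma sum_ep (hM : Stmt_MEAS) (hw : WinSys m r β) (hA : Loc2 m β A) {G : Set Om}
    (hG : MeasurableSet G) : ∑' d, coin (Ep m r β A G d) ≤ coin (G ∩ Err m r β A) := by
  have hm := hM m r β A hw hA
  obtain ⟨h1, -, -, -, -, -, h7, -, h9, -⟩ := hm
  rw [← measure_iUnion]
  · apply measure_mono
    intro R hR
    rw [Set.mem_iUnion] at hR
    obtain ⟨d, ⟨⟨h2, -⟩, h3⟩, h4⟩ := hR
    exact ⟨h2, d, h3, h4⟩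
  · intro d d' hdd
    rw [Function.onFun, Set.disjoint_left]
    rintro R ⟨⟨⟨-, h2⟩, h3⟩, h4⟩ ⟨⟨⟨-, h5⟩, h6⟩, h8⟩
    rcases lt_or_gt_of_ne hdd with h | h
    · exact h5 d h ⟨h3, h4⟩
    · exact h2 d' h ⟨h6, h8⟩
  · intro d
    exact ((hG.inter (h9 d)).inter (h1 d)).inter (h7 d)

lemma sum_geom {f : ℕ → ℕ} (hf : StrictMono f) :
    ∑' d, (2⁻¹ : ENNReal) ^ f d ≤ 2 * (2⁻¹ : ENNReal) ^ f 0 := by
  have h1 : ∀ d, f 0 + d ≤ f d := by
    intro d
    induction d with
    | zero => simp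
    | succ d ih =>
      have := hf (Nat.lt_succ_self d)
      simp only [Nat.succ_eq_add_one] at this
      omega
  calc ∑' d, (2⁻¹ : ENNReal) ^ f d ≤ ∑' d, (2⁻¹ : ENNReal) ^ f 0 * (2⁻¹ : ENNReal) ^ d := by
        apply ENNReal.tsum_le_tsum
        intro d
        rw [← pow_add]
        exact pow_le_pow_of_le_one (by simp) (by simp) (h1 d)
    _ = (2⁻¹ : ENNReal) ^ f 0 * 2 := by
        rw [ENNReal.tsum_mul_left, ENNReal.tsum_geometric, ENNReal.one_sub_inv_two, inv_inv]
    _ = _ := mul_comm _ _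

lemma sum_m (hw : WinSys m r β) :
    ∑' d, (2⁻¹ : ENNReal) ^ m d ≤ 2 * (2⁻¹ : ENNReal) ^ r 0 := by
  refine (sum_geom hw.mono).trans ?_
  gcongr 2 * ?_
  have := hw.rle 0
  exact pow_le_pow_of_le_one (by simp) (by simp) (by omega)

lemma sum_de (h0 : Pool.Agent.RO.Stmt_PROB) (hM : Stmt_MEAS) (hW : Stmt_WINDOW)
    (hw : WinSys m r β) (hA : Loc2 m β A) {G : Set Om}
    (hG : MeasurableSet G) (hG' : ∀ d, IndepOf (Win m β d) G) :
    ∑' d, de m r β A G d ≤ 100 * coin (G ∩ Err m r β A) + 2 * (2⁻¹ : ENNReal) ^ r 0 := by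
  calc ∑' d, de m r β A G d
      ≤ ∑' d, (100 * coin (Ep m r β A G d) + (2⁻¹ : ENNReal) ^ m d) :=
        ENNReal.tsum_le_tsum (fun d => de_le h0 hM hW hw hA hG hG' d)
    _ = 100 * ∑' d, coin (Ep m r β A G d) + ∑' d, (2⁻¹ : ENNReal) ^ m d := by
        rw [ENNReal.tsum_add, ENNReal.tsum_mul_left]
    _ ≤ _ := by
        apply add_le_add
        · gcongr
          exact sum_ep hM hw hA hG
        · exact sum_m hw

end

end Pool.Agent.RH.PROC

open Pool.Agent.RH Pool.Agent.RH.PROC in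
open Pool.Agent.RO (Om coin IndepOf st) in
theorem Pool.Agent.RH.PROC_thm (h0 : Pool.Agent.RO.Stmt_PROB) (hM : Pool.Agent.RH.Stmt_MEAS)
    (hR : Pool.Agent.RH.Stmt_RISK) (hW : Pool.Agent.RH.Stmt_WINDOW) :
    Pool.Agent.RH.Stmt_PROC := by
  intro m r β A hw hA
  have hprob := h0
  unfold Pool.Agent.RO.Stmt_PROB at hprob
  have hm := hM m r β A hw hA
  refine ⟨?_, ?_⟩
  · intro G hG hG'
    have h1 : G ∩ {R | R ∉ Err m r β A ∧ ∃ d, R ∈ FF m r β A d} ⊆
        ⋃ d, (G ∩ NoErr m r β A d ∩ FF m r β A d) := by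
      rintro R ⟨h2, h3, d, h4⟩
      rw [Set.mem_iUnion]
      exact ⟨d, ⟨h2, fun d' _ h => h3 ⟨d', h⟩⟩, h4⟩
    have e1 : coin (G ∩ {R | R ∉ Err m r β A ∧ ∃ d, R ∈ FF m r β A d}) ≤
        ∑' d, al m r β A G d := by
      refine (measure_mono h1).trans ((measure_iUnion_le _).trans ?_)
      exact ENNReal.tsum_le_tsum (fun d => risk_sum hM hR hw hA hG hG' d)
    have e2 : ∑' d, al m r β A G d = al m r β A G 0 + ∑' d, al m r β A G (d + 1) :=
      tsum_eq_zero_add' ENNReal.summable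
    have e3 : ∑' d, al m r β A G (d + 1) ≤
        ∑' d, (2⁻¹ : ENNReal) ^ r (d + 1) + ∑' d, de m r β A G d := by
      rw [← ENNReal.tsum_add]
      exact ENNReal.tsum_le_tsum (fun d => al_succ h0 G d)
    have e4 : ∑' d, (2⁻¹ : ENNReal) ^ r d =
        (2⁻¹ : ENNReal) ^ r 0 + ∑' d, (2⁻¹ : ENNReal) ^ r (d + 1) :=
      tsum_eq_zero_add' ENNReal.summable
    have e5 := sum_geom hw.rmono
    have e6 := sum_de h0 hM hW hw hA hG hG'
    have e7 := al_zero (m := m) (r := r) (β := β) (A := A) h0 G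
    rw [e4] at e5
    refine e1.trans ?_
    rw [e2]
    refine (add_le_add e7 e3).trans ?_
    rw [← add_assoc]
    refine (add_le_add e5 e6).trans ?_
    rw [add_comm (100 * coin (G ∩ Err m r β A)), ← add_assoc, ← add_mul]
    norm_num
  · have hsum := sum_de h0 hM hW hw hA MeasurableSet.univ (fun d => indep_univ _)
    set f : ℕ → Om → ENNReal := fun d R => ∑ a ∈ Finset.range (d + 1),
      (A d ∩ Gs m r β A Set.univ d a).indicator (fun _ => (2⁻¹ : ENNReal) ^ r a) R with hf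
    have hms : ∀ d a, MeasurableSet (A d ∩ Gs m r β A Set.univ d a) := fun d a =>
      (hm.1 d).inter (gs_meas hM hw hA MeasurableSet.univ d a)
    have hfm : ∀ d, Measurable (f d) := by
      intro d
      apply Finset.measurable_sum
      intro a _
      exact measurable_const.indicator (hms d a)
    have hfi : ∀ d, ∫⁻ R, f d R ∂coin = de m r β A Set.univ d := by
      intro d
      rw [hf]
      simp only
      rw [lintegral_finsetSum]
      · apply Finset.sum_congr rfl
        intro a _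
        rw [lintegral_indicator_const (hms d a)]
      · intro a _
        exact measurable_const.indicator (hms d a)
    have hI : ∫⁻ R, ∑' d, f d R ∂coin ≠ ⊤ := by
      rw [lintegral_tsum (fun d => (hfm d).aemeasurable)]
      have h1 : ∑' d, ∫⁻ R, f d R ∂coin ≤ 100 + 2 := by
        calc ∑' d, ∫⁻ R, f d R ∂coin = ∑' d, de m r β A Set.univ d := by
              congr 1
              funext d
              exact hfi d
          _ ≤ 100 * coin (Set.univ ∩ Err m r β A) + 2 * (2⁻¹ : ENNReal) ^ r 0 := hsum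
          _ ≤ 100 * 1 + 2 * 1 := by
              gcongr
              · exact prob_le_one
              · exact pow_le_one₀ (by simp) (by simp)
          _ = 100 + 2 := by rw [mul_one, mul_one]
      exact ne_top_of_le_ne_top (by simp) h1
    have hfin := ae_lt_top (Measurable.ennreal_tsum hfm) hI
    filter_upwards [hfin] with R hR hErr D
    by_contra hcon
    push Not at hcon
    have hst : ∀ k, st A R (D + k) = st A R D := by
      intro k
      induction k with
      | zero => rfl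
      | succ k ih =>
        have h1 : D + (k + 1) = (D + k) + 1 := rfl
        rw [h1, st_succ_mem (hcon (D + k) (by omega)), ih]
    have hle : ∀ k, (2⁻¹ : ENNReal) ^ r (st A R D) ≤ f (D + k) R := by
      intro k
      rw [hf]
      simp only
      have h1 : R ∈ A (D + k) ∩ Gs m r β A Set.univ (D + k) (st A R D) :=
        ⟨hcon _ (by omega), ⟨Set.mem_univ _, fun d' _ h => hErr ⟨d', h⟩⟩, hst k⟩
      have h2 : st A R D ∈ Finset.range (D + k + 1) := by
        rw [Finset.mem_range]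
        have := hm.2.2.2.2.2.2.2.2.2.2.2 R D
        omega
      refine le_trans ?_ (Finset.single_le_sum (fun _ _ => zero_le) h2)
      rw [Set.indicator_of_mem h1]
    have htop : ∑' d, f d R = ⊤ := by
      rw [eq_top_iff]
      calc (⊤ : ENNReal) = ∑' _ : ℕ, (2⁻¹ : ENNReal) ^ r (st A R D) := by
            rw [ENNReal.tsum_const_eq_top_of_ne_zero]
            exact pow_ne_zero _ (by simp)
        _ ≤ ∑' k, f (D + k) R := ENNReal.tsum_le_tsum hle
        _ ≤ ∑' d, f d R := by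
            apply ENNReal.tsum_comp_le_tsum_of_injective (f := fun k => D + k)
              (g := fun d => f d R)
            exact fun a b h => by simpa using h
    rw [htop] at hR
    exact lt_irrefl _ hR
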