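import Pool.Agent.RH.Cst
import Pool.Agent.RN.RECP
import Pool.Agent.RO.DIAGDEC
import Pool.Agent.RO.PROGRAM

/-!
# PROG: the weird programs
-/

namespace Pool.Agent.RH

open Pool.Agent.H19 (T PolyTime PolyDec PolyNat PolyN Tm scons bn bl ofBool encL tt)
open Pool.Agent.RO

namespace PROG

/-- The padded sentences are computable in polynomial time. -/
theorem padF_polyTime {f : T → T} {ι : T → Fm} (hf : PolyTime f)
    (hι : PolyTime (fun v => (ι v).enc)) :
    PolyTime (fun z => (padF (f z) (ι (f z))).enc) :=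
  (PolyTime.const _).node (((PolyTime.const _).node ((H19.tt_polyTime.comp hf).node
    (H19.tt_polyTime.comp hf))).node (hι.comp hf))

end PROG

open PROG in
/-- PROG: the weird programs. -/
theorem PROG_thm (h1 : Stmt_D0P) (h2 : Stmt_ITEMS) : Stmt_PROG := by
  intro A cS kS μ W G e F ι hF hι he
  have i := PolyTime.id
  have hu : PolyTime (fun z : T => unfalsum z.left.left) :=
    H19.uu_polyTime.comp i.left.left.right.left.right.left
  have k1 : DecOn {O : Om | HaltsWithin O cS kS}
      (fun _ z => (padF (unfalsum z.left.left) (ι (unfalsum z.left.left))).enc = z.left.left ∧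
        (par A cS kS μ W G e F z.left.right.len).D0 (unfalsum z.left.left) z.right) := by
    refine DecOn.of_dec ((PolyDec.eq (padF_polyTime hu hι) i.left.left).and ?_)
    exact ((h1 A cS kS μ W G e F hF he).comp (hu.node (i.right.node i.left.right))).congr
      fun z => Iff.rfl
  have k2 : DecOn {O : Om | HaltsWithin O cS kS}
      (fun O z => ∀ a ∈ (par A cS kS μ W G e F 0).items (unfalsum z.left.left),
        decFm a ∈ theory O cS kS) :=
    DecOn.all (RO.PROGRAM.theory_decOn RO.DIAGDEC_thm cS kS fun O hO => hO)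
      ((h2 (par A cS kS μ W G e F 0)).comp hu)
  have k4 : DecOn {O : Om | HaltsWithin O cS kS}
      (fun O z => Want (par A cS kS μ W G e F z.left.right.len) ι z.right O z.left.left) :=
    (k1.and k2).congr fun O _ z => by
      unfold Want Par.AccV
      rw [and_assoc]
      exact Iff.rfl
  obtain ⟨D, hDp, hDw⟩ := k4
  obtain ⟨B, c, κ, hB, hc⟩ := RN.RECP_thm _ D hDp
  refine ⟨2 * B, fun J => c (T.unary J), fun J => κ (T.unary J), fun J => ?_,
    fun J O hO => ⟨fun x => ?_, fun x => ?_⟩⟩
  · refine (hB (T.unary J)).trans (le_of_eq ?_)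
    rw [H19.T.size_unary]
    ring
  · obtain ⟨t, ht, hb⟩ := hc (T.unary J) O hO x
    exact ⟨_, t, ht, hb⟩
  · obtain ⟨t, ht, hb⟩ := hc (T.unary J) O hO x
    rw [accepts_iff ht hb, ← hDw O hO]
    simp only [H19.T.left_node, H19.T.right_node, H19.T.len_unary]

end Pool.Agent.RH
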