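import Mathlib
import Pool.Agent.RH.PDefs

/-!
# Module RISK: the probability of a failure
-/

open MeasureTheory

namespace Pool.Agent.RH

open Pool.Agent.RO (Om coin IndepOf st)

namespace RISK

theorem isProb : IsProbabilityMeasure coin := by
  unfold coin
  infer_instance

theorem meas_Dead (m : ℕ → ℕ) (β : ℕ → ℕ → ℕ → ℕ → ℕ) (d x : ℕ) :
    MeasurableSet (Dead m β d x) := by
  have h : Dead m β d x = ⋂ y, ⋂ (_ : y < yy (m d)), ⋃ i, ⋃ (_ : i < m d),
      {R : Om | R (β d x y i) = false} := by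
    ext R
    simp [Dead]
  rw [h]
  refine MeasurableSet.iInter fun y => MeasurableSet.iInter fun _ => MeasurableSet.iUnion fun i =>
    MeasurableSet.iUnion fun _ => ?_
  have h1 : Measurable (fun R : Om => R (β d x y i)) := measurable_pi_apply (β d x y i)
  exact h1 (measurableSet_singleton false)

theorem fill_apply {N Y M : ℕ} {γ : Fin N → Fin Y → Fin M → ℕ}
    (hγ : ∀ x y i x' y' i', γ x y i = γ x' y' i' → x = x' ∧ y = y' ∧ i = i')
    (ω : Fin N → Fin Y → Fin M → Bool) (R : Om) (x : Fin N) (y : Fin Y) (i : Fin M) :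
    fill γ ω R (γ x y i) = ω x y i := by
  have h : ∃ p : Fin N × Fin Y × Fin M, γ p.1 p.2.1 p.2.2 = γ x y i := ⟨(x, y, i), rfl⟩
  unfold fill
  rw [dif_pos h]
  obtain ⟨h1, h2, h3⟩ := hγ _ _ _ _ _ _ h.choose_spec
  rw [h1, h2, h3]

theorem fill_off {N Y M : ℕ} {γ : Fin N → Fin Y → Fin M → ℕ}
    (ω : Fin N → Fin Y → Fin M → Bool) (R : Om) (n : ℕ) (hn : ∀ x y i, γ x y i ≠ n) :
    fill γ ω R n = R n := by
  unfold fill
  rw [dif_neg]
  rintro ⟨p, hp⟩
  exact hn _ _ _ hp

theorem count (Y M : ℕ) :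
    (Finset.univ.filter (fun ω : Fin 1 → Fin Y → Fin M → Bool =>
      ∀ y, ∃ i, ω 0 y i = false)).card = (2 ^ M - 1) ^ Y := by
  have h1 : Finset.univ.filter (fun ω : Fin 1 → Fin Y → Fin M → Bool =>
      ∀ y, ∃ i, ω 0 y i = false) =
      Fintype.piFinset (fun _ : Fin 1 => Fintype.piFinset
        (fun _ : Fin Y => Finset.univ.erase (fun _ : Fin M => true))) := by
    ext ω
    simp only [Finset.mem_filter, Finset.mem_univ, true_and, Fintype.mem_piFinset,
      Finset.mem_erase, and_true]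
    constructor
    · intro h a y hy
      have ha : a = 0 := Subsingleton.elim _ _
      subst ha
      obtain ⟨i, hi⟩ := h y
      rw [hy] at hi
      exact Bool.noConfusion hi
    · intro h y
      by_contra hc
      push Not at hc
      refine h 0 y (funext fun i => ?_)
      have := hc i
      simpa using this
  rw [h1, Fintype.card_piFinset]
  simp [Finset.card_erase_of_mem]

/-- The probability that a target is dead, given an independent event. -/
theorem dead_eq (hF : Stmt_FIBER) {m r : ℕ → ℕ} {β : ℕ → ℕ → ℕ → ℕ → ℕ} (hW : WinSys m r β)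
    {d x : ℕ} (hx : x < 2 ^ pex (m d)) {G : Set Om} (hG : MeasurableSet G)
    (hGi : IndepOf (Win m β d) G) :
    (coin (Dead m β d x ∩ G)).toReal =
      (1 - 1 / 2 ^ m d) ^ yy (m d) * (coin G).toReal := by
  set M := m d with hM
  set Y := yy M with hY
  set γ : Fin 1 → Fin Y → Fin M → ℕ := fun _ y i => β d x y i with hγd
  have hγ : ∀ x y i x' y' i', γ x y i = γ x' y' i' → x = x' ∧ y = y' ∧ i = i' := by
    intro a y i a' y' i' h
    obtain ⟨-, -, h2, h3⟩ := hW.inj d x y i d x y' i' hx y.2 i.2 hx y'.2 i'.2 h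
    exact ⟨Subsingleton.elim _ _, Fin.ext h2, Fin.ext h3⟩
  have h1 := hF 1 Y M γ hγ (Dead m β d x ∩ G) ((meas_Dead m β d x).inter hG)
  have h2 : ∀ ω : Fin 1 → Fin Y → Fin M → Bool,
      coin {R | fill γ ω R ∈ Dead m β d x ∩ G} =
        if (∀ y, ∃ i, ω 0 y i = false) then coin G else 0 := by
    intro ω
    have hGf : ∀ R, fill γ ω R ∈ G ↔ R ∈ G := by
      intro R
      refine hGi _ _ fun n hn => fill_off ω R n fun a y i h => hn ?_
      exact ⟨x, hx, y, y.2, i, i.2, h.symm⟩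
    have hDf : ∀ R, fill γ ω R ∈ Dead m β d x ↔ ∀ y, ∃ i, ω 0 y i = false := by
      intro R
      constructor
      · intro h y
        obtain ⟨i, hi, h3⟩ := h y y.2
        refine ⟨⟨i, hi⟩, ?_⟩
        rw [← h3, ← fill_apply hγ ω R 0 y ⟨i, hi⟩]
      · intro h y hy
        obtain ⟨i, hi⟩ := h ⟨y, hy⟩
        refine ⟨i, i.2, ?_⟩
        rw [← hi, ← fill_apply hγ ω R 0 ⟨y, hy⟩ i]
    split_ifs with h
    · congr 1
      ext R
      simp only [Set.mem_ofPred_eq, Set.mem_inter_iff, hGf, hDf]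
      exact ⟨fun h' => h'.2, fun h' => ⟨h, h'⟩⟩
    · have : {R | fill γ ω R ∈ Dead m β d x ∩ G} = ∅ := by
        ext R
        simp only [Set.mem_ofPred_eq, Set.mem_inter_iff, hGf, hDf, Set.mem_empty_iff_false,
          iff_false]
        exact fun h' => h h'.1
      rw [this, measure_empty]
  rw [Finset.sum_congr rfl fun ω _ => h2 ω, ← Finset.sum_filter, Finset.sum_const, count,
    nsmul_eq_mul] at h1
  have h3 := congrArg ENNReal.toReal h1
  rw [ENNReal.toReal_mul, ENNReal.toReal_mul, ENNReal.toReal_pow, ENNReal.toReal_natCast,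
    one_mul] at h3
  have h4 : (1 : ℕ) ≤ 2 ^ M := Nat.one_le_two_pow
  rw [Nat.cast_pow, Nat.cast_sub h4] at h3
  push_cast at h3
  rw [ENNReal.toReal_ofNat] at h3
  have h5 : (2 : ℝ) ^ (Y * M) = ((2 : ℝ) ^ M) ^ Y := by rw [mul_comm, pow_mul]
  have h6 : (1 - 1 / (2 : ℝ) ^ M) ^ Y = ((2 : ℝ) ^ M - 1) ^ Y / ((2 : ℝ) ^ M) ^ Y := by
    rw [← div_pow]
    congr 1
    field_simp
  rw [h6]
  rw [h5] at h3
  have h7 : ((2 : ℝ) ^ M) ^ Y ≠ 0 := by positivity
  field_simp
  linarith

end RISK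

open RISK in
theorem RISK_thm (h1 : Stmt_FIBER) (h2 : Stmt_NUM) : Stmt_RISK := by
  intro m r β hW a d had G hG hGi
  have := isProb
  obtain ⟨n1, -, n3, -⟩ := h2 (m d) (hW.big d)
  have hra : r a ≤ pex (m d) := by
    have e1 := hW.rmono.monotone had
    have e2 := hW.rle d
    omega
  set K := 2 ^ (pex (m d) - r a) with hK
  have hKle : K ≤ 2 ^ pex (m d) := Nat.pow_le_pow_right (by norm_num) (Nat.sub_le _ _)
  set q : ℝ := (1 - 1 / 2 ^ m d) ^ yy (m d) with hq
  have hq0 : 0 ≤ q := by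
    rw [hq]
    apply pow_nonneg
    have : (1 : ℝ) ≤ 2 ^ m d := one_le_pow₀ (by norm_num)
    rw [sub_nonneg, div_le_one (by positivity)]
    exact this
  have h3 : coin (Fa m r β a d ∩ G) ≤ ∑ x ∈ Finset.range K, coin (Dead m β d x ∩ G) := by
    calc coin (Fa m r β a d ∩ G)
        ≤ coin (⋃ x ∈ Finset.range K, (Dead m β d x ∩ G)) := by
          refine measure_mono ?_
          rintro R ⟨⟨x, hx, hR⟩, hRG⟩
          rw [Set.mem_iUnion₂]
          exact ⟨x, Finset.mem_range.2 hx, hR, hRG⟩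
      _ ≤ _ := measure_biUnion_finset_le _ _
  have h4 : ∀ x ∈ Finset.range K, coin (Dead m β d x ∩ G) =
      ENNReal.ofReal (q * (coin G).toReal) := by
    intro x hx
    have hx' : x < 2 ^ pex (m d) := lt_of_lt_of_le (Finset.mem_range.1 hx) hKle
    rw [← dead_eq h1 hW hx' hG hGi, ENNReal.ofReal_toReal (measure_ne_top _ _)]
  rw [Finset.sum_congr rfl h4, Finset.sum_const, Finset.card_range, nsmul_eq_mul] at h3
  refine h3.trans ?_
  have h5 : (2⁻¹ : ENNReal) ^ r a * coin G =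
      ENNReal.ofReal (((2 : ℝ)⁻¹) ^ r a * (coin G).toReal) := by
    rw [ENNReal.ofReal_mul (by positivity), ENNReal.ofReal_toReal (measure_ne_top _ _),
      ENNReal.ofReal_pow (by positivity), ENNReal.ofReal_inv_of_pos (by norm_num)]
    simp
  have h6 : ((K : ℕ) : ENNReal) = ENNReal.ofReal (K : ℝ) := (ENNReal.ofReal_natCast K).symm
  rw [h5, h6, ← ENNReal.ofReal_mul (by positivity)]
  apply ENNReal.ofReal_le_ofReal
  rw [← mul_assoc]
  refine mul_le_mul_of_nonneg_right ?_ ENNReal.toReal_nonneg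
  have h7 : (K : ℝ) * 2 ^ r a = 2 ^ pex (m d) := by
    rw [hK]
    push_cast
    rw [← pow_add]
    congr 1
    omega
  have h8 : (0 : ℝ) < 2 ^ r a := by positivity
  rw [inv_pow, ← one_div, le_div_iff₀ h8]
  calc (K : ℝ) * q * 2 ^ r a = (K * 2 ^ r a) * q := by ring
    _ = 2 ^ pex (m d) * q := by rw [h7]
    _ ≤ 1 := n3

end Pool.Agent.RH
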