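import Pool.Agent.RH.Cst
import Pool.Agent.RN.CALC

/-!
# True closed `Σ^b_1(O)` sentences as additional axioms

They do not change the theorems (replace the axiom by a proof of it), nor the consistency.
-/

namespace Pool.Agent.RH

open Pool.Agent.H19 (T Tm scons)
open Pool.Agent.RO

namespace SAMEP

open Pool.Agent.RN (Pr fs)
open Pool.Agent.RN.CALC (pr_mono mp0 gen0)

lemma bound_of (π : List Step) : ∃ s : ℕ, ∀ a ∈ π, a.enc.size ≤ s := by
  induction π with
  | nil => exact ⟨0, by simp⟩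
  | cons b π ih =>
    obtain ⟨s, hs⟩ := ih
    refine ⟨s + b.enc.size, fun a ha => ?_⟩
    rcases List.mem_cons.1 ha with rfl | ha
    · omega
    · have := hs a ha
      omega

lemma provable_iff {Th : Set Fm} {φ : Fm} : Provable Th φ ↔ ∃ l s, Pr Th l s φ := by
  constructor
  · rintro ⟨π, hπ⟩
    obtain ⟨s, hs⟩ := bound_of π
    exact ⟨π.length, s, π, hπ, le_rfl, hs⟩
  · rintro ⟨l, s, π, hπ, -, -⟩
    exact ⟨π, hπ⟩

lemma prov_mp {Th : Set Fm} {a b : Fm} (h1 : Provable Th (Fm.imp a b)) (h2 : Provable Th a) :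
    Provable Th b := by
  obtain ⟨l, s, h1⟩ := provable_iff.1 h1
  obtain ⟨l', s', h2⟩ := provable_iff.1 h2
  refine provable_iff.2 ⟨l + l' + 1, s + s' + (fs a + fs b + 21), ?_⟩
  exact mp0 (pr_mono h1 le_rfl (by omega)) (pr_mono h2 le_rfl (by omega)) (by omega)

lemma prov_gen {Th : Set Fm} {a : Fm} (h1 : Provable Th a) : Provable Th (Fm.all a) := by
  obtain ⟨l, s, h1⟩ := provable_iff.1 h1
  refine provable_iff.2 ⟨l + 1, s + (fs a + 22), ?_⟩
  exact gen0 (pr_mono h1 le_rfl (by omega)) (by omega)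

lemma prov_ax {Th : Set Fm} (a : Step) (ha : a.ok Th []) : Provable Th a.concl :=
  ⟨[a], ha, rfl⟩

/-- replace the axioms by proofs -/
lemma replace {Th U : Set Fm} (hU : ∀ φ ∈ U, Provable Th φ) (π : List Step) :
    ∀ (prev : List Fm) (φ : Fm), (∀ ψ ∈ prev, Provable Th ψ) → Derives U prev π φ →
      Provable Th φ := by
  induction π with
  | nil =>
    intro prev φ hp h
    simp only [Derives] at h
    exact hp φ (List.mem_of_mem_head? (by rw [h]; rfl))
  | cons s π ih =>
    intro prev φ hp h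
    simp only [Derives] at h
    obtain ⟨h1, h2⟩ := h
    refine ih _ φ ?_ h2
    intro ψ hψ
    rcases List.mem_cons.1 hψ with rfl | hψ
    swap
    · exact hp ψ hψ
    cases s with
    | hyp φ => exact hU φ h1
    | axK φ ψ => exact prov_ax _ trivial
    | axS φ ψ χ => exact prov_ax _ trivial
    | dne φ => exact prov_ax _ trivial
    | allE φ t => exact prov_ax _ trivial
    | allK φ ψ => exact prov_ax _ trivial
    | vac φ => exact prov_ax _ trivial
    | refl t => exact prov_ax _ trivial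
    | subst φ s t => exact prov_ax _ trivial
    | mp φ ψ => exact prov_mp (hp _ h1.1) (hp _ h1.2)
    | gen φ => exact prov_gen (hp _ h1)

end SAMEP

/-- SAMEP. -/
theorem SAMEP_thm (h : Stmt_SIGMAPROV) : Stmt_SAMEP := by
  intro O T0 U hS hD hTU hU
  have hprov : ∀ φ ∈ U, Provable T0 φ := by
    intro φ hφ
    rcases hU φ hφ with h1 | ⟨h1, h2, h3⟩
    · exact SAMEP.prov_ax (Step.hyp φ) h1
    · exact h O T0 φ hS hD h1 h2 h3
  refine ⟨fun φ => ⟨?_, ?_⟩, ?_⟩
  · rintro ⟨π, hπ⟩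
    exact SAMEP.replace hprov π [] φ (by simp) hπ
  · rintro ⟨π, hπ⟩
    exact SAMEP.replace (fun ψ hψ => SAMEP.prov_ax (Step.hyp ψ) (hTU hψ)) π [] φ (by simp) hπ
  · rintro ⟨M, A, hA⟩
    refine ⟨M, A, fun φ hφ v => ?_⟩
    obtain ⟨π, hπ⟩ := hprov φ hφ
    exact hπ.sound hA v

end Pool.Agent.RH
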