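import Pool.Agent.RH.StmtsU

/-!
# Truth of `Σ^b_1(O)` formulas has certificates of polynomially many oracle bits

Module SATLOC: `Stmt_SATLOC`.
-/

namespace Pool.Agent.RH

open Pool.Agent.RO
open Pool.Agent.H19 (T PolyTime PolyDec PolyN PolyB Tm scons bn bl envOf)

/-- Relations with certificates of polynomially many bits of the oracle, at positions of
polynomial length. -/
def LocR (R : Om → T → Prop) : Prop :=
  ∃ G : ℕ, ∀ (O : Om) (E : T), R O E → ∃ Q : Finset ℕ, Q.card ≤ (E.size + 2) ^ G ∧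
    (∀ n ∈ Q, n.size ≤ (E.size + 2) ^ G) ∧
    ∀ O' : Om, (∀ n ∈ Q, O' n = O n) → R O' E

theorem LocR.congr {R R' : Om → T → Prop} (h : LocR R) (e : ∀ O E, R O E ↔ R' O E) :
    LocR R' := by
  obtain ⟨G, hG⟩ := h
  refine ⟨G, fun O E hE => ?_⟩
  obtain ⟨Q, h1, h2, h3⟩ := hG O E ((e O E).2 hE)
  exact ⟨Q, h1, h2, fun O' hO => (e O' E).1 (h3 O' hO)⟩

theorem LocR.const {p : T → Prop} : LocR (fun _ E => p E) :=
  ⟨0, fun _ _ h => ⟨∅, by simp, by simp, fun _ _ => h⟩⟩

theorem pow_mono {m a b : ℕ} (h : a ≤ b) : (m + 2) ^ a ≤ (m + 2) ^ b :=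
  Nat.pow_le_pow_right (by omega) h

/-- The value of one bit of the oracle. -/
theorem LocR.bit {f : T → ℕ} {k : ℕ} (hf : ∀ E, (f E).size ≤ (E.size + 2) ^ k)
    (p : Bool → Prop) : LocR (fun O E => p (O (f E))) := by
  refine ⟨k, fun O E h => ⟨{f E}, ?_, ?_, fun O' hO => ?_⟩⟩
  · simp only [Finset.card_singleton]; exact Nat.one_le_pow _ _ (by omega)
  · intro n hn; rw [Finset.mem_singleton] at hn; subst hn; exact hf E
  · have := hO (f E) (Finset.mem_singleton_self _)
    simp only [this]; exact h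

theorem LocR.or {R R' : Om → T → Prop} (h : LocR R) (h' : LocR R') :
    LocR (fun O E => R O E ∨ R' O E) := by
  obtain ⟨G, hG⟩ := h
  obtain ⟨G', hG'⟩ := h'
  refine ⟨G + G', fun O E hE => ?_⟩
  rcases hE with hE | hE
  · obtain ⟨Q, h1, h2, h3⟩ := hG O E hE
    have hp : (E.size + 2) ^ G ≤ (E.size + 2) ^ (G + G') := pow_mono (by omega)
    exact ⟨Q, h1.trans hp, fun n hn => (h2 n hn).trans hp, fun O' hO => Or.inl (h3 O' hO)⟩
  · obtain ⟨Q, h1, h2, h3⟩ := hG' O E hE
    have hp : (E.size + 2) ^ G' ≤ (E.size + 2) ^ (G + G') := pow_mono (by omega)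
    exact ⟨Q, h1.trans hp, fun n hn => (h2 n hn).trans hp, fun O' hO => Or.inr (h3 O' hO)⟩

theorem LocR.and {R R' : Om → T → Prop} (h : LocR R) (h' : LocR R') :
    LocR (fun O E => R O E ∧ R' O E) := by
  obtain ⟨G, hG⟩ := h
  obtain ⟨G', hG'⟩ := h'
  refine ⟨G + G' + 1, fun O E hE => ?_⟩
  obtain ⟨Q, h1, h2, h3⟩ := hG O E hE.1
  obtain ⟨Q', h1', h2', h3'⟩ := hG' O E hE.2
  have hp : (E.size + 2) ^ G ≤ (E.size + 2) ^ (G + G') := pow_mono (by omega)
  have hp' : (E.size + 2) ^ G' ≤ (E.size + 2) ^ (G + G') := pow_mono (by omega)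
  have hp2 : (E.size + 2) ^ (G + G') ≤ (E.size + 2) ^ (G + G' + 1) := pow_mono (by omega)
  refine ⟨Q ∪ Q', ?_, ?_, fun O' hO => ⟨h3 O' fun n hn => hO n (Finset.mem_union_left _ hn),
    h3' O' fun n hn => hO n (Finset.mem_union_right _ hn)⟩⟩
  · refine (Finset.card_union_le _ _).trans ?_
    have : (E.size + 2) ^ (G + G' + 1) = (E.size + 2) ^ (G + G') * (E.size + 2) := pow_succ _ _
    have h4 : 1 ≤ (E.size + 2) ^ (G + G') := Nat.one_le_pow _ _ (by omega)
    nlinarith
  · intro n hn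
    rcases Finset.mem_union.1 hn with hn | hn
    · exact ((h2 n hn).trans hp).trans hp2
    · exact ((h2' n hn).trans hp').trans hp2

/-- Change of the second argument. -/
theorem LocR.at {R : Om → T → Prop} {G c : ℕ}
    (hG : ∀ (O : Om) (E : T), R O E → ∃ Q : Finset ℕ, Q.card ≤ (E.size + 2) ^ G ∧
      (∀ n ∈ Q, n.size ≤ (E.size + 2) ^ G) ∧ ∀ O' : Om, (∀ n ∈ Q, O' n = O n) → R O' E)
    (E E' : T) (hE : E'.size + 2 ≤ (E.size + 2) ^ c) (O : Om) (h : R O E') :
    ∃ Q : Finset ℕ, Q.card ≤ (E.size + 2) ^ (c * G) ∧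
      (∀ n ∈ Q, n.size ≤ (E.size + 2) ^ (c * G)) ∧
      ∀ O' : Om, (∀ n ∈ Q, O' n = O n) → R O' E' := by
  obtain ⟨Q, h1, h2, h3⟩ := hG O E' h
  have hp : (E'.size + 2) ^ G ≤ (E.size + 2) ^ (c * G) := by
    rw [pow_mul]; exact Nat.pow_le_pow_left hE _
  exact ⟨Q, h1.trans hp, fun n hn => (h2 n hn).trans hp, h3⟩

/-- The size of the environment extended by a value. -/
theorem size_ext {E : T} {a k : ℕ} (h : a.size ≤ (E.size + 2) ^ k) :
    (T.node (bl a) E).size + 2 ≤ (E.size + 2) ^ (k + 4) := by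
  have h1 := H19.bl_size a
  have h2 : (T.node (bl a) E).size = (bl a).size + E.size + 1 := rfl
  rw [h2]
  set m := E.size + 2 with hm
  have hm2 : 2 ≤ m := by omega
  have h3 : 1 ≤ m ^ k := Nat.one_le_pow _ _ (by omega)
  have h4 : m ^ (k + 4) = m ^ k * (m * (m * (m * m))) := by rw [pow_add]; ring
  rw [h4]
  have h5 : 4 ≤ m * m := by nlinarith
  have h6 : 4 * (m * m) ≤ m * (m * (m * m)) := by nlinarith [Nat.mul_le_mul h5 (le_refl (m * m))]
  have h7 : m ^ k * (4 * (m * m)) ≤ m ^ k * (m * (m * (m * m))) := Nat.mul_le_mul_left _ h6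
  have h8 : m ^ k * 16 ≤ m ^ k * (4 * (m * m)) := Nat.mul_le_mul_left _ (by omega)
  nlinarith [Nat.mul_le_mul h3 (le_refl (m * m))]

/-- A universal quantification over polynomially many numbers. -/
theorem LocR.allB {R : Om → T → Prop} (h : LocR R) {f : T → ℕ} {k : ℕ}
    (hf : ∀ E, f E ≤ (E.size + 2) ^ k) :
    LocR (fun O E => ∀ a, a ≤ f E → R O (T.node (bl a) E)) := by
  classical
  obtain ⟨G, hG⟩ := h
  refine ⟨(k + 1) + (k + 4) * G, fun O E hE => ?_⟩
  have hs : ∀ a, a ≤ f E → (T.node (bl a) E).size + 2 ≤ (E.size + 2) ^ (k + 4) := by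
    intro a ha
    refine size_ext ?_
    have h1 : a.size ≤ a := by
      rw [Nat.size_le]; exact Nat.lt_two_pow_self
    exact (h1.trans ha).trans (hf E)
  have hex : ∀ a, ∃ Q : Finset ℕ, a ≤ f E → (Q.card ≤ (E.size + 2) ^ ((k + 4) * G) ∧
      (∀ n ∈ Q, n.size ≤ (E.size + 2) ^ ((k + 4) * G)) ∧
      ∀ O' : Om, (∀ n ∈ Q, O' n = O n) → R O' (T.node (bl a) E)) := by
    intro a
    by_cases ha : a ≤ f E
    · obtain ⟨Q, hQ⟩ := LocR.at hG E _ (hs a ha) O (hE a ha)
      exact ⟨Q, fun _ => hQ⟩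
    · exact ⟨∅, fun h => absurd h ha⟩
  choose Q hQ using hex
  refine ⟨(Finset.range (f E + 1)).biUnion Q, ?_, ?_, ?_⟩
  · refine (Finset.card_biUnion_le_card_mul _ _ ((E.size + 2) ^ ((k + 4) * G)) ?_).trans ?_
    · intro a ha
      exact (hQ a (Nat.lt_succ_iff.1 (Finset.mem_range.1 ha))).1
    · rw [Finset.card_range, pow_add]
      refine Nat.mul_le_mul_right _ ?_
      have h1 := hf E
      have h2 : (E.size + 2) ^ (k + 1) = (E.size + 2) ^ k * (E.size + 2) := pow_succ _ _
      have h3 : 1 ≤ (E.size + 2) ^ k := Nat.one_le_pow _ _ (by omega)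
      nlinarith
  · intro n hn
    obtain ⟨a, ha, hna⟩ := Finset.mem_biUnion.1 hn
    exact ((hQ a (Nat.lt_succ_iff.1 (Finset.mem_range.1 ha))).2.1 n hna).trans
      (pow_mono (by omega))
  · intro O' hO a ha
    refine (hQ a ha).2.2 O' fun n hn => hO n ?_
    exact Finset.mem_biUnion.2 ⟨a, Finset.mem_range.2 (by omega), hn⟩

/-- An existential quantification over numbers of polynomial length. -/
theorem LocR.exB {R : Om → T → Prop} (h : LocR R) {p : T → ℕ → Prop} {k : ℕ}
    (hf : ∀ E a, p E a → a.size ≤ (E.size + 2) ^ k) :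
    LocR (fun O E => ∃ a, p E a ∧ R O (T.node (bl a) E)) := by
  obtain ⟨G, hG⟩ := h
  refine ⟨(k + 4) * G, fun O E hE => ?_⟩
  obtain ⟨a, ha, hR⟩ := hE
  obtain ⟨Q, h1, h2, h3⟩ := LocR.at hG E _ (size_ext (hf E a ha)) O hR
  exact ⟨Q, h1, h2, fun O' hO => ⟨a, ha, h3 O' hO⟩⟩

/-- The values of a term have polynomial length. -/
theorem valEnv_size (t : Tm) : ∃ k : ℕ, ∀ E : T,
    (t.val H19.stdN (envOf E)).size ≤ (E.size + 2) ^ k := by
  obtain ⟨k, hk⟩ := (H19.PolyN.valEnv t).size_bound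
  exact ⟨k, fun E => (H19.size_le_bl _).trans (hk E)⟩

theorem valEnv_size_ext (t : Tm) : ∃ k : ℕ, ∀ E : T,
    (t.val H19.stdN (scons 0 (envOf E))).size ≤ (E.size + 2) ^ k := by
  obtain ⟨k, hk⟩ := valEnv_size t
  refine ⟨2 * k, fun E => ?_⟩
  have h := hk (T.node T.leaf E)
  rw [H19.envOf_node] at h
  refine h.trans ?_
  rw [pow_mul]
  refine Nat.pow_le_pow_left ?_ _
  have h2 : (T.node T.leaf E).size = 1 + E.size + 1 := rfl
  rw [h2]
  nlinarith

theorem sharp_elim {φ : Fm} (h : φ.sharp = true) :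
    ∃ t ψ, φ = Fm.imp (Fm.le (Tm.var 0) (Tm.len t)) ψ ∧ t.occurs 0 = false := by
  cases φ with
  | imp ψ χ =>
    cases ψ with
    | le s t =>
      cases s with
      | var i =>
        cases i with
        | zero =>
          cases t with
          | len t => exact ⟨t, χ, rfl, by simpa [Fm.sharp] using h⟩
          | _ => simp [Fm.sharp] at h
        | succ i => simp [Fm.sharp] at h
      | _ => simp [Fm.sharp] at h
    | _ => simp [Fm.sharp] at h
  | _ => simp [Fm.sharp] at h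

theorem sat_loc (φ : Fm) :
    (φ.isSigma = true → LocR (fun O E => φ.sat (stdN O) (envOf E))) ∧
    (φ.isPi = true → LocR (fun O E => ¬ φ.sat (stdN O) (envOf E))) := by
  induction φ with
  | bot => exact ⟨fun _ => LocR.const (p := fun _ => False), fun _ => LocR.const (p := fun _ => ¬ False)⟩
  | eq s t =>
    exact ⟨fun _ => LocR.const (p := fun E => s.val H19.stdN (envOf E) = t.val H19.stdN (envOf E)),
      fun _ => LocR.const (p := fun E => ¬ s.val H19.stdN (envOf E) = t.val H19.stdN (envOf E))⟩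
  | le s t =>
    exact ⟨fun _ => LocR.const (p := fun E => s.val H19.stdN (envOf E) ≤ t.val H19.stdN (envOf E)),
      fun _ => LocR.const (p := fun E => ¬ s.val H19.stdN (envOf E) ≤ t.val H19.stdN (envOf E))⟩
  | rel t =>
    obtain ⟨k, hk⟩ := valEnv_size t
    exact ⟨fun _ => LocR.bit hk (fun b => b = true), fun _ => LocR.bit hk (fun b => ¬ b = true)⟩
  | imp φ ψ ih1 ih2 =>
    constructor
    · intro h
      simp only [Fm.isSigma, Bool.and_eq_true] at h
      refine ((ih1.2 h.1).or (ih2.1 h.2)).congr fun O E => ?_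
      simp only [Fm.sat]; tauto
    · intro h
      simp only [Fm.isPi, Bool.and_eq_true] at h
      refine ((ih1.1 h.1).and (ih2.2 h.2)).congr fun O E => ?_
      simp only [Fm.sat]; tauto
  | all φ ih =>
    constructor
    · intro h
      simp only [Fm.isSigma, Bool.and_eq_true] at h
      obtain ⟨h1, h2⟩ := h
      have ih' := ih.1 h2
      obtain ⟨t, ψ, rfl, ht⟩ := sharp_elim h1
      obtain ⟨k, hk⟩ := valEnv_size_ext t
      refine (ih'.allB (f := fun E => (t.val H19.stdN (scons 0 (envOf E))).size) hk).congr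
        fun O E => ?_
      simp only [H19.envOf_node, H19.bn_bl]
      simp only [Fm.sat]
      constructor
      · intro h a ha
        have h3 : a ≤ (t.val H19.stdN (scons 0 (envOf E))).size := by
          have : (Tm.len t).val H19.stdN (scons a (envOf E)) =
              (t.val H19.stdN (scons 0 (envOf E))).size := by
            rw [← H19.Tm.val_guard ht a]; rfl
          rw [← this]; exact ha
        exact h a h3 ha
      · intro h a _
        exact h a
    · intro h
      simp only [Fm.isPi, Bool.and_eq_true] at h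
      obtain ⟨h1, h2⟩ := h
      have ih' := ih.2 h2
      obtain ⟨t, ψ, rfl, ht⟩ := Fm.guarded_elim h1
      obtain ⟨k, hk⟩ := valEnv_size_ext t
      refine (ih'.exB (p := fun E a => a ≤ t.val H19.stdN (scons 0 (envOf E))) (k := k)
        (fun E a ha => (Nat.size_le_size ha).trans (hk E))).congr fun O E => ?_
      simp only [H19.envOf_node, H19.bn_bl]
      simp only [Fm.sat]
      constructor
      · rintro ⟨a, _, h⟩ h'
        exact h (h' a)
      · intro h
        push Not at h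
        obtain ⟨a, ha, ha'⟩ := h
        refine ⟨a, ?_, fun h => ha' (h ha)⟩
        have : t.val H19.stdN (scons a (envOf E)) = t.val H19.stdN (scons 0 (envOf E)) :=
          H19.Tm.val_guard ht a _
        rw [← this]; exact ha

theorem SATLOC_thm : Stmt_SATLOC := fun φ h => (sat_loc φ).1 h

end Pool.Agent.RH
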