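import Pool.Agent.RH.StmtsU
import Pool.Agent.RO.ITEMS
import Pool.Agent.RO.Sem

/-! # SATNP: truth of `Σ^b_1(O)` formulas is in NP relative to `O` -/

namespace Pool.Agent.RH

open Pool.Agent.RO
open Pool.Agent.H19 (T PolyTime PolyTime₂ PolyDec PolyN PolyNat PolyB Tm scons bn bl encL envOf
  envOf_node canon_polyTime bn_bl bl_size size_le_bl encL_size_le right_iterate_polyTime)

namespace SN

theorem of {R D : Om → T → Prop} {G : ℕ → ℕ} (hD : DecOn Set.univ D) (hG : PolyB G)
    (h1 : ∀ O x, R O x → ∃ w : T, w.size ≤ G x.size ∧ D O (T.node x w))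
    (h2 : ∀ O x w, D O (T.node x w) → R O x) : NPOn R := by
  obtain ⟨k, hk⟩ := hG
  exact ⟨D, k, hD, fun O x hx => by
    obtain ⟨w, hw, hd⟩ := h1 O x hx
    exact ⟨w, hw.trans (hk _), hd⟩, h2⟩

theorem congr {R Q : Om → T → Prop} (hR : NPOn R) (h : ∀ O x, R O x ↔ Q O x) : NPOn Q := by
  obtain ⟨D, k, hD, h1, h2⟩ := hR
  exact ⟨D, k, hD, fun O x hx => h1 O x ((h O x).2 hx), fun O x w hw => (h O x).1 (h2 O x w hw)⟩

theorem dec {R : Om → T → Prop} (hR : DecOn Set.univ R) : NPOn R :=
  of (D := fun O z => R O z.left) (hR.comp PolyTime.id.left) (PolyB.const 1)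
    (fun _ _ hx => ⟨T.leaf, le_rfl, hx⟩) (fun _ _ _ h => h)

theorem or {R Q : Om → T → Prop} (hR : NPOn R) (hQ : NPOn Q) :
    NPOn (fun O x => R O x ∨ Q O x) := by
  obtain ⟨D, k, hD, h1, h2⟩ := hR
  obtain ⟨E, m, hE, h3, h4⟩ := hQ
  have i := PolyTime.id
  have hl : PolyDec (fun z : T => z.right.left = T.leaf) := PolyDec.eq_leaf i.right.left
  have hn : PolyDec (fun z : T => z.right.left ≠ T.leaf) := PolyDec.ne_leaf i.right.left
  refine of (D := fun O z => (z.right.left = T.leaf ∧ D O (T.node z.left z.right.right)) ∨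
    (z.right.left ≠ T.leaf ∧ E O (T.node z.left z.right.right)))
    (((DecOn.of_dec hl).and (hD.comp (i.left.node i.right.right))).or
      ((DecOn.of_dec hn).and (hE.comp (i.left.node i.right.right))))
    (G := fun n => (n + 2) ^ k + (n + 2) ^ m + 4)
    ((PolyB.add (PolyB.add ⟨k, fun _ => le_rfl⟩ ⟨m, fun _ => le_rfl⟩)) (PolyB.const 4)) ?_ ?_
  · rintro O x (h | h)
    · obtain ⟨w, hw, hd⟩ := h1 O x h
      exact ⟨T.node T.leaf w, by simp only [T.size]; omega, Or.inl ⟨rfl, hd⟩⟩
    · obtain ⟨w, hw, hd⟩ := h3 O x h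
      exact ⟨T.node (T.node T.leaf T.leaf) w, by simp only [T.size]; omega,
        Or.inr ⟨by simp, hd⟩⟩
  · rintro O x w (⟨_, h⟩ | ⟨_, h⟩)
    · exact Or.inl (h2 _ _ _ h)
    · exact Or.inr (h4 _ _ _ h)

theorem and {R Q : Om → T → Prop} (hR : NPOn R) (hQ : NPOn Q) :
    NPOn (fun O x => R O x ∧ Q O x) := by
  obtain ⟨D, k, hD, h1, h2⟩ := hR
  obtain ⟨E, m, hE, h3, h4⟩ := hQ
  have i := PolyTime.id
  refine of (D := fun O z => D O (T.node z.left z.right.left) ∧
      E O (T.node z.left z.right.right))
    ((hD.comp (i.left.node i.right.left)).and (hE.comp (i.left.node i.right.right)))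
    (G := fun n => (n + 2) ^ k + (n + 2) ^ m + 1)
    ((PolyB.add (PolyB.add ⟨k, fun _ => le_rfl⟩ ⟨m, fun _ => le_rfl⟩)) (PolyB.const 1)) ?_ ?_
  · rintro O x ⟨h, h'⟩
    obtain ⟨w, hw, hd⟩ := h1 O x h
    obtain ⟨v, hv, he⟩ := h3 O x h'
    exact ⟨T.node w v, by simp only [T.size]; omega, hd, he⟩
  · rintro O x w ⟨h, h'⟩
    exact ⟨h2 _ _ _ h, h4 _ _ _ h'⟩

theorem comp {R : Om → T → Prop} (hR : NPOn R) {g : T → T} (hg : PolyTime g) :
    NPOn (fun O x => R O (g x)) := by
  obtain ⟨D, k, hD, h1, h2⟩ := hR
  obtain ⟨m, hm⟩ := hg.size_bound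
  have i := PolyTime.id
  refine of (D := fun O z => D O (T.node (g z.left) z.right))
    (hD.comp ((hg.comp i.left).node i.right))
    (G := fun n => ((n + 2) ^ m + 2) ^ k)
    ((PolyB.add ⟨m, fun _ => le_rfl⟩ (PolyB.const 2)).pow k) ?_ (fun O x w h => h2 _ _ _ h)
  intro O x h
  obtain ⟨w, hw, hd⟩ := h1 _ _ h
  exact ⟨w, hw.trans (Nat.pow_le_pow_left (by have := hm x; omega) _), hd⟩

theorem const (p : Prop) : NPOn (fun _ _ => p) := dec (DecOn.of_dec (PolyDec.const p))

/-- Bounded existential quantification over numbers. -/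
theorem exN {R : Om → T → Prop} (hR : NPOn R) {f : T → ℕ} (hf : PolyN f) :
    NPOn (fun O x => ∃ a, a ≤ f x ∧ R O (T.node (bl a) x)) := by
  obtain ⟨D, k, hD, h1, h2⟩ := hR
  obtain ⟨m, hm⟩ := PolyTime.size_bound hf
  have i := PolyTime.id
  have hle : PolyDec (fun z : T => bn z.right.left ≤ f z.left) :=
    PolyDec.leN (canon_polyTime.comp i.right.left) (hf.comp i.left)
  refine of (D := fun O z => bn z.right.left ≤ f z.left ∧
      D O (T.node (T.node (bl (bn z.right.left)) z.left) z.right.right))
    ((DecOn.of_dec hle).and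
      (hD.comp (((canon_polyTime.comp i.right.left).node i.left).node i.right.right)))
    (G := fun n => 4 * (n + 2) ^ m + 2 + (4 * (n + 2) ^ m + 1 + n + 1 + 2) ^ k)
    (((((PolyB.const 4).mul ⟨m, fun _ => le_rfl⟩).add (PolyB.const 2))).add
      ((((((PolyB.const 4).mul ⟨m, fun _ => le_rfl⟩).add (PolyB.const 1)).add PolyB.id).add
        (PolyB.const 1)).add (PolyB.const 2) |>.pow k)) ?_ ?_
  · rintro O x ⟨a, ha, h⟩
    obtain ⟨w, hw, hd⟩ := h1 _ _ h
    have h3 := bl_size a
    have h4 : a.size ≤ (f x).size := Nat.size_le_size ha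
    have h5 := size_le_bl (f x)
    have h6 := hm x
    have h7 : (bl a).size ≤ 4 * (x.size + 2) ^ m + 1 := by omega
    refine ⟨T.node (bl a) w, ?_, ?_⟩
    · simp only [T.size] at hw ⊢
      have h8 : ((bl a).size + x.size + 1 + 2) ^ k ≤
          (4 * (x.size + 2) ^ m + 1 + x.size + 1 + 2) ^ k := Nat.pow_le_pow_left (by omega) _
      omega
    · simp only [H19.T.left_node, H19.T.right_node, bn_bl]
      exact ⟨ha, hd⟩
  · rintro O x w ⟨h, h'⟩
    exact ⟨_, h, h2 _ _ _ h'⟩

/-! ### Sharply bounded universal quantification -/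

/-- The entry with unary index `u` of the list on the right spine of `W`. -/
def nth (u W : T) : T := (T.right^[u.len] W).left

theorem right_iterate_size (i : ℕ) (y : T) : (T.right^[i] y).size ≤ y.size := by
  induction i with
  | zero => exact le_rfl
  | succ i ih =>
    rw [Function.iterate_succ_apply']
    exact (H19.T.size_right_le _).trans ih

theorem nth_polyTime : PolyTime₂ nth := by
  have i := PolyTime.id
  have h : PolyTime (fun z : T => T.right^[z.left.len] z.right) := by
    refine PolyTime.iterate (f := T.right) (n := fun z => z.left) (s := fun z => z.right)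
      PolyTime.right' i.left i.right ⟨1, fun z j _ => ?_⟩
    have h1 := right_iterate_size j z.right
    have h2 := H19.T.size_right_le z
    simp only [pow_one]
    omega
  exact h.left

theorem right_iterate_encL (i : ℕ) (l : List T) : T.right^[i] (encL l) = encL (l.drop i) := by
  induction i with
  | zero => rfl
  | succ i ih =>
    rw [Function.iterate_succ_apply', ih, ← List.tail_drop]
    cases l.drop i <;> rfl

theorem nth_encL {l : List T} {i : ℕ} (hi : i < l.length) : nth (T.unary i) (encL l) = l[i] := by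
  rw [nth, H19.T.len_unary, right_iterate_encL, List.drop_eq_getElem_cons hi]
  rfl

/-- The pairs of the indices up to the bound and the entries of the witness. -/
def prs (f : T → ℕ) (z : T) : List T :=
  (List.range (f z.left + 1)).map fun i =>
    T.node (T.node (T.unary i) z.left) (nth (T.unary i) z.right)

theorem prs_polyTime {f : T → ℕ} (hf : PolyNat f) : PolyTime (fun z => encL (prs f z)) := by
  have i := PolyTime.id
  have hg : PolyTime₂ (fun u z : T => T.node (T.node u z.left) (nth u z.right)) :=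
    (i.left.node i.right.left).node (nth_polyTime.comp i.left i.right.right)
  exact ITEMS.PolyTime.tab hg ((hf.comp i.left).add (PolyNat.const 1))

/-- Universal quantification over numbers bounded in unary. -/
theorem allU {R : Om → T → Prop} (hR : NPOn R) {f : T → ℕ} (hf : PolyNat f) :
    NPOn (fun O x => ∀ i, i ≤ f x → R O (T.node (T.unary i) x)) := by
  classical
  obtain ⟨D, k, hD, h1, h2⟩ := hR
  obtain ⟨m, hm⟩ := PolyTime.size_bound hf
  refine of (D := fun O z => ∀ a ∈ prs f z, D O a) (hD.all (prs_polyTime hf))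
    (G := fun n => ((n + 2) ^ m + 1) * ((2 * (n + 2) ^ m + 1 + n + 1 + 2) ^ k + 1) + 1)
    ((((PolyB.add ⟨m, fun _ => le_rfl⟩ (PolyB.const 1))).mul
      (((((((PolyB.const 2).mul ⟨m, fun _ => le_rfl⟩).add (PolyB.const 1)).add PolyB.id).add
        (PolyB.const 1)).add (PolyB.const 2)).pow k |>.add (PolyB.const 1))).add (PolyB.const 1))
    ?_ ?_
  · intro O x h
    have h3 : ∀ i : ℕ, ∃ w : T, i ≤ f x → w.size ≤ ((T.node (T.unary i) x).size + 2) ^ k ∧
        D O (T.node (T.node (T.unary i) x) w) := fun i => by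
      by_cases hi : i ≤ f x
      · obtain ⟨w, hw⟩ := h1 _ _ (h i hi)
        exact ⟨w, fun _ => hw⟩
      · exact ⟨T.leaf, fun h => absurd h hi⟩
    choose w hw using h3
    have hfx : f x ≤ (x.size + 2) ^ m := by
      have := hm x
      rw [H19.T.size_unary] at this
      omega
    refine ⟨encL ((List.range (f x + 1)).map w), ?_, ?_⟩
    · refine le_trans (encL_size_le (B := (2 * (x.size + 2) ^ m + 1 + x.size + 1 + 2) ^ k) ?_) ?_
      · intro a ha
        obtain ⟨j, hj, rfl⟩ := List.mem_map.1 ha
        rw [List.mem_range] at hj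
        refine (hw j (by omega)).1.trans (Nat.pow_le_pow_left ?_ _)
        simp only [T.size, H19.T.size_unary]; omega
      · rw [List.length_map, List.length_range]
        have := Nat.mul_le_mul_right ((2 * (x.size + 2) ^ m + 1 + x.size + 1 + 2) ^ k + 1)
          (show f x + 1 ≤ (x.size + 2) ^ m + 1 by omega)
        omega
    · intro a ha
      obtain ⟨j, hj, rfl⟩ := List.mem_map.1 ha
      simp only [H19.T.left_node, H19.T.right_node] at hj ⊢
      rw [List.mem_range] at hj
      rw [nth_encL (by simpa using hj)]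
      simp only [List.getElem_map, List.getElem_range]
      exact (hw j (by omega)).2
  · intro O x W h i hi
    refine h2 _ _ (nth (T.unary i) W) (h _ ?_)
    refine List.mem_map.2 ⟨i, ?_, rfl⟩
    simp only [H19.T.left_node, List.mem_range]
    omega

theorem sharp_elim {φ : Fm} (h : φ.sharp = true) :
    ∃ t ψ, φ = Fm.imp (Fm.le (Tm.var 0) (Tm.len t)) ψ ∧ t.occurs 0 = false := by
  cases φ with
  | imp ψ χ =>
    cases ψ with
    | le s t =>
      cases s with
      | var i =>
        cases i with
        | zero =>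
          cases t with
          | len t => exact ⟨t, χ, rfl, by simpa [Fm.sharp] using h⟩
          | _ => simp [Fm.sharp] at h
        | succ i => simp [Fm.sharp] at h
      | _ => simp [Fm.sharp] at h
    | _ => simp [Fm.sharp] at h
  | _ => simp [Fm.sharp] at h

end SN

theorem SATNP_thm : Stmt_SATNP := by
  intro φ
  induction φ with
  | bot => exact ⟨fun _ => SN.const False, fun _ => SN.const (¬ False)⟩
  | eq s t =>
    have h : PolyDec (fun E => s.val H19.stdN (envOf E) = t.val H19.stdN (envOf E)) :=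
      PolyDec.eqN (PolyN.valEnv s) (PolyN.valEnv t)
    exact ⟨fun _ => SN.dec (DecOn.of_dec h), fun _ => SN.dec (DecOn.of_dec h.not)⟩
  | le s t =>
    have h : PolyDec (fun E => s.val H19.stdN (envOf E) ≤ t.val H19.stdN (envOf E)) :=
      PolyDec.leN (PolyN.valEnv s) (PolyN.valEnv t)
    exact ⟨fun _ => SN.dec (DecOn.of_dec h), fun _ => SN.dec (DecOn.of_dec h.not)⟩
  | rel t =>
    have h : DecOn Set.univ (fun O E => O (t.val H19.stdN (envOf E)) = true) :=
      DecOn.bit (PolyN.valEnv t)
    exact ⟨fun _ => SN.dec h, fun _ => SN.dec h.not⟩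
  | imp φ ψ ih1 ih2 =>
    constructor
    · intro h
      simp only [Fm.isSigma, Bool.and_eq_true] at h
      refine SN.congr (SN.or (ih1.2 h.1) (ih2.1 h.2)) fun O E => ?_
      simp only [Fm.sat]; tauto
    · intro h
      simp only [Fm.isPi, Bool.and_eq_true] at h
      refine SN.congr (SN.and (ih1.1 h.1) (ih2.2 h.2)) fun O E => ?_
      simp only [Fm.sat]; tauto
  | all φ ih =>
    have i := PolyTime.id
    constructor
    · intro h
      simp only [Fm.isSigma, Bool.and_eq_true] at h
      obtain ⟨h1, h2⟩ := h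
      have ih' := ih.1 h2
      obtain ⟨t, ψ, rfl, ht⟩ := SN.sharp_elim h1
      -- the bound, in unary
      have hb : PolyNat (fun E => (t.val H19.stdN (scons 0 (envOf E))).size) := by
        refine PolyN.size ?_
        refine ((PolyN.valEnv t).comp (g := fun E => T.node T.leaf E)
          (PolyTime.leaf.node i)).congr fun E => ?_
        beta_reduce
        rw [envOf_node]; rfl
      have hq : NPOn (fun O z => (Fm.imp (Fm.le (Tm.var 0) (Tm.len t)) ψ).sat (stdN O)
          (envOf (T.node (bl z.left.len) z.right))) :=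
        SN.comp ih' (g := fun z => T.node (bl z.left.len) z.right)
          ((PolyNat.len i.left).toN.node i.right)
      refine SN.congr (SN.allU hq hb) fun O E => ?_
      simp only [H19.T.left_node, H19.T.right_node, H19.T.len_unary, envOf_node, bn_bl]
      simp only [Fm.sat]
      constructor
      · intro h a ha
        have h3 : a ≤ (t.val H19.stdN (scons 0 (envOf E))).size := by
          have : (Tm.len t).val H19.stdN (scons a (envOf E)) =
              (t.val H19.stdN (scons 0 (envOf E))).size := by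
            rw [← H19.Tm.val_guard ht a]; rfl
          rw [← this]; exact ha
        exact h a h3 ha
      · intro h a _
        exact h a
    · intro h
      simp only [Fm.isPi, Bool.and_eq_true] at h
      obtain ⟨h1, h2⟩ := h
      have ih' := ih.2 h2
      obtain ⟨t, ψ, rfl, ht⟩ := Fm.guarded_elim h1
      have hb : PolyN (fun E => t.val H19.stdN (scons 0 (envOf E))) := by
        refine ((PolyN.valEnv t).comp (g := fun E => T.node T.leaf E)
          (PolyTime.leaf.node i)).congr fun E => ?_
        beta_reduce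
        rw [envOf_node]; rfl
      refine SN.congr (SN.exN ih' hb) fun O E => ?_
      simp only [envOf_node, bn_bl]
      simp only [Fm.sat]
      constructor
      · rintro ⟨a, _, h⟩ h'
        exact h (h' a)
      · intro h
        push Not at h
        obtain ⟨a, ha, ha'⟩ := h
        refine ⟨a, ?_, fun h => ha' (h ha)⟩
        have : t.val H19.stdN (scons a (envOf E)) = t.val H19.stdN (scons 0 (envOf E)) :=
          H19.Tm.val_guard ht a _
        rw [← this]; exact ha

theorem SATW_thm : Stmt_SATW := by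
  intro φ hφ
  obtain ⟨D, k, hD, h1, h2⟩ := (SATNP_thm φ).1 hφ
  have i := PolyTime.id
  have hs : PolyDec (fun z : T => z.right.size ≤ (z.left.size + 2) ^ k) :=
    PolyDec.leN (PolyNat.size i.right).toN
      (((PolyNat.size i.left).add (PolyNat.const 2)).pow k).toN
  refine ⟨fun O E w => w.size ≤ (E.size + 2) ^ k ∧ D O (T.node E w), k,
    (DecOn.of_dec hs).and (hD.comp (i.left.node i.right)), fun O E w h => h.1, fun O E => ?_⟩
  constructor
  · intro h
    exact h1 O E h
  · rintro ⟨w, _, h⟩
    exact h2 O E w h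

end Pool.Agent.RH
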