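import Pool.Agent.RH.Cst

/-!
# The union of two presentations
-/

namespace Pool.Agent.RH

open Pool.Agent.H19 (T PolyTime PolyDec PolyNat)
open Pool.Agent.RO

namespace UNI

theorem clock_bound (n k0 k1 s t : ℕ) (hn : 3 ≤ n) (hs : s ≤ n ^ k0) (ht : t ≤ n ^ k1) :
    s + t + 1 ≤ n ^ (k0 + k1 + 2) ∧ s + s + 1 ≤ n ^ (k0 + k1 + 2) := by
  have h0 : n ^ k0 ≤ n ^ (k0 + k1) := Nat.pow_le_pow_right (by omega) (by omega)
  have h1 : n ^ k1 ≤ n ^ (k0 + k1) := Nat.pow_le_pow_right (by omega) (by omega)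
  have h2 : 1 ≤ n ^ (k0 + k1) := Nat.one_le_pow _ _ (by omega)
  have h3 : n ^ (k0 + k1 + 2) = n ^ (k0 + k1) * (n * n) := by ring
  have h4 : n ^ (k0 + k1) * 9 ≤ n ^ (k0 + k1) * (n * n) :=
    Nat.mul_le_mul_left _ (by nlinarith)
  rw [h3]
  constructor <;> omega

end UNI

theorem UNI_thm : Stmt_UNI := by
  intro c0 k0
  have i := PolyTime.id
  refine ⟨fun c1 _ => OCode.ite c0 c1 c0, fun _ k1 => k0 + k1 + 2,
    fun z => T.node (T.node (T.unary 6) (T.node c0.enc (T.node z.left c0.enc)))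
      (T.unary (k0 + z.right.len + 2)), ?_, ?_, ?_⟩
  · refine PolyTime.node ?_ ?_
    · exact (PolyTime.const _).node ((PolyTime.const _).node (i.left.node (PolyTime.const _)))
    · exact (((PolyNat.const k0).add (PolyNat.len i.right)).add (PolyNat.const 2)).unary
  · intro c1 k1
    simp only [T.left, T.right, T.len_unary, OCode.enc]
  · intro c1 k1 O hO0 hO1
    have key : ∀ x : T, ∃ (y y0 y1 : T) (t t0 t1 : ℕ),
        EvalO O (OCode.ite c0 c1 c0) x y t ∧ t ≤ (x.size + 2) ^ (k0 + k1 + 2) ∧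
        EvalO O c0 x y0 t0 ∧ t0 ≤ (x.size + 2) ^ k0 ∧
        EvalO O c1 x y1 t1 ∧ t1 ≤ (x.size + 2) ^ k1 ∧
        (y ≠ T.leaf ↔ y0 ≠ T.leaf ∨ y1 ≠ T.leaf) := by
      intro x
      obtain ⟨y0, t0, h0, hb0⟩ := hO0 x
      obtain ⟨y1, t1, h1, hb1⟩ := hO1 x
      have hx := H19.T.size_pos x
      have hb := UNI.clock_bound (x.size + 2) k0 k1 t0 t1 (by omega) hb0 hb1
      rcases hv : y0 with _ | ⟨l, r⟩
      · rw [hv] at h0
        refine ⟨y1, T.leaf, y1, _, t0, t1, EvalO.ite_leaf h0 h1, hb.1, h0, hb0, h1, hb1, ?_⟩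
        simp
      · rw [hv] at h0
        refine ⟨T.node l r, T.node l r, y1, _, t0, t1, EvalO.ite_node h0 h0, hb.2, h0, hb0, h1,
          hb1, ?_⟩
        simp
    refine ⟨fun x => ?_, fun x => ?_⟩
    · obtain ⟨y, y0, y1, t, t0, t1, h1, h2, -⟩ := key x
      exact ⟨y, t, h1, h2⟩
    · obtain ⟨y, y0, y1, t, t0, t1, h1, h2, h3, h4, h5, h6, h7⟩ := key x
      rw [accepts_iff h1 h2, accepts_iff h3 h4, accepts_iff h5 h6]
      exact h7

end Pool.Agent.RH
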