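import Pool.Agent.RH.PDefs

/-!
# RH_WINDOW: integrating the window lemma over the outside bits
-/

open MeasureTheory

namespace Pool.Agent.RH

open Pool.Agent.RO (Om coin IndepOf st)

/-- The positions `γ` are pairwise distinct. -/
def WInj {N Y M : ℕ} (γ : Fin N → Fin Y → Fin M → ℕ) : Prop :=
  ∀ x y i x' y' i', γ x y i = γ x' y' i' → x = x' ∧ y = y' ∧ i = i'

theorem wfill_at {N Y M : ℕ} {γ : Fin N → Fin Y → Fin M → ℕ} (hγ : WInj γ)
    (ω : Fin N → Fin Y → Fin M → Bool) (R : Om) (x : Fin N) (y : Fin Y) (i : Fin M) :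
    fill γ ω R (γ x y i) = ω x y i := by
  have h : ∃ p : Fin N × Fin Y × Fin M, γ p.1 p.2.1 p.2.2 = γ x y i := ⟨(x, y, i), rfl⟩
  unfold fill
  rw [dif_pos h]
  obtain ⟨h1, h2, h3⟩ := hγ _ _ _ _ _ _ h.choose_spec
  rw [h1, h2, h3]

theorem wfill_out {N Y M : ℕ} {γ : Fin N → Fin Y → Fin M → ℕ}
    (ω : Fin N → Fin Y → Fin M → Bool) (R : Om) (n : ℕ) (hn : ∀ x y i, γ x y i ≠ n) :
    fill γ ω R n = R n := by
  unfold fill
  rw [dif_neg]
  rintro ⟨p, hp⟩
  exact hn _ _ _ hp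

theorem wfill_meas {N Y M : ℕ} (γ : Fin N → Fin Y → Fin M → ℕ)
    (ω : Fin N → Fin Y → Fin M → Bool) : Measurable (fill γ ω) := by
  apply measurable_pi_lambda
  intro n
  by_cases h : ∃ p : Fin N × Fin Y × Fin M, γ p.1 p.2.1 p.2.2 = n
  · have : (fun R : Om => fill γ ω R n) =
        fun _ => ω h.choose.1 h.choose.2.1 h.choose.2.2 := by
      funext R
      unfold fill
      rw [dif_pos h]
    rw [this]
    exact measurable_const
  · have : (fun R : Om => fill γ ω R n) = fun R => R n := by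
      funext R
      unfold fill
      rw [dif_neg h]
    rw [this]
    exact measurable_pi_apply n

open Classical in
theorem wloc {N Y M : ℕ} {γ : Fin N → Fin Y → Fin M → ℕ} (hγ : WInj γ) (E : Set Om) (R : Om)
    (k : ℕ) (ω : Cfg N Y (Fin M → Bool)) (Q : Finset ℕ) (hQc : Q.card ≤ k)
    (hQ : ∀ R' : Om, (∀ n ∈ Q, R' n = fill γ ω R n) → R' ∈ E) :
    LocF k {ω' : Cfg N Y (Fin M → Bool) | fill γ ω' R ∈ E} ω := by
  let Q' : Finset (Fin N × Fin Y) := Finset.univ.filter fun p => ∃ i, γ p.1 p.2 i ∈ Q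
  have hc : Q'.card ≤ Q.card := by
    have hmem : ∀ p ∈ Q', ∃ i, γ p.1 p.2 i ∈ Q := fun p hp => (Finset.mem_filter.1 hp).2
    let f : Fin N × Fin Y → ℕ := fun p =>
      if h : ∃ i, γ p.1 p.2 i ∈ Q then γ p.1 p.2 h.choose else 0
    apply Finset.card_le_card_of_injOn f
    · intro p hp
      have h := hmem p hp
      show f p ∈ Q
      simp only [f]
      rw [dif_pos h]
      exact h.choose_spec
    · intro p hp p' hp' hff
      have h := hmem p hp
      have h' := hmem p' hp'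
      simp only [f] at hff
      rw [dif_pos h, dif_pos h'] at hff
      obtain ⟨e1, e2, _⟩ := hγ _ _ _ _ _ _ hff
      exact Prod.ext e1 e2
  refine ⟨Q', hc.trans hQc, ?_⟩
  intro ω' hω'
  apply hQ
  intro n hn
  by_cases h : ∃ x y i, γ x y i = n
  · obtain ⟨x, y, i, rfl⟩ := h
    rw [wfill_at hγ, wfill_at hγ]
    have := hω' (x, y) (Finset.mem_filter.2 ⟨Finset.mem_univ _, i, hn⟩)
    simp only at this
    rw [this]
  · have h' : ∀ x y i, γ x y i ≠ n := by
      intro x y i e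
      exact h ⟨x, y, i, e⟩
    rw [wfill_out _ _ _ h', wfill_out _ _ _ h']

/-- The number of contents for which the filled oracle is in `E`. -/
noncomputable def wcnt {N Y M : ℕ} (γ : Fin N → Fin Y → Fin M → ℕ) (E : Set Om) (R : Om) : ℕ :=
  Nat.card {ω : Cfg N Y (Fin M → Bool) // fill γ ω R ∈ E}

open Classical in
theorem wcnt_eq {N Y M : ℕ} (γ : Fin N → Fin Y → Fin M → ℕ) (E : Set Om) (R : Om) :
    ((wcnt γ E R : ℕ) : ENNReal) =
      ∑ ω : Cfg N Y (Fin M → Bool), ({R | fill γ ω R ∈ E} : Set Om).indicator 1 R := by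
  unfold wcnt
  rw [Nat.card_eq_fintype_card, Fintype.card_subtype, Finset.card_filter]
  push_cast
  apply Finset.sum_congr rfl
  intro ω _
  simp only [Set.indicator_apply, Set.mem_ofPred_eq, Pi.one_apply]

theorem wint (h2 : Stmt_FIBER) {N Y M : ℕ} {γ : Fin N → Fin Y → Fin M → ℕ} (hγ : WInj γ)
    (E : Set Om) (hE : MeasurableSet E) :
    ∫⁻ R, ((wcnt γ E R : ℕ) : ENNReal) ∂coin = (2 : ENNReal) ^ (N * Y * M) * coin E := by
  rw [← h2 N Y M γ hγ E hE]
  have hm : ∀ ω : Fin N → Fin Y → Fin M → Bool,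
      MeasurableSet ({R | fill γ ω R ∈ E} : Set Om) := fun ω => wfill_meas γ ω hE
  simp_rw [wcnt_eq]
  rw [lintegral_finsetSum]
  · apply Finset.sum_congr rfl
    intro ω _
    rw [lintegral_indicator_one (hm ω)]
  · intro ω _
    exact (measurable_const (a := (1 : ENNReal))).indicator (hm ω)

/-- The size of the error term. -/
theorem wnum (M p r : ℕ) (hM : 100 ≤ M) (hp : M ≤ p) (hr : 4 * r ≤ M) :
    6 + 2 ^ (M / 4) + M ≤ 2 ^ (p - r) / (32 * 2 ^ (M / 4)) := by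
  obtain ⟨k, hk⟩ : ∃ k, k = M / 4 := ⟨_, rfl⟩
  rw [← hk]
  have hk1 : 4 * k ≤ M := by omega
  have hk2 : M ≤ 4 * k + 3 := by omega
  have hk3 : 25 ≤ k := by omega
  have e : 32 * 2 ^ k = 2 ^ (5 + k) := by rw [pow_add]; norm_num
  rw [e, Nat.pow_div (by omega) (by norm_num)]
  have h1 : 2 ^ (2 * k - 5) ≤ 2 ^ (p - r - (5 + k)) := Nat.pow_le_pow_right (by norm_num) (by omega)
  refine le_trans ?_ h1
  have h2 : 2 ^ (2 * k - 5) = 2 ^ (k - 5) * 2 ^ k := by
    rw [← pow_add]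
    congr 1
    omega
  have h3 : 2 ^ 20 ≤ 2 ^ (k - 5) := Nat.pow_le_pow_right (by norm_num) (by omega)
  have h4 : k < 2 ^ k := Nat.lt_two_pow_self
  rw [h2]
  have h5 : 2 ^ 20 * 2 ^ k ≤ 2 ^ (k - 5) * 2 ^ k := Nat.mul_le_mul_right _ h3
  have h6 : 6 + 2 ^ k + M ≤ 2 ^ 20 * 2 ^ k := by
    have : (2 : ℕ) ^ 20 = 1048576 := by norm_num
    rw [this]
    omega
  exact h6.trans h5

/-- The pointwise inequality. -/
theorem wpoint (h1 : Stmt_FIN) {m r : ℕ → ℕ} {β : ℕ → ℕ → ℕ → ℕ → ℕ} (A : ℕ → Set Om)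
    (a d : ℕ) (G : Set Om) (hind : IndepOf (Win m β d) G) (hL : Loc2 m β A)
    (hM : 100 ≤ m d) (hr : 4 * r a ≤ m d) (hp1 : m d ≤ pex (m d))
    (hq : (2 : ℝ) ^ pex (m d) * (1 - 1 / 2 ^ m d) ^ yy (m d) ≤ 1)
    (γ : Fin (2 ^ (pex (m d) - r a)) → Fin (yy (m d)) → Fin (m d) → ℕ) (hγ : WInj γ)
    (hγd : ∀ x y i, γ x y i = β d x y i) (R : Om) :
    ((2 : ℝ) ^ (pex (m d) - r a) * (1 - 1 / 2 ^ m d) ^ yy (m d)) * (wcnt γ (A d ∩ G) R : ℝ) ≤
      3 * (wcnt γ (A d ∩ Fa m r β a d ∩ G) R : ℝ) +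
      ((2 : ℝ) ^ (pex (m d) - r a) * (1 - 1 / 2 ^ m d) ^ yy (m d)) *
        ((1 / 32) * (1 / 2) ^ m d * (wcnt γ G R : ℝ)) := by
  classical
  obtain ⟨n, P, Q, hn, hA, hP, hQ⟩ := hL d
  have hq0 : (0 : ℝ) ≤ (1 - 1 / 2 ^ m d) ^ yy (m d) := by
    apply pow_nonneg
    have : (1 : ℝ) / 2 ^ m d ≤ 1 := by
      rw [div_le_one (by positivity)]
      exact one_le_pow₀ (by norm_num)
    linarith
  have hc0 : (0 : ℝ) ≤ (2 : ℝ) ^ (pex (m d) - r a) * (1 - 1 / 2 ^ m d) ^ yy (m d) :=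
    mul_nonneg (by positivity) hq0
  have hfG : ∀ ω, (fill γ ω R ∈ G ↔ R ∈ G) := by
    intro ω
    apply hind
    intro k hk
    apply wfill_out
    rintro x y i e
    apply hk
    rw [hγd] at e
    refine ⟨x, ?_, y, y.2, i, i.2, e.symm⟩
    exact lt_of_lt_of_le x.2 (Nat.pow_le_pow_right (by norm_num) (Nat.sub_le _ _))
  by_cases hRG : R ∈ G
  · have hcard : (Fintype.card (Fin (m d) → Bool) : ℝ) = 2 ^ m d := by simp
    have hcardN : Fintype.card (Fin (m d) → Bool) = 2 ^ m d := by simp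
    have key := h1 (2 ^ (pex (m d) - r a)) (yy (m d)) (Fin (m d) → Bool) (fun _ => true)
      (2 ^ (m d / 4)) n Nat.one_le_two_pow
      (by
        rw [hcardN]
        have e : 8 * 2 ^ (m d / 4) = 2 ^ (3 + m d / 4) := by rw [pow_add]; norm_num
        rw [e]
        exact Nat.pow_le_pow_right (by norm_num) (by omega))
      (by
        have e : 4 * 2 ^ (m d / 4) = 2 ^ (2 + m d / 4) := by rw [pow_add]; norm_num
        rw [e]
        exact Nat.pow_le_pow_right (by norm_num) (by omega))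
      (by
        rw [hcard]
        push_cast
        refine le_trans ?_ hq
        apply mul_le_mul_of_nonneg_right _ hq0
        exact pow_le_pow_right₀ (by norm_num) (Nat.sub_le _ _))
      (fun i => {ω | fill γ ω R ∈ P i}) (fun i => {ω | fill γ ω R ∈ Q i})
      (by
        intro i hi ω hω
        obtain ⟨S, hS1, _, hS3⟩ := hP i hi _ hω
        exact wloc hγ _ R _ ω S hS1 hS3)
      (by
        intro i hi ω hω
        obtain ⟨S, hS1, _, hS3⟩ := hQ i hi _ hω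
        exact wloc hγ _ R _ ω S hS1 hS3)
    rw [hcard] at key
    push_cast at key
    have e1 : Nat.card {h : Cfg (2 ^ (pex (m d) - r a)) (yy (m d)) (Fin (m d) → Bool) //
        ∃ i < n, h ∈ {ω | fill γ ω R ∈ P i} ∧ h ∈ {ω | fill γ ω R ∈ Q i}} =
        wcnt γ (A d ∩ G) R := by
      unfold wcnt
      apply Nat.card_congr
      apply Equiv.subtypeEquivRight
      intro ω
      rw [hA]
      constructor
      · rintro ⟨i, hi, h⟩
        exact ⟨⟨i, hi, h⟩, (hfG ω).2 hRG⟩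
      · rintro ⟨⟨i, hi, h⟩, _⟩
        exact ⟨i, hi, h⟩
    have e2 : Nat.card {h : Cfg (2 ^ (pex (m d) - r a)) (yy (m d)) (Fin (m d) → Bool) //
        (∃ i < n, h ∈ {ω | fill γ ω R ∈ P i} ∧ h ∈ {ω | fill γ ω R ∈ Q i}) ∧
          ∃ x, h ∈ dead (fun _ => true) x} =
        wcnt γ (A d ∩ Fa m r β a d ∩ G) R := by
      unfold wcnt
      apply Nat.card_congr
      apply Equiv.subtypeEquivRight
      intro ω
      have hdead : (∃ x, ω ∈ dead (fun _ => true) x) ↔ fill γ ω R ∈ Fa m r β a d := by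
        constructor
        · rintro ⟨x, hx⟩
          refine ⟨x, x.2, ?_⟩
          intro y hy
          have h := hx ⟨y, hy⟩
          obtain ⟨i, hi⟩ := Function.ne_iff.1 h
          refine ⟨i, i.2, ?_⟩
          have e := wfill_at hγ ω R x ⟨y, hy⟩ i
          rw [hγd] at e
          rw [e]
          simpa using hi
        · rintro ⟨x, hx, hD⟩
          refine ⟨⟨x, hx⟩, ?_⟩
          intro y
          obtain ⟨i, hi, h⟩ := hD y y.2
          apply Function.ne_iff.2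
          refine ⟨⟨i, hi⟩, ?_⟩
          have e := wfill_at hγ ω R ⟨x, hx⟩ y ⟨i, hi⟩
          rw [hγd] at e
          rw [← e, h]
          simp
      rw [hdead, hA]
      constructor
      · rintro ⟨⟨i, hi, h⟩, h'⟩
        exact ⟨⟨⟨i, hi, h⟩, h'⟩, (hfG ω).2 hRG⟩
      · rintro ⟨⟨⟨i, hi, h⟩, h'⟩, _⟩
        exact ⟨⟨i, hi, h⟩, h'⟩
    have e3 : Nat.card (Cfg (2 ^ (pex (m d) - r a)) (yy (m d)) (Fin (m d) → Bool)) =
        wcnt γ G R := by
      unfold wcnt
      symm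
      apply Nat.card_congr
      exact Equiv.subtypeUnivEquiv fun ω => (hfG ω).2 hRG
    rw [e1, e2, e3] at key
    refine key.trans ?_
    have hw0 : (0 : ℝ) ≤ (wcnt γ G R : ℝ) := Nat.cast_nonneg _
    have hbound : (2 : ℝ) * n * (1 / 2) ^ (2 ^ (pex (m d) - r a) / (32 * 2 ^ (m d / 4))) ≤
        (1 / 32) * (1 / 2) ^ m d := by
      have hnum := wnum (m d) (pex (m d)) (r a) hM hp1 hr
      have hle : ((1 : ℝ) / 2) ^ (2 ^ (pex (m d) - r a) / (32 * 2 ^ (m d / 4))) ≤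
          (1 / 2) ^ (6 + 2 ^ (m d / 4) + m d) :=
        pow_le_pow_of_le_one (by norm_num) (by norm_num) hnum
      have hn' : (n : ℝ) ≤ 2 ^ 2 ^ (m d / 4) := by exact_mod_cast hn
      have hx : (2 : ℝ) ^ 2 ^ (m d / 4) * (1 / 2) ^ 2 ^ (m d / 4) = 1 := by
        rw [← mul_pow]
        norm_num
      calc (2 : ℝ) * n * (1 / 2) ^ (2 ^ (pex (m d) - r a) / (32 * 2 ^ (m d / 4)))
          ≤ 2 * 2 ^ 2 ^ (m d / 4) * (1 / 2) ^ (6 + 2 ^ (m d / 4) + m d) := by
            apply mul_le_mul _ hle (by positivity) (by positivity)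
            linarith
        _ = (2 * (1 / 2) ^ 6) * ((2 : ℝ) ^ 2 ^ (m d / 4) * (1 / 2) ^ 2 ^ (m d / 4)) *
              (1 / 2) ^ m d := by
            rw [pow_add, pow_add]
            ring
        _ = (1 / 32) * (1 / 2) ^ m d := by
            rw [hx]
            norm_num
    have := mul_le_mul_of_nonneg_right hbound hw0
    have := mul_le_mul_of_nonneg_left this hc0
    linarith
  · have e1 : wcnt γ (A d ∩ G) R = 0 := by
      unfold wcnt
      have : IsEmpty {ω : Cfg (2 ^ (pex (m d) - r a)) (yy (m d)) (Fin (m d) → Bool) //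
        fill γ ω R ∈ A d ∩ G} := ⟨fun p => hRG ((hfG _).1 p.2.2)⟩
      exact Nat.card_of_isEmpty
    rw [e1]
    push_cast
    rw [mul_zero]
    positivity

/-- The target count at level `a`, in terms of the full target count. -/
theorem wscale (q : ℝ) (p r : ℕ) (hr : r ≤ p) :
    (2 : ℝ) ^ (p - r) * q = (1 / 2) ^ r * (2 ^ p * q) := by
  have h : (2 : ℝ) ^ p = 2 ^ (p - r) * 2 ^ r := by
    rw [← pow_add]
    congr 1
    omega
  have h2 : ((1 : ℝ) / 2) ^ r * 2 ^ r = 1 := by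
    rw [← mul_pow]
    norm_num
  rw [h]
  calc (2 : ℝ) ^ (p - r) * q = (2 : ℝ) ^ (p - r) * q * 1 := by ring
    _ = (2 : ℝ) ^ (p - r) * q * ((1 / 2) ^ r * 2 ^ r) := by rw [h2]
    _ = _ := by ring

theorem WINDOW_thm (h1 : Stmt_FIN) (h2 : Stmt_FIBER) (h3 : Stmt_NUM) (h4 : Stmt_MEAS) :
    Stmt_WINDOW := by
  intro m r β A hW hL a d had G hG hind
  obtain ⟨hAm, _, _, _, hFm, _⟩ := h4 m r β A hW hL
  have hM : 100 ≤ m d := hW.big d
  have hr : 4 * r a ≤ m d := by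
    have h5 : r a ≤ r d := hW.rmono.monotone had
    have h6 := hW.rle d
    omega
  obtain ⟨hp1, _, hq, hq'⟩ := h3 (m d) hM
  let γ : Fin (2 ^ (pex (m d) - r a)) → Fin (yy (m d)) → Fin (m d) → ℕ :=
    fun x y i => β d x y i
  have hlt : ∀ x : Fin (2 ^ (pex (m d) - r a)), (x : ℕ) < 2 ^ pex (m d) := fun x =>
    lt_of_lt_of_le x.2 (Nat.pow_le_pow_right (by norm_num) (Nat.sub_le _ _))
  have hγ : WInj γ := by
    intro x y i x' y' i' e
    obtain ⟨_, e1, e2, e3⟩ := hW.inj d x y i d x' y' i' (hlt x) y.2 i.2 (hlt x') y'.2 i'.2 e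
    exact ⟨Fin.ext e1, Fin.ext e2, Fin.ext e3⟩
  have hpt := wpoint h1 A a d G hind hL hM hr hp1 hq γ hγ (fun _ _ _ => rfl)
  have hq0 : (0 : ℝ) ≤ (1 - 1 / 2 ^ m d) ^ yy (m d) := by
    apply pow_nonneg
    have : (1 : ℝ) / 2 ^ m d ≤ 1 := by
      rw [div_le_one (by positivity)]
      exact one_le_pow₀ (by norm_num)
    linarith
  rw [wscale _ _ _ (by omega : r a ≤ pex (m d))] at hpt
  -- the pointwise inequality after multiplication by 32
  have hpt2 : ∀ R : Om, ((1 : ℝ) / 2) ^ r a * (wcnt γ (A d ∩ G) R : ℝ) ≤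
      100 * (wcnt γ (A d ∩ Fa m r β a d ∩ G) R : ℝ) +
        (1 / 2) ^ r a * ((1 / 2) ^ m d * (wcnt γ G R : ℝ)) := by
    intro R
    have h := hpt R
    set c : ℝ := (2 : ℝ) ^ pex (m d) * (1 - 1 / 2 ^ m d) ^ yy (m d) with hc
    set X : ℝ := (wcnt γ (A d ∩ G) R : ℝ) with hX
    set Z : ℝ := (wcnt γ (A d ∩ Fa m r β a d ∩ G) R : ℝ) with hZ
    set W : ℝ := (wcnt γ G R : ℝ) with hWd
    set t : ℝ := ((1 : ℝ) / 2) ^ r a with ht
    set u : ℝ := ((1 : ℝ) / 2) ^ m d with hu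
    have hX0 : 0 ≤ X := Nat.cast_nonneg _
    have hZ0 : 0 ≤ Z := Nat.cast_nonneg _
    have hW0 : 0 ≤ W := Nat.cast_nonneg _
    have ht0 : 0 ≤ t := by positivity
    have hu0 : 0 ≤ u := by positivity
    have i1 : t * X * 1 ≤ t * X * (32 * c) := mul_le_mul_of_nonneg_left hq' (by positivity)
    have i2 : t * (u * W) * c ≤ t * (u * W) * 1 :=
      mul_le_mul_of_nonneg_left hq (by positivity)
    nlinarith
  have hpt3 : ∀ R : Om, (2⁻¹ : ENNReal) ^ r a * ((wcnt γ (A d ∩ G) R : ℕ) : ENNReal) ≤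
      100 * ((wcnt γ (A d ∩ Fa m r β a d ∩ G) R : ℕ) : ENNReal) +
        (2⁻¹ : ENNReal) ^ r a * ((2⁻¹ : ENNReal) ^ m d * ((wcnt γ G R : ℕ) : ENNReal)) := by
    intro R
    have h := ENNReal.ofReal_le_ofReal (hpt2 R)
    have hh : ENNReal.ofReal (1 / 2 : ℝ) = (2⁻¹ : ENNReal) := by
      rw [one_div, ENNReal.ofReal_inv_of_pos (by norm_num)]
      norm_num
    rw [ENNReal.ofReal_add (by positivity) (by positivity),
      ENNReal.ofReal_mul (by positivity), ENNReal.ofReal_mul (by norm_num),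
      ENNReal.ofReal_mul (by positivity), ENNReal.ofReal_mul (by positivity),
      ENNReal.ofReal_pow (by norm_num), ENNReal.ofReal_pow (by norm_num), hh,
      ENNReal.ofReal_natCast, ENNReal.ofReal_natCast, ENNReal.ofReal_natCast] at h
    simpa using h
  have hmeas : ∀ E : Set Om, MeasurableSet E →
      Measurable fun R => ((wcnt γ E R : ℕ) : ENNReal) := by
    intro E hE
    simp_rw [wcnt_eq]
    apply Finset.measurable_fun_sum
    intro ω _
    exact (measurable_const (a := (1 : ENNReal))).indicator (wfill_meas γ ω hE)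
  have hI := lintegral_mono (μ := coin) hpt3
  have mAG : MeasurableSet (A d ∩ G) := (hAm d).inter hG
  have mAFG : MeasurableSet (A d ∩ Fa m r β a d ∩ G) := ((hAm d).inter (hFm a d)).inter hG
  rw [lintegral_const_mul _ (hmeas _ mAG), lintegral_add_left ((hmeas _ mAFG).const_mul _),
    lintegral_const_mul _ (hmeas _ mAFG),
    lintegral_const_mul _ ((hmeas _ hG).const_mul _),
    lintegral_const_mul _ (hmeas _ hG), wint h2 hγ _ mAG, wint h2 hγ _ mAFG,
    wint h2 hγ _ hG] at hI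
  set T : ENNReal := (2 : ENNReal) ^ (2 ^ (pex (m d) - r a) * yy (m d) * m d) with hT
  have hT0 : T ≠ 0 := by
    rw [hT]
    exact pow_ne_zero _ (by norm_num)
  have hTt : T ≠ ⊤ := by
    rw [hT]
    exact ENNReal.pow_ne_top (by norm_num)
  have hI2 : T * ((2⁻¹ : ENNReal) ^ r a * coin (A d ∩ G)) ≤
      T * (100 * coin (A d ∩ Fa m r β a d ∩ G) +
        (2⁻¹ : ENNReal) ^ r a * ((2⁻¹ : ENNReal) ^ m d * coin G)) := by
    calc T * ((2⁻¹ : ENNReal) ^ r a * coin (A d ∩ G))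
        = (2⁻¹ : ENNReal) ^ r a * (T * coin (A d ∩ G)) := by ring
      _ ≤ _ := hI
      _ = _ := by ring
  exact (ENNReal.mul_le_mul_iff_right hT0 hTt).1 hI2

end Pool.Agent.RH
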