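import Pool.Agent.RH.Cst

/-!
# The windows form a system of windows (WINSYS)
-/

set_option autoImplicit false

namespace Pool.Agent.RH.WINSYS

open Pool.Agent.RO

theorem tow_strictMono : StrictMono tow :=
  strictMono_nat_of_lt_succ fun _ => Nat.lt_two_pow_self

theorem lgN_pow (n : ℕ) : lgN (2 ^ n) = n := by
  rw [lgN, Nat.size_pow, Nat.add_sub_cancel]

theorem digit {A x l x' l' : ℕ} (hl : l < A) (hl' : l' < A) (h : x * A + l = x' * A + l') :
    x = x' ∧ l = l' := by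
  have hA : 0 < A := by omega
  have e1 : (x * A + l) / A = x := by
    rw [mul_comm, Nat.mul_add_div hA, Nat.div_eq_of_lt hl, add_zero]
  have e2 : (x' * A + l') / A = x' := by
    rw [mul_comm, Nat.mul_add_div hA, Nat.div_eq_of_lt hl', add_zero]
  have h1 : x = x' := by rw [← e1, ← e2, h]
  subst h1
  exact ⟨rfl, by omega⟩

theorem low_lt {M y i : ℕ} (hy : y < yy M) (hi : i < M) : y * 2 ^ M + i < 2 ^ (4 * M) := by
  have h1 : M < 2 ^ M := Nat.lt_two_pow_self
  have h2 : y * 2 ^ M + i < (y + 1) * 2 ^ M := by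
    rw [add_mul, one_mul]
    omega
  have h3 : (y + 1) * 2 ^ M ≤ 2 ^ M * 2 ^ M * 2 ^ M := by
    apply Nat.mul_le_mul_right
    have h4 : y + 1 ≤ M * 2 ^ M := hy
    exact h4.trans (Nat.mul_le_mul_right _ h1.le)
  have h5 : 2 ^ M * 2 ^ M * 2 ^ M = 2 ^ (3 * M) := by
    rw [← pow_add, ← pow_add]
    congr 1
    ring
  have h6 : 2 ^ (3 * M) ≤ 2 ^ (4 * M) := Nat.pow_le_pow_right (by norm_num) (by omega)
  omega

theorem posH_lt {M x y i : ℕ} (hx : x < 2 ^ (2 * M)) (hy : y < yy M) (hi : i < M) :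
    posH M x y i < 2 ^ (6 * M + 1) := by
  have h1 := low_lt hy hi
  have h2 : x * 2 ^ (4 * M) + (y * 2 ^ M + i) < (x + 1) * 2 ^ (4 * M) := by
    rw [add_mul, one_mul]
    omega
  have h3 : (x + 1) * 2 ^ (4 * M) ≤ 2 ^ (2 * M) * 2 ^ (4 * M) := Nat.mul_le_mul_right _ hx
  have h4 : 2 ^ (2 * M) * 2 ^ (4 * M) = 2 ^ (6 * M) := by
    rw [← pow_add]
    congr 1
    ring
  unfold posH
  rw [pow_succ]
  omega

theorem posH_ge (M x y i : ℕ) : 2 ^ (6 * M) ≤ posH M x y i := by
  unfold posH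
  omega

theorem posH_M {M x y i M' x' y' i' : ℕ} (hx : x < 2 ^ (2 * M)) (hy : y < yy M) (hi : i < M)
    (h : posH M x y i = posH M' x' y' i') : ¬ M < M' := by
  intro hlt
  have h1 := posH_lt hx hy hi
  have h2 := posH_ge M' x' y' i'
  have h3 : 2 ^ (6 * M + 1) ≤ 2 ^ (6 * M') := Nat.pow_le_pow_right (by norm_num) (by omega)
  omega

theorem posH_inj {M x y i M' x' y' i' : ℕ} (hx : x < 2 ^ (2 * M)) (hy : y < yy M) (hi : i < M)
    (hx' : x' < 2 ^ (2 * M')) (hy' : y' < yy M') (hi' : i' < M')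
    (h : posH M x y i = posH M' x' y' i') : M = M' ∧ x = x' ∧ y = y' ∧ i = i' := by
  have h1 := posH_M hx hy hi h
  have h2 := posH_M hx' hy' hi' h.symm
  have h3 : M = M' := by omega
  subst h3
  unfold posH at h
  have h4 : x * 2 ^ (4 * M) + (y * 2 ^ M + i) = x' * 2 ^ (4 * M) + (y' * 2 ^ M + i') := by omega
  obtain ⟨h5, h6⟩ := digit (low_lt hy hi) (low_lt hy' hi') h4
  have h7 : M < 2 ^ M := Nat.lt_two_pow_self
  obtain ⟨h8, h9⟩ := digit (hi.trans h7) (hi'.trans h7) h6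
  exact ⟨rfl, h5, h8, h9⟩

end Pool.Agent.RH.WINSYS

namespace Pool.Agent.RH

open Pool.Agent.RO WINSYS

theorem WINSYS_thm (h : Stmt_NUM) : Stmt_WINSYS := by
  intro p hp
  obtain ⟨a, ha⟩ : ∃ a, p.s0 = a + 1 := by
    refine ⟨p.s0 - 1, ?_⟩
    have h1 : p.s0 ≠ 0 := by
      intro h1
      rw [h1] at hp
      simp [tow] at hp
    omega
  have hm : ∀ s, p.m s = tow (p.s0 + s) := fun _ => rfl
  have hmr : ∀ s, p.m s = 2 ^ tow (a + s) := by
    intro s
    rw [hm, ha, show a + 1 + s = (a + s) + 1 by ring]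
    rfl
  have hr : ∀ s, p.r s = tow (a + s) := by
    intro s
    change lgN (p.m s) = _
    rw [hmr, lgN_pow]
  have hbig : ∀ s, 100 ≤ p.m s := by
    intro s
    exact hp.trans (tow_strictMono.monotone (Nat.le_add_right _ _))
  refine ⟨?_, hbig, ?_, ?_, ?_⟩
  · intro b c hbc
    exact tow_strictMono (Nat.add_lt_add_left hbc _)
  · intro b c hbc
    rw [hr, hr]
    exact tow_strictMono (Nat.add_lt_add_left hbc _)
  · intro d
    have h1 := hbig d
    rw [hmr] at h1 ⊢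
    rw [hr]
    generalize tow (a + d) = t at h1 ⊢
    have h2 : 7 ≤ t := by
      by_contra hc
      have h3 : 2 ^ t ≤ 2 ^ 6 := Nat.pow_le_pow_right (by norm_num) (by omega)
      norm_num at h3
      omega
    clear h1
    induction t, h2 using Nat.le_induction with
    | base => norm_num
    | succ n hn ih =>
      rw [pow_succ]
      omega
  · intro d x y i d' x' y' i' hx hy hi hx' hy' hi' hh
    have hxx : x < 2 ^ (2 * p.m d) :=
      hx.trans_le (Nat.pow_le_pow_right (by norm_num) (h (p.m d) (hbig d)).2.1)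
    have hxx' : x' < 2 ^ (2 * p.m d') :=
      hx'.trans_le (Nat.pow_le_pow_right (by norm_num) (h (p.m d') (hbig d')).2.1)
    obtain ⟨h1, h2, h3, h4⟩ := posH_inj hxx hy hi hxx' hy' hi' hh
    have h5 : p.s0 + d = p.s0 + d' := tow_strictMono.injective h1
    exact ⟨by omega, h2, h3, h4⟩

end Pool.Agent.RH
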