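import Pool.Agent.RH.Cst
import Pool.Agent.RO.ITEMS

/-!
# The input of the NP relation is computable in polynomial time

Module XV: `Stmt_XV`.
-/

namespace Pool.Agent.RH

open Pool.Agent.H19
open Pool.Agent.RO

/-- The concatenation of the lists attached to the derivations in the list. -/
noncomputable def cX (C : T) : T := encL (C.toL.flatMap fun E => E.right.toL)

theorem cX_leaf : cX T.leaf = T.leaf := rfl

theorem cX_node (a b : T) : cX (T.node a b) = app a.right (cX b) := by
  simp only [cX, T.toL, List.flatMap_cons, RO.ITEMS.encL_append, encL_toL]

theorem cX_size (C : T) : (cX C).size ≤ C.size := by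
  induction C with
  | leaf => rw [cX_leaf]
  | node a b _ ih =>
    rw [cX_node]
    have h1 := T.size_right_le a
    have h2 := app_size a.right (cX b)
    simp only [T.size] at *; omega

theorem cX_polyTime : PolyTime cX := by
  have i := PolyTime.id
  refine PolyTime₂.binRec₁ (F := cX) (c := T.leaf)
    (comb := fun w => H19.app w.left.left.right w.right.right)
    (i.left.left.right.app i.right.right)
    cX_leaf (fun a b => ?_) (G := fun n => n) PolyB.id
    (fun a b h => by dsimp only; omega) cX_size
  rw [cX_node]; rfl

theorem XV_thm : Stmt_XV := by
  intro G
  have i := PolyTime.id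
  have h1 : PolyNat (fun v : T => bd G v) :=
    ((PolyNat.size i).add (PolyNat.const 2)).pow (G + 4)
  exact h1.unary.node ((i.left.node i.right.left).node (cX_polyTime.comp i.right.right))

end Pool.Agent.RH
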