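import Pool.Agent.RO.ProbAll
import Pool.Agent.RN.All
import Pool.Agent.RH.NUM
import Pool.Agent.RH.HIT
import Pool.Agent.RH.PUSH
import Pool.Agent.RH.RES
import Pool.Agent.RH.BADA
import Pool.Agent.RH.BADB
import Pool.Agent.RH.BAD
import Pool.Agent.RH.FIN
import Pool.Agent.RH.FIBER
import Pool.Agent.RH.MEAS
import Pool.Agent.RH.RISK
import Pool.Agent.RH.WINDOW
import Pool.Agent.RH.PROC
import Pool.Agent.RH.CORE
import Pool.Agent.RH.WINSYS
import Pool.Agent.RH.LOCAL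
import Pool.Agent.RH.ACCFF
import Pool.Agent.RH.FFACC
import Pool.Agent.RH.PEX
import Pool.Agent.RH.XV
import Pool.Agent.RH.FDEC
import Pool.Agent.RH.D0P
import Pool.Agent.RH.ITEMS
import Pool.Agent.RH.PROG
import Pool.Agent.RH.UNI
import Pool.Agent.RH.IOTA
import Pool.Agent.RH.SATNP
import Pool.Agent.RH.SATLOC
import Pool.Agent.RH.DEFO
import Pool.Agent.RH.PADF
import Pool.Agent.RH.SAMEP
import Pool.Agent.RH.NEGS
import Pool.Agent.RH.ERR
import Pool.Agent.RH.GROW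
import Pool.Agent.RH.PRES
import Pool.Agent.RH.MAIN

/-! # Reflection beyond consistency relative to a random oracle, assembled -/

namespace Pool.Agent.RH

theorem fin' : Stmt_FIN := FIN_thm (RES_thm PUSH_thm) (BAD_thm (BADA_thm PUSH_thm HIT_thm) BADB_thm)

theorem core : Stmt_CORE :=
  CORE_thm RO.PROB_thm MEAS_thm
    (PROC_thm RO.PROB_thm MEAS_thm (RISK_thm FIBER_thm NUM_thm)
      (WINDOW_thm fin' FIBER_thm NUM_thm MEAS_thm))
    (RO.APPROX_thm RO.PROB_thm)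

theorem pres : Stmt_PRES :=
  PRES_thm core (WINSYS_thm NUM_thm) LOCAL_thm (ACCFF_thm NUM_thm) (FFACC_thm NUM_thm) XV_thm
    (FDEC_thm PEX_thm) (PROG_thm (D0P_thm PEX_thm) ITEMS_thm) UNI_thm IOTA_thm SATW_thm
    SATLOC_thm UNIVO_thm PADF_thm NEGS_thm (ERR_thm PADF_thm CONSPLUS_thm) GROW_thm RN.FINB_thm
    RN.sub

theorem main : Stmt_MAIN := MAIN_thm pres (SAMEP_thm SIGMAPROV_thm)

end Pool.Agent.RH
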