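import Pool.Agent.RH.Cst2

/-!
# Module CONP2

The reflection sentence is computable in polynomial time from the proof formula.
-/

namespace Pool.Agent.RH

open Pool.Agent.H19 (T PolyTime PolyDec PolyNat PolyN Tm scons bn bl ofBool encL tif envOf vec3 tt)
open Pool.Agent.RO

namespace CONP2

/-- One universal quantifier in polynomial time. -/
theorem all_polyTime {f : T → T} (hf : PolyTime f) :
    PolyTime (fun y => T.node (T.unary 12) (T.node (f y) T.leaf)) :=
  (PolyTime.const _).node (hf.node PolyTime.leaf)

end CONP2

theorem CONP2_thm : Stmt_CONP2 := by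
  intro μ
  refine ⟨fun y => T.node (T.unary 12) (T.node (T.node (T.unary 12) (T.node
    (T.node (T.unary 12) (T.node (T.node (T.unary 12) (T.node
      (T.node (T.unary 11) (T.node y μ.enc)) T.leaf)) T.leaf)) T.leaf)) T.leaf), ?_, ?_⟩
  · exact CONP2.all_polyTime (CONP2.all_polyTime (CONP2.all_polyTime (CONP2.all_polyTime
      ((PolyTime.const _).node (PolyTime.id.node (PolyTime.const _))))))
  · intro α
    simp [rfnAll, Fm.enc]

end Pool.Agent.RH
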