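import Pool.Agent.RH.Cst2
import Pool.Agent.RH.PADF
import Pool.Agent.RH.ERR
import Pool.Agent.RN.ERR

/-!
# ERR2: a padded false instance makes the reflection sentence of the theory with the reflection
sentence as an additional axiom unprovable
-/

namespace Pool.Agent.RH

open Pool.Agent.H19 (T PolyTime PolyDec PolyNat Tm scons bn bl ofBool encL tif vec3 vec4)
open Pool.Agent.RO
open Pool.Agent.RN (Sub Calc Pr Bd clT clF fs ts)

namespace ERR2

/-- The closed instance of a formula with three variables, with a fourth number. -/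
theorem clF_vec4 (hs : Sub) (e x z u : ℕ) (μ : Fm) (hμ : μ.fvBelow 3) :
    clF (vec4 e x z u) 0 μ = inst3 μ e x z := by
  have h3 : clF (vec4 e x z u) 0 μ = clF (scons e (scons x (scons z (scons u fun _ => 0)))) 0 μ :=
    rfl
  rw [h3, ← hs.instF, ← hs.instF, ← hs.instF, hs.ofBelowF _ 3 μ hμ]
  have h4 := ERR.inst3_eq hs e x z μ hμ
  have h5 : clF (vec3 e x z) 0 μ = clF (scons e (scons x (scons z fun _ => 0))) 0 μ := rfl
  rw [h4, h5, ← hs.instF, ← hs.instF, ← hs.instF, hs.ofBelowF _ 3 μ hμ]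

set_option maxRecDepth 40000 in
/-- The numerical estimate. -/
theorem arith {C1 g L X f A s : ℕ} (hf : 1 ≤ f) (hA : A = (L + 2) ^ 2 ^ (C1 * f))
    (hs : s = A + 1000 * (120 * (L + 1) * (f + g) + 60 * (L + 1) + 1))
    (hX : L + 2 ≤ X) (hX2 : 180000 + 120000 * (g + 1) + 6001 ≤ X) :
    (A + 6000) * (s + 1) + 2 ≤ X ^ 2 ^ ((C1 + 3) * (f + 1)) := by
  have hA1 : 1 ≤ A := by
    rw [hA]
    exact Nat.one_le_pow _ _ (by omega)
  have hX1 : 2 ≤ X := by omega
  have hAX : A ≤ X ^ 2 ^ (C1 * f) := by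
    rw [hA]
    exact Nat.pow_le_pow_left hX _
  have hfX : f ≤ X ^ f := (Nat.lt_pow_self hX1).le
  have h1 : A + 6000 ≤ A * X := by nlinarith
  have hLf : (L + 1) ≤ X := by omega
  have hAf : 1 ≤ A * f := Nat.one_le_iff_ne_zero.2 (by positivity)
  have h2 : s + 1 ≤ A * f * X ^ 2 := by
    have h3 : s + 1 ≤ A * f * (X * (180000 + 120000 * (g + 1))) := by
      have e1 : A ≤ A * f := Nat.le_mul_of_pos_right _ hf
      have e2 : f ≤ A * f := Nat.le_mul_of_pos_left _ hA1
      have e3 : f + g ≤ A * f * (g + 1) := by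
        have : g ≤ A * f * g := Nat.le_mul_of_pos_left _ hAf
        calc f + g ≤ A * f + A * f * g := Nat.add_le_add e2 this
          _ = _ := by ring
      have e4 : 120 * (L + 1) * (f + g) ≤ A * f * (X * (120 * (g + 1))) := by
        calc 120 * (L + 1) * (f + g) ≤ 120 * X * (A * f * (g + 1)) :=
              Nat.mul_le_mul (Nat.mul_le_mul_left _ hLf) e3
          _ = _ := by ring
      have e5 : 60 * (L + 1) ≤ A * f * (X * 60) := by
        calc 60 * (L + 1) ≤ 1 * (X * 60) := by omega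
          _ ≤ _ := Nat.mul_le_mul_right _ hAf
      have e6 : A ≤ A * f * (X * 1) := by
        calc A ≤ A * f * 1 := by omega
          _ ≤ _ := Nat.mul_le_mul_left _ (by omega)
      have e7 : 1 ≤ A * f * (X * 1) := hA1.trans e6
      have e8 : A * f * (X * (180000 + 120000 * (g + 1))) =
          A * f * (X * 1) * 120000 + 1000 * (A * f * (X * (120 * (g + 1))) + A * f * (X * 60)) := by
        ring
      rw [hs, e8]
      linarith
    refine h3.trans ?_
    calc A * f * (X * (180000 + 120000 * (g + 1))) ≤ A * f * (X * X) :=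
          Nat.mul_le_mul_left _ (Nat.mul_le_mul_left _ ((Nat.le_add_right _ _).trans hX2))
      _ = _ := by ring
  have h4 : (A + 6000) * (s + 1) + 2 ≤ A ^ 2 * f * X ^ 4 := by
    have h5 : (A + 6000) * (s + 1) ≤ (A * X) * (A * f * X ^ 2) := Nat.mul_le_mul h1 h2
    have h6 : (A * X) * (A * f * X ^ 2) = A ^ 2 * f * X ^ 3 := by ring
    have h7 : 1 ≤ A ^ 2 * f * X ^ 3 := Nat.one_le_iff_ne_zero.2 (by positivity)
    have h8 : A ^ 2 * f * X ^ 4 = (A ^ 2 * f * X ^ 3) * X := by ring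
    rw [h6] at h5
    rw [h8]
    nlinarith
  refine h4.trans ?_
  calc A ^ 2 * f * X ^ 4 ≤ (X ^ 2 ^ (C1 * f)) ^ 2 * X ^ f * X ^ 4 :=
        Nat.mul_le_mul_right _ (Nat.mul_le_mul (Nat.pow_le_pow_left hAX 2) hfX)
    _ = X ^ (2 * 2 ^ (C1 * f) + (f + 4)) := by
        rw [← pow_mul, ← pow_add, ← pow_add]
        congr 1
        ring
    _ ≤ X ^ 2 ^ ((C1 + 3) * (f + 1)) := Nat.pow_le_pow_right (by omega) RN.ERR.pow_bound

/-- The reflection sentence yields its instances. -/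
theorem instances (hs : Sub) (hc : Calc) {Th : Set Fm} {α μ : Fm} (hα : α.fvBelow 4)
    (hμ : μ.fvBelow 3) (hm : rfnAll α μ ∈ Th) {L s e x z u : ℕ} (he : e.size ≤ L)
    (hx : x.size ≤ L) (hz : z.size ≤ L) (hu : u.size ≤ L)
    (hsb : 1000 * (120 * (L + 1) * (fs (rfnAll α μ)) + 60 * (L + 1) + 1) ≤ s) :
    Pr Th (1000 + 1000 + 1000 + 1000 + 1000) s
      (Fm.imp (clF (vec4 e x z u) 0 α) (clF (vec4 e x z u) 0 μ)) := by
  set β : Fm := Fm.imp α μ with hβ
  have hβb : β.fvBelow 4 := ⟨hα, hs.monoF μ 3 4 hμ (by omega)⟩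
  have hclosed : (rfnAll α μ).fvBelow 0 := hβb
  set F : ℕ := fs (rfnAll α μ) with hF
  -- sizes
  have hall : ∀ φ : Fm, fs φ ≤ fs (Fm.all φ) := by
    intro φ
    show φ.enc.size ≤ (T.node (T.unary 12) (T.node φ.enc T.leaf)).size
    simp only [T.size]
    omega
  have f4 : fs (rfnAll α μ) ≤ F := le_rfl
  have f3 : fs (Fm.all (Fm.all (Fm.all β))) ≤ F := (hall _).trans f4
  have f2 : fs (Fm.all (Fm.all β)) ≤ F := (hall _).trans f3
  have f1 : fs (Fm.all β) ≤ F := (hall _).trans f2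
  have f0 : fs β ≤ F := (hall _).trans f1
  have hnum : ∀ a : ℕ, a.size ≤ L → ts (Tm.numeral a) ≤ 60 * (L + 1) := fun a ha =>
    (hs.numSize a).trans (Nat.mul_le_mul_left _ (by omega))
  have hsz : ∀ (v : ℕ → ℕ) (d : ℕ) (φ : Fm), (∀ i, (v i).size ≤ L) → fs φ ≤ F →
      fs (clF v d φ) ≤ 60 * (L + 1) * F := fun v d φ hv hφ =>
    (hs.sizeF v L d φ hv).trans (Nat.mul_le_mul_left _ hφ)
  have h0 : ∀ i : ℕ, ((fun _ => 0 : ℕ → ℕ) i).size ≤ L := fun i => by simp
  have hcons : ∀ (a : ℕ) (v : ℕ → ℕ), a.size ≤ L → (∀ i, (v i).size ≤ L) →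
      ∀ i, (scons a v i).size ≤ L := by
    intro a v ha hv i
    rcases i with _ | i
    · exact ha
    · exact hv i
  have step : ∀ (v : ℕ → ℕ) (a : ℕ) (φ : Fm) (l : ℕ), a.size ≤ L → (∀ i, (v i).size ≤ L) →
      fs φ ≤ F → Pr Th l s (clF v 0 (Fm.all φ)) → Pr Th (l + 1000) s (clF (scons a v) 0 φ) := by
    intro v a φ l ha hv hφ hp
    have e1 := hs.instF v a 0 φ
    rw [← e1]
    refine hc.inst (φ := clF v 1 φ) hp ?_
    rw [e1]
    have e2 := hsz v 1 φ hv hφ
    have e3 := hnum a ha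
    have e4 := hsz (scons a v) 0 φ (hcons a v ha hv) hφ
    have e5 : 120 * (L + 1) * F = 60 * (L + 1) * F + 60 * (L + 1) * F := by ring
    rw [e5] at hsb
    omega
  have p0 : Pr Th 1000 s (rfnAll α μ) := by
    refine hc.hyp hm ?_
    have e1 : F ≤ 120 * (L + 1) * F := Nat.le_mul_of_pos_left _ (by omega)
    omega
  have hcl : clF (fun _ => 0) 0 (rfnAll α μ) = rfnAll α μ := hs.ofBelowF _ 0 _ hclosed
  rw [← hcl] at p0
  have v1 := hcons u _ hu h0
  have v2 := hcons z _ hz v1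
  have v3 := hcons x _ hx v2
  exact step _ e β _ he v3 f0 (step _ x _ _ hx v2 f1 (step _ z _ _ hz v1 f2
    (step _ u _ _ hu h0 f3 p0)))

end ERR2

set_option maxRecDepth 40000 in
theorem ERR2_thm (h1 : PadF) (h2 : Stmt_CONSPLUS) : Stmt_ERR2 := by
  have hs : Sub := RN.SUB_thm
  have hc : Calc := RN.CALC_thm hs
  intro μ hμ
  obtain ⟨C1, hC1⟩ := PADF.pc
  let g : ℕ := fs μ + 200
  let D : ℕ := 24000 * fs μ + 201
  let C : ℕ := C1 + 3 + (180000 + 120000 * (g + 1) + 6001) + D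
  refine ⟨C, ?_⟩
  intro P hPf O c κ cN κN S v e x z L n hacc hfalse haccN hSS hDD hcons hL hv he hx hz hn hprov
  -- the proof in the weird theory
  have hmem : padF v (inst3 μ e x z) ∈ theory O c κ := Or.inr (Or.inr hacc)
  obtain ⟨u, hu⟩ : ∃ u : ℕ, u = (encProof (unpad v (inst3 μ e x z))).num := ⟨_, rfl⟩
  have husize : u.size ≤ D * L := by
    have e1 := H19.T.num_size (encProof (unpad v (inst3 μ e x z)))
    have e2 := h1.size v (inst3 μ e x z)
    have e3 := ERR.inst3_size hs e x z μ hμ.2.1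
    have e4 : 60 * (e.size + x.size + z.size + 1) * fs μ ≤ 240 * L * fs μ :=
      Nat.mul_le_mul_right _ (by omega)
    have e5 : D * L = 24000 * (L * fs μ) + 201 * L := by
      show (24000 * fs μ + 201) * L = _
      ring
    have e6 : 240 * L * fs μ = 240 * (L * fs μ) := by ring
    rw [hu, e1, e5]
    omega
  set α : Fm := P c κ with hα
  have hαb : α.fvBelow 4 := hPf.below c κ
  have hsat : α.sat (stdN O) (vec4 e x z u) :=
    (hPf.correct O c κ e x z _).2 ⟨_, hu, h1.proof _ v _ hmem⟩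
  have hDL : L ≤ D * L := Nat.le_mul_of_pos_left _ (by show 0 < 24000 * fs μ + 201; omega)
  set L1 : ℕ := D * L with hL1
  have hvL : ∀ i, (vec4 e x z u i).size ≤ L1 := by
    intro i
    rcases i with _ | _ | _ | _ | i
    · show e.size ≤ L1
      omega
    · show x.size ≤ L1
      omega
    · show z.size ≤ L1
      omega
    · show u.size ≤ L1
      omega
    · show (0 : ℕ).size ≤ L1
      simp
  have hpc := (hC1 O α (vec4 e x z u) L1 hvL).1 (hPf.delta c κ).1 hsat
  -- the theory with the reflection sentence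
  set Th : Set Fm := theory O cN κN with hTh
  have hsub : S12 ∪ diag O ⊆ Th := by
    rintro φ (h | h)
    · exact Or.inl h
    · exact Or.inr (Or.inl h)
  have hrfn : rfnAll α μ ∈ Th := Or.inr (Or.inr haccN)
  set A : ℕ := Bd C1 (fs α) L1 with hA
  have hf1 : 1 ≤ fs α := T.size_pos _
  set s : ℕ := A + 1000 * (120 * (L1 + 1) * (fs α + g) + 60 * (L1 + 1) + 1) with hsdef
  have hFsz : fs (rfnAll α μ) ≤ fs α + g := by
    show (T.node (T.unary 12) (T.node (T.node (T.unary 12) (T.node (T.node (T.unary 12) (T.node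
      (T.node (T.unary 12) (T.node (T.node (T.unary 11) (T.node α.enc μ.enc)) T.leaf))
      T.leaf)) T.leaf)) T.leaf)).size ≤ α.enc.size + (μ.enc.size + 200)
    simp only [T.size, T.size_unary]
    omega
  have hmulF : 120 * (L1 + 1) * fs (rfnAll α μ) ≤ 120 * (L1 + 1) * (fs α + g) :=
    Nat.mul_le_mul_left _ hFsz
  have p1 := ERR2.instances hs hc hαb hμ.2.1 hrfn (L := L1) (s := s) (e := e) (x := x) (z := z)
    (u := u) (by omega) (by omega) (by omega) (by omega) (by omega)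
  have p2 : Pr Th A s (clF (vec4 e x z u) 0 α) :=
    hc.mono (hc.monoTh hpc hsub) le_rfl (by omega)
  have hα1 : fs (clF (vec4 e x z u) 0 α) ≤ 60 * (L1 + 1) * fs α := hs.sizeF _ L1 0 α hvL
  have hμ1 : fs (clF (vec4 e x z u) 0 μ) ≤ 60 * (L1 + 1) * fs μ := hs.sizeF _ L1 0 μ hvL
  have p3 := hc.mp p1 p2 (by
    have e1 : 60 * (L1 + 1) * fs α ≤ 60 * (L1 + 1) * (fs α + g) :=
      Nat.mul_le_mul_left _ (Nat.le_add_right _ _)
    have e2 : 60 * (L1 + 1) * fs μ ≤ 60 * (L1 + 1) * (fs α + g) :=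
      Nat.mul_le_mul_left _ (by show fs μ ≤ fs α + (fs μ + 200); omega)
    have e3 : 120 * (L1 + 1) * (fs α + g) =
      60 * (L1 + 1) * (fs α + g) + 60 * (L1 + 1) * (fs α + g) := by ring
    omega)
  rw [ERR2.clF_vec4 hs e x z u μ hμ.2.1] at p3
  obtain ⟨π, hπ, hπs⟩ := hc.size p3
  have hXn : (C * L + 2) ^ 2 ^ (C * (fs α + 1)) ≤ n := hn
  have hbig : (A + 6000) * (s + 1) + 2 ≤ n := by
    have hLX : L1 + 2 ≤ C * L + 2 := by
      have h1 : D * L ≤ C * L := Nat.mul_le_mul_right _ (Nat.le_add_left _ _)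
      omega
    have hCX : 180000 + 120000 * (g + 1) + 6001 ≤ C * L + 2 := by
      have h1 : C ≤ C * L := Nat.le_mul_of_pos_right _ hL
      have h2 : 180000 + 120000 * (g + 1) + 6001 ≤ C := by
        show _ ≤ C1 + 3 + (180000 + 120000 * (g + 1) + 6001) + D
        exact (Nat.le_add_left _ _).trans (Nat.le_add_right _ _)
      exact (h2.trans h1).trans (Nat.le_add_right _ _)
    refine (ERR2.arith hf1 rfl rfl hLX hCX).trans (le_trans ?_ hXn)
    refine Nat.pow_le_pow_right (by omega) (Nat.pow_le_pow_right (by norm_num) ?_)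
    refine Nat.mul_le_mul_right _ ?_
    show C1 + 3 ≤ C1 + 3 + (180000 + 120000 * (g + 1) + 6001) + D
    omega
  have hnumπ := H19.T.num_size (encProof π)
  have hπn : (encProof π).num.size ≤ n := by
    have e1 : 1000 + 1000 + 1000 + 1000 + 1000 + A + 1000 = A + 6000 := by ring
    rw [e1] at hπs
    omega
  have hcorrect : (P cN κN).sat (stdN O) (vec4 e x z (encProof π).num) :=
    (hPf.correct O cN κN e x z _).2 ⟨π, rfl, hπ⟩
  have hPb : (P cN κN).bdd = true := (Fm.bdd_of _).1 (hPf.delta cN κN).1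
  have hμb : μ.bdd = true := (Fm.bdd_of _).1 hμ.1
  have hcons' : Consistent (Splus O μ S) := (h2 μ O S hμ.1 hμ.2.1 hSS hDD).2 hcons
  have hLn : L1 ≤ n := by
    have h1 : L1 + 2 ≤ A := by
      show L1 + 2 ≤ (L1 + 2) ^ 2 ^ (C1 * fs α)
      calc L1 + 2 = (L1 + 2) ^ 1 := (pow_one _).symm
        _ ≤ _ := Nat.pow_le_pow_right (by omega) Nat.one_le_two_pow
    have h2 : A ≤ (A + 6000) * (s + 1) := by nlinarith
    omega
  have h3 := rfn_sound (hSS.trans Set.subset_union_left) (hDD.trans Set.subset_union_left)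
    hcons' hPb hμb hprov (e := e) (x := x) (z := z) (u := (encProof π).num)
    (by omega) (by omega) (by omega) hπn hcorrect
  refine hfalse ((Fm.sat_congr_below (stdN O) μ hμ.2.1 (fun i hi => ?_)).1 h3)
  rcases i with _ | _ | _ | i
  · rfl
  · rfl
  · rfl
  · omega

end Pool.Agent.RH
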