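import Pool.Agent.RH.Cst2
import Pool.Agent.RN.GROW

/-!
# GROW2: the numbers `nn J M` are large enough (module RH_GROW2, by helper18)
-/

namespace Pool.Agent.RH

theorem GROW2_thm : Stmt_GROW2 := by
  intro B C D E
  obtain ⟨J0, hJ0⟩ := Pool.Agent.RN.GROW_thm B (C * C + C + E + 1) D
  refine ⟨J0, fun J hJ M hM => ?_⟩
  refine le_trans ?_ (hJ0 J hJ M hM)
  have hM1 : 1 ≤ M := (Pool.Agent.RN.GROW.tow_pos J).trans hM
  set X : ℕ := (B * (J + 1) + 2) ^ D with hX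
  set C' : ℕ := C * C + C + E + 1 with hC'
  have hb : M + 2 ≤ C' * M + 2 := by
    have : 1 * M ≤ C' * M := Nat.mul_le_mul_right _ (by omega)
    omega
  have hpos : 1 ≤ (C' * M + 2) ^ E := Nat.one_le_pow _ _ (by omega)
  have hc : C * C + 2 ≤ C' * M + 2 := by
    have h1 : C * C * 1 ≤ C' * M := Nat.mul_le_mul (by omega) hM1
    omega
  have h1 : C * (C * (M + 2) ^ E) + 2 ≤ (C' * M + 2) ^ (E + 1) := by
    calc C * (C * (M + 2) ^ E) + 2 = C * C * (M + 2) ^ E + 2 := by ring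
      _ ≤ C * C * (C' * M + 2) ^ E + 2 * (C' * M + 2) ^ E := by
          refine add_le_add (Nat.mul_le_mul_left _ (Nat.pow_le_pow_left hb _)) ?_
          omega
      _ = (C * C + 2) * (C' * M + 2) ^ E := by ring
      _ ≤ (C' * M + 2) * (C' * M + 2) ^ E := Nat.mul_le_mul_right _ hc
      _ = (C' * M + 2) ^ (E + 1) := by ring
  have h2 : E + 1 ≤ 2 ^ (E + 1) := (Nat.lt_two_pow_self).le
  calc (C * (C * (M + 2) ^ E) + 2) ^ 2 ^ (C * (X + 1))
      ≤ ((C' * M + 2) ^ (E + 1)) ^ 2 ^ (C * (X + 1)) := Nat.pow_le_pow_left h1 _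
    _ ≤ ((C' * M + 2) ^ 2 ^ (E + 1)) ^ 2 ^ (C * (X + 1)) :=
        Nat.pow_le_pow_left (Nat.pow_le_pow_right (by omega) h2) _
    _ = (C' * M + 2) ^ 2 ^ (E + 1 + C * (X + 1)) := by rw [← pow_mul, ← pow_add]
    _ ≤ (C' * M + 2) ^ 2 ^ (C' * (X + 1)) := by
        refine Nat.pow_le_pow_right (by omega) (Nat.pow_le_pow_right (by norm_num) ?_)
        have h3 : C' * (X + 1) = C * (X + 1) + (C * C + E + 1) * X + (C * C + E + 1) := by
          rw [hC']; ring
        rw [h3]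
        have h4 : 0 ≤ (C * C + E + 1) * X := Nat.zero_le _
        have h5 : 0 ≤ C * C := Nat.zero_le _
        omega

end Pool.Agent.RH
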