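import Pool.Agent.RH.Cst2
import Pool.Agent.RO.MAIN
import Pool.Agent.RO.HYPS
import Pool.Agent.RO.PROGRAM

/-!
# The main theorem, natural version, from the theorem for presented theories
-/

open MeasureTheory

namespace Pool.Agent.RH

open Pool.Agent.H19 (T Tm scons)
open Pool.Agent.RO

namespace MAIN2

/-- The weird presentation is true in the standard model. -/
theorem models_weird {O : Om} {c0 : OCode} {k0 : ℕ} {c1 : OCode} {k1 : ℕ}
    (hM : (stdN O).Models (theory O c0 k0))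
    (h : ∀ φ ∈ theory O c1 k1, φ ∈ S12 ∨ φ ∈ diag O ∨
      (φ.isSigma = true ∧ φ.fvBelow 0 ∧ φ.sat (stdN O) fun _ => 0)) :
    (stdN O).Models (theory O c1 k1) := by
  intro φ hφ v
  rcases h φ hφ with h1 | h1 | ⟨_, h2, h3⟩
  · exact hM φ (Or.inl h1) v
  · exact hM φ (Or.inr (Or.inl h1)) v
  · refine (Fm.sat_congr_below (stdN O) φ h2 (fun i hi => ?_)).2 h3
    omega

/-- The theory with the additional axiom is in the class. -/
theorem inClassT {O : Om} {c0 : OCode} {k0 : ℕ} {c : OCode} {κ : ℕ} {ψ : Fm}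
    (hM : (stdN O).Models (theory O c0 k0))
    (hs : ∀ v, ψ.sat (stdN O) v) (hh : HaltsWithin O c κ)
    (ha : ∀ x : T, Accepts O c κ x ↔ x = ψ.enc ∨ Accepts O c0 k0 x) :
    InClassT O (theory O c κ) := by
  constructor
  · refine ⟨ℕ, stdN O, ?_⟩
    rintro φ (h | h | h) v
    · exact hM φ (Or.inl h) v
    · exact hM φ (Or.inr (Or.inl h)) v
    · rcases (ha φ.enc).1 h with h | h
      · have h2 : φ = ψ := Fm.enc_inj.1 h
        subst h2
        exact hs v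
      · exact hM φ (Or.inr (Or.inr h)) v
  · refine ⟨out c O, ⟨c, κ, fun x => ?_⟩, fun φ => ?_⟩
    · obtain ⟨y, t, h, ht⟩ := hh x
      rw [out_eq h]
      exact ⟨t, h, ht⟩
    · show (φ ∈ S12 ∨ φ ∈ diag O ∨ Accepts O c κ φ.enc) ↔ _
      rw [accepts_iff_out hh]

end MAIN2

theorem MAIN2_thm (h1 : Stmt_PRES2) (h2 : Stmt_TRUE2) : Stmt_MAIN2 := by
  intro μ hμ P hPf A
  have : Countable OCode := CNT_thm
  have hP : ∀ᵐ R ∂coin, ∀ (cS : OCode) (kS : ℕ) (c0 : OCode) (k0 : ℕ),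
      HaltsWithin (join A R) cS kS → HaltsWithin (join A R) c0 k0 →
      Consistent (theory (join A R) cS kS) →
      ∃ (c1 : OCode) (k1 : ℕ) (c : OCode) (κ : ℕ), HaltsWithin (join A R) c1 k1 ∧
        (∀ φ ∈ theory (join A R) c1 k1, φ ∈ S12 ∨ φ ∈ diag (join A R) ∨
          (φ.isSigma = true ∧ φ.fvBelow 0 ∧ φ.sat (stdN (join A R)) fun _ => 0)) ∧
        (∀ O : Om, HaltsWithin O c0 k0 → HaltsWithin O c κ ∧
          ∀ x : T, Accepts O c κ x ↔ x = (rfnAll (P c1 k1) μ).enc ∨ Accepts O c0 k0 x) ∧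
        ∃ k : ℕ, ∀ N : ℕ, ∃ n ≥ N, ∀ π : List Step,
          IsProof (Splus (join A R) μ (theory (join A R) cS kS)) π (rfn (P c κ) μ n) →
            ∀ w : ℕ, w ^ k ≤ n → 2 ^ w < (encProof π).size := by
    rw [ae_all_iff]; intro cS
    rw [ae_all_iff]; intro kS
    rw [ae_all_iff]; intro c0
    rw [ae_all_iff]; intro k0
    exact h1 μ hμ P hPf A cS kS c0 k0
  filter_upwards [hP] with R hR
  intro S hS c0 k0 h0 hM
  obtain ⟨cS, kS, h3, h4⟩ := RO.MAIN.exists_code DET_thm hS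
  obtain ⟨c1, k1, c, κ, h5, h6, h7, h8⟩ := hR cS kS c0 k0 h3 h0 (by rw [h4]; exact hS.1)
  rw [h4] at h8
  have h9 : ∀ v, (rfnAll (P c1 k1) μ).sat (stdN (join A R)) v :=
    (h2 μ hμ P hPf c1 k1).2 (join A R) (MAIN2.models_weird hM h6)
  exact ⟨c1, k1, c, κ, h5, h6, h9, h7, MAIN2.inClassT hM h9 (h7 _ h0).1 (h7 _ h0).2, h8⟩

end Pool.Agent.RH
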