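import Pool.Agent.RH.Cst2
import Pool.Agent.RO.HYPS

/-!
# Reflection beyond consistency, natural version: PRES2, the theorem for presented theories
-/

set_option autoImplicit false

open MeasureTheory

namespace Pool.Agent.RH

open Pool.Agent.H19 (T PolyTime PolyDec PolyNat PolyN Tm scons bn bl ofBool encL tif envOf vec3 tt)
open Pool.Agent.RO

namespace PRES2

theorem tow_lt (s : ℕ) : tow s < tow (s + 1) := Nat.lt_two_pow_self

theorem tow_mono : StrictMono tow := strictMono_nat_of_lt_succ tow_lt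

/-- The truth of `μ` depends only on the first three values. -/
theorem sat_vec3 {μ : Fm} (hμ : μ.fvBelow 3) (O : Om) (v : ℕ → ℕ) :
    μ.sat (stdN O) v ↔ μ.sat (stdN O) (vec3 (v 0) (v 1) (v 2)) := by
  refine Fm.sat_congr_below (stdN O) μ hμ (fun i hi => ?_)
  rcases i with _ | _ | _ | i
  · rfl
  · rfl
  · rfl
  · omega

/-- A derivation with a list of triples is a proof from the theory with the additional axioms. -/
theorem isProof_of_ok {μ : Fm} (hμ : μ.fvBelow 3) {p : Par} (hp : p.μ = μ) {O : Om} {φ : Fm}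
    {E : T} (h : p.OkE O φ E) : IsProof (Splus O μ (p.S O)) (decProof E.left) φ := by
  obtain ⟨h1, h2, h3⟩ := h
  rw [HYPS_thm]
  refine ⟨h1, fun ψ hψ => ?_⟩
  rcases h2 ψ hψ with h | h
  · exact Or.inl h
  · right
    obtain ⟨t, ht, rfl⟩ := List.mem_map.1 h
    refine ⟨envOf t 0, envOf t 1, envOf t 2, ?_, ?_⟩
    · rw [← sat_vec3 hμ O (envOf t)]
      have := h3 t ht
      rwa [hp] at this
    · rw [hp]; rfl

/-- The final comparison of bounds. -/
theorem pow_bound {e C M w : ℕ} (he : 0 < e) (hM : 2 * e * C ≤ M) (hw : w ≤ M / (2 * e)) :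
    C * 2 ^ w ≤ 2 ^ (M / e) := by
  have h1 : C ≤ M / (2 * e) := by
    rw [Nat.le_div_iff_mul_le (by omega)]
    nlinarith
  have h2 : 2 * (M / (2 * e)) ≤ M / e := by
    rw [Nat.le_div_iff_mul_le he]
    have := Nat.div_mul_le_self M (2 * e)
    nlinarith
  calc C * 2 ^ w ≤ 2 ^ C * 2 ^ w := Nat.mul_le_mul_right _ Nat.lt_two_pow_self.le
    _ = 2 ^ (C + w) := (pow_add _ _ _).symm
    _ ≤ 2 ^ (M / e) := Nat.pow_le_pow_right (by norm_num) (by omega)

end PRES2

open PRES2 in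
theorem PRES2_thm (hCore : Stmt_CORE) (hWin : Stmt_WINSYS) (hLoc : Stmt_LOCAL)
    (hAcc : Stmt_ACCFF) (hFF : Stmt_FFACC) (hXV : Stmt_XV) (hFD : Stmt_FDEC) (hPr : Stmt_PROG)
    (hIo : Stmt_IOTA) (hSW : Stmt_SATW) (hSL : Stmt_SATLOC) (hUn : Stmt_UNIVO) (hPad : PadF)
    (hNg : Stmt_NEGS) (hC2 : Stmt_CONP2) (hE2 : Stmt_ERR2) (hG2 : Stmt_GROW2)
    (hNat : RN.Stmt_NAT) (hFB : RN.Stmt_FINB) (hs : RN.Sub) : Stmt_PRES2 := by
  intro μ hμ P hPf A cS kS c0 k0
  obtain ⟨W, G1, hWdec, hWsize, hWsat⟩ := hSW μ hμ.1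
  obtain ⟨G2, hWloc⟩ := hSL μ hμ.1
  set G : ℕ := G1 + G2 with hG
  obtain ⟨hFdec, hFsize⟩ := hFD W hWdec
  obtain ⟨e1, nx, nz, hnx, hnz, hinst⟩ := hUn μ P hμ hPf (FW W) hFdec hFsize
  set ι : T → Fm := fun v => inst3 μ e1 (nx (Xv G v)) (nz (Xv G v)) with hι
  obtain ⟨hιp, Dι, hιs⟩ := hIo μ e1 nx nz hnx hnz (Xv G) (hXV G)
  obtain ⟨fP, hfP, hfPe⟩ := hPf.poly
  obtain ⟨cn, κn, g, hg, hge, hN⟩ := hNat c0 k0
  obtain ⟨hh, hhp, hhe⟩ := hC2 μ
  obtain ⟨C, hErr⟩ := hE2 μ hμ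
  obtain ⟨CN, hNegs⟩ := hNg μ hμ.2.1
  set F : T → T := fun x => fP (g (hh (fP x))) with hFdef
  have hFp : PolyTime F := hfP.comp (hg.comp (hhp.comp hfP))
  have hFe : ∀ (c : OCode) (κ : ℕ), F (T.node c.enc (T.unary κ)) =
      (P (cn (rfnAll (P c κ) μ)) (κn (rfnAll (P c κ) μ))).enc := by
    intro c κ
    simp only [hFdef]
    rw [hfPe, hhe, hge, hfPe]
  obtain ⟨e, he⟩ : ∃ e : ℕ, e = 16 * (kS + 2) + 16 * (G + 2) := ⟨_, rfl⟩
  have hepos : 0 < e := by omega
  obtain ⟨B, c, κ, hsize, hprog⟩ := hPr A cS kS μ W G e F ι hFp hιp hepos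
  obtain ⟨D, hD⟩ := hfP.size_bound
  obtain ⟨X, hX⟩ : ∃ X : ℕ, X = 20 ^ Dι := ⟨_, rfl⟩
  obtain ⟨C', hC'⟩ : ∃ C' : ℕ, C' = C + X + 20 + e1.size := ⟨_, rfl⟩
  obtain ⟨J0, hJ0⟩ := hG2 B C' D (Dι + 1)
  obtain ⟨J1, hJ1⟩ : ∃ J1 : ℕ, J1 = J0 + (100 * e + 3) := ⟨_, rfl⟩
  set q : ℕ → T := fun J => T.node (c J).enc (T.unary (κ J)) with hq
  set p : ℕ → Par := fun j => par A cS kS μ W G e F (J1 + j) with hp
  have hgood : ∀ j, (p j).Good := by
    intro j
    refine ⟨?_, ?_, ?_, ?_, ?_, ?_⟩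
    · show 16 * (kS + 2) ≤ e
      omega
    · show 16 * (G + 2) ≤ e
      omega
    · show 100 * e ≤ tow (J1 + j)
      have h1 : J1 + j ≤ tow (J1 + j) := tow_mono.le_apply
      omega
    · intro O E w hw
      refine (hWsize O E w hw).trans ?_
      exact Nat.pow_le_pow_right (by omega) (by show G1 ≤ G; omega)
    · intro O E hE
      obtain ⟨Q, h1, h2, h3⟩ := hWloc O E hE
      have h4 : (E.size + 2) ^ G2 ≤ (E.size + 2) ^ G :=
        Nat.pow_le_pow_right (by omega) (by omega)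
      exact ⟨Q, h1.trans h4, fun n hn => (h2 n hn).trans h4, h3⟩
    · exact hWsat
  have hbig : 100 ≤ tow J1 := by
    have h1 : J1 ≤ tow J1 := tow_mono.le_apply
    omega
  have hmj : ∀ j d, (p j).m d = tow (J1 + (j + d)) := by
    intro j d
    show tow (J1 + j + d) = tow (J1 + (j + d))
    rw [Nat.add_assoc]
  have em : ∀ j, (p j).m = fun d => tow (J1 + (j + d)) := fun j => funext (hmj j)
  have er : ∀ j, (p j).r = fun d => lgN (tow (J1 + (j + d))) := by
    intro j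
    funext d
    show lgN ((p j).m d) = _
    rw [hmj]
  have eβ : ∀ j, (p j).β = fun d => posH (tow (J1 + (j + d))) := by
    intro j
    funext d x y i
    show posH ((p j).m d) x y i = _
    rw [hmj]
  -- the sentence
  have hsent : ∀ j M, (p j).snt (q (J1 + j)) M =
      rfn (P (cn (rfnAll (P (c (J1 + j)) (κ (J1 + j))) μ))
        (κn (rfnAll (P (c (J1 + j)) (κ (J1 + j))) μ))) μ (RN.nn (J1 + j) M) := by
    intro j M
    show rfn (decFm (F (q (J1 + j)))) μ (RN.nn (J1 + j) M) = _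
    rw [show F (q (J1 + j)) = _ from hFe _ _, decFm_enc]
  -- the size of the proof formula
  have hfs : ∀ J, RN.fs (P (c J) (κ J)) ≤ (B * (J + 1) + 2) ^ D := by
    intro J
    unfold RN.fs
    rw [← hfPe]
    refine (hD _).trans (Nat.pow_le_pow_left (Nat.add_le_add_right (hsize J) 2) D)
  have hgrow : ∀ J, J1 ≤ J → ∀ M, tow J ≤ M →
      (C' * (C' * (M + 2) ^ (Dι + 1)) + 2) ^ 2 ^ (C' * ((B * (J + 1) + 2) ^ D + 1)) ≤
        RN.nn J M := by
    intro J hJ M hM
    exact hJ0 J (by omega) M hM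
  have hC'1 : 1 ≤ C' := by omega
  have hCR := hCore (fun d => tow (J1 + d)) (fun d => lgN (tow (J1 + d)))
    (fun d => posH (tow (J1 + d))) (fun j => (p j).Acc (q (J1 + j)))
    (hWin (par A cS kS μ W G e F J1) hbig) (by
      intro j
      have h1 := hLoc (p j) (hgood j) (q (J1 + j))
      rw [em, eβ] at h1
      exact h1)
  filter_upwards [hCR] with R hR hHS hH0 hcS
  have hprog' := fun J => (hprog J (join A R) hHS).2
  rcases hR with ⟨j, d, hA, hF⟩ | ⟨j, hnoF, hinf⟩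
  · -- an error
    exfalso
    have hF' : R ∈ FF (p j).m (p j).r (p j).β ((p j).Acc (q (J1 + j))) d := by
      rw [em, er, eβ]
      exact hF
    obtain ⟨v, hv, hvs, hvn⟩ := hFF (p j) (hgood j) (q (J1 + j)) R d hF'
    obtain ⟨E, -, hE⟩ := hA
    have hEp := isProof_of_ok hμ.2.1 (μ := μ) rfl hE
    rw [hmj] at hvs
    rw [hmj, hsent] at hEp
    set M : ℕ := tow (J1 + (j + d)) with hM
    have hJM : tow (J1 + j) ≤ M := tow_mono.monotone (by omega)
    have hacc : Accepts (join A R) (c (J1 + j)) (κ (J1 + j)) (padF v (ι v)).enc := by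
      rw [hprog']
      unfold Want
      rw [hPad.un]
      exact ⟨rfl, hv⟩
    have hfalse : ¬ μ.sat (stdN (join A R)) (vec3 e1 (nx (Xv G v)) (nz (Xv G v))) := by
      rw [hinst]
      rintro ⟨y, hy⟩
      exact hvn y hy
    have hN1 := hN (rfnAll (P (c (J1 + j)) (κ (J1 + j))) μ) (join A R) hH0
    have hM1 : 1 ≤ (M + 2) ^ (Dι + 1) := Nat.one_le_pow _ _ (by omega)
    have hM2 : M + 2 ≤ (M + 2) ^ (Dι + 1) := by
      calc M + 2 = (M + 2) ^ 1 := (pow_one _).symm
        _ ≤ _ := Nat.pow_le_pow_right (by omega) (by omega)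
    have hM3 : X * (M + 2) ^ Dι ≤ C' * (M + 2) ^ (Dι + 1) :=
      Nat.mul_le_mul (by omega) (Nat.pow_le_pow_right (by omega) (by omega))
    have hM4 : (v.size + 2) ^ Dι ≤ X * (M + 2) ^ Dι := by
      rw [hX, ← mul_pow]
      exact Nat.pow_le_pow_left (by omega) _
    refine hErr P hPf (join A R) (c (J1 + j)) (κ (J1 + j)) _ _ (theory (join A R) cS kS) v e1
      (nx (Xv G v)) (nz (Xv G v)) (C' * (M + 2) ^ (Dι + 1)) (RN.nn (J1 + j) M) hacc hfalse
      ((hN1.2 _).2 (Or.inl rfl)) (fun φ hφ => Or.inl hφ) (fun φ hφ => Or.inr (Or.inl hφ)) hcS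
      ?_ ?_ ?_ ?_ ?_ ?_ ⟨_, hEp⟩
    · exact Nat.mul_pos hC'1 hM1
    · calc v.size ≤ 20 * M := hvs
        _ ≤ C' * (M + 2) := Nat.mul_le_mul (by omega) (by omega)
        _ ≤ _ := Nat.mul_le_mul_left _ hM2
    · calc e1.size ≤ C' := by omega
        _ = C' * 1 := (mul_one _).symm
        _ ≤ _ := Nat.mul_le_mul_left _ hM1
    · exact ((hιs v).1.trans hM4).trans hM3
    · exact ((hιs v).2.trans hM4).trans hM3
    · refine le_trans ?_ (hgrow (J1 + j) (by omega) M hJM)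
      have h1 : C * (C' * (M + 2) ^ (Dι + 1)) + 2 ≤ C' * (C' * (M + 2) ^ (Dι + 1)) + 2 :=
        Nat.add_le_add_right (Nat.mul_le_mul_right _ (by omega)) _
      have h2 : C * (RN.fs (P (c (J1 + j)) (κ (J1 + j))) + 1) ≤
          C' * ((B * (J1 + j + 1) + 2) ^ D + 1) :=
        Nat.mul_le_mul (by omega) (Nat.add_le_add_right (hfs _) 1)
      calc (C * (C' * (M + 2) ^ (Dι + 1)) + 2) ^
            2 ^ (C * (RN.fs (P (c (J1 + j)) (κ (J1 + j))) + 1)) ≤
          (C' * (C' * (M + 2) ^ (Dι + 1)) + 2) ^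
            2 ^ (C * (RN.fs (P (c (J1 + j)) (κ (J1 + j))) + 1)) := Nat.pow_le_pow_left h1 _
        _ ≤ _ := Nat.pow_le_pow_right (by omega) (Nat.pow_le_pow_right (by norm_num) h2)
  · -- no failure
    obtain ⟨k, D0, hk⟩ := hFB (2 * e) (J1 + j) (by omega) (by omega)
    refine ⟨c (J1 + j), κ (J1 + j), cn (rfnAll (P (c (J1 + j)) (κ (J1 + j))) μ),
      κn (rfnAll (P (c (J1 + j)) (κ (J1 + j))) μ), (hprog _ _ hHS).1, ?_,
      fun O hO => hN _ O hO, k, fun N => ?_⟩
    · rintro φ (h | h | h)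
      · exact Or.inl h
      · exact Or.inr (Or.inl h)
      · right; right
        rw [hprog'] at h
        obtain ⟨h1, h2⟩ := h
        set v : T := unfalsum φ.enc with hv
        have h3 : φ = padF v (ι v) := (Fm.enc_inj.1 h1).symm
        have h4 : ∃ y, FW W (join A R) (Xv G v) y := by
          by_contra hno
          push Not at hno
          obtain ⟨d, hd⟩ := hAcc (p j) (hgood j) (q (J1 + j)) R v h2 hno
          rw [em, er, eβ] at hd
          exact hnoF d hd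
        have h5 : μ.sat (stdN (join A R)) (vec3 e1 (nx (Xv G v)) (nz (Xv G v))) :=
          (hinst _ _).2 h4
        rw [h3]
        refine ⟨?_, ?_, ?_⟩
        · rw [hPad.sigma]
          simp only [hι, inst3, hs.sigma, hμ.1]
        · rw [hPad.below]
          exact hs.instBelowF0 _ 0 _ (hs.instBelowF0 _ 1 _ (hs.instBelowF0 _ 2 _ hμ.2.1))
        · rw [hPad.sat]
          simp only [hι]
          rw [inst3_sat]
          exact h5
    · obtain ⟨d, hd, hdA⟩ := hinf (max N (max D0 (2 * e * CN)))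
      set M : ℕ := tow (J1 + (j + d)) with hM
      have hMd : J1 + (j + d) ≤ M := tow_mono.le_apply
      have hN3 : N ≤ d := (le_max_left _ _).trans hd
      have hD3 : D0 ≤ d := ((le_max_left _ _).trans (le_max_right _ _)).trans hd
      have hC3 : 2 * e * CN ≤ d := ((le_max_right _ _).trans (le_max_right _ _)).trans hd
      refine ⟨RN.nn (J1 + j) M, ?_, fun π hπ w hw => ?_⟩
      · have h1 := hgrow (J1 + j) (by omega) M (tow_mono.monotone (by omega))
        have h2 : M ≤ C' * (C' * (M + 2) ^ (Dι + 1)) + 2 := by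
          have h3 : M + 2 ≤ (M + 2) ^ (Dι + 1) := by
            calc M + 2 = (M + 2) ^ 1 := (pow_one _).symm
              _ ≤ _ := Nat.pow_le_pow_right (by omega) (by omega)
          have h4 : (M + 2) ^ (Dι + 1) ≤ C' * (C' * (M + 2) ^ (Dι + 1)) :=
            (Nat.le_mul_of_pos_left _ hC'1).trans (Nat.le_mul_of_pos_left _ hC'1)
          omega
        have h3 : M ≤ (C' * (C' * (M + 2) ^ (Dι + 1)) + 2) ^
            2 ^ (C' * ((B * (J1 + j + 1) + 2) ^ D + 1)) := by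
          refine h2.trans ?_
          calc C' * (C' * (M + 2) ^ (Dι + 1)) + 2 =
                (C' * (C' * (M + 2) ^ (Dι + 1)) + 2) ^ 1 := (pow_one _).symm
            _ ≤ _ := Nat.pow_le_pow_right (by omega) Nat.one_le_two_pow
        show N ≤ RN.nn (J1 + j) M
        omega
      · by_contra hlt
        rw [not_lt] at hlt
        obtain ⟨E, hEs, hEl, hEh, hEt⟩ := hNegs (join A R) _ π _ hπ
        have h1 : w ≤ M / (2 * e) := by
          have e3 : tow (J1 + j + d) = M := by rw [hM, Nat.add_assoc]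
          have h4 := hk d hD3 w
          rw [e3] at h4
          exact h4 hw
        have h2 : CN * 2 ^ w ≤ 2 ^ (M / e) := pow_bound hepos (by omega) h1
        refine hdA ⟨E, ?_, ?_, ?_, ?_⟩
        · rw [hmj]
          exact (hEs.trans (Nat.mul_le_mul_left _ hlt)).trans h2
        · rw [hEl, hmj, hsent]
          exact ((HYPS_thm _ _ _).1 hπ).1
        · intro ψ hψ
          rw [hEl] at hψ
          exact hEh ψ hψ
        · exact hEt

end Pool.Agent.RH
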