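import Pool.Agent.RH.Cst2

/-!
# Module TRUE2

The uniform reflection sentence of a theory with true axioms is a true sentence.
-/

namespace Pool.Agent.RH

open Pool.Agent.H19 (T PolyTime PolyDec PolyNat PolyN Tm scons bn bl ofBool encL tif envOf vec3 vec4)
open Pool.Agent.RO

namespace TRUE2

theorem monoT (t : Tm) (k k' : ℕ) (h : t.fvBelow k) (hk : k ≤ k') : t.fvBelow k' := by
  induction t with
  | var i => exact lt_of_lt_of_le h hk
  | zero => trivial
  | succ t ih => exact ih h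
  | half t ih => exact ih h
  | len t ih => exact ih h
  | add s t ih1 ih2 => exact ⟨ih1 h.1, ih2 h.2⟩
  | mul s t ih1 ih2 => exact ⟨ih1 h.1, ih2 h.2⟩
  | smash s t ih1 ih2 => exact ⟨ih1 h.1, ih2 h.2⟩

theorem monoF (φ : Fm) : ∀ k k' : ℕ, φ.fvBelow k → k ≤ k' → φ.fvBelow k' := by
  induction φ with
  | bot => intro k k' h hk; trivial
  | eq s t => intro k k' h hk; exact ⟨monoT s k k' h.1 hk, monoT t k k' h.2 hk⟩
  | le s t => intro k k' h hk; exact ⟨monoT s k k' h.1 hk, monoT t k k' h.2 hk⟩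
  | rel t => intro k k' h hk; exact monoT t k k' h hk
  | imp φ ψ ih1 ih2 => intro k k' h hk; exact ⟨ih1 k k' h.1 hk, ih2 k k' h.2 hk⟩
  | all φ ih => intro k k' h hk; exact ih (k + 1) (k' + 1) h (by omega)

end TRUE2

theorem TRUE2_thm : Stmt_TRUE2 := by
  intro μ hμ P hP c κ
  have hB : (P c κ).fvBelow 4 := hP.below c κ
  refine ⟨⟨hB, TRUE2.monoF μ 3 4 hμ.2.1 (by omega)⟩, ?_⟩
  intro O hM v u z x e h
  have h1 : (P c κ).sat (stdN O)
      (scons e (scons x (scons z (scons u fun _ => 0)))) := by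
    refine (Fm.sat_congr_below (stdN O) (P c κ) hB (fun i hi => ?_)).1 h
    rcases i with _ | _ | _ | _ | i
    · rfl
    · rfl
    · rfl
    · rfl
    · omega
  obtain ⟨π, -, hπ⟩ := (hP.correct O c κ e x z u).1 h1
  have h2 := hπ.sound hM (fun _ => 0)
  rw [inst3_sat] at h2
  refine (Fm.sat_congr_below (stdN O) μ hμ.2.1 (fun i hi => ?_)).1 h2
  rcases i with _ | _ | _ | i
  · rfl
  · rfl
  · rfl
  · omega

end Pool.Agent.RH
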