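import Pool.Agent.RH.All
import Pool.Agent.RH.CONP2
import Pool.Agent.RH.ERR2
import Pool.Agent.RH.GROW2
import Pool.Agent.RH.TRUE2
import Pool.Agent.RH.PRES2
import Pool.Agent.RH.MAIN2

/-! # Reflection beyond consistency, natural version, assembled -/

namespace Pool.Agent.RH

theorem pres2 : Stmt_PRES2 :=
  PRES2_thm core (WINSYS_thm NUM_thm) LOCAL_thm (ACCFF_thm NUM_thm) (FFACC_thm NUM_thm) XV_thm
    (FDEC_thm PEX_thm) (PROG_thm (D0P_thm PEX_thm) ITEMS_thm) IOTA_thm SATW_thm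
    SATLOC_thm UNIVO_thm PADF_thm NEGS_thm CONP2_thm (ERR2_thm PADF_thm CONSPLUS_thm) GROW2_thm
    RN.NAT_thm RN.FINB_thm RN.sub

theorem main2 : Stmt_MAIN2 := MAIN2_thm pres2 TRUE2_thm

end Pool.Agent.RH
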