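import Pool.Agent.RO.PROGRAM
import Pool.Agent.RN.Cst
import Pool.Agent.RH.PDefs
import Pool.Agent.RH.StmtsU

/-!
# Reflection beyond consistency relative to a random oracle: the construction

The weird program of index `J` accepts the formulas `padF v (ι v)`, where `v` describes a window
of size `M = v.left.len`, a target `x` of the window and a list of derivations for the windows
below `M`, and `ι v` is a closed instance of the universal formula which says: the target `x` has
a block of ones, or some negative instance of the universal formula used in the derivations is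
false.
-/

namespace Pool.Agent.RH

open Pool.Agent.H19 (T PolyTime PolyDec PolyNat PolyN Tm scons bn bl ofBool encL tif envOf vec3 tt)
open Pool.Agent.RO

/-! ### Negative instances of the universal formula -/

/-- The instance of `μ` for the triple coded by the tree `t`. -/
def instT (μ : Fm) (t : T) : Fm := inst3 μ (envOf t 0) (envOf t 1) (envOf t 2)

/-- The theory `S` with all true sentences of the form `¬ μ₁(e, x, z)` as additional axioms. -/
def Splus (O : Om) (μ : Fm) (S : Set Fm) : Set Fm := S ∪ trueNeg μ O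

/-! ### Positions -/

/-- The position of bit `i` of block `y` of target `x` of the window of size `M`. -/
def posH (M x y i : ℕ) : ℕ := 2 ^ (6 * M) + x * 2 ^ (4 * M) + y * 2 ^ M + i

/-! ### The NP relation -/

/-- `y` shows that the target `x` of the window `M` has a block of ones (`y = node leaf k`, `k`
the number of the block), or that one of the sentences `¬ μ₁(t)`, `t` in the list, is false
(`y.left ≠ leaf`, `y.right` a witness), where `X = node (unary bound) (node (node M x) list)` and
`W` is the witness relation. -/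
def FW (W : Om → T → T → Prop) (O : Om) (X y : T) : Prop :=
  y.size ≤ X.left.len ∧
  ((y.left = T.leaf ∧ bn y.right < yy X.right.left.left.len ∧
      ∀ i < X.right.left.left.len,
        O (2 * posH X.right.left.left.len (bn X.right.left.right) (bn y.right) i + 1) = true) ∨
    (y.left ≠ T.leaf ∧ ∃ t ∈ X.right.right.toL, W O t y.right))

/-- The parameters of the construction: the base oracle `A`, the program of `S`, the universal
formula `μ`, a witness relation `W` for it with exponent `G`, the function `snt` that gives the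
sentence for the window size `M`, and the constants `e`, `s0`. -/
structure Par where
  A : Om
  cS : OCode
  kS : ℕ
  μ : Fm
  W : Om → T → T → Prop
  G : ℕ
  snt : T → ℕ → Fm
  e : ℕ
  s0 : ℕ

namespace Par

variable (p : Par)

/-- The size of window `s`. -/
def m (s : ℕ) : ℕ := tow (p.s0 + s)

/-- The level of window `s`. -/
def r (s : ℕ) : ℕ := lgN (p.m s)

/-- The positions of the bits of window `s`. -/
def β (s x y i : ℕ) : ℕ := posH (p.m s) x y i

/-- The theory `S` relative to `O`. -/
def S (O : Om) : Set Fm := theory O p.cS p.kS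

/-- The sentences `¬ μ₁(t)` for the triples `t` listed in `E`. -/
def negs1 (E : T) : List Fm := E.right.toL.map fun t => Fm.neg (instT p.μ t)

/-- `E = node π L` is a derivation of `φ` from axioms of `S` and true sentences `¬ μ₁(t)` with
`t` in the list `L`. -/
def OkE (O : Om) (φ : Fm) (E : T) : Prop :=
  IsProof Set.univ (decProof E.left) φ ∧
    (∀ ψ ∈ hyps (decProof E.left), ψ ∈ p.S O ∨ ψ ∈ p.negs1 E) ∧
    ∀ t ∈ E.right.toL, ¬ p.μ.sat (stdN O) (envOf t)

/-- `E` is a short derivation of the sentence for window size `M` (from any axioms), and `M` is at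
least the size of the first window. -/
def Ok (q : T) (M : ℕ) (E : T) : Prop :=
  p.m 0 ≤ M ∧ E.size ≤ 2 ^ (M / p.e) ∧ IsProof Set.univ (decProof E.left) (p.snt q M)

/-- The list `C` of derivations belongs to the consecutive windows below window size `M`. -/
def Chain (q : T) : T → ℕ → Prop
  | T.leaf, _ => True
  | T.node E C, M => M = 2 ^ lgN M ∧ p.Ok q (lgN M) E ∧ Chain q C (lgN M)

/-- The purely syntactical part of the description `v = node (unary M) (node x C)`. -/
def D0 (v q : T) : Prop :=
  (∃ s, v.left.len = tow s) ∧ p.m 0 ≤ v.left.len ∧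
    v.right.left.len ≤ pex v.left.len - lgN^[v.right.right.len + 1] v.left.len ∧
    p.Chain q v.right.right v.left.len

/-- The axioms used in the derivations of the description `v` that are to be checked. -/
noncomputable def items (v : T) : List T :=
  v.right.right.toL.flatMap fun E =>
    ((hyps (decProof E.left)).filter fun ψ => ψ ∉ p.negs1 E).map Fm.enc

/-- The description `v` is accepted relative to `O`, by the presentation coded by `q`. -/
def AccV (q : T) (O : Om) (v : T) : Prop :=
  p.D0 v q ∧ ∀ a ∈ p.items v, decFm a ∈ p.S O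

/-- Window `d` is accepted: there is a short derivation of its sentence from axioms of `S` and
true sentences `¬ μ₁(t)`. -/
def Acc (q : T) (d : ℕ) : Set Om :=
  {R | ∃ E : T, E.size ≤ 2 ^ (p.m d / p.e) ∧ p.OkE (join p.A R) (p.snt q (p.m d)) E}

/-- The constants are large enough and `W` is a witness relation for `μ`. -/
structure Good (p : Par) : Prop where
  e_S : 16 * (p.kS + 2) ≤ p.e
  e_G : 16 * (p.G + 2) ≤ p.e
  s0_big : 100 * p.e ≤ tow p.s0
  wsize : ∀ O E w, p.W O E w → w.size ≤ (E.size + 2) ^ p.G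
  wloc : ∀ (O : Om) (E : T), p.μ.sat (stdN O) (envOf E) → ∃ Q : Finset ℕ,
    Q.card ≤ (E.size + 2) ^ p.G ∧ (∀ n ∈ Q, n.size ≤ (E.size + 2) ^ p.G) ∧
    ∀ O' : Om, (∀ n ∈ Q, O' n = O n) → p.μ.sat (stdN O') (envOf E)
  wsat : ∀ O E, p.μ.sat (stdN O) (envOf E) ↔ ∃ w, p.W O E w

end Par

/-- The bound for the witnesses attached to the description `v`. -/
def bd (G : ℕ) (v : T) : ℕ := (v.size + 2) ^ (G + 4)

/-- The input of the NP relation attached to the description `v`. -/
def Xv (G : ℕ) (v : T) : T :=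
  T.node (T.unary (bd G v)) (T.node (T.node v.left v.right.left)
    (encL (v.right.right.toL.flatMap fun E => E.right.toL)))

/-! ### Combinatorial modules -/

/-- WINSYS: the windows form a system of windows. -/
def Stmt_WINSYS : Prop := ∀ p : Par, 100 ≤ tow p.s0 → WinSys p.m p.r p.β

/-- LOCAL: the structure of the acceptance events. -/
def Stmt_LOCAL : Prop := ∀ p : Par, p.Good → ∀ q : T, Loc2 p.m p.β (p.Acc q)

/-- ACCFF: an accepted description with a false instance shows a failure. -/
def Stmt_ACCFF : Prop := ∀ p : Par, p.Good → ∀ (q : T) (R : Om) (v : T),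
  p.AccV q (join p.A R) v → (∀ y, ¬ FW p.W (join p.A R) (Xv p.G v) y) →
    ∃ d, R ∈ FF p.m p.r p.β (p.Acc q) d

/-- FFACC: a failure gives a short accepted description with a false instance. -/
def Stmt_FFACC : Prop := ∀ p : Par, p.Good → ∀ (q : T) (R : Om) (d : ℕ),
  R ∈ FF p.m p.r p.β (p.Acc q) d →
    ∃ v : T, p.AccV q (join p.A R) v ∧ v.size ≤ 20 * p.m d ∧
      ∀ y, ¬ FW p.W (join p.A R) (Xv p.G v) y

/-! ### Polynomial time -/

/-- PEX: the numbers `pex M` and `yy M` are computable in polynomial time from `M` in unary. -/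
def Stmt_PEX : Prop := ∀ f : T → ℕ, PolyNat f →
  PolyNat (fun x => pex (f x)) ∧ PolyN (fun x => yy (f x))

/-- XV: the input of the NP relation is computable in polynomial time. -/
def Stmt_XV : Prop := ∀ G : ℕ, PolyTime (Xv G)

/-- FDEC: the NP relation is decidable in polynomial time. -/
def Stmt_FDEC : Prop := ∀ W : Om → T → T → Prop,
  DecOn Set.univ (fun O z => W O z.left z.right) →
    DecOn Set.univ (fun O z => FW W O z.left z.right) ∧
    ∀ O X y, FW W O X y → y.size ≤ X.size

/-- The parameters of index `J`. -/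
def par (A : Om) (cS : OCode) (kS : ℕ) (μ : Fm) (W : Om → T → T → Prop) (G e : ℕ) (F : T → T)
    (J : ℕ) : Par :=
  ⟨A, cS, kS, μ, W, G, RN.sent F μ J, e, J⟩

/-- D0P: the syntactical part is decidable in polynomial time, uniformly in the index (given in
unary). The input is `node v (node q J)`. -/
def Stmt_D0P : Prop := ∀ (A : Om) (cS : OCode) (kS : ℕ) (μ : Fm) (W : Om → T → T → Prop)
  (G e : ℕ) (F : T → T), PolyTime F → 0 < e →
  PolyDec (fun z => (par A cS kS μ W G e F z.right.right.len).D0 z.left z.right.left)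

/-- ITEMS: the list of items is computable in polynomial time. -/
def Stmt_ITEMS : Prop := ∀ p : Par, PolyTime (fun v => encL (p.items v))

/-- What the weird program accepts. -/
def Want (p : Par) (ι : T → Fm) (q : T) (O : Om) (x : T) : Prop :=
  (padF (unfalsum x) (ι (unfalsum x))).enc = x ∧ p.AccV q O (unfalsum x)

/-- PROG: the weird programs. -/
def Stmt_PROG : Prop := ∀ (A : Om) (cS : OCode) (kS : ℕ) (μ : Fm) (W : Om → T → T → Prop)
  (G e : ℕ) (F : T → T) (ι : T → Fm), PolyTime F → PolyTime (fun v => (ι v).enc) → 0 < e →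
  ∃ (B : ℕ) (c : ℕ → OCode) (κ : ℕ → ℕ),
    (∀ J, (T.node (c J).enc (T.unary (κ J))).size ≤ B * (J + 1)) ∧
    ∀ (J : ℕ) (O : Om), HaltsWithin O cS kS → HaltsWithin O (c J) (κ J) ∧
      ∀ x : T, Accepts O (c J) (κ J) x ↔
        Want (par A cS kS μ W G e F J) ι (T.node (c J).enc (T.unary (κ J))) O x

/-- UNI: the union of two presentations. -/
def Stmt_UNI : Prop := ∀ (c0 : OCode) (k0 : ℕ), ∃ (c : OCode → ℕ → OCode) (κ : OCode → ℕ → ℕ)
  (g : T → T), PolyTime g ∧
  (∀ c1 k1, g (T.node c1.enc (T.unary k1)) = T.node (c c1 k1).enc (T.unary (κ c1 k1))) ∧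
  ∀ (c1 : OCode) (k1 : ℕ) (O : Om), HaltsWithin O c0 k0 → HaltsWithin O c1 k1 →
    HaltsWithin O (c c1 k1) (κ c1 k1) ∧
    ∀ x : T, Accepts O (c c1 k1) (κ c1 k1) x ↔ Accepts O c0 k0 x ∨ Accepts O c1 k1 x

/-! ### Logic -/

/-- IOTA: the instances are computable in polynomial time and of polynomial size. -/
def Stmt_IOTA : Prop := ∀ (μ : Fm) (e : ℕ) (nx nz : T → ℕ), PolyN nx → PolyN nz →
  ∀ h : T → T, PolyTime h →
    PolyTime (fun v => (inst3 μ e (nx (h v)) (nz (h v))).enc) ∧
    ∃ D : ℕ, ∀ v, (nx (h v)).size ≤ (v.size + 2) ^ D ∧ (nz (h v)).size ≤ (v.size + 2) ^ D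

/-- SAMEP: additional true closed `Σ^b_1(O)` formulas do not change the theorems. -/
def Stmt_SAMEP : Prop := ∀ (O : Om) (T0 U : Set Fm), S12 ⊆ T0 → diag O ⊆ T0 → T0 ⊆ U →
  (∀ φ ∈ U, φ ∈ T0 ∨ (φ.isSigma = true ∧ φ.fvBelow 0 ∧ φ.sat (stdN O) fun _ => 0)) →
  (∀ φ, Provable U φ ↔ Provable T0 φ) ∧ (Consistent T0 → Consistent U)

/-- NEGS: from a proof with additional axioms `¬ μ₁(e, x, z)` to a derivation with a list of
triples. -/
def Stmt_NEGS : Prop := ∀ μ : Fm, μ.fvBelow 3 → ∃ C : ℕ, ∀ (O : Om) (S : Set Fm)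
  (π : List Step) (φ : Fm), IsProof (Splus O μ S) π φ → ∃ E : T,
    E.size ≤ C * (encProof π).size ∧ decProof E.left = π ∧
    (∀ ψ ∈ hyps π, ψ ∈ S ∨ ψ ∈ E.right.toL.map fun t => Fm.neg (instT μ t)) ∧
    ∀ t ∈ E.right.toL, ¬ μ.sat (stdN O) (envOf t)

/-- ERR: if the presentation has a false instance of `μ` as a padded axiom then a consistent `S`
does not prove the reflection sentence, not even with the additional axioms. -/
def Stmt_ERR : Prop := ∀ (μ : Fm), IsUniversal μ → ∃ C : ℕ,
  ∀ (P : OCode → ℕ → Fm), IsFormalisation μ P → ∀ (O : Om) (c : OCode) (κ : ℕ) (S : Set Fm)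
    (v : T) (e x z n : ℕ), Accepts O c κ (padF v (inst3 μ e x z)).enc →
    ¬ μ.sat (stdN O) (vec3 e x z) → S12 ⊆ S → diag O ⊆ S → Consistent S →
    C * (v.size + e.size + x.size + z.size + 1) ≤ n →
    ¬ Provable (Splus O μ S) (rfn (P c κ) μ n)

/-- GROW: the numbers `nn J M` exceed any given polynomial. -/
def Stmt_GROW : Prop := ∀ C D : ℕ, ∃ J0 : ℕ, ∀ J ≥ J0, ∀ M ≥ tow J,
  C * (M + 2) ^ D ≤ RN.nn J M

/-- The theorem for presented theories. -/
def Stmt_PRES : Prop := ∀ (μ : Fm), IsUniversal μ → ∀ (P : OCode → ℕ → Fm),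
  IsFormalisation μ P → ∀ (A : Om) (cS : OCode) (kS : ℕ) (c0 : OCode) (k0 : ℕ),
  ∀ᵐ R ∂coin, HaltsWithin (join A R) cS kS → HaltsWithin (join A R) c0 k0 →
    Consistent (theory (join A R) cS kS) →
    ∃ (c : OCode) (κ : ℕ), HaltsWithin (join A R) c κ ∧
      theory (join A R) c0 k0 ⊆ theory (join A R) c κ ∧
      (∀ φ ∈ theory (join A R) c κ, φ ∈ theory (join A R) c0 k0 ∨
        (φ.isSigma = true ∧ φ.fvBelow 0 ∧ φ.sat (stdN (join A R)) fun _ => 0)) ∧
      ∃ k : ℕ, ∀ N : ℕ, ∃ n ≥ N, ∀ π : List Step,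
        IsProof (Splus (join A R) μ (theory (join A R) cS kS)) π (rfn (P c κ) μ n) →
          ∀ w : ℕ, w ^ k ≤ n → 2 ^ w < (encProof π).size

/-- The main theorem. -/
def Stmt_MAIN : Prop := ∀ (μ : Fm), IsUniversal μ → ∀ (P : OCode → ℕ → Fm),
  IsFormalisation μ P → ∀ (A : Om), ∀ᵐ R ∂coin,
    ∀ S T₀ : Set Fm, InClassT (join A R) S → InClassT (join A R) T₀ →
      ∃ (c : OCode) (κ : ℕ), HaltsWithin (join A R) c κ ∧
        InClassT (join A R) (theory (join A R) c κ) ∧
        T₀ ⊆ theory (join A R) c κ ∧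
        (∀ φ ∈ theory (join A R) c κ, φ ∈ T₀ ∨
          (φ.isSigma = true ∧ φ.fvBelow 0 ∧ φ.sat (stdN (join A R)) fun _ => 0)) ∧
        (∀ φ, Provable (theory (join A R) c κ) φ ↔ Provable T₀ φ) ∧
        ∃ k : ℕ, ∀ N : ℕ, ∃ n ≥ N, ∀ π : List Step,
          IsProof (Splus (join A R) μ S) π (rfn (P c κ) μ n) →
            ∀ w : ℕ, w ^ k ≤ n → 2 ^ w < (encProof π).size

end Pool.Agent.RH
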