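import Pool.Agent.RH.Cst

/-!
# Reflection beyond consistency, natural version: definitions and statements of the modules

The theory `T` is `T₀` with one more axiom: the uniform `Σ^b_1(O)` reflection sentence for a
presentation of `S^1_2(O)`, the diagram of `O` and some true closed `Σ^b_1(O)` formulas.
-/

namespace Pool.Agent.RH

open Pool.Agent.H19 (T PolyTime PolyDec PolyNat PolyN Tm scons bn bl ofBool encL tif envOf vec3 tt)
open Pool.Agent.RO

/-- The uniform `Σ^b_1(O)` reflection sentence for the proof formula `P` and the universal formula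
`μ`: for all `u, z, x, e`, if `P(e, x, z, u)` then `μ₁(e, x, z)`. -/
def rfnAll (P μ : Fm) : Fm := Fm.all (Fm.all (Fm.all (Fm.all (Fm.imp P μ))))

/-- CONP2: the reflection sentence is computable in polynomial time from the proof formula. -/
def Stmt_CONP2 : Prop := ∀ μ : Fm, ∃ h : T → T, PolyTime h ∧
  ∀ α : Fm, h α.enc = (rfnAll α μ).enc

/-- TRUE2: if all axioms of the presentation are true then the reflection sentence is a true
sentence. -/
def Stmt_TRUE2 : Prop := ∀ (μ : Fm), IsUniversal μ → ∀ (P : OCode → ℕ → Fm),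
  IsFormalisation μ P → ∀ (c : OCode) (κ : ℕ), (rfnAll (P c κ) μ).fvBelow 0 ∧
  ∀ O : Om, (stdN O).Models (theory O c κ) → ∀ v, (rfnAll (P c κ) μ).sat (stdN O) v

/-- ERR2: if the presentation `(c, κ)` has a false instance of `μ` as a padded axiom and
`(cN, κN)` has the reflection sentence of `(c, κ)` as an axiom then a consistent `S` does not
prove the finite reflection sentence of `(cN, κN)`, not even with the additional axioms. -/
def Stmt_ERR2 : Prop := ∀ (μ : Fm), IsUniversal μ → ∃ C : ℕ,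
  ∀ (P : OCode → ℕ → Fm), IsFormalisation μ P → ∀ (O : Om) (c : OCode) (κ : ℕ)
    (cN : OCode) (κN : ℕ) (S : Set Fm) (v : T) (e x z L n : ℕ),
    Accepts O c κ (padF v (inst3 μ e x z)).enc → ¬ μ.sat (stdN O) (vec3 e x z) →
    Accepts O cN κN (rfnAll (P c κ) μ).enc → S12 ⊆ S → diag O ⊆ S → Consistent S →
    1 ≤ L → v.size ≤ L → e.size ≤ L → x.size ≤ L → z.size ≤ L →
    (C * L + 2) ^ 2 ^ (C * (RN.fs (P c κ) + 1)) ≤ n →
    ¬ Provable (Splus O μ S) (rfn (P cN κN) μ n)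

/-- GROW2: the numbers `nn J M` are large enough. -/
def Stmt_GROW2 : Prop := ∀ B C D E : ℕ, ∃ J0 : ℕ, ∀ J ≥ J0, ∀ M ≥ tow J,
  (C * (C * (M + 2) ^ E) + 2) ^ 2 ^ (C * ((B * (J + 1) + 2) ^ D + 1)) ≤ RN.nn J M

/-- The theorem for presented theories. -/
def Stmt_PRES2 : Prop := ∀ (μ : Fm), IsUniversal μ → ∀ (P : OCode → ℕ → Fm),
  IsFormalisation μ P → ∀ (A : Om) (cS : OCode) (kS : ℕ) (c0 : OCode) (k0 : ℕ),
  ∀ᵐ R ∂coin, HaltsWithin (join A R) cS kS → HaltsWithin (join A R) c0 k0 →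
    Consistent (theory (join A R) cS kS) →
    ∃ (c1 : OCode) (k1 : ℕ) (c : OCode) (κ : ℕ), HaltsWithin (join A R) c1 k1 ∧
      (∀ φ ∈ theory (join A R) c1 k1, φ ∈ S12 ∨ φ ∈ diag (join A R) ∨
        (φ.isSigma = true ∧ φ.fvBelow 0 ∧ φ.sat (stdN (join A R)) fun _ => 0)) ∧
      (∀ O : Om, HaltsWithin O c0 k0 → HaltsWithin O c κ ∧
        ∀ x : T, Accepts O c κ x ↔ x = (rfnAll (P c1 k1) μ).enc ∨ Accepts O c0 k0 x) ∧
      ∃ k : ℕ, ∀ N : ℕ, ∃ n ≥ N, ∀ π : List Step,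
        IsProof (Splus (join A R) μ (theory (join A R) cS kS)) π (rfn (P c κ) μ n) →
          ∀ w : ℕ, w ^ k ≤ n → 2 ^ w < (encProof π).size

/-- The main theorem, natural version. -/
def Stmt_MAIN2 : Prop := ∀ (μ : Fm), IsUniversal μ → ∀ (P : OCode → ℕ → Fm),
  IsFormalisation μ P → ∀ (A : Om), ∀ᵐ R ∂coin,
    ∀ S : Set Fm, InClassT (join A R) S → ∀ (c0 : OCode) (k0 : ℕ),
      HaltsWithin (join A R) c0 k0 →
      (stdN (join A R)).Models (theory (join A R) c0 k0) →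
      ∃ (c1 : OCode) (k1 : ℕ) (c : OCode) (κ : ℕ), HaltsWithin (join A R) c1 k1 ∧
        (∀ φ ∈ theory (join A R) c1 k1, φ ∈ S12 ∨ φ ∈ diag (join A R) ∨
          (φ.isSigma = true ∧ φ.fvBelow 0 ∧ φ.sat (stdN (join A R)) fun _ => 0)) ∧
        (∀ v, (rfnAll (P c1 k1) μ).sat (stdN (join A R)) v) ∧
        (∀ O : Om, HaltsWithin O c0 k0 → HaltsWithin O c κ ∧
          ∀ x : T, Accepts O c κ x ↔ x = (rfnAll (P c1 k1) μ).enc ∨ Accepts O c0 k0 x) ∧
        InClassT (join A R) (theory (join A R) c κ) ∧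
        ∃ k : ℕ, ∀ N : ℕ, ∃ n ≥ N, ∀ π : List Step,
          IsProof (Splus (join A R) μ S) π (rfn (P c κ) μ n) →
            ∀ w : ℕ, w ^ k ≤ n → 2 ^ w < (encProof π).size

end Pool.Agent.RH
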