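import Pool.Agent.RH.Cst
import Pool.Agent.RN.GROW

/-!
# GROW: the numbers `nn J M` exceed any given polynomial
-/

set_option autoImplicit false

namespace Pool.Agent.RH

open Pool.Agent.RO

theorem GROW_thm : Stmt_GROW := by
  intro C D
  obtain ⟨J0, hJ0⟩ := RN.GROW_thm 0 (C + D + 2) 0
  refine ⟨J0, fun J hJ M hM => ?_⟩
  refine le_trans ?_ (hJ0 J hJ M hM)
  have h1 : (1 : ℕ) ≤ (C + D + 2) * M + 2 := by omega
  have hbase : M + 2 ≤ (C + D + 2) * M + 2 := by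
    have : (C + D + 2) * M = M + (C + D + 1) * M := by ring
    omega
  have h2 : (2 : ℕ) ≤ (C + D + 2) * M + 2 := by omega
  have hexp : C + D ≤ 2 ^ ((C + D + 2) * ((0 * (J + 1) + 2) ^ 0 + 1)) := by
    have h3 : C + D < 2 ^ (C + D) := Nat.lt_two_pow_self
    refine h3.le.trans (Nat.pow_le_pow_right (by norm_num) ?_)
    rw [pow_zero]
    omega
  calc C * (M + 2) ^ D ≤ 2 ^ C * (M + 2) ^ D :=
        Nat.mul_le_mul_right _ (Nat.lt_two_pow_self).le
    _ ≤ ((C + D + 2) * M + 2) ^ C * ((C + D + 2) * M + 2) ^ D :=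
        Nat.mul_le_mul (Nat.pow_le_pow_left h2 _) (Nat.pow_le_pow_left hbase _)
    _ = ((C + D + 2) * M + 2) ^ (C + D) := by rw [pow_add]
    _ ≤ ((C + D + 2) * M + 2) ^ 2 ^ ((C + D + 2) * ((0 * (J + 1) + 2) ^ 0 + 1)) :=
        Nat.pow_le_pow_right h1 hexp

end Pool.Agent.RH
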